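import Pool.Agent.H85.KW.Defs
import Pool.Agent.H85.KM.UUnif

/-! # Module Decay: exponential decay -/

open MeasureTheory Metric Set Filter
open scoped ENNReal Topology ContDiff ComplexOrder

namespace HMA

variable {n : ℕ} {X : Type} [TopologicalSpace X] (K : KM n X)

variable [CompactSpace X] [ConnectedSpace X] [MeasurableSpace X] [BorelSpace X]

theorem KM.exp_decay (hn : 1 ≤ n) {μ : Measure X} [IsProbabilityMeasure μ]
    (hμ : KModerate K μ) : ∃ ε : ℝ, 0 < ε ∧ ∀ A : ℝ, 0 < A → ∃ C : ℝ, 0 < C ∧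
      ∀ F : X → ℝ, KPsh K F → (∀ x, F x ≤ 1) → (∃ x, A ≤ F x) → ∀ t : ℝ,
        μ.real {x | F x ≤ Real.exp (-t)} ≤ C * Real.exp (-ε * t) := by
  obtain ⟨ε, hε, -, hU⟩ := K.unif hn hμ
  refine ⟨ε, hε, fun A hA => ?_⟩
  obtain ⟨C, hC, h⟩ := hU A hA
  refine ⟨C, hC, fun F hF h1 hA' t => ?_⟩
  have hm : Measurable fun x => (ENNReal.ofReal (F x)) ^ (-ε) :=
    (KPsh.usc K hF).measurable.ennreal_ofReal.pow_const _
  have hmk := mul_meas_ge_le_lintegral (μ := μ) hm (ENNReal.ofReal (Real.exp (ε * t)))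
  have hsub : {x | F x ≤ Real.exp (-t)} ⊆
      {x | ENNReal.ofReal (Real.exp (ε * t)) ≤ (ENNReal.ofReal (F x)) ^ (-ε)} := by
    intro x hx
    have e1 : ENNReal.ofReal (Real.exp (ε * t)) = (ENNReal.ofReal (Real.exp (-t))) ^ (-ε) := by
      rw [ENNReal.ofReal_rpow_of_pos (Real.exp_pos _), ← Real.exp_mul]
      congr 2
      ring
    rw [mem_setOf_eq] at hx ⊢
    rw [e1, ENNReal.rpow_neg, ENNReal.rpow_neg, ENNReal.inv_le_inv]
    exact ENNReal.rpow_le_rpow (ENNReal.ofReal_le_ofReal hx) hε.le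
  have h2 : ENNReal.ofReal (Real.exp (ε * t)) * μ {x | F x ≤ Real.exp (-t)} ≤ ENNReal.ofReal C :=
    (mul_le_mul_right (measure_mono hsub) _).trans (hmk.trans (h F hF h1 hA'))
  have h3 := ENNReal.toReal_mono ENNReal.ofReal_ne_top h2
  rw [ENNReal.toReal_mul, ENNReal.toReal_ofReal (Real.exp_pos _).le,
    ENNReal.toReal_ofReal hC.le] at h3
  have h4 : Real.exp (ε * t) * Real.exp (-ε * t) = 1 := by
    rw [← Real.exp_add, neg_mul, add_neg_cancel, Real.exp_zero]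
  have h5 := mul_le_mul_of_nonneg_right h3 (Real.exp_pos (-ε * t)).le
  calc μ.real {x | F x ≤ Real.exp (-t)}
      = (Real.exp (ε * t) * Real.exp (-ε * t)) * (μ {x | F x ≤ Real.exp (-t)}).toReal := by
        rw [h4, one_mul]; rfl
    _ = Real.exp (ε * t) * (μ {x | F x ≤ Real.exp (-t)}).toReal * Real.exp (-ε * t) := by ring
    _ ≤ C * Real.exp (-ε * t) := h5

end HMA
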