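import Pool.Agent.H85.KW.Defs
import Pool.Agent.H85.KM.XTop

/-! # Module Exh: exhaustion of open sets by compact sets -/

open MeasureTheory Metric Set Filter
open scoped ENNReal Topology ContDiff ComplexOrder

namespace HMA

variable {n : ℕ} {X : Type} [TopologicalSpace X] (K : KM n X)

include K in
theorem KM.exhaust [T2Space X] {U : Set X} (hU : IsOpen U) : ∃ Q : ℕ → Set X,
    (∀ m, IsCompact (Q m)) ∧ Monotone Q ∧ ⋃ m, Q m = U := by
  have hO : ∀ i, IsOpen (ball (0 : Cn n) 3 ∩ K.κ i ⁻¹' U) := fun i =>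
    (K.cont i).isOpen_inter_preimage isOpen_ball hU
  choose F hF1 hF2 hF3 hF4 using fun i => (hO i).exists_iUnion_isClosed
  refine ⟨fun m => ⋃ i, K.κ i '' (closedBall 0 1 ∩ F i m), fun m => ?_, ?_, ?_⟩
  · refine isCompact_iUnion fun i => K.compact_image i ?_ ?_
    · exact (isCompact_closedBall _ _).inter_right (hF1 i m)
    · exact fun z hz => (hF2 i m hz.2).1
  · intro m m' hm
    refine iUnion_mono fun i => image_mono ?_
    exact inter_subset_inter_right _ (hF4 i hm)
  · ext x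
    constructor
    · intro hx
      obtain ⟨m, hm⟩ := mem_iUnion.1 hx
      obtain ⟨i, z, hz, rfl⟩ := mem_iUnion.1 hm
      exact (hF2 i m hz.2).2
    · intro hx
      obtain ⟨i, z, hz, rfl⟩ := K.cover x
      have h1 : z ∈ ⋃ m, F i m := by
        rw [hF3 i]
        exact ⟨ball_subset_ball (by norm_num) hz, hx⟩
      obtain ⟨m, hm⟩ := mem_iUnion.1 h1
      exact mem_iUnion.2 ⟨m, mem_iUnion.2 ⟨i, z, ⟨ball_subset_closedBall hz, hm⟩, rfl⟩⟩

end HMA
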