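import Pool.Agent.H85.KW.SubCC
import Pool.Agent.H85.KM.XC11
import Pool.Agent.H85.KM.XKp
import Pool.Agent.H85.KM.XRel

/-! # Module LocX: local properties of functions on `X` -/

open MeasureTheory Metric Set Filter
open scoped ENNReal Topology ContDiff ComplexOrder

namespace HMA

variable {n : ℕ} {X : Type} [TopologicalSpace X] (K : KM n X)

variable {w w' : X → ℝ} {k k' : Fin K.N} {z z' : Cn n}

/-- the difference of the potentials is pluriharmonic -/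
theorem locX_h (k k' : Fin K.N) {W : Set (Cn n)} (hW : IsOpen W)
    (hWV : W ⊆ ball (0 : Cn n) 3 ∩ K.κ k' ⁻¹' (K.κ k '' ball 0 3)) :
    ContDiffOn ℝ ∞ (fun y => K.ρ k' y + -1 * K.ρ k (K.τ k' k y)) W ∧
      SubOn W (fun y => K.ρ k' y + -1 * K.ρ k (K.τ k' k y)) := by
  have hVo := K.isOpen_overlap k' k
  have hτ : ContDiffOn ℝ ∞ (K.τ k' k) W :=
    ((hol_contDiffOn hVo (K.τ_hol k' k)).restrict_scalars ℝ).mono hWV
  have h1 : ContDiffOn ℝ ∞ (fun y => K.ρ k (K.τ k' k y)) W :=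
    (K.ρ_smooth k).comp hτ (fun y hy => (K.τ_spec k' k y (hWV hy).1 (hWV hy).2).1)
  have h2 : ContDiffOn ℝ ∞ (K.ρ k') W := (K.ρ_smooth k').mono (fun y hy => (hWV hy).1)
  have h3 : ContDiffOn ℝ ∞ (fun y => K.ρ k' y + -1 * K.ρ k (K.τ k' k y)) W :=
    h2.add (contDiffOn_const.mul h1)
  refine ⟨h3, smooth_sub hW h3 fun y hy ξ => ?_⟩
  have t1 := sub11_twD_smooth hW h2 hy
  have t2 := sub11_twD_smooth hW h1 hy
  have t3 := t2.const_mul (-1)
  have e1 : lev (fun y => K.ρ k' y + -1 * K.ρ k (K.τ k' k y)) y ξ =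
      lev (K.ρ k') y ξ + lev (fun y => -1 * K.ρ k (K.τ k' k y)) y ξ :=
    xc11_lev_add t1 t3.1 ξ
  have e2 : lev (fun y => -1 * K.ρ k (K.τ k' k y)) y ξ =
      -1 * lev (fun y => K.ρ k (K.τ k' k y)) y ξ := by
    have c1 := t3.1.lev_LM ξ
    have c2 := t2.lev_LM ξ
    rw [t3.2] at c1
    have : ((lev (fun y => -1 * K.ρ k (K.τ k' k y)) y ξ : ℝ) : ℂ) =
        ((-1 * lev (fun y => K.ρ k (K.τ k' k y)) y ξ : ℝ) : ℂ) := by
      rw [c1]
      push_cast
      rw [c2, Finset.mul_sum]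
      refine Finset.sum_congr rfl fun i _ => ?_
      rw [Finset.mul_sum]
      refine Finset.sum_congr rfl fun j _ => ?_
      simp only [Matrix.smul_apply, smul_eq_mul]
      push_cast
      ring
    exact_mod_cast this
  rw [e1, e2, K.ρ_compat k' k y (hWV hy) ξ]
  linarith

/-- change of charts for the sub-mean value property -/
theorem locX_sub {k k' : Fin K.N} {z : Cn n} {r : ℝ} (hr : ball z r ⊆ ball 0 3)
    (hc : ContinuousOn (fun y => w (K.κ k y)) (ball z r))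
    (hs : SubOn (ball z r) (fun y => K.ρ k y + w (K.κ k y))) {W : Set (Cn n)} (hW : IsOpen W)
    (hWV : W ⊆ ball (0 : Cn n) 3 ∩ K.κ k' ⁻¹' (K.κ k '' ball 0 3))
    (hm : MapsTo (K.τ k' k) W (ball z r)) :
    ContinuousOn (fun y => w (K.κ k' y)) W ∧ SubOn W (fun y => K.ρ k' y + w (K.κ k' y)) := by
  have hρ : ContinuousOn (K.ρ k) (ball z r) := (K.ρ_smooth k).continuousOn.mono hr
  have hτd : DifferentiableOn ℂ (K.τ k' k) W := (K.τ_hol k' k).mono hWV
  have h1 : SubOn W (fun y => K.ρ k (K.τ k' k y) + w (K.κ k (K.τ k' k y))) :=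
    sub_comp_cont (u := fun y => K.ρ k y + w (K.κ k y)) isOpen_ball hW (hρ.add hc) hs hτd hm
  have h2 : ContinuousOn (fun y => K.ρ k (K.τ k' k y) + w (K.κ k (K.τ k' k y))) W :=
    (hρ.add hc).comp hτd.continuousOn hm
  obtain ⟨h3, h4⟩ := locX_h K k k' hW hWV
  have h5 := kw_sub_add h4 h1 h3.continuousOn h2
  have e : ∀ y ∈ W, w (K.κ k' y) = w (K.κ k (K.τ k' k y)) := fun y hy => by
    rw [(K.τ_spec k' k y (hWV hy).1 (hWV hy).2).2]
  refine ⟨(hc.comp hτd.continuousOn hm).congr e, kw_sub_congr h5 fun y hy => ?_⟩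
  rw [e y hy]
  ring

/-- the neighbourhood in the new chart -/
theorem locX_nb {k k' : Fin K.N} {z z' : Cn n} {r : ℝ} (hr0 : 0 < r)
    (hz : z ∈ ball (0 : Cn n) 3) (hz' : z' ∈ ball (0 : Cn n) 3)
    (he : K.κ k' z' = K.κ k z) : ∃ s : ℝ, 0 < s ∧
      ball z' s ⊆ ball (0 : Cn n) 3 ∩ K.κ k' ⁻¹' (K.κ k '' ball 0 3) ∧
      MapsTo (K.τ k' k) (ball z' s) (ball z r) := by
  set V : Set (Cn n) := ball (0 : Cn n) 3 ∩ K.κ k' ⁻¹' (K.κ k '' ball 0 3) with hV
  have hVo : IsOpen V := K.isOpen_overlap k' k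
  have hzV : z' ∈ V := ⟨hz', z, hz, he.symm⟩
  have hτc : ContinuousOn (K.τ k' k) V := (K.τ_hol k' k).continuousOn
  have hWo : IsOpen (V ∩ K.τ k' k ⁻¹' (ball z r)) := hτc.isOpen_inter_preimage hVo isOpen_ball
  have hτz : K.τ k' k z' = z := by
    obtain ⟨s1, s2⟩ := K.τ_spec k' k z' hzV.1 hzV.2
    exact K.injOn k s1 hz (by rw [s2, he])
  have hzW : z' ∈ V ∩ K.τ k' k ⁻¹' (ball z r) :=
    ⟨hzV, by rw [mem_preimage, hτz]; exact mem_ball_self hr0⟩
  obtain ⟨s, hs, hsub⟩ := Metric.isOpen_iff.mp hWo z' hzW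
  exact ⟨s, hs, fun y hy => (hsub hy).1, fun y hy => (hsub hy).2⟩

theorem LW.change (h : LW K w k z) (hz : z ∈ ball (0 : Cn n) 3) (hz' : z' ∈ ball (0 : Cn n) 3)
    (he : K.κ k' z' = K.κ k z) : LW K w k' z' := by
  obtain ⟨r, hr, hrb, hc, hs⟩ := h
  obtain ⟨s, hs0, hsV, hsm⟩ := locX_nb K hr hz hz' he
  have h1 := locX_sub K hrb hc.continuousOn hs isOpen_ball hsV hsm
  refine ⟨s, hs0, fun y hy => (hsV hy).1, ?_, h1.2⟩
  have h2 : C11 (ball z' s) (fun y => w (K.κ k (K.τ k' k y))) :=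
    c11_comp (u := fun y => w (K.κ k y)) isOpen_ball isOpen_ball hc ((K.τ_hol k' k).mono hsV) hsm
  refine h2.congr isOpen_ball fun y hy => ?_
  rw [(K.τ_spec k' k y (hsV hy).1 (hsV hy).2).2]

theorem LC.change (h : LC K w k z) (hz : z ∈ ball (0 : Cn n) 3) (hz' : z' ∈ ball (0 : Cn n) 3)
    (he : K.κ k' z' = K.κ k z) : LC K w k' z' := by
  obtain ⟨r, hr, hrb, hc, hs⟩ := h
  obtain ⟨s, hs0, hsV, hsm⟩ := locX_nb K hr hz hz' he
  have h1 := locX_sub K hrb hc hs isOpen_ball hsV hsm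
  exact ⟨s, hs0, fun y hy => (hsV hy).1, h1.1, h1.2⟩

theorem locX_shrink {k : Fin K.N} {z : Cn n} {r : ℝ} (hr : 0 < r) (hz : z ∈ ball (0 : Cn n) 3)
    (he : ∀ᶠ x in 𝓝 (K.κ k z), w' x = w x) : ∃ s : ℝ, 0 < s ∧ s ≤ r ∧
      ∀ y ∈ ball z s, w' (K.κ k y) = w (K.κ k y) := by
  have h1 : ContinuousAt (K.κ k) z := (K.cont k).continuousAt (isOpen_ball.mem_nhds hz)
  obtain ⟨s, hs, h2⟩ := Metric.eventually_nhds_iff_ball.mp (h1.eventually he)
  exact ⟨min s r, lt_min hs hr, min_le_right _ _, fun y hy =>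
    h2 y (ball_subset_ball (min_le_left _ _) hy)⟩

theorem LW.congr (h : LW K w k z) (hz : z ∈ ball (0 : Cn n) 3)
    (he : ∀ᶠ x in 𝓝 (K.κ k z), w' x = w x) : LW K w' k z := by
  obtain ⟨r, hr, hrb, hc, hs⟩ := h
  obtain ⟨s, hs0, hsr, hse⟩ := locX_shrink K hr hz he
  have hb : ball z s ⊆ ball z r := ball_subset_ball hsr
  refine ⟨s, hs0, hb.trans hrb, ?_, ?_⟩
  · exact (hc.mono hb).congr isOpen_ball hse
  · refine kw_sub_congr (kw_sub_mono hs hb) fun y hy => ?_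
    rw [hse y hy]

theorem LC.congr (h : LC K w k z) (hz : z ∈ ball (0 : Cn n) 3)
    (he : ∀ᶠ x in 𝓝 (K.κ k z), w' x = w x) : LC K w' k z := by
  obtain ⟨r, hr, hrb, hc, hs⟩ := h
  obtain ⟨s, hs0, hsr, hse⟩ := locX_shrink K hr hz he
  have hb : ball z s ⊆ ball z r := ball_subset_ball hsr
  refine ⟨s, hs0, hb.trans hrb, ?_, ?_⟩
  · exact (hc.mono hb).congr hse
  · refine kw_sub_congr (kw_sub_mono hs hb) fun y hy => ?_
    rw [hse y hy]

theorem wk_of_LW (h : ∀ x : X, ∃ (k : Fin K.N) (z : Cn n), z ∈ ball (0 : Cn n) 3 ∧ K.κ k z = x ∧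
    LW K w k z) : WK K w := by
  have hc : C11X K w := by
    intro i
    refine xc11_local isOpen_ball fun y hy => ?_
    obtain ⟨k, z, hz, he, hl⟩ := h (K.κ i y)
    obtain ⟨r, hr, hrb, hcr, -⟩ := LW.change K hl hz hy he.symm
    exact ⟨ball y r, isOpen_ball, mem_ball_self hr, hrb, hcr⟩
  refine wk_of_local K hc fun x => ?_
  obtain ⟨k, z, hz, he, r, hr, hrb, -, hs⟩ := h x
  exact ⟨k, z, r, hr, hrb, he, hs⟩

/-- continuity from continuity in a chart -/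
theorem locX_cont (h : ∀ x : X, ∃ (k : Fin K.N) (z : Cn n), z ∈ ball (0 : Cn n) 3 ∧ K.κ k z = x ∧
    LC K w k z) : Continuous w := by
  rw [continuous_iff_continuousAt]
  intro x
  obtain ⟨k, z, hz, rfl, r, hr, hrb, hc, -⟩ := h x
  have h1 : ContinuousAt (fun y => w (K.κ k y)) z :=
    hc.continuousAt (isOpen_ball.mem_nhds (mem_ball_self hr))
  have h2 : ContinuousAt (Function.invFunOn (K.κ k) (ball 0 3)) (K.κ k z) :=
    (K.inv_cont k).continuousAt ((K.isOpen_range k).mem_nhds ⟨z, hz, rfl⟩)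
  have h3 : ContinuousAt (fun x => w (K.κ k (Function.invFunOn (K.κ k) (ball 0 3) x)))
      (K.κ k z) := by
    have h4 : ContinuousAt (fun y => w (K.κ k y))
        (Function.invFunOn (K.κ k) (ball 0 3) (K.κ k z)) := by
      rw [xtop_linv K k hz]
      exact h1
    exact ContinuousAt.comp (g := fun y => w (K.κ k y)) h4 h2
  refine h3.congr ?_
  filter_upwards [(K.isOpen_range k).mem_nhds ⟨z, hz, rfl⟩] with x hx
  rw [Function.invFunOn_eq hx]

theorem locX_ρw (hw : Continuous w) (i : Fin K.N) :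
    ContinuousOn (fun z => K.ρ i z + w (K.κ i z)) (ball 0 3) :=
  (K.ρ_smooth i).continuousOn.add (hw.comp_continuousOn (K.cont i))

theorem pc_of_LC (h : ∀ x : X, ∃ (k : Fin K.N) (z : Cn n), z ∈ ball (0 : Cn n) 3 ∧ K.κ k z = x ∧
    LC K w k z) : PC K w := by
  have hc := locX_cont K h
  refine ⟨hc, fun i => ?_⟩
  have hu := locX_ρw K hc i
  refine loc_glob isOpen_ball hu.upperSemicontinuousOn (xkp_bdd hu) fun a ha => ?_
  obtain ⟨k, z, hz, he, hl⟩ := h (K.κ i a)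
  obtain ⟨r, hr, hrb, -, hs⟩ := LC.change K hl hz ha he.symm
  refine ⟨r / 2, by positivity, fun b hb => ?_⟩
  refine hs a b fun ζ hζ => ?_
  rw [mem_ball, dist_eq_norm, add_sub_cancel_left, norm_smul]
  calc ‖ζ‖ * ‖b‖ ≤ 1 * (r / 2) := mul_le_mul hζ hb (norm_nonneg _) zero_le_one
    _ < r := by linarith

theorem locX_ball {z : Cn n} (hz : z ∈ ball (0 : Cn n) 3) : 0 < 3 - ‖z‖ ∧
    ball z (3 - ‖z‖) ⊆ ball 0 3 := by
  rw [mem_ball_zero_iff] at hz
  refine ⟨by linarith, fun y hy => ?_⟩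
  rw [mem_ball, dist_eq_norm] at hy
  rw [mem_ball_zero_iff]
  calc ‖y‖ = ‖(y - z) + z‖ := by rw [sub_add_cancel]
    _ ≤ ‖y - z‖ + ‖z‖ := norm_add_le _ _
    _ < 3 := by linarith

theorem WK.LW (h : WK K w) (hz : z ∈ ball (0 : Cn n) 3) : LW K w k z := by
  obtain ⟨h1, h2⟩ := locX_ball hz
  exact ⟨3 - ‖z‖, h1, h2, (h.c11 k).mono h2, kw_sub_mono (h.sub k) h2⟩

theorem PC.LC (h : PC K w) (hz : z ∈ ball (0 : Cn n) 3) : LC K w k z := by
  obtain ⟨h1, h2⟩ := locX_ball hz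
  exact ⟨3 - ‖z‖, h1, h2, (h.cont.comp_continuousOn (K.cont k)).mono h2,
    kw_sub_mono (h.sub k) h2⟩

theorem WK.pc (h : WK K w) : PC K w := by
  exact ⟨C11X.continuous K h.c11, h.sub⟩

theorem PC.pb [CompactSpace X] (h : PC K w) : PB K w := by
  refine ⟨h.cont.upperSemicontinuous, ?_, h.sub⟩
  obtain ⟨B, hB⟩ := isCompact_univ.exists_bound_of_continuousOn (h.cont.continuousOn (s := univ))
  exact ⟨B, fun x => hB x (mem_univ x)⟩

theorem locX_usc (hw : UpperSemicontinuous w) (i : Fin K.N) :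
    UpperSemicontinuousOn (fun z => K.ρ i z + w (K.κ i z)) (ball 0 3) := by
  have h1 : UpperSemicontinuousOn (fun z => w (K.κ i z)) (ball 0 3) := by
    intro z hz y hy
    exact (K.cont i z hz).eventually (hw (K.κ i z) y hy)
  exact (K.ρ_smooth i).continuousOn.upperSemicontinuousOn.add h1

theorem locX_bd (hb : ∃ B : ℝ, ∀ x, |w x| ≤ B) (i : Fin K.N) :
    ∀ L ⊆ ball (0 : Cn n) 3, IsCompact L → ∃ M : ℝ, ∀ z ∈ L, -M ≤ K.ρ i z + w (K.κ i z) := by
  intro L hL hLc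
  obtain ⟨B, hB⟩ := hb
  obtain ⟨M, hM⟩ := xkp_bdd (K.ρ_smooth i).continuousOn L hL hLc
  refine ⟨M + B, fun z hz => ?_⟩
  have h1 := hM z hz
  have h2 := (abs_le.mp (hB (K.κ i z))).1
  linarith

theorem PB.kpsh [Nonempty X] (h : PB K w) : KPsh K (fun x => Real.exp (w x)) := by
  constructor
  · intro i
    have he : (fun z => Real.exp (w (K.κ i z)) * Real.exp (K.ρ i z)) =
        fun z => Real.exp (K.ρ i z + w (K.κ i z)) := by
      funext z
      rw [← Real.exp_add, add_comm]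
    show PshOn (ball 0 3) (fun z => Real.exp (w (K.κ i z)) * Real.exp (K.ρ i z))
    rw [he]
    exact kw_pshOn_exp (h.sub i) (locX_usc K h.usc i) (locX_bd K h.bdd i)
  · obtain ⟨x⟩ := ‹Nonempty X›
    exact ⟨x, (Real.exp_pos _).ne'⟩

theorem PB.max (h : PB K w) (h' : PB K w') : PB K (fun x => max (w x) (w' x)) := by
  refine ⟨h.usc.sup h'.usc, ?_, fun i => ?_⟩
  · obtain ⟨B, hB⟩ := h.bdd
    obtain ⟨B', hB'⟩ := h'.bdd
    refine ⟨Max.max B B', fun x => ?_⟩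
    exact (abs_max_le_max_abs_abs).trans (max_le_max (hB x) (hB' x))
  · have h1 := sub_max (locX_usc K h.usc i) (locX_usc K h'.usc i) (locX_bd K h.bdd i)
      (locX_bd K h'.bdd i) (h.sub i) (h'.sub i)
    refine kw_sub_congr h1 fun z _ => ?_
    exact (max_add_add_left _ _ _).symm

theorem PB.add_const (h : PB K w) (c : ℝ) : PB K (fun x => w x + c) := by
  refine ⟨h.usc.add upperSemicontinuous_const, ?_, fun i => ?_⟩
  · obtain ⟨B, hB⟩ := h.bdd
    exact ⟨B + |c|, fun x => (abs_add_le _ _).trans (by linarith [hB x])⟩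
  · have h1 := kw_sub_add_const (h.sub i) (locX_usc K h.usc i) (locX_bd K h.bdd i) c
    refine kw_sub_congr h1 fun z _ => ?_
    ring

theorem PC.add_const (h : PC K w) (c : ℝ) : PC K (fun x => w x + c) := by
  refine ⟨h.cont.add continuous_const, fun i => ?_⟩
  have hu := locX_ρw K h.cont i
  have h1 := kw_sub_add_const (h.sub i) hu.upperSemicontinuousOn (xkp_bdd hu) c
  refine kw_sub_congr h1 fun z _ => ?_
  ring

theorem WK.add_const' (h : WK K w) (c : ℝ) : WK K (fun x => w x + c) :=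
  ⟨C11X.add K h.c11 (c11X_const K c), (PC.add_const K (WK.pc K h) c).sub⟩

end HMA
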