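import Pool.Agent.H85.KW.WellO
import Pool.Agent.H85.KW.Exh
import Pool.Agent.H85.KW.Decay
import Pool.Agent.H85.KW.LocX

/-! # Module CapDom: domination by the capacity -/

open MeasureTheory Metric Set Filter
open scoped ENNReal Topology ContDiff ComplexOrder

namespace HMA

variable {n : ℕ} {X : Type} [TopologicalSpace X] (K : KM n X)

variable [MeasurableSpace X] [BorelSpace X] [T2Space X] [CompactSpace X]

theorem CapDom_vol_pos {U : Set X} (h : 0 < K.cap U) : 0 < K.vol.real univ := by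
  have : IsFiniteMeasure K.vol := K.vol_finite
  rcases (measureReal_nonneg (μ := K.vol) (s := univ)).lt_or_eq with h0 | h0
  · exact h0
  · exfalso
    have h1 : K.vol univ = 0 := by
      rw [eq_comm, measureReal_eq_zero_iff] at h0
      exact h0
    have h2 : K.vol = 0 := Measure.measure_univ_eq_zero.mp h1
    have h3 : K.cap U ≤ 0 := by
      apply K.cap_le
      intro v _ _
      rw [h2]
      simp
    linarith

theorem CapDom_aux {n : ℕ} {ε x : ℝ} (hε : 0 < ε) (hx : 0 < x) :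
    Real.exp (-ε * (x - 3)) ≤
      Real.exp (3 * ε) * ((2 * n).factorial / (ε ^ (2 * n))) * (x ^ (2 * n))⁻¹ := by
  have h1 := Real.pow_div_factorial_le_exp (ε * x) (by positivity) (2 * n)
  have h2 : Real.exp (-ε * (x - 3)) = Real.exp (3 * ε) * (Real.exp (ε * x))⁻¹ := by
    rw [← Real.exp_neg, ← Real.exp_add]
    congr 1; ring
  rw [h2, mul_assoc]
  apply mul_le_mul_of_nonneg_left _ (Real.exp_pos _).le
  have h3 : (0:ℝ) < (2 * n).factorial := by positivity
  have h4 : 0 < (ε * x) ^ (2 * n) / ((2 * n).factorial : ℝ) := by positivity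
  calc (Real.exp (ε * x))⁻¹ ≤ ((ε * x) ^ (2 * n) / ((2 * n).factorial : ℝ))⁻¹ :=
        inv_anti₀ h4 h1
    _ = (2 * n).factorial / (ε ^ (2 * n)) * (x ^ (2 * n))⁻¹ := by
        rw [inv_div, mul_pow]
        field_simp

theorem CapDom_compact [ConnectedSpace X] (hn : 1 ≤ n) {μ : Measure X} [IsProbabilityMeasure μ]
    {ε C V : ℝ} (hε : 0 < ε) (hC : 0 < C) (hV : V = K.vol.real univ)
    (hdec : ∀ F : X → ℝ, KPsh K F → (∀ x, F x ≤ 1) → (∃ x, 1 ≤ F x) → ∀ t : ℝ,
        μ.real {x | F x ≤ Real.exp (-t)} ≤ C * Real.exp (-ε * t))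
    {Q U : Set X} (hQ : IsCompact Q) (hU : IsOpen U) (hQU : Q ⊆ U) (hne : 0 < K.cap U) :
    μ.real Q ≤ ((3 ^ n / V) ^ 2 +
      C * (Real.exp (3 * ε) * ((2 * n).factorial / (ε ^ (2 * n)))) / V ^ 2) * K.cap U ^ 2 := by
  have hV0 : 0 < V := by rw [hV]; exact CapDom_vol_pos K hne
  set c : ℝ := K.cap U with hc
  have hn0 : n ≠ 0 := by omega
  set x : ℝ := (V / c) ^ ((n : ℝ)⁻¹) with hx
  have hx0 : 0 < x := Real.rpow_pos_of_pos (by positivity) _
  have hxn : x ^ n = V / c := by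
    rw [hx]; exact Real.rpow_inv_natCast_pow (by positivity) hn0
  have hK2 : 0 ≤ C * (Real.exp (3 * ε) * ((2 * n).factorial / (ε ^ (2 * n)))) / V ^ 2 := by
    positivity
  by_cases hx3 : x ≤ 3
  · have h1 : V / c ≤ 3 ^ n := by rw [← hxn]; exact pow_le_pow_left₀ hx0.le hx3 n
    have h2 : 1 ≤ 3 ^ n / V * c := by
      rw [div_le_iff₀ hne] at h1
      rw [div_mul_eq_mul_div, le_div_iff₀ hV0]; linarith
    have h3 : (1:ℝ) ≤ (3 ^ n / V * c) ^ 2 := one_le_pow₀ h2
    have h4 : μ.real Q ≤ 1 := measureReal_le_one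
    have h5 : (3 ^ n / V * c) ^ 2 = (3 ^ n / V) ^ 2 * c ^ 2 := mul_pow _ _ _
    have h6 : 0 ≤ C * (Real.exp (3 * ε) * ((2 * n).factorial / (ε ^ (2 * n)))) / V ^ 2 * c ^ 2 :=
      mul_nonneg hK2 (sq_nonneg _)
    nlinarith
  · push Not at hx3
    have hM : (0:ℝ) ≤ x - 3 := by linarith
    have hwell : (x - 3 + 2) ^ n * K.cap U < K.vol.real univ := by
      rw [← hV, ← hc]
      have h1 : (x - 3 + 2) ^ n < x ^ n := pow_lt_pow_left₀ (by linarith) (by linarith) hn0
      rw [hxn, lt_div_iff₀ hne] at h1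
      exact h1
    obtain ⟨ψ, hψ, hψQ, x₀, hx₀⟩ := K.well_open hQ hU hQU hM hwell
    have hcont : Continuous ψ := C11X.continuous K hψ.c11
    obtain ⟨p, -, hp⟩ := isCompact_univ.exists_isMaxOn (univ_nonempty (α := X))
      hcont.continuousOn
    have hp' : ∀ y, ψ y ≤ ψ p := fun y => hp (mem_univ y)
    have hW : WK K (fun y => ψ y + (-ψ p)) := hψ.add_const' K (-ψ p)
    have hF : KPsh K (fun y => Real.exp (ψ y + (-ψ p))) := kpsh_of_wk K hW
    have h1 := hdec _ hF (fun y => by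
      rw [← Real.exp_zero]; exact Real.exp_le_exp.mpr (by linarith [hp' y]))
      ⟨p, by simp⟩ (x - 3)
    have h2 : Q ⊆ {y | Real.exp (ψ y + (-ψ p)) ≤ Real.exp (-(x - 3))} := by
      intro y hy
      have := hψQ y hy
      have := hp' x₀
      exact Real.exp_le_exp.mpr (by linarith)
    have h3 : μ.real Q ≤ C * Real.exp (-ε * (x - 3)) := (measureReal_mono h2).trans h1
    have h4 := CapDom_aux (n := n) hε hx0
    have h5 : (x ^ (2 * n))⁻¹ = c ^ 2 / V ^ 2 := by
      rw [mul_comm 2 n, pow_mul, hxn, div_pow, inv_div]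
    rw [h5] at h4
    have h6 : C * Real.exp (-ε * (x - 3)) ≤
        C * (Real.exp (3 * ε) * ((2 * n).factorial / (ε ^ (2 * n)))) / V ^ 2 * c ^ 2 := by
      calc C * Real.exp (-ε * (x - 3)) ≤ C * (Real.exp (3 * ε) *
            ((2 * n).factorial / (ε ^ (2 * n))) * (c ^ 2 / V ^ 2)) :=
            mul_le_mul_of_nonneg_left h4 hC.le
        _ = _ := by ring
    have h7 : 0 ≤ (3 ^ n / V) ^ 2 * c ^ 2 := by positivity
    nlinarith

theorem KM.cap_dom [ConnectedSpace X] (hn : 1 ≤ n) {μ : Measure X} [IsProbabilityMeasure μ]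
    (hμ : KModerate K μ) : ∃ C : ℝ, 0 < C ∧ ∀ U : Set X, IsOpen U →
      μ.real U ≤ C * K.cap U ^ 2 := by
  obtain ⟨ε, hε, hdec⟩ := K.exp_decay hn hμ
  obtain ⟨C, hC, hdec⟩ := hdec 1 one_pos
  set V : ℝ := K.vol.real univ with hV
  refine ⟨(3 ^ n / V) ^ 2 +
      C * (Real.exp (3 * ε) * ((2 * n).factorial / (ε ^ (2 * n)))) / V ^ 2 + 1, by positivity, ?_⟩
  intro U hU
  rcases U.eq_empty_or_nonempty with rfl | hne
  · simp only [measureReal_empty]
    positivity
  · have hpos := K.cap_pos hU hne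
    obtain ⟨Q, hQc, hQm, hQU⟩ := K.exhaust hU
    have hb : ∀ m, μ (Q m) ≤ ENNReal.ofReal (((3 ^ n / V) ^ 2 +
      C * (Real.exp (3 * ε) * ((2 * n).factorial / (ε ^ (2 * n)))) / V ^ 2 + 1) * K.cap U ^ 2) := by
      intro m
      have h1 := CapDom_compact K hn hε hC hV hdec (hQc m) hU
        (by rw [← hQU]; exact subset_iUnion Q m) hpos
      rw [← ENNReal.ofReal_toReal (measure_ne_top μ (Q m))]
      apply ENNReal.ofReal_le_ofReal
      refine h1.trans ?_
      nlinarith [sq_nonneg (K.cap U)]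
    have h2 : μ U ≤ ENNReal.ofReal (((3 ^ n / V) ^ 2 +
      C * (Real.exp (3 * ε) * ((2 * n).factorial / (ε ^ (2 * n)))) / V ^ 2 + 1) * K.cap U ^ 2) := by
      rw [← hQU, hQm.measure_iUnion]
      rw [hQU]
      exact iSup_le hb
    exact ENNReal.toReal_le_of_le_ofReal (by positivity) h2

end HMA
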