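import Pool.Agent.H85.KW.CapK
import Pool.Agent.H85.KW.CapDom
import Pool.Agent.H85.KW.Decay

/-! # Module AStep: one step of the iteration -/

open MeasureTheory Metric Set Filter
open scoped ENNReal Topology ContDiff ComplexOrder

namespace HMA

variable {n : ℕ} {X : Type} [TopologicalSpace X] (K : KM n X)

variable [MeasurableSpace X] [BorelSpace X] [T2Space X] [CompactSpace X]

/-- interpolation between the two bounds of the measure of a sublevel set -/
theorem astep_interp {m a b : ℝ} (hm : 0 ≤ m) (ha : m ≤ a) (hb : m ≤ b) :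
    m ≤ a ^ (3 / 4 : ℝ) * b ^ (1 / 4 : ℝ) := by
  have h1 : m = m ^ (3 / 4 : ℝ) * m ^ (1 / 4 : ℝ) := by
    rw [← Real.rpow_add_of_nonneg hm (by norm_num) (by norm_num)]
    norm_num
  calc m = m ^ (3 / 4 : ℝ) * m ^ (1 / 4 : ℝ) := h1
    _ ≤ a ^ (3 / 4 : ℝ) * b ^ (1 / 4 : ℝ) := by
        apply mul_le_mul
        · exact Real.rpow_le_rpow hm ha (by norm_num)
        · exact Real.rpow_le_rpow hm hb (by norm_num)
        · exact Real.rpow_nonneg hm _
        · exact Real.rpow_nonneg (hm.trans ha) _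

theorem KM.a_step [ConnectedSpace X] (hn : 1 ≤ n) {μ : Measure X} [IsProbabilityMeasure μ]
    (hμ : KModerate K μ) {A ε B : ℝ} (hA : 0 < A) (hε : 0 < ε) (hB : 0 ≤ B) :
    ∃ C : ℝ, 0 < C ∧ ∀ (δ : ℝ) (Φ : X → ℝ), 0 ≤ δ → PB K Φ →
      (∀ t : ℝ, 0 ≤ t → μ.real {x | Φ x < -t} ≤ A * Real.exp (-ε * t)) → KIneq K μ δ Φ →
      ∀ g : X → ℝ, WK K g → (∀ x, 0 ≤ g x ∧ g x ≤ B) → ∀ s τ : ℝ, 0 ≤ s → 0 < τ → τ ≤ 1 →
        K.aI μ g Φ (s + (B + 2) * τ) ≤
          C * ((K.aI μ g Φ s + δ) / τ ^ (n + 1)) ^ (3 / 2 : ℝ) := by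
  obtain ⟨C0, hC0, hdom⟩ := K.cap_dom hn hμ
  set V : ℝ := K.vol.real univ with hV
  have hV0 : 0 ≤ V := measureReal_nonneg
  set A' : ℝ := max A 1 * Real.exp (ε * B) with hA'
  have hA'0 : 0 < A' := by positivity
  set D : ℝ := (C0 * ((n : ℝ) + 1) ^ 2) ^ (3 / 4 : ℝ) * A' ^ (1 / 4 : ℝ) with hD
  have hD0 : 0 < D := by positivity
  refine ⟨V * (D * (4 / ε)) + 1, by positivity, ?_⟩
  intro δ Φ hδ hΦ hdec hK g hg hgB s τ hs hτ hτ1
  set s' : ℝ := s + (B + 2) * τ with hs'
  have hs's : 0 ≤ s' := by positivity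
  -- the quantity Q
  have haI0 : 0 ≤ K.aI μ g Φ s := by
    unfold KM.aI
    apply mul_nonneg measureReal_nonneg
    exact integral_nonneg (fun x => le_max_right _ _)
  set Q : ℝ := (K.aI μ g Φ s + δ) / τ ^ (n + 1) with hQ
  have hQ0 : 0 ≤ Q := by positivity
  -- the function
  have hgc : Continuous g := hg.pc.cont
  have hΦm : Measurable Φ := hΦ.usc.measurable
  set f : X → ℝ := fun x => max (g x - s' - Φ x) 0 with hf
  have hfm : Measurable f := by
    apply Measurable.max _ measurable_const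
    exact ((hgc.measurable.sub measurable_const).sub hΦm)
  have hf0 : ∀ x, 0 ≤ f x := fun x => le_max_right _ _
  obtain ⟨M, hM⟩ := hΦ.bdd
  have hfb : ∀ x, ‖f x‖ ≤ B + |M| := by
    intro x
    rw [Real.norm_of_nonneg (hf0 x)]
    apply max_le
    · have h1 := (hgB x).2
      have h2 := (abs_le.1 (hM x)).1
      have h3 := le_abs_self M
      linarith
    · positivity
  have hfi : Integrable f μ :=
    Integrable.of_bound hfm.aestronglyMeasurable (B + |M|) (Eventually.of_forall hfb)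
  -- the sublevel sets
  set U : Set X := {x | Φ x < g x - s - (B + 2) * τ} with hU
  have hUo : IsOpen U := by
    have hu : UpperSemicontinuous (fun x => Φ x + (-(g x))) :=
      hΦ.usc.add (hgc.neg).upperSemicontinuous
    have : U = (fun x => Φ x + (-(g x))) ⁻¹' Iio (-(s + (B + 2) * τ)) := by
      ext x
      simp only [hU, mem_ofPred_eq, mem_preimage, mem_Iio]
      constructor <;> intro h <;> linarith
    rw [this]
    exact hu.isOpen_preimage _
  have hcap : K.cap U ≤ ((n : ℝ) + 1) * Q := by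
    have h1 := K.cap_ki hΦ hK hg hgB (s := s) hτ hτ1
    rw [hQ, ← mul_div_assoc, le_div_iff₀ (by positivity)]
    rw [mul_comm]
    exact h1
  have hcap2 : μ.real U ≤ C0 * ((n : ℝ) + 1) ^ 2 * Q ^ 2 := by
    have h1 := hdom U hUo
    have h2 : K.cap U ^ 2 ≤ (((n : ℝ) + 1) * Q) ^ 2 :=
      pow_le_pow_left₀ (K.cap_nonneg U) hcap 2
    calc μ.real U ≤ C0 * K.cap U ^ 2 := h1
      _ ≤ C0 * (((n : ℝ) + 1) * Q) ^ 2 := by gcongr
      _ = C0 * ((n : ℝ) + 1) ^ 2 * Q ^ 2 := by ring
  have hlev1 : ∀ t : ℝ, 0 < t → μ.real {x | t < f x} ≤ C0 * ((n : ℝ) + 1) ^ 2 * Q ^ 2 := by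
    intro t ht
    refine le_trans (measureReal_mono ?_) hcap2
    intro x hx
    simp only [mem_ofPred_eq, hf, lt_max_iff] at hx
    rcases hx with hx | hx
    · simp only [hU, mem_ofPred_eq]
      rw [hs'] at hx
      linarith
    · exact absurd hx (not_lt.2 ht.le)
  have hlev2 : ∀ t : ℝ, 0 < t → μ.real {x | t < f x} ≤ A' * Real.exp (-ε * t) := by
    intro t ht
    by_cases hc : 0 ≤ s' + t - B
    · have h1 : μ.real {x | t < f x} ≤ μ.real {x | Φ x < -(s' + t - B)} := by
        refine measureReal_mono ?_ (measure_ne_top _ _)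
        intro x hx
        simp only [mem_ofPred_eq, hf, lt_max_iff] at hx
        rcases hx with hx | hx
        · simp only [mem_ofPred_eq]
          have := (hgB x).2
          linarith
        · exact absurd hx (not_lt.2 ht.le)
      refine le_trans (h1.trans (hdec _ hc)) ?_
      rw [hA', mul_assoc, ← Real.exp_add]
      apply mul_le_mul (le_max_left _ _) _ (Real.exp_pos _).le (by positivity)
      apply Real.exp_le_exp.2
      nlinarith [mul_nonneg hε.le hs's]
    · push Not at hc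
      have h1 : μ.real {x | t < f x} ≤ 1 := measureReal_le_one
      refine h1.trans ?_
      rw [hA', mul_assoc, ← Real.exp_add]
      have h2 : 1 ≤ Real.exp (ε * B + -ε * t) := by
        apply Real.one_le_exp
        nlinarith [mul_nonneg hε.le (show 0 ≤ B - t by linarith)]
      have h3 : (1 : ℝ) ≤ max A 1 := le_max_right _ _
      nlinarith
  have hlev : ∀ t : ℝ, 0 < t → μ.real {x | t < f x} ≤
      D * Q ^ (3 / 2 : ℝ) * Real.exp (-(ε / 4) * t) := by
    intro t ht
    have h := astep_interp (measureReal_nonneg) (hlev1 t ht) (hlev2 t ht)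
    refine h.trans (le_of_eq ?_)
    rw [Real.mul_rpow (by positivity) (by positivity),
      Real.mul_rpow hA'0.le (Real.exp_pos _).le, ← Real.rpow_natCast Q 2, ← Real.rpow_mul hQ0,
      ← Real.exp_mul]
    have e1 : ((2 : ℕ) : ℝ) * (3 / 4) = 3 / 2 := by norm_num
    have e2 : -ε * t * (1 / 4) = -(ε / 4) * t := by ring
    rw [e1, e2, hD]
    ring
  have hint : ∫ x, f x ∂μ ≤ D * Q ^ (3 / 2 : ℝ) * (4 / ε) := by
    rw [hfi.integral_eq_integral_meas_lt (Eventually.of_forall hf0)]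
    have hexp : IntegrableOn (fun t : ℝ => Real.exp (-(ε / 4) * t)) (Ioi 0) :=
      exp_neg_integrableOn_Ioi 0 (by positivity)
    have hexpi : ∫ t in Ioi (0 : ℝ), Real.exp (-(ε / 4) * t) = 4 / ε := by
      rw [integral_exp_mul_Ioi (by linarith [hε]) 0]
      simp
    calc ∫ t in Ioi (0 : ℝ), μ.real {x | t < f x}
        ≤ ∫ t in Ioi (0 : ℝ), D * Q ^ (3 / 2 : ℝ) * Real.exp (-(ε / 4) * t) := by
          apply integral_mono_of_nonneg
          · exact Eventually.of_forall (fun t => measureReal_nonneg)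
          · exact hexp.const_mul _
          · exact (ae_restrict_iff' measurableSet_Ioi).2
              (Eventually.of_forall (fun t ht => hlev t ht))
      _ = D * Q ^ (3 / 2 : ℝ) * (4 / ε) := by
          rw [integral_const_mul, hexpi]
  have hQr : 0 ≤ Q ^ (3 / 2 : ℝ) := Real.rpow_nonneg hQ0 _
  calc K.aI μ g Φ s' = V * ∫ x, f x ∂μ := rfl
    _ ≤ V * (D * Q ^ (3 / 2 : ℝ) * (4 / ε)) := by gcongr
    _ = V * (D * (4 / ε)) * Q ^ (3 / 2 : ℝ) := by ring
    _ ≤ (V * (D * (4 / ε)) + 1) * Q ^ (3 / 2 : ℝ) := by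
        apply mul_le_mul_of_nonneg_right _ hQr
        linarith

end HMA
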