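import Pool.Agent.H85.KW.Defs
import Pool.Agent.H85.KM.Sub11
import Pool.Agent.H85.KM.LocGlob
import Pool.Agent.H85.KM.UProd

/-! # Module SubL: elementary properties of `SubOn`, composition with convex functions -/

open MeasureTheory Metric Set Filter
open scoped ENNReal Topology ContDiff ComplexOrder

namespace HMA

variable {n : ℕ} {Ω Ω' : Set (Cn n)} {u v : Cn n → ℝ}

theorem kw_sub_mono (hu : SubOn Ω u) (h : Ω' ⊆ Ω) : SubOn Ω' u := by
  intro a b hab
  exact hu a b (fun ζ hζ => h (hab ζ hζ))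

theorem kw_sub_congr (hu : SubOn Ω u) (h : ∀ z ∈ Ω, v z = u z) : SubOn Ω v := by
  intro a b hab
  rw [h a (uprod_center hab)]
  refine (hu a b hab).trans (le_of_eq ?_)
  congr 1
  refine intervalIntegral.integral_congr fun θ _ => ?_
  exact (h _ (uprod_circ hab θ)).symm

theorem kw_sub_add_const (hu : SubOn Ω u) (hc : UpperSemicontinuousOn u Ω)
    (hb : ∀ L ⊆ Ω, IsCompact L → ∃ M : ℝ, ∀ z ∈ L, -M ≤ u z) (c : ℝ) :
    SubOn Ω (fun z => u z + c) := by
  intro a b hab
  have hi := (LocGlob_int hc hb a b (fun θ => uprod_circ hab θ)).1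
  have h1 := hu a b hab
  have h2 : (2 * Real.pi)⁻¹ * ∫ θ in (0 : ℝ)..(2 * Real.pi),
      (u (a + Complex.exp (θ * Complex.I) • b) + c) = (2 * Real.pi)⁻¹ *
      (∫ θ in (0 : ℝ)..(2 * Real.pi), u (a + Complex.exp (θ * Complex.I) • b)) + c := by
    rw [intervalIntegral.integral_add hi intervalIntegrable_const, mul_add,
      ProdPsh_mean_const]
  show u a + c ≤ _
  rw [h2]
  linarith

/-- continuity on circles -/
theorem subl_circ (hc : ContinuousOn u Ω) {a b : Cn n} (hab : ∀ ζ : ℂ, ‖ζ‖ ≤ 1 → a + ζ • b ∈ Ω) :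
    Continuous (fun θ : ℝ => u (a + Complex.exp (θ * Complex.I) • b)) := by
  have h1 : Continuous (fun θ : ℝ => a + Complex.exp (θ * Complex.I) • b) := by fun_prop
  exact hc.comp_continuous h1 (fun θ => uprod_circ hab θ)

theorem kw_sub_add (hu : SubOn Ω u) (hv : SubOn Ω v) (hcu : ContinuousOn u Ω)
    (hcv : ContinuousOn v Ω) : SubOn Ω (fun z => u z + v z) := by
  intro a b hab
  have hi1 := (subl_circ hcu hab).intervalIntegrable (μ := volume) 0 (2 * Real.pi)
  have hi2 := (subl_circ hcv hab).intervalIntegrable (μ := volume) 0 (2 * Real.pi)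
  have h1 := hu a b hab
  have h2 := hv a b hab
  show u a + v a ≤ _
  rw [intervalIntegral.integral_add hi1 hi2, mul_add]
  exact add_le_add h1 h2

theorem kw_sub_mul (hu : SubOn Ω u) {c : ℝ} (hc : 0 ≤ c) : SubOn Ω (fun z => c * u z) := by
  intro a b hab
  have h1 := mul_le_mul_of_nonneg_left (hu a b hab) hc
  show c * u a ≤ _
  rw [intervalIntegral.integral_const_mul]
  refine h1.trans (le_of_eq ?_)
  ring

theorem subl_average (f : ℝ → ℝ) : (2 * Real.pi)⁻¹ * ∫ θ in (0 : ℝ)..(2 * Real.pi), f θ =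
    ⨍ θ in Ioc 0 (2 * Real.pi), f θ := by
  rw [setAverage_eq, intervalIntegral.integral_of_le Real.two_pi_pos.le, smul_eq_mul]
  simp [Real.two_pi_pos.le]

/-- Jensen's inequality -/
theorem kw_sub_convex {N : ℕ} {w : Fin N → Cn n → ℝ} (hc : ∀ i, ContinuousOn (w i) Ω)
    (hw : ∀ i, SubOn Ω (w i)) {M : (Fin N → ℝ) → ℝ} (hM : Continuous M)
    (hcv : ConvexOn ℝ univ M) (hm : Monotone M) : SubOn Ω (fun z => M (fun i => w i z)) := by
  intro a b hab
  have hcont : ∀ i, Continuous (fun θ : ℝ => w i (a + Complex.exp (θ * Complex.I) • b)) :=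
    fun i => subl_circ (hc i) hab
  set f : ℝ → (Fin N → ℝ) := fun θ i => w i (a + Complex.exp (θ * Complex.I) • b) with hf
  have hfc : Continuous f := continuous_pi hcont
  have hfin : volume (Ioc 0 (2 * Real.pi)) ≠ ⊤ := measure_Ioc_lt_top.ne
  have h0 : volume (Ioc 0 (2 * Real.pi)) ≠ 0 := by
    rw [Real.volume_Ioc]
    simp [Real.pi_pos]
  have hfi : IntegrableOn f (Ioc 0 (2 * Real.pi)) volume :=
    (hfc.integrableOn_Icc (a := 0) (b := 2 * Real.pi)).mono_set Ioc_subset_Icc_self
  have hgi : IntegrableOn (M ∘ f) (Ioc 0 (2 * Real.pi)) volume :=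
    ((hM.comp hfc).integrableOn_Icc (a := 0) (b := 2 * Real.pi)).mono_set Ioc_subset_Icc_self
  have hJ := hcv.map_set_average_le hM.continuousOn isClosed_univ h0 hfin
    (ae_of_all _ fun θ => mem_univ _) hfi hgi
  have h1 : ∀ i, w i a ≤ (⨍ θ in Ioc 0 (2 * Real.pi), f θ) i := by
    intro i
    have h2 := hw i a b hab
    rw [subl_average] at h2
    refine h2.trans (le_of_eq ?_)
    rw [setAverage_eq, setAverage_eq, Pi.smul_apply]
    congr 1
    have h3 := ContinuousLinearMap.integral_comp_comm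
      (ContinuousLinearMap.proj (R := ℝ) (φ := fun _ : Fin N => ℝ) i) hfi
    exact h3
  show M (fun i => w i a) ≤ _
  rw [subl_average]
  exact (hm h1).trans hJ

/-- local bounds on a given ball -/
theorem subl_ball (hu : C11 Ω u) {z : Cn n} {r : ℝ} (hrΩ : closedBall z r ⊆ Ω) :
    (∃ C : NNReal, LipschitzOnWith C (fderiv ℝ u) (closedBall z r)) ∧
    (∃ D : NNReal, LipschitzOnWith D u (closedBall z r)) ∧
    (∃ A : ℝ, ∀ w ∈ closedBall z r, ‖fderiv ℝ u w‖ ≤ A ∧ |u w| ≤ A) := by
  obtain ⟨C, hC⟩ := hu.lip _ (isCompact_closedBall z r) hrΩ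
  obtain ⟨A, hA⟩ := (isCompact_closedBall z r).exists_bound_of_continuousOn hC.continuousOn
  obtain ⟨A', hA'⟩ := (isCompact_closedBall z r).exists_bound_of_continuousOn
    (hu.continuousOn.mono hrΩ)
  refine ⟨⟨C, hC⟩, ⟨Real.toNNReal A, ?_⟩, ⟨max A A', fun w hw => ⟨(hA w hw).trans
    (le_max_left _ _), (hA' w hw).trans (le_max_right _ _)⟩⟩⟩
  apply Convex.lipschitzOnWith_of_nnnorm_fderiv_le (𝕜 := ℝ) (fun w hw => hu.diff w (hrΩ hw)) ?_
    (convex_closedBall z r)
  intro w hw
  rw [← NNReal.coe_le_coe, coe_nnnorm]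
  exact (hA w hw).trans (Real.le_coe_toNNReal A)

theorem subl_lip_sum {ι E : Type*} [NormedAddCommGroup E] [NormedSpace ℝ E]
    {S : Set (Cn n)} (s : Finset ι) {f : ι → Cn n → E}
    (h : ∀ i, ∃ K : NNReal, LipschitzOnWith K (f i) S) :
    ∃ K : NNReal, LipschitzOnWith K (fun w => ∑ i ∈ s, f i w) S := by
  classical
  induction s using Finset.induction_on with
  | empty =>
    refine ⟨0, ?_⟩
    simp only [Finset.sum_empty]
    exact (LipschitzWith.const 0).lipschitzOnWith
  | insert i s hi ih =>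
    obtain ⟨K, hK⟩ := ih
    obtain ⟨K', hK'⟩ := h i
    refine ⟨K' + K, ?_⟩
    simp only [Finset.sum_insert hi]
    exact hK'.add hK

theorem kw_c11_pi (hΩ : IsOpen Ω) {N : ℕ} {w : Fin N → Cn n → ℝ} (hw : ∀ i, C11 Ω (w i))
    {M : (Fin N → ℝ) → ℝ} (hM : ContDiff ℝ ∞ M) : C11 Ω (fun z => M (fun i => w i z)) := by
  have hMd : Differentiable ℝ M := hM.differentiable (by simp)
  have hMf : ContDiff ℝ 1 (fderiv ℝ M) := (hM.fderiv_right (m := ∞) le_rfl).of_le (by simp)
  apply c11_of_local hΩ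
  intro z hz
  obtain ⟨r, hr, hrΩ⟩ := Metric.nhds_basis_closedBall.mem_iff.1 (hΩ.mem_nhds hz)
  have hb := fun i => subl_ball (hw i) hrΩ
  choose C hC using fun i => (hb i).1
  choose D hD using fun i => (hb i).2.1
  choose A hA using fun i => (hb i).2.2
  have hdiff : ∀ y ∈ closedBall z r, HasFDerivAt (fun z => M (fun i => w i z))
      (∑ i, (fderiv ℝ M (fun i => w i y) (Pi.single i 1)) • fderiv ℝ (w i) y) y := by
    intro y hy
    have h1 : HasFDerivAt (fun z i => w i z)
        (ContinuousLinearMap.pi fun i => fderiv ℝ (w i) y) y :=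
      hasFDerivAt_pi.2 fun i => ((hw i).diff y (hrΩ hy)).hasFDerivAt
    have h2 := (hMd (fun i => w i y)).hasFDerivAt.comp y h1
    refine h2.congr_fderiv ?_
    ext ξ
    rw [ContinuousLinearMap.comp_apply, _root_.sum_apply]
    have h3 : (ContinuousLinearMap.pi fun i => fderiv ℝ (w i) y) ξ =
        ∑ i, (fderiv ℝ (w i) y ξ) • (Pi.single i (1 : ℝ) : Fin N → ℝ) := by
      ext j
      simp [Finset.sum_apply, Pi.single_apply]
    rw [h3, map_sum]
    refine Finset.sum_congr rfl fun i _ => ?_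
    rw [map_smul, smul_eq_mul, _root_.smul_apply, smul_eq_mul, mul_comm]
  -- the vector function
  set W : Cn n → (Fin N → ℝ) := fun z i => w i z with hW
  set B : ℝ := ∑ i, |A i| with hB
  have hA' : ∀ i, |A i| ≤ B := fun i =>
    Finset.single_le_sum (f := fun i => |A i|) (fun j _ => abs_nonneg _) (Finset.mem_univ i)
  have hB0 : 0 ≤ B := Finset.sum_nonneg fun i _ => abs_nonneg _
  have hmaps : MapsTo W (closedBall z r) (closedBall 0 B) := by
    intro y hy
    rw [mem_closedBall_zero_iff, pi_norm_le_iff_of_nonneg hB0]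
    intro i
    rw [Real.norm_eq_abs]
    exact ((hA i y hy).2.trans (le_abs_self _)).trans (hA' i)
  have hWl : LipschitzOnWith (∑ i, D i) W (closedBall z r) := by
    apply LipschitzOnWith.of_dist_le_mul
    intro x hx y hy
    rw [dist_pi_le_iff (by positivity)]
    intro i
    refine ((hD i).dist_le_mul x hx y hy).trans ?_
    refine mul_le_mul_of_nonneg_right ?_ dist_nonneg
    have : D i ≤ ∑ i, D i := Finset.single_le_sum (fun j _ => zero_le) (Finset.mem_univ i)
    exact_mod_cast this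
  have hterm : ∀ i, ∃ K : NNReal, LipschitzOnWith K
      (fun y => (fderiv ℝ M (W y) (Pi.single i 1)) • fderiv ℝ (w i) y) (closedBall z r) := by
    intro i
    have h1 : ContDiff ℝ 1 (fun p => fderiv ℝ M p (Pi.single i (1 : ℝ))) :=
      hMf.clm_apply contDiff_const
    obtain ⟨E, hE⟩ := h1.contDiffOn.exists_lipschitzOnWith (s := closedBall 0 B) one_ne_zero
      (convex_closedBall _ _) (isCompact_closedBall _ _)
    obtain ⟨F, hF⟩ := (isCompact_closedBall (0 : Fin N → ℝ) B).exists_bound_of_continuousOn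
      h1.continuous.continuousOn
    exact C11B_smul_lip (hE.comp hWl hmaps) (hC i) (A := F) (B := A i)
      (fun y hy => hF _ (hmaps hy)) (fun y hy => (hA i y hy).1)
  obtain ⟨K, hK⟩ := subl_lip_sum Finset.univ hterm
  refine ⟨r, hr, K, ball_subset_closedBall.trans hrΩ, fun y hy => ?_, ?_⟩
  · exact (hdiff y (ball_subset_closedBall hy)).differentiableAt
  · intro x hx y hy
    rw [(hdiff x (ball_subset_closedBall hx)).fderiv, (hdiff y (ball_subset_closedBall hy)).fderiv]
    exact hK (ball_subset_closedBall hx) (ball_subset_closedBall hy)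

/-- exponentials of bounded functions -/
theorem kw_pshOn_exp (hs : SubOn Ω u) (hc : UpperSemicontinuousOn u Ω)
    (hb : ∀ L ⊆ Ω, IsCompact L → ∃ M : ℝ, ∀ z ∈ L, -M ≤ u z) :
    PshOn Ω (fun z => Real.exp (u z)) where
  nonneg _ _ := (Real.exp_pos _).le
  usc := by
    intro x hx y hy
    have hy0 : 0 < y := (Real.exp_pos _).trans hy
    have h1 : u x < Real.log y := (Real.lt_log_iff_exp_lt hy0).2 hy
    filter_upwards [hc x hx _ h1] with z hz
    exact (Real.lt_log_iff_exp_lt hy0).1 hz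
  submean := by
    intro δ hδ a b hab
    have hform : ∀ z, Real.log (max (Real.exp (u z)) δ) = max (u z) (Real.log δ) := by
      intro z
      rcases le_total (Real.exp (u z)) δ with h | h
      · rw [max_eq_right h, max_eq_right]
        rw [← Real.log_exp (u z)]
        exact Real.log_le_log (Real.exp_pos _) h
      · rw [max_eq_left h, Real.log_exp, max_eq_left]
        rw [← Real.log_exp (u z)]
        exact Real.log_le_log hδ h
    simp only [hform]
    have hm : Measurable (fun θ : ℝ => u (a + Complex.exp (θ * Complex.I) • b)) :=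
      uprod_meas hc hab
    obtain ⟨M, hM⟩ := (LocGlob_int hc hb a b (fun θ => uprod_circ hab θ)).2
    have hwb : ∀ θ : ℝ, |max (u (a + Complex.exp (θ * Complex.I) • b)) (Real.log δ)| ≤
        max M |Real.log δ| := fun θ => (abs_max_le_max_abs_abs).trans (max_le_max_right _ (hM θ))
    refine max_le ?_ ?_
    · refine (hs a b hab).trans ?_
      exact ProdPsh_mono hm hM (hm.max measurable_const) hwb
        fun θ => le_max_left _ _
    · have h1 := ProdPsh_mean_const (Real.log δ)
      rw [← h1]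
      conv_rhs => rw [h1]
      exact ProdPsh_mono measurable_const (fun _ => le_refl |Real.log δ|)
        (hm.max measurable_const) hwb fun θ => le_max_right _ _

end HMA
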