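import Pool.Agent.H85.KW.CLNloc
import Pool.Agent.H85.KW.SubL
import Pool.Agent.H85.KM.XLoc

/-! # Module BTcmp: continuity of the local Monge-Ampère operator -/

open MeasureTheory Metric Set Filter
open scoped ENNReal Topology ContDiff ComplexOrder

namespace HMA

theorem BTcmp_int {n : ℕ} {Ω : Set (Cn n)} (hΩ : IsOpen Ω) {u χ : Cn n → ℝ} (hu : C11 Ω u)
    (hχ : Continuous χ) (hc : HasCompactSupport χ) (hs : tsupport χ ⊆ Ω) :
    IntegrableOn (fun z => χ z * mad u z) Ω := by
  have h1 := Seg_mad_int hΩ hu hc hs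
  have h2 : IntegrableOn (fun z => χ z * mad u z) (tsupport χ) :=
    h1.continuousOn_mul hχ.continuousOn hc
  have h3 : Function.support (fun z => χ z * mad u z) ⊆ tsupport χ := by
    intro z hz
    by_contra hn
    exact hz (by simp [image_eq_zero_of_notMem_tsupport hn])
  exact ((integrableOn_iff_integrable_of_support_subset h3).1 h2).integrableOn

theorem bt_cmp {n : ℕ} {Ω : Set (Cn n)} (hΩ : IsOpen Ω) {M : ℝ} {χ : Cn n → ℝ}
    (hχ : ContDiff ℝ ∞ χ) (hc : HasCompactSupport χ) (hs : tsupport χ ⊆ Ω) :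
    ∃ C : ℝ, 0 < C ∧ ∀ u v : Cn n → ℝ, C11 Ω u → SubOn Ω u → C11 Ω v → SubOn Ω v →
      (∀ z ∈ Ω, |u z| ≤ M) → (∀ z ∈ Ω, |v z| ≤ M) → ∀ ε : ℝ, 0 ≤ ε →
      (∀ z ∈ Ω, |u z - v z| ≤ ε) →
        |(∫ z in Ω, χ z * mad u z) - ∫ z in Ω, χ z * mad v z| ≤ C * ε := by
  obtain ⟨χ₁, h1s, h1c, h1Ω, V, hV, hLV, hV1⟩ := IBP11_cut hΩ hc hs
  have hχ11 : C11 Ω χ := xLoc_c11 hχ _ hΩ
  have h111 : C11 Ω χ₁ := xLoc_c11 h1s _ hΩ
  obtain ⟨H, hH0, hH⟩ := C11.hes_bdd hΩ hχ11 hc hs
  obtain ⟨C₀, hC₀, hcln⟩ := cln_loc hΩ hc hs M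
  have hχ0 : ∀ z, z ∉ tsupport χ → χ z = 0 := fun z hz => image_eq_zero_of_notMem_tsupport hz
  set D : ℝ := (n * H) * C₀ with hD
  have hD0 : 0 ≤ D := by positivity
  refine ⟨D + 1, by linarith, ?_⟩
  intro u v hu hus hv hvs huM hvM ε hε huv
  set w : Cn n → ℝ := fun z => χ₁ z * (v z + (-1) * u z) with hw
  have hwC : C11 Ω w := h111.mul hΩ (hv.add hΩ (hu.const_mul hΩ (-1)))
  have h0 : ∀ z, z ∉ tsupport χ₁ → w z = 0 := by
    intro z hz
    rw [hw]
    simp only
    rw [image_eq_zero_of_notMem_tsupport hz, zero_mul]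
  have hwV : ∀ z ∈ V, w z = v z - u z := by
    intro z hz
    rw [hw]
    simp only
    rw [hV1 z hz]
    ring
  have hseg := seg_mad hΩ hu hwC hχ11 h1c h1Ω h0
  have e1 : ∫ z in Ω, χ z * (mad (fun y => u y + w y) z - mad u z) =
      (∫ z in Ω, χ z * mad v z) - ∫ z in Ω, χ z * mad u z := by
    rw [← integral_sub (BTcmp_int hΩ hv hχ.continuous hc hs)
      (BTcmp_int hΩ hu hχ.continuous hc hs)]
    refine setIntegral_congr_fun hΩ.measurableSet (fun z _ => ?_)
    by_cases hzV : z ∈ V
    · have h3 : (fun y => u y + w y) =ᶠ[𝓝 z] v := by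
        filter_upwards [hV.mem_nhds hzV] with y hy
        rw [hwV y hy]
        ring
      have h4 : mad (fun y => u y + w y) z = mad v z := by
        unfold mad
        rw [LM_congr h3]
      rw [h4, mul_sub]
    · rw [hχ0 z (fun h => hzV (hLV h))]
      ring
  rw [e1] at hseg
  rw [abs_sub_comm, hseg]
  have hkey : ∀ s ∈ Set.uIoc (0 : ℝ) 1,
      ‖∫ z in Ω, w z * mal (fun y => u y + s * w y) χ z‖ ≤ D * ε := by
    intro s hs'
    rw [Set.uIoc_of_le (by norm_num)] at hs'
    have hs0 : 0 ≤ s := hs'.1.le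
    have hs1 : s ≤ 1 := hs'.2
    have hs2 : 0 ≤ 1 - s := by linarith
    set us : Cn n → ℝ := fun y => (1 - s) * u y + s * v y with hus'
    have hc1 : C11 Ω us := (hu.const_mul hΩ (1 - s)).add hΩ (hv.const_mul hΩ s)
    have hsub : SubOn Ω us := kw_sub_add (kw_sub_mul hus hs2) (kw_sub_mul hvs hs0)
      (hu.const_mul hΩ (1 - s)).continuousOn (hv.const_mul hΩ s).continuousOn
    have husM : ∀ z ∈ Ω, |us z| ≤ M := by
      intro z hz
      have h3 := abs_add_le ((1 - s) * u z) (s * v z)
      rw [abs_mul, abs_mul, abs_of_nonneg hs2, abs_of_nonneg hs0] at h3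
      have h4 := mul_le_mul_of_nonneg_left (huM z hz) hs2
      have h5 := mul_le_mul_of_nonneg_left (hvM z hz) hs0
      change |(1 - s) * u z + s * v z| ≤ M
      linarith
    have hpsd := (c11_sub_iff hΩ hc1).1 hsub
    have hclnu := hcln us hc1 hsub husM
    have hLMs : ∀ z ∈ V, LM (fun y => u y + s * w y) z = LM us z := by
      intro z hz
      refine LM_congr ?_
      filter_upwards [hV.mem_nhds hz] with y hy
      rw [hwV y hy, hus']
      simp only
      ring
    have hpt : ∀ᵐ z : Cn n, z ∈ Ω →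
        ENNReal.ofReal ‖w z * mal (fun y => u y + s * w y) χ z‖ ≤
          (tsupport χ).indicator (fun z => ENNReal.ofReal (ε * (n * H)) *
            ENNReal.ofReal (((LM us z).adjugate.trace).re)) z := by
      filter_upwards [hpsd] with z hz hzΩ
      by_cases hz2 : z ∈ tsupport χ
      · have hzV : z ∈ V := hLV hz2
        rw [indicator_of_mem hz2, ← ENNReal.ofReal_mul (by positivity)]
        refine ENNReal.ofReal_le_ofReal ?_
        rw [norm_mul]
        have h1 : ‖w z‖ ≤ ε := by
          rw [hwV z hzV, Real.norm_eq_abs, abs_sub_comm]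
          exact huv z hzΩ
        have h5 : mal (fun y => u y + s * w y) χ z = mal us χ z := by
          unfold mal
          rw [hLMs z hzV]
        have h2 := xLoc_mal hχ (hH z hz2) (hz hzΩ)
        rw [h5]
        have h3 := mul_le_mul h1 h2 (abs_nonneg _) hε
        refine h3.trans (le_of_eq ?_)
        ring
      · rw [Seg_mal_off hc hχ0 hz2, mul_zero, norm_zero, ENNReal.ofReal_zero]
        exact zero_le
    have hlin : ∫⁻ z in Ω,
        ENNReal.ofReal ‖w z * mal (fun y => u y + s * w y) χ z‖ ≤ ENNReal.ofReal (D * ε) := by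
      calc ∫⁻ z in Ω, ENNReal.ofReal ‖w z * mal (fun y => u y + s * w y) χ z‖ ≤
          ∫⁻ z in Ω, (tsupport χ).indicator (fun z => ENNReal.ofReal (ε * (n * H)) *
            ENNReal.ofReal (((LM us z).adjugate.trace).re)) z := by
            refine lintegral_mono_ae ?_
            rw [ae_restrict_iff' hΩ.measurableSet]
            exact hpt
        _ ≤ ∫⁻ z, (tsupport χ).indicator (fun z => ENNReal.ofReal (ε * (n * H)) *
            ENNReal.ofReal (((LM us z).adjugate.trace).re)) z :=
            setLIntegral_le_lintegral _ _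
        _ = ∫⁻ z in tsupport χ, ENNReal.ofReal (ε * (n * H)) *
            ENNReal.ofReal (((LM us z).adjugate.trace).re) :=
            lintegral_indicator (isClosed_tsupport χ).measurableSet _
        _ = ENNReal.ofReal (ε * (n * H)) * ∫⁻ z in tsupport χ,
            ENNReal.ofReal (((LM us z).adjugate.trace).re) :=
            lintegral_const_mul' _ _ ENNReal.ofReal_ne_top
        _ ≤ ENNReal.ofReal (ε * (n * H)) * ENNReal.ofReal C₀ := by
            gcongr
        _ = ENNReal.ofReal (D * ε) := by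
            rw [← ENNReal.ofReal_mul (by positivity)]
            congr 1
            rw [hD]
            ring
    refine (norm_integral_le_lintegral_norm _).trans ?_
    refine (ENNReal.toReal_mono ENNReal.ofReal_ne_top hlin).trans ?_
    rw [ENNReal.toReal_ofReal (by positivity)]
  have hfin := intervalIntegral.norm_integral_le_of_norm_le_const hkey
  rw [sub_zero, abs_one, mul_one] at hfin
  have hfin' : |∫ s in (0 : ℝ)..1, ∫ z in Ω, w z * mal (fun y => u y + s * w y) χ z| ≤ D * ε :=
    hfin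
  refine hfin'.trans ?_
  nlinarith

end HMA
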