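import Pool.Agent.H85.KW.Decay
import Pool.Agent.H85.KW.LocX
import Pool.Agent.H85.KM.XEn

/-! # Module JFun: the functional `J` -/

open MeasureTheory Metric Set Filter
open scoped ENNReal Topology ContDiff ComplexOrder

namespace HMA

variable {n : ℕ} {X : Type} [TopologicalSpace X] (K : KM n X)

variable [MeasurableSpace X] [BorelSpace X] [T2Space X] [CompactSpace X]

variable {μ : Measure X} [IsProbabilityMeasure μ]

omit [T2Space X] in
theorem JFun_int {ψ : X → ℝ} (hψ : C11X K ψ) : Integrable ψ μ := by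
  obtain ⟨C, hC0, hC⟩ := XEn_bdd K hψ
  exact Integrable.of_bound (C11X.continuous K hψ).aestronglyMeasurable C
    (Filter.Eventually.of_forall hC)

theorem KM.J_add_const {ψ : X → ℝ} (hψ : WK K ψ) (c : ℝ) :
    K.J μ (fun x => ψ x + c) = K.J μ ψ := by
  have hint : Integrable ψ μ := JFun_int K hψ.c11
  unfold KM.J
  rw [K.E_add_const hψ.c11, integral_add hint (integrable_const c), integral_const]
  simp only [probReal_univ, one_smul]
  ring

/-- normalisation by the maximum -/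
theorem JFun_norm [Nonempty X] {ψ : X → ℝ} (hψ : WK K ψ) : ∃ ψ' : X → ℝ, WK K ψ' ∧
    K.J μ ψ' = K.J μ ψ ∧ (∀ x, ψ' x ≤ 0) ∧ ∃ x, ψ' x = 0 := by
  obtain ⟨x₀, -, h⟩ := (isCompact_univ (X := X)).exists_isMaxOn univ_nonempty
    (C11X.continuous K hψ.c11).continuousOn
  refine ⟨fun x => ψ x + (-ψ x₀), WK.add_const' K hψ _, K.J_add_const hψ _, fun x => ?_, x₀, ?_⟩
  · have : ψ x ≤ ψ x₀ := h (mem_univ x)
    show ψ x + (-ψ x₀) ≤ 0
    linarith
  · show ψ x₀ + (-ψ x₀) = 0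
    ring

theorem KM.J_bdd [ConnectedSpace X] (hn : 1 ≤ n) (hμ : KModerate K μ) : ∃ S : ℝ,
    ∀ ψ : X → ℝ, WK K ψ → K.J μ ψ ≤ S := by
  obtain ⟨ε, hε, hε1, hU⟩ := K.unif hn hμ
  obtain ⟨C, hC, hU1⟩ := hU 1 one_pos
  refine ⟨K.vol.real univ * (C / ε), fun ψ hψ => ?_⟩
  obtain ⟨ψ', hψ', hJ, h0, x₀, hx₀⟩ := JFun_norm K (μ := μ) hψ
  rw [← hJ]
  have hE := K.E_le hψ' le_rfl h0
  rw [zero_mul] at hE
  have hF : KPsh K (fun x => Real.exp (ψ' x)) := kpsh_of_wk K hψ'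
  have h1 := hU1 _ hF (fun x => Real.exp_le_one_iff.2 (h0 x)) ⟨x₀, by rw [hx₀, Real.exp_zero]⟩
  have hcont := C11X.continuous K hψ'.c11
  have hce : Continuous (fun x => Real.exp (-ε * ψ' x)) :=
    Real.continuous_exp.comp (continuous_const.mul hcont)
  have h2 : ∫ x, Real.exp (-ε * ψ' x) ∂μ ≤ C := by
    rw [integral_eq_lintegral_of_nonneg_ae (Filter.Eventually.of_forall fun x => (Real.exp_pos _).le)
      hce.aestronglyMeasurable]
    refine ENNReal.toReal_le_of_le_ofReal hC.le ?_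
    refine le_trans (le_of_eq ?_) h1
    refine lintegral_congr fun x => ?_
    rw [ENNReal.ofReal_rpow_of_pos (Real.exp_pos _), ← Real.exp_mul, mul_comm]
  obtain ⟨A, hA0, hA⟩ := XEn_bdd K hψ'.c11
  have hexp_int : Integrable (fun x => Real.exp (-ε * ψ' x)) μ := by
    refine Integrable.of_bound hce.aestronglyMeasurable
      (Real.exp (ε * A)) (Filter.Eventually.of_forall fun x => ?_)
    rw [Real.norm_eq_abs, abs_of_pos (Real.exp_pos _)]
    apply Real.exp_le_exp.2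
    have h3 := (abs_le.1 (hA x)).1
    nlinarith
  have h3 : ∫ x, -ψ' x ∂μ ≤ ∫ x, Real.exp (-ε * ψ' x) / ε ∂μ := by
    refine integral_mono (JFun_int K hψ'.c11).neg (hexp_int.div_const ε) fun x => ?_
    show -ψ' x ≤ Real.exp (-ε * ψ' x) / ε
    rw [le_div_iff₀ hε]
    have := Real.add_one_le_exp (-ε * ψ' x)
    linarith
  rw [integral_neg, integral_div] at h3
  have h4 : (∫ x, Real.exp (-ε * ψ' x) ∂μ) / ε ≤ C / ε := by gcongr
  have hV : 0 ≤ K.vol.real univ := measureReal_nonneg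
  have h5 : K.vol.real univ * -(∫ x, ψ' x ∂μ) ≤ K.vol.real univ * (C / ε) :=
    mul_le_mul_of_nonneg_left (h3.trans h4) hV
  unfold KM.J
  linarith

theorem KM.exists_amax [ConnectedSpace X] (hn : 1 ≤ n) (hμ : KModerate K μ) {δ : ℝ}
    (hδ : 0 < δ) : ∃ ψ : X → ℝ, Amax K μ δ ψ ∧ (∀ x, ψ x ≤ 0) ∧ ∃ x, ψ x = 0 := by
  obtain ⟨S, hS⟩ := K.J_bdd hn hμ
  set T : Set ℝ := {t | ∃ ψ : X → ℝ, WK K ψ ∧ K.J μ ψ = t} with hT
  have hne : T.Nonempty := ⟨_, _, wk_const K 0, rfl⟩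
  have hbdd : BddAbove T := ⟨S, by rintro t ⟨ψ, hψ, rfl⟩; exact hS ψ hψ⟩
  obtain ⟨t, ⟨ψ, hψ, rfl⟩, ht⟩ := exists_lt_of_lt_csSup hne (show sSup T - δ < sSup T by linarith)
  obtain ⟨ψ', hψ', hJ, h0, x₀, hx₀⟩ := JFun_norm K (μ := μ) hψ
  refine ⟨ψ', ⟨hψ', fun χ hχ => ?_⟩, h0, x₀, hx₀⟩
  rw [hJ]
  have := le_csSup hbdd ⟨χ, hχ, rfl⟩
  linarith

end HMA
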