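import Pool.Agent.H85.KW.Defs
import Pool.Agent.H85.KM.XEn
import Pool.Agent.H85.KM.XTheta

/-! # Module KIm: the key inequality for almost maximal functions -/

open MeasureTheory Metric Set Filter
open scoped ENNReal Topology ContDiff ComplexOrder

namespace HMA

variable {n : ℕ} {X : Type} [TopologicalSpace X] (K : KM n X)

variable [MeasurableSpace X] [BorelSpace X] [T2Space X] [CompactSpace X]

variable {ψ h : X → ℝ}

omit [MeasurableSpace X] [BorelSpace X] [T2Space X] [CompactSpace X] in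
theorem KIm_diff (hψ : C11X K ψ) (hh : C11X K h) : C11X K (fun x => h x - ψ x) := by
  have h1 := C11X.add K hh (C11X.const_mul K hψ (-1))
  have e : (fun x => h x + (-1) * ψ x) = fun x => h x - ψ x := by funext x; ring
  rwa [e] at h1

omit [MeasurableSpace X] [BorelSpace X] [T2Space X] [CompactSpace X] in
theorem KIm_c11 (hψ : C11X K ψ) (hh : C11X K h) {θ : ℝ → ℝ} (hθ : ContDiff ℝ ∞ θ) :
    C11X K (fun x => ψ x + θ (h x - ψ x)) := by
  have hθ2 : ContDiff ℝ 2 θ := (contDiff_infty.1 hθ) 2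
  exact C11X.add K hψ (fun i => C11.comp_real isOpen_ball (KIm_diff K hψ hh i) hθ2)

theorem WK.theta2 (hψ : WK K ψ) (hh : WK K h) {θ : ℝ → ℝ} (hθ : ContDiff ℝ ∞ θ)
    (h1 : ∀ x, 0 ≤ deriv θ x ∧ deriv θ x ≤ 1) (h2 : ∀ x, 0 ≤ deriv (deriv θ) x) :
    WK K (fun x => ψ x + θ (h x - ψ x)) := by
  have hθ2 : ContDiff ℝ 2 θ := (contDiff_infty.1 hθ) 2
  have hc := KIm_c11 K hψ.c11 hh.c11 hθ
  refine ⟨hc, fun i => ?_⟩
  have hρ : C11 (ball 0 3) (K.ρ i) := KM.ρ_c11 K i
  rw [c11_sub_iff isOpen_ball (C11.add isOpen_ball hρ (hc i))]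
  have h3 := (c11_sub_iff isOpen_ball (C11.add isOpen_ball hρ (hψ.c11 i))).1 (hψ.sub i)
  have h4 := (c11_sub_iff isOpen_ball (C11.add isOpen_ball hρ (hh.c11 i))).1 (hh.sub i)
  filter_upwards [h3, h4, C11.ae_twD isOpen_ball hρ, C11.ae_twD isOpen_ball (hψ.c11 i),
    C11.ae_twD isOpen_ball (hh.c11 i)] with z hz1 hz1' hz2 hz3 hz4 hz
  have t1 := hz2 hz
  have t2 := hz3 hz
  have t3 := hz4 hz
  have p1 := hz1 hz
  have p2 := hz1' hz
  have t4 := TwD.const_mul t2 (-1)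
  have t5 := TwD.add t3 t4.1
  have e5 : (fun z => h (K.κ i z) + (-1) * ψ (K.κ i z)) = fun z => h (K.κ i z) - ψ (K.κ i z) := by
    funext z; ring
  rw [e5] at t5
  obtain ⟨t6, G, hG, hG2⟩ := TwD.comp_real t5.1 hθ2
  rw [(TwD.add t1 t2).2] at p1
  rw [(TwD.add t1 t3).2] at p2
  have t7 := TwD.add t2 t6
  rw [(TwD.add t1 t7.1).2, t7.2, hG2, t5.2, t4.2]
  set θ1 : ℝ := deriv θ (h (K.κ i z) - ψ (K.κ i z)) with hθ1
  set θ2 : ℝ := deriv (deriv θ) (h (K.κ i z) - ψ (K.κ i z)) with hθ22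
  set P := LM (fun z => ψ (K.κ i z)) z with hP
  set H := LM (fun z => h (K.κ i z)) z with hH
  set R := LM (K.ρ i) z with hR
  have e : R + (P + (((θ1 : ℝ) : ℂ) • (H + (((-1 : ℝ) : ℝ) : ℂ) • P) + ((θ2 : ℝ) : ℂ) • G)) =
      (((1 - θ1 : ℝ) : ℂ) • (R + P) + ((θ1 : ℝ) : ℂ) • (R + H)) + ((θ2 : ℝ) : ℂ) • G := by
    push_cast
    module
  rw [e]
  exact ((xtheta_smul p1 (sub_nonneg.2 (h1 _).2)).add
    (xtheta_smul p2 (h1 _).1)).add (xtheta_smul hG (h2 _))

/-- `RM` is local -/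
theorem KM.RM_local {u v : X → ℝ} {x : X} (h : ∀ᶠ y in 𝓝 x, u y = v y) :
    K.RM u x = K.RM v x := by
  have hco := K.co_spec x
  have hc : ContinuousAt (K.κ (K.ix x)) (K.co x) :=
    (K.cont (K.ix x)).continuousAt (isOpen_ball.mem_nhds (xRel_co3 K x))
  have h0 : ∀ᶠ y in 𝓝 (K.κ (K.ix x) (K.co x)), u y = v y := by
    rw [hco.2]
    exact h
  have h1 : ∀ᶠ z in 𝓝 (K.co x), u (K.κ (K.ix x) z) = v (K.κ (K.ix x) z) := hc.eventually h0
  have h2 : (fun z => K.ρ (K.ix x) z + u (K.κ (K.ix x) z)) =ᶠ[𝓝 (K.co x)]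
      fun z => K.ρ (K.ix x) z + v (K.κ (K.ix x) z) := by
    filter_upwards [h1] with z hz
    rw [hz]
  simp only [KM.RM, mad]
  rw [LM_congr h2]

omit [T2Space X] in
theorem KIm_int {μ : Measure X} [IsFiniteMeasure μ] {f : X → ℝ} (hf : Continuous f) :
    Integrable f μ := by
  obtain ⟨C, hC⟩ := (isCompact_univ (X := X)).exists_bound_of_continuousOn hf.continuousOn
  exact Integrable.of_bound hf.aestronglyMeasurable C
    (Filter.Eventually.of_forall fun x => hC x (mem_univ x))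

theorem KIm_step {μ : Measure X} [IsProbabilityMeasure μ] {δ : ℝ} (hψ : Amax K μ δ ψ)
    (hh : WK K h) {η : ℝ} (hη : 0 < η) :
    (1 / (n + 1 : ℝ)) * ∫ x, max (h x - ψ x) 0 * K.RM h x ∂K.vol ≤
      K.vol.real univ * ∫ x, max (h x - ψ x) 0 ∂μ + δ + 2 * K.vol.real univ * η := by
  obtain ⟨θ, hθ, hθ0, hθ1, hd1, hd2, hθb⟩ := exists_theta hη
  set V := K.vol.real univ with hV
  have hV0 : 0 ≤ V := measureReal_nonneg
  have hχ : WK K (fun x => ψ x + θ (h x - ψ x)) := WK.theta2 K hψ.wk hh hθ hd1 hd2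
  set χ : X → ℝ := fun x => ψ x + θ (h x - ψ x) with hχd
  have hcψ : Continuous ψ := C11X.continuous K hψ.wk.c11
  have hch : Continuous h := C11X.continuous K hh.c11
  have hcχ : Continuous χ := C11X.continuous K hχ.c11
  have hcm : Continuous (fun x => max (h x - ψ x) 0) := (hch.sub hcψ).max continuous_const
  -- energy
  have h1 := hψ.max χ hχ
  unfold KM.J at h1
  have h2 : ∫ x, χ x ∂μ - ∫ x, ψ x ∂μ ≤ ∫ x, max (h x - ψ x) 0 ∂μ + η := by
    rw [← integral_sub (KIm_int hcχ) (KIm_int hcψ)]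
    have e : ∫ x, max (h x - ψ x) 0 ∂μ + η = ∫ x, (max (h x - ψ x) 0 + η) ∂μ := by
      rw [integral_add (KIm_int hcm) (integrable_const η), integral_const]
      simp
    rw [e]
    refine integral_mono (KIm_int (hcχ.sub hcψ)) (KIm_int (hcm.add continuous_const)) ?_
    intro x
    have := (hθb (h x - ψ x)).2
    simp only [hχd]
    linarith
  have h3 : K.E χ - K.E ψ ≤ V * ∫ x, max (h x - ψ x) 0 ∂μ + V * η + δ := by
    have h4 := mul_le_mul_of_nonneg_left h2 hV0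
    rw [mul_sub, mul_add] at h4
    linarith
  have hle : ∀ x, ψ x ≤ χ x := by
    intro x
    have := (hθb (h x - ψ x)).1
    have h5 := le_max_right (h x - ψ x) 0
    simp only [hχd]
    linarith
  have h4 := K.E_mono hψ.wk hχ hle
  -- comparison of the integrals
  have hRh := XEn_RM_int K hh.c11
  have hI1 : Integrable (fun x => max (h x - ψ x) 0 * K.RM h x) K.vol := by
    obtain ⟨C, hC⟩ := (isCompact_univ (X := X)).exists_bound_of_continuousOn hcm.continuousOn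
    exact hRh.bdd_mul hcm.aestronglyMeasurable
      (Filter.Eventually.of_forall fun x => hC x (mem_univ x))
  have hdiff : C11X K (fun x => χ x - ψ x) := KIm_diff K hψ.wk.c11 hχ.c11
  have hI2 : Integrable (fun x => (χ x - ψ x) * K.RM χ x) K.vol := XEn_mul_int K hχ.c11 hdiff
  have h5 : ∫ x, max (h x - ψ x) 0 * K.RM h x ∂K.vol ≤
      ∫ x, (χ x - ψ x) * K.RM χ x ∂K.vol + η * V := by
    rw [hV, ← K.mass hh.c11, ← integral_const_mul, ← integral_add hI2 (hRh.const_mul η)]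
    refine integral_mono_ae hI1 (hI2.add (hRh.const_mul η)) ?_
    filter_upwards [K.RM_nonneg hh, K.RM_nonneg hχ] with x hx1 hx2
    by_cases hc : η < h x - ψ x
    · have hloc : K.RM χ x = K.RM h x := by
        apply K.RM_local
        have hev : ∀ᶠ y in 𝓝 x, η < h y - ψ y :=
          continuousAt_const.eventually_lt (hch.sub hcψ).continuousAt hc
        filter_upwards [hev] with y hy
        simp only [hχd]
        rw [hθ1 _ hy.le]
        ring
      have hχx : χ x - ψ x = h x - ψ x := by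
        simp only [hχd]
        rw [hθ1 _ hc.le]
        ring
      rw [hloc, hχx, max_eq_left (by linarith)]
      have : 0 ≤ η * K.RM h x := mul_nonneg hη.le hx1
      linarith
    · push Not at hc
      have h6 : max (h x - ψ x) 0 ≤ η := max_le hc hη.le
      have h7 : 0 ≤ (χ x - ψ x) * K.RM χ x := mul_nonneg (sub_nonneg.2 (hle x)) hx2
      have h8 : max (h x - ψ x) 0 * K.RM h x ≤ η * K.RM h x := mul_le_mul_of_nonneg_right h6 hx1
      linarith
  have hn : (1 / (n + 1 : ℝ)) ≤ 1 := by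
    rw [div_le_one (by positivity)]
    linarith [(Nat.cast_nonneg n : (0 : ℝ) ≤ n)]
  have hn0 : 0 ≤ (1 / (n + 1 : ℝ)) := by positivity
  calc (1 / (n + 1 : ℝ)) * ∫ x, max (h x - ψ x) 0 * K.RM h x ∂K.vol
      ≤ (1 / (n + 1 : ℝ)) * (∫ x, (χ x - ψ x) * K.RM χ x ∂K.vol + η * V) :=
        mul_le_mul_of_nonneg_left h5 hn0
    _ = (1 / (n + 1 : ℝ)) * ∫ x, (χ x - ψ x) * K.RM χ x ∂K.vol + (1 / (n + 1 : ℝ)) * (η * V) := by
        ring
    _ ≤ (K.E χ - K.E ψ) + 1 * (η * V) :=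
        add_le_add h4 (mul_le_mul_of_nonneg_right hn (by positivity))
    _ ≤ _ := by linarith

theorem KM.key_ineq {μ : Measure X} [IsProbabilityMeasure μ] {δ : ℝ} (hψ : Amax K μ δ ψ) :
    KIneq K μ δ ψ := by
  intro h hh
  set V := K.vol.real univ with hV
  have hV0 : 0 ≤ V := measureReal_nonneg
  refine le_of_forall_pos_le_add fun ε hε => ?_
  have h1 := KIm_step K hψ hh (η := ε / (2 * V + 1)) (by positivity)
  refine h1.trans ?_
  have h2 : 2 * V * (ε / (2 * V + 1)) ≤ ε := by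
    rw [mul_div_assoc', div_le_iff₀ (by positivity)]
    nlinarith
  linarith

end HMA
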