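import Pool.Agent.H85.KW.StabC
import Pool.Agent.H85.KW.JFun
import Pool.Agent.H85.KW.KIm

/-! # Module BddMax: bounded almost maximal functions -/

open MeasureTheory Metric Set Filter
open scoped ENNReal Topology ContDiff ComplexOrder

namespace HMA

variable {n : ℕ} {X : Type} [TopologicalSpace X] (K : KM n X)

variable [MeasurableSpace X] [BorelSpace X] [T2Space X] [CompactSpace X]

/-- integration of the exponential decay -/
theorem bddmax_tail {μ : Measure X} [IsProbabilityMeasure μ] {ψ : X → ℝ} (hc : Continuous ψ)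
    {C ε : ℝ} (hC : 0 < C) (hε : 0 < ε)
    (hd : ∀ t : ℝ, 0 ≤ t → μ.real {x | ψ x < -t} ≤ C * Real.exp (-ε * t)) {s : ℝ} (hs : 0 ≤ s) :
    ∫ x, max (0 - s - ψ x) 0 ∂μ ≤ C / ε * Real.exp (-ε * s) := by
  have hf : Continuous (fun x => max (0 - s - ψ x) 0) := by fun_prop
  have hint : Integrable (fun x => max (0 - s - ψ x) 0) μ := by
    obtain ⟨B, hB⟩ := (isCompact_univ (X := X)).exists_bound_of_continuousOn hf.continuousOn
    exact Integrable.of_bound hf.aestronglyMeasurable B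
      (Filter.Eventually.of_forall fun x => hB x (mem_univ _))
  rw [hint.integral_eq_integral_meas_lt (Filter.Eventually.of_forall fun x => le_max_right _ _)]
  have hg : IntegrableOn (fun t : ℝ => C * Real.exp (-ε * s) * Real.exp (-ε * t)) (Ioi 0) :=
    (integrableOn_exp_mul_Ioi (neg_lt_zero.2 hε) 0).const_mul _
  have h1 : ∫ t in Ioi (0 : ℝ), μ.real {a | t < max (0 - s - ψ a) 0} ≤
      ∫ t in Ioi (0 : ℝ), C * Real.exp (-ε * s) * Real.exp (-ε * t) := by
    refine integral_mono_of_nonneg (Filter.Eventually.of_forall fun t => measureReal_nonneg) hg ?_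
    filter_upwards [ae_restrict_mem measurableSet_Ioi] with t ht
    have ht0 : 0 < t := ht
    have e1 : {a | t < max (0 - s - ψ a) 0} ⊆ {x | ψ x < -(s + t)} := by
      intro x hx
      have hx' : t < max (0 - s - ψ x) 0 := hx
      rcases lt_max_iff.1 hx' with h | h
      · show ψ x < -(s + t)
        linarith
      · exact absurd h (not_lt.2 ht0.le)
    calc μ.real {a | t < max (0 - s - ψ a) 0} ≤ μ.real {x | ψ x < -(s + t)} :=
          measureReal_mono e1
      _ ≤ C * Real.exp (-ε * (s + t)) := hd _ (by linarith)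
      _ = C * Real.exp (-ε * s) * Real.exp (-ε * t) := by
          rw [mul_add, Real.exp_add, mul_assoc]
  refine h1.trans (le_of_eq ?_)
  rw [integral_const_mul, integral_exp_mul_Ioi (neg_lt_zero.2 hε)]
  rw [mul_zero, Real.exp_zero]
  field_simp

theorem bddmax_int {μ : Measure X} [IsProbabilityMeasure μ] {f : X → ℝ} (hf : Continuous f) :
    Integrable f μ := by
  obtain ⟨B, hB⟩ := (isCompact_univ (X := X)).exists_bound_of_continuousOn hf.continuousOn
  exact Integrable.of_bound hf.aestronglyMeasurable B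
    (Filter.Eventually.of_forall fun x => hB x (mem_univ _))

theorem KM.exists_bdd_max [ConnectedSpace X] (hn : 1 ≤ n) {μ : Measure X}
    [IsProbabilityMeasure μ] (hμ : KModerate K μ) : ∃ B₀ : ℝ, 0 < B₀ ∧ ∀ δ : ℝ, 0 < δ →
      ∃ ψ : X → ℝ, Amax K μ δ ψ ∧ ∀ x, |ψ x| ≤ B₀ := by
  have := K.vol_finite
  set V : ℝ := K.vol.real univ with hV
  have hVpos : 0 < V := ENNReal.toReal_pos K.vol_pos.ne' (measure_ne_top _ _)
  obtain ⟨ε, hε, hdec⟩ := K.exp_decay hn hμ
  obtain ⟨C, hC, hdec⟩ := hdec 1 one_pos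
  obtain ⟨c₀, C', hc₀, hC', hstab⟩ := K.stab_core hn hμ hC hε (le_refl (0 : ℝ))
  -- the starting level
  obtain ⟨s₀, hs₀, hs₀'⟩ : ∃ s₀ : ℝ, 0 ≤ s₀ ∧ V * (C / ε * Real.exp (-ε * s₀)) ≤ c₀ := by
    have h1 : Tendsto (fun s : ℝ => V * (C / ε * Real.exp (-ε * s))) atTop (𝓝 0) := by
      have h2 : Tendsto (fun s : ℝ => Real.exp (-ε * s)) atTop (𝓝 0) := by
        refine Real.tendsto_exp_atBot.comp ?_
        exact tendsto_id.const_mul_atTop_of_neg (neg_lt_zero.2 hε)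
      have h3 := (h2.const_mul (C / ε)).const_mul V
      simpa using h3
    obtain ⟨s, hs1, hs2⟩ := ((h1.eventually (ge_mem_nhds hc₀)).and (eventually_ge_atTop 0)).exists
    exact ⟨s, hs2, hs1⟩
  set γ : ℝ := (1 / (3 * (n + 1)) : ℝ) with hγ
  have hγ0 : 0 ≤ γ := by rw [hγ]; positivity
  set S : ℝ := s₀ + C' * c₀ ^ γ with hS
  have hS0 : 0 ≤ S := by rw [hS]; positivity
  refine ⟨S + 1, by linarith, fun δ hδ => ?_⟩
  set δ' : ℝ := min c₀ (δ / 4) with hδ'
  have hδ'pos : 0 < δ' := lt_min hc₀ (by linarith)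
  set η : ℝ := min 1 (δ / (2 * V)) with hη
  have hηpos : 0 < η := lt_min one_pos (by positivity)
  have hη1 : η ≤ 1 := min_le_left _ _
  have hVη : V * η ≤ δ / 2 := by
    calc V * η ≤ V * (δ / (2 * V)) := mul_le_mul_of_nonneg_left (min_le_right _ _) hVpos.le
      _ = δ / 2 := by field_simp
  obtain ⟨ψ, hψ, hψ0, hψ1⟩ := K.exists_amax hn hμ hδ'pos
  have hψc : Continuous ψ := C11X.continuous K hψ.wk.c11
  have hF1 : ∀ x, Real.exp (ψ x) ≤ 1 := fun x => Real.exp_le_one_iff.2 (hψ0 x)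
  have hF2 : ∃ x, 1 ≤ Real.exp (ψ x) := by
    obtain ⟨x, hx⟩ := hψ1
    exact ⟨x, by rw [hx, Real.exp_zero]⟩
  have hd : ∀ t : ℝ, 0 ≤ t → μ.real {x | ψ x < -t} ≤ C * Real.exp (-ε * t) := by
    intro t _
    refine (measureReal_mono ?_).trans (hdec _ (kpsh_of_wk K hψ.wk) hF1 hF2 t)
    intro x hx
    exact Real.exp_le_exp.2 (le_of_lt hx)
  have hpb : PB K ψ := PC.pb K (WK.pc K hψ.wk)
  -- values of `a`
  have ha0 : K.aI μ (fun _ => 0) ψ s₀ ≤ c₀ :=
    (mul_le_mul_of_nonneg_left (bddmax_tail hψc hC hε hd hs₀) hVpos.le).trans hs₀'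
  have hmax : max (K.aI μ (fun _ => 0) ψ s₀) δ' ≤ c₀ := max_le ha0 (min_le_left _ _)
  have hst := hstab δ' ψ hδ'pos.le hpb hd (K.key_ineq hψ) (fun _ => 0) (wk_const K 0)
    (fun x => ⟨le_refl 0, le_refl 0⟩) s₀ hs₀ hmax
  have hsS : s₀ + C' * (max (K.aI μ (fun _ => 0) ψ s₀) δ') ^ γ ≤ S := by
    have h1 : (max (K.aI μ (fun _ => 0) ψ s₀) δ') ^ γ ≤ c₀ ^ γ :=
      Real.rpow_le_rpow (hδ'pos.le.trans (le_max_right _ _)) hmax hγ0
    have h2 := mul_le_mul_of_nonneg_left h1 hC'.le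
    linarith
  have haS : V * ∫ x, max (-S - ψ x) 0 ∂μ ≤ δ' := by
    refine le_trans (mul_le_mul_of_nonneg_left ?_ hVpos.le) hst
    refine integral_mono (bddmax_int (by fun_prop)) (bddmax_int (by fun_prop)) fun x => ?_
    refine max_le_max ?_ le_rfl
    linarith
  -- the bounded function
  obtain ⟨θ, hθ, -, -, hθ1, hθ2, hθ3⟩ := exists_theta hηpos
  have hwk : WK K (fun x => ψ x + θ (-S - ψ x)) := WK.theta2 K hψ.wk (wk_const K (-S)) hθ hθ1 hθ2
  have hlow : ∀ x, ψ x ≤ ψ x + θ (-S - ψ x) := fun x => by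
    have := (hθ3 (-S - ψ x)).1
    have h2 := le_max_right (-S - ψ x) 0
    linarith
  refine ⟨fun x => ψ x + θ (-S - ψ x), ⟨hwk, fun χ hχ => ?_⟩, fun x => ?_⟩
  · have h1 := hψ.max χ hχ
    have h2 := K.E_mono' hψ.wk hwk hlow
    have h3 : ∫ x, (ψ x + θ (-S - ψ x)) ∂μ ≤ ∫ x, ψ x ∂μ + (∫ x, max (-S - ψ x) 0 ∂μ + η) := by
      have e1 : ∫ x, ψ x ∂μ + (∫ x, max (-S - ψ x) 0 ∂μ + η) =
          ∫ x, (ψ x + (max (-S - ψ x) 0 + η)) ∂μ := by
        have i1 : Integrable ψ μ := bddmax_int hψc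
        have i2 : Integrable (fun x => max (-S - ψ x) 0) μ := bddmax_int (by fun_prop)
        have i3 : Integrable (fun _ : X => η) μ := integrable_const _
        have e2 : ∫ x, (ψ x + (max (-S - ψ x) 0 + η)) ∂μ =
            ∫ x, ψ x ∂μ + ∫ x, (max (-S - ψ x) 0 + η) ∂μ := integral_add i1 (i2.add i3)
        have e3 : ∫ x, (max (-S - ψ x) 0 + η) ∂μ =
            ∫ x, max (-S - ψ x) 0 ∂μ + ∫ _ : X, η ∂μ := integral_add i2 i3
        rw [e2, e3]
        simp
      rw [e1]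
      have hθc : Continuous θ := hθ.continuous
      refine integral_mono (bddmax_int (by fun_prop)) (bddmax_int (by fun_prop)) fun x => ?_
      have := (hθ3 (-S - ψ x)).2
      show ψ x + θ (-S - ψ x) ≤ ψ x + (max (-S - ψ x) 0 + η)
      linarith
    have h4 := mul_le_mul_of_nonneg_left h3 hVpos.le
    have h5 : δ' ≤ δ / 4 := min_le_right _ _
    simp only [KM.J] at h1 ⊢
    rw [← hV] at h1 ⊢
    have h6 : V * (∫ x, ψ x ∂μ + (∫ x, max (-S - ψ x) 0 ∂μ + η)) =
        V * ∫ x, ψ x ∂μ + (V * ∫ x, max (-S - ψ x) 0 ∂μ + V * η) := by ring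
    rw [h6] at h4
    linarith
  · have h1 := hθ3 (-S - ψ x)
    have h2 := hψ0 x
    have h3 := le_max_left (-S - ψ x) 0
    rw [abs_le]
    constructor
    · linarith [h1.1]
    · have h4 : max (-S - ψ x) 0 ≤ -ψ x := max_le (by linarith) (by linarith)
      linarith [h1.2]

end HMA
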