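import Pool.Agent.H85.KW.Conc
import Pool.Agent.H85.KM.XLoc

/-! # Module Bump: upper bound for the Monge-Ampère measure of almost maximal functions -/

open MeasureTheory Metric Set Filter
open scoped ENNReal Topology ContDiff ComplexOrder

namespace HMA

variable {n : ℕ} {X : Type} [TopologicalSpace X] (K : KM n X)

variable [MeasurableSpace X] [BorelSpace X] [T2Space X] [CompactSpace X]

omit [T2Space X] in
theorem Bump_int {μ : Measure X} [IsProbabilityMeasure μ] {f : X → ℝ} (hf : Continuous f) :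
    Integrable f μ := by
  obtain ⟨C, hC⟩ := (isCompact_univ (X := X)).exists_bound_of_continuousOn hf.continuousOn
  exact Integrable.of_bound hf.aestronglyMeasurable C
    (Filter.Eventually.of_forall fun x => hC x (mem_univ x))

theorem KM.bump {μ : Measure X} [IsProbabilityMeasure μ] (i : Fin K.N) {b : Cn n → ℝ}
    (hb : ContDiff ℝ ∞ b) (hb0 : ∀ z, 0 ≤ b z) (hbs : tsupport b ⊆ ball 0 2) (M : ℝ) :
    ∃ C : ℝ, 0 < C ∧ ∀ (δ : ℝ) (φ : X → ℝ), 0 < δ → δ ≤ 1 → Amax K μ δ φ → (∀ x, |φ x| ≤ M) →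
      ∫ x, K.ext i b x * K.RM φ x ∂K.vol ≤
        K.vol.real univ * ∫ x, K.ext i b x ∂μ + C * Real.sqrt δ := by
  obtain ⟨C, hC0, hC⟩ := KM.loc_mass K i hb hb0 hbs M
  refine ⟨C + 1, by positivity, ?_⟩
  intro δ φ hδ0 hδ1 hA hφM
  set t : ℝ := Real.sqrt δ with ht
  have ht0 : 0 < t := Real.sqrt_pos.mpr hδ0
  have ht1 : t ≤ 1 := by
    rw [ht]
    exact Real.sqrt_le_one.mpr hδ1
  have htt : t * t = δ := Real.mul_self_sqrt hδ0.le
  obtain ⟨g, hg, hgb, hWK, hint⟩ := KM.loc_mod K hA.wk i hb hb0 hbs ht0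
  have hV0 : 0 ≤ K.vol.real univ := measureReal_nonneg
  have hL : IsCompact (tsupport b) := xLoc_compact hbs
  have hL3 : tsupport b ⊆ ball 0 3 := hbs.trans (ball_subset_ball (by norm_num))
  have hextb : C11X K (K.ext i b) := c11X_ext K i (xLoc_c11 hb _ isOpen_ball) hL hL3 (fun z hz => image_eq_zero_of_notMem_tsupport hz)
  have hcb : Continuous (K.ext i b) := C11X.continuous K hextb
  have hcφ : Continuous φ := C11X.continuous K hA.wk.c11
  have hcg' : Continuous (fun x => φ x + K.ext i g x) := C11X.continuous K hWK.c11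
  have hcg : Continuous (K.ext i g) := by
    have h1 : Continuous (fun x => (φ x + K.ext i g x) - φ x) := hcg'.sub hcφ
    have h2 : (fun x => (φ x + K.ext i g x) - φ x) = K.ext i g := by
      funext x
      ring
    rwa [h2] at h1
  have hgbx : ∀ x, K.ext i g x ≤ t * K.ext i b x := by
    intro x
    unfold KM.ext
    split_ifs
    · exact (hgb _).2
    · simp
  -- the inequality from the maximality
  have h1 := hA.max _ hWK
  unfold KM.J at h1
  rw [integral_add (Bump_int hcφ) (Bump_int hcg)] at h1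
  have h2 : ∫ x, K.ext i g x ∂μ ≤ t * ∫ x, K.ext i b x ∂μ := by
    rw [← integral_const_mul]
    exact integral_mono (Bump_int hcg) ((Bump_int hcb).const_mul t) hgbx
  have h3 := KM.E_concave K hWK hA.wk
  have h4 : (fun x => (φ x - (φ x + K.ext i g x)) * K.RM (fun y => φ y + K.ext i g y) x) =
      fun x => -(K.ext i g x * K.RM (fun y => φ y + K.ext i g y) x) := by
    funext x
    ring
  rw [h4, integral_neg, hint] at h3
  set J : ℝ := ∫ x, K.ext i b x * K.RM (fun y => φ y + K.ext i g y) x ∂K.vol with hJ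
  have h5 : t * J ≤ t * (K.vol.real univ * ∫ x, K.ext i b x ∂μ + t) := by
    have h6 : K.vol.real univ * ∫ x, K.ext i g x ∂μ ≤
        K.vol.real univ * (t * ∫ x, K.ext i b x ∂μ) := mul_le_mul_of_nonneg_left h2 hV0
    have h7 : t * (K.vol.real univ * ∫ x, K.ext i b x ∂μ + t) =
        K.vol.real univ * (t * ∫ x, K.ext i b x ∂μ) + δ := by
      rw [← htt]
      ring
    rw [h7]
    linarith
  have h6 : J ≤ K.vol.real univ * ∫ x, K.ext i b x ∂μ + t := le_of_mul_le_mul_left h5 ht0
  have h7 := (abs_le.1 (hC φ hA.wk hφM t ht0 ht1 g hg hgb hWK)).1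
  have h8 : (C + 1) * t = C * t + t := by ring
  rw [h8]
  linarith

end HMA
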