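import Pool.Agent.H85.KW.Defs
import Pool.Agent.H85.KM.CLN
import Pool.Agent.H85.KM.SubComp

/-! # Module CLNloc: the Chern-Levine-Nirenberg inequality on compact sets -/

open MeasureTheory Metric Set Filter
open scoped ENNReal Topology ContDiff ComplexOrder

namespace HMA

/-- dilation -/
noncomputable def clnloc_F {n : ℕ} (a : Cn n) (ε : ℝ) (z : Cn n) : Cn n := a + (ε : ℂ) • z

theorem clnloc_fderiv {n : ℕ} (a : Cn n) (ε : ℝ) (z : Cn n) :
    HasFDerivAt (clnloc_F a ε) ((ε : ℂ) • ContinuousLinearMap.id ℂ (Cn n)) z :=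
  ((hasFDerivAt_id z).const_smul (ε : ℂ)).const_add a

theorem clnloc_diff {n : ℕ} (a : Cn n) (ε : ℝ) : Differentiable ℂ (clnloc_F a ε) := fun z =>
  (clnloc_fderiv a ε z).differentiableAt

theorem clnloc_jac {n : ℕ} (a : Cn n) (ε : ℝ) (z : Cn n) :
    jac (clnloc_F a ε) z = (ε : ℂ) • (1 : Matrix (Fin n) (Fin n) ℂ) := by
  ext j k
  unfold jac
  rw [(clnloc_fderiv a ε z).fderiv]
  simp [bv, Matrix.one_apply, Pi.single_apply, eq_comm]

theorem clnloc_contDiff {n : ℕ} (a : Cn n) (ε : ℝ) : ContDiff ℂ 2 (clnloc_F a ε) := by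
  unfold clnloc_F
  fun_prop

theorem clnloc_LM {n : ℕ} (a : Cn n) {ε : ℝ} (hε : 0 < ε) {u : Cn n → ℝ} {z : Cn n}
    (hu : TwD u (clnloc_F a ε z)) :
    ((LM u (clnloc_F a ε z)).adjugate.trace).re =
      ((ε ^ 2) ^ (n - 1))⁻¹ *
        ((LM (fun w => u (clnloc_F a ε w)) z).adjugate.trace).re := by
  have h1 := (LM_comp (clnloc_contDiff a ε).contDiffAt hu).2
  rw [h1, clnloc_jac]
  have h2 : ((ε : ℂ) • (1 : Matrix (Fin n) (Fin n) ℂ)) * LM u (clnloc_F a ε z) *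
      ((ε : ℂ) • (1 : Matrix (Fin n) (Fin n) ℂ)).conjTranspose =
        (((ε ^ 2 : ℝ)) : ℂ) • LM u (clnloc_F a ε z) := by
    rw [Matrix.conjTranspose_smul, Matrix.conjTranspose_one, Matrix.smul_mul, Matrix.one_mul,
      Matrix.mul_smul, Matrix.mul_one, smul_smul]
    congr 1
    simp only [RCLike.star_def, Complex.conj_ofReal]
    push_cast
    ring
  rw [h2, Matrix.adjugate_smul, Matrix.trace_smul, Fintype.card_fin, smul_eq_mul]
  have h3 : (((ε ^ 2 : ℝ)) : ℂ) ^ (n - 1) = (((ε ^ 2) ^ (n - 1) : ℝ) : ℂ) := by push_cast; rfl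
  rw [h3, Complex.re_ofReal_mul, ← mul_assoc, inv_mul_cancel₀ (by positivity), one_mul]

theorem clnloc_image {n : ℕ} (a : Cn n) {ε : ℝ} (hε : 0 < ε) (r : ℝ) :
    clnloc_F a ε '' ball 0 r = ball a (ε * r) := by
  ext y
  constructor
  · rintro ⟨z, hz, rfl⟩
    rw [mem_ball_zero_iff] at hz
    rw [mem_ball, dist_eq_norm]
    have : clnloc_F a ε z - a = (ε : ℂ) • z := by unfold clnloc_F; abel
    rw [this, norm_smul, Complex.norm_real, Real.norm_eq_abs, abs_of_pos hε]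
    exact mul_lt_mul_of_pos_left hz hε
  · intro hy
    rw [mem_ball, dist_eq_norm] at hy
    have hε' : (ε : ℂ) ≠ 0 := by exact_mod_cast hε.ne'
    refine ⟨(ε : ℂ)⁻¹ • (y - a), ?_, ?_⟩
    · rw [mem_ball_zero_iff, norm_smul, norm_inv, Complex.norm_real, Real.norm_eq_abs,
        abs_of_pos hε, inv_mul_lt_iff₀ hε]
      exact hy
    · unfold clnloc_F
      rw [smul_smul, mul_inv_cancel₀ hε', one_smul]
      abel

theorem clnloc_inj {n : ℕ} (a : Cn n) {ε : ℝ} (hε : 0 < ε) : Function.Injective (clnloc_F a ε) := by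
  intro x y h
  have hε' : (ε : ℂ) ≠ 0 := by exact_mod_cast hε.ne'
  unfold clnloc_F at h
  exact smul_right_injective _ hε' (add_left_cancel h)

theorem clnloc_one {n : ℕ} {Ω : Set (Cn n)} (hΩ : IsOpen Ω) (M : ℝ) {a : Cn n} (ha : a ∈ Ω) :
    ∃ r : ℝ, 0 < r ∧ ∃ C : ℝ, 0 < C ∧ ∀ u : Cn n → ℝ, C11 Ω u → SubOn Ω u →
      (∀ z ∈ Ω, |u z| ≤ M) →
        ∫⁻ z in ball a r, ENNReal.ofReal (((LM u z).adjugate.trace).re) ≤ ENNReal.ofReal C := by
  obtain ⟨R, hR, hRΩ⟩ := Metric.isOpen_iff.1 hΩ a ha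
  obtain ⟨C, hC, hcln⟩ := cln n
  set ε : ℝ := R * (2 / 5) with hεdef
  have hε : 0 < ε := by positivity
  have hεR : ε * (5 / 2) = R := by rw [hεdef]; ring
  set M' : ℝ := max M 1 with hM'
  set D : ℝ := (ε ^ n) ^ 2 * ((ε ^ 2) ^ (n - 1))⁻¹ with hD
  have hD0 : 0 < D := by positivity
  have hM'1 : 1 ≤ M' := le_max_right _ _
  refine ⟨ε * 2, by positivity, D * (C * M' ^ n), by positivity, fun u hu hsub hM => ?_⟩
  have hmaps : MapsTo (clnloc_F a ε) (ball 0 (5 / 2)) Ω := by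
    intro z hz
    apply hRΩ
    rw [← hεR, ← clnloc_image a hε]
    exact ⟨z, hz, rfl⟩
  have hFd : DifferentiableOn ℂ (clnloc_F a ε) (ball 0 (5 / 2)) :=
    (clnloc_diff a ε).differentiableOn
  have h1 := hcln (fun z => u (clnloc_F a ε z)) M' hM'1 (c11_comp hΩ isOpen_ball hu hFd hmaps)
    (sub_comp hΩ isOpen_ball hu hsub hFd hmaps)
    (fun z hz => (hM _ (hmaps hz)).trans (le_max_left _ _))
  have hinj2 : ∀ z ∈ ball (0 : Cn n) (5 / 2), Function.Injective (fderiv ℂ (clnloc_F a ε) z) := by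
    intro z _ x y hxy
    rw [(clnloc_fderiv a ε z).fderiv] at hxy
    have hε' : (ε : ℂ) ≠ 0 := by exact_mod_cast hε.ne'
    exact smul_right_injective _ hε' hxy
  have h2 : ∀ᵐ z : Cn n, z ∈ ball (0 : Cn n) (5 / 2) → TwD u (clnloc_F a ε z) := by
    refine ae_comp_hol isOpen_ball hFd (clnloc_inj a hε).injOn hinj2 (p := fun y => TwD u y) ?_
    filter_upwards [hu.ae_twD hΩ] with y hy
    rintro ⟨z, hz, rfl⟩
    exact hy (hmaps hz)
  have hsub2 : ball (0 : Cn n) 2 ⊆ ball 0 (5 / 2) := ball_subset_ball (by norm_num)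
  rw [← clnloc_image a hε, lintegral_hol isOpen_ball hFd measurableSet_ball hsub2
    (clnloc_inj a hε).injOn]
  have h3 : ∫⁻ z in ball (0 : Cn n) 2, ENNReal.ofReal (‖(jac (clnloc_F a ε) z).det‖ ^ 2) *
      ENNReal.ofReal (((LM u (clnloc_F a ε z)).adjugate.trace).re) =
      ∫⁻ z in ball (0 : Cn n) 2, ENNReal.ofReal D *
        ENNReal.ofReal (((LM (fun w => u (clnloc_F a ε w)) z).adjugate.trace).re) := by
    refine setLIntegral_congr_fun_ae measurableSet_ball ?_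
    filter_upwards [h2] with z hz hz2
    rw [clnloc_LM a hε (hz (hsub2 hz2)), clnloc_jac, Matrix.det_smul, Matrix.det_one, mul_one,
      Fintype.card_fin, norm_pow, Complex.norm_real, Real.norm_eq_abs, abs_of_pos hε,
      ENNReal.ofReal_mul (by positivity), ← mul_assoc, ← ENNReal.ofReal_mul (by positivity)]
  rw [h3, lintegral_const_mul' _ _ ENNReal.ofReal_ne_top, ENNReal.ofReal_mul hD0.le]
  exact mul_le_mul_right h1 _

theorem cln_loc {n : ℕ} {Ω : Set (Cn n)} (hΩ : IsOpen Ω) {L : Set (Cn n)} (hL : IsCompact L)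
    (hLΩ : L ⊆ Ω) (M : ℝ) : ∃ C : ℝ, 0 < C ∧ ∀ u : Cn n → ℝ, C11 Ω u → SubOn Ω u →
      (∀ z ∈ Ω, |u z| ≤ M) →
        ∫⁻ z in L, ENNReal.ofReal (((LM u z).adjugate.trace).re) ≤ ENNReal.ofReal C := by
  have h := hL.induction_on (p := fun s => ∃ C : ℝ, 0 < C ∧ ∀ u : Cn n → ℝ, C11 Ω u → SubOn Ω u →
      (∀ z ∈ Ω, |u z| ≤ M) →
        ∫⁻ z in s, ENNReal.ofReal (((LM u z).adjugate.trace).re) ≤ ENNReal.ofReal C) ?_ ?_ ?_ ?_
  · exact h
  · refine ⟨1, one_pos, fun u _ _ _ => ?_⟩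
    simp
  · rintro s t hst ⟨C, hC, h⟩
    exact ⟨C, hC, fun u h1 h2 h3 => (lintegral_mono_set hst).trans (h u h1 h2 h3)⟩
  · rintro s t ⟨C, hC, h⟩ ⟨C', hC', h'⟩
    refine ⟨C + C', by positivity, fun u h1 h2 h3 => ?_⟩
    refine (lintegral_union_le _ s t).trans ?_
    rw [ENNReal.ofReal_add hC.le hC'.le]
    exact add_le_add (h u h1 h2 h3) (h' u h1 h2 h3)
  · intro a ha
    obtain ⟨r, hr, C, hC, h⟩ := clnloc_one hΩ M (hLΩ ha)
    exact ⟨ball a r, mem_nhdsWithin_of_mem_nhds (ball_mem_nhds a hr), C, hC, h⟩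

end HMA
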