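import Pool.Agent.H85.KW.Defs
import Pool.Agent.H85.KM.XEn

/-! # Module CapB: elementary properties of the capacity -/

open MeasureTheory Metric Set Filter
open scoped ENNReal Topology ContDiff ComplexOrder

namespace HMA

variable {n : ℕ} {X : Type} [TopologicalSpace X] (K : KM n X)

variable [MeasurableSpace X] [BorelSpace X] [T2Space X] [CompactSpace X]

variable {U U' : Set X} {v : X → ℝ}

theorem KM.cap_bdd (U : Set X) : BddAbove {t | ∃ v : X → ℝ, WK K v ∧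
    (∀ x, -1 ≤ v x ∧ v x ≤ 0) ∧ ∫ x in U, K.RM v x ∂K.vol = t} := by
  refine ⟨K.vol.real univ, ?_⟩
  rintro t ⟨v, hv, _, rfl⟩
  rw [← K.mass hv.c11]
  exact setIntegral_le_integral (XEn_RM_int K hv.c11) (K.RM_nonneg hv)

theorem KM.le_cap (hv : WK K v) (h : ∀ x, -1 ≤ v x ∧ v x ≤ 0) :
    ∫ x in U, K.RM v x ∂K.vol ≤ K.cap U :=
  le_csSup (K.cap_bdd U) ⟨v, hv, h, rfl⟩

theorem capb_zero : (WK K (fun _ : X => (0 : ℝ))) ∧
    ∀ x : X, -1 ≤ (fun _ : X => (0 : ℝ)) x ∧ (fun _ : X => (0 : ℝ)) x ≤ 0 :=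
  ⟨wk_const K 0, fun _ => ⟨by norm_num, le_refl _⟩⟩

theorem KM.cap_le {c : ℝ} (h : ∀ v : X → ℝ, WK K v → (∀ x, -1 ≤ v x ∧ v x ≤ 0) →
    ∫ x in U, K.RM v x ∂K.vol ≤ c) : K.cap U ≤ c := by
  refine csSup_le ?_ ?_
  · exact ⟨_, fun _ => 0, (capb_zero K).1, (capb_zero K).2, rfl⟩
  · rintro t ⟨v, hv, hv', rfl⟩
    exact h v hv hv'

theorem KM.cap_nonneg (U : Set X) : 0 ≤ K.cap U := by
  refine le_trans ?_ (K.le_cap (capb_zero K).1 (capb_zero K).2)
  exact integral_nonneg_of_ae (ae_restrict_of_ae (K.RM_nonneg (capb_zero K).1))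

theorem KM.cap_mono (h : U ⊆ U') : K.cap U ≤ K.cap U' := by
  refine K.cap_le fun v hv hv' => le_trans ?_ (K.le_cap hv hv')
  exact setIntegral_mono_set (XEn_RM_int K hv.c11).integrableOn
    (ae_restrict_of_ae (K.RM_nonneg hv)) (HasSubset.Subset.eventuallyLE h)

theorem capb_vol_pos (hU : IsOpen U) (h : U.Nonempty) : 0 < K.vol U := by
  obtain ⟨x, hx⟩ := h
  set i := K.ix x
  obtain ⟨hc1, hc2⟩ := K.co_spec x
  have hco3 : K.co x ∈ ball (0 : Cn n) 3 := xvol_b13 hc1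
  have hpre : ∃ r : ℝ, 0 < r ∧ ball (K.co x) r ⊆ ball 0 1 ∩ K.κ i ⁻¹' U := by
    have h1 : K.κ i ⁻¹' U ∈ 𝓝 (K.co x) := by
      have hcont : ContinuousAt (K.κ i) (K.co x) :=
        (K.cont i).continuousAt (isOpen_ball.mem_nhds hco3)
      refine hcont.preimage_mem_nhds (hU.mem_nhds ?_)
      rw [hc2]
      exact hx
    have h2 : ball (0 : Cn n) 1 ∈ 𝓝 (K.co x) := isOpen_ball.mem_nhds hc1
    exact Metric.mem_nhds_iff.1 (Filter.inter_mem h2 h1)
  obtain ⟨r, hr, hsub⟩ := hpre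
  have hg : Measurable (U.indicator (fun _ => (1 : ℝ≥0∞))) :=
    measurable_const.indicator hU.measurableSet
  have h1 := K.vol_chart i hg
  obtain ⟨a, b, ha, hb, hab⟩ := K.mad_ρ_bdd i (isCompact_closedBall (0 : Cn n) 1)
    (closedBall_subset_ball (by norm_num))
  calc 0 < ENNReal.ofReal a * volume (ball (K.co x) r) :=
        ENNReal.mul_pos (ENNReal.ofReal_pos.2 ha).ne'
          (measure_ball_pos volume _ hr).ne'
    _ = ∫⁻ z in ball (K.co x) r, ENNReal.ofReal a := (setLIntegral_const _ _).symm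
    _ ≤ ∫⁻ z in ball (K.co x) r, U.indicator (fun _ => (1 : ℝ≥0∞)) (K.κ i z) *
          ENNReal.ofReal (mad (K.ρ i) z) := by
        refine setLIntegral_mono' measurableSet_ball fun z hz => ?_
        have hz' := hsub hz
        rw [indicator_of_mem (show K.κ i z ∈ U from hz'.2), one_mul]
        exact ENNReal.ofReal_le_ofReal (hab z (ball_subset_closedBall hz'.1)).1
    _ ≤ ∫⁻ z in ball (0 : Cn n) 3, U.indicator (fun _ => (1 : ℝ≥0∞)) (K.κ i z) *
          ENNReal.ofReal (mad (K.ρ i) z) :=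
        lintegral_mono_set ((hsub.trans inter_subset_left).trans xvol_b13)
    _ = ∫⁻ x in K.κ i '' ball 0 3, U.indicator (fun _ => (1 : ℝ≥0∞)) x ∂K.vol := h1.symm
    _ ≤ ∫⁻ x, U.indicator (fun _ => (1 : ℝ≥0∞)) x ∂K.vol := setLIntegral_le_lintegral _ _
    _ = K.vol U := by
        rw [lintegral_indicator hU.measurableSet, setLIntegral_one]

theorem KM.cap_pos (hU : IsOpen U) (h : U.Nonempty) : 0 < K.cap U := by
  have := K.vol_finite
  refine lt_of_lt_of_le ?_ (K.le_cap (capb_zero K).1 (capb_zero K).2)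
  have h1 : ∫ x in U, K.RM (fun _ => (0 : ℝ)) x ∂K.vol = ∫ x in U, (1 : ℝ) ∂K.vol :=
    integral_congr_ae (ae_restrict_of_ae K.RM_zero)
  rw [h1, setIntegral_const, smul_eq_mul, mul_one]
  exact ENNReal.toReal_pos (capb_vol_pos K hU h).ne' (measure_ne_top _ _)

end HMA
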