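import Pool.Agent.H85.KW.CapB
import Pool.Agent.H85.KW.LocX

/-! # Module CapK: capacity estimate for sublevel sets -/

open MeasureTheory Metric Set Filter
open scoped ENNReal Topology ContDiff ComplexOrder

namespace HMA

variable {n : ℕ} {X : Type} [TopologicalSpace X] (K : KM n X)

variable [MeasurableSpace X] [BorelSpace X] [T2Space X] [CompactSpace X]

omit [T2Space X] in
theorem capK_RM_bdd {w : X → ℝ} (hw : C11X K w) : ∃ C : ℝ, 0 < C ∧ ∀ x, |K.RM w x| ≤ C := by
  obtain ⟨C, hC, h⟩ := K.RM_bdd hw hw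
  refine ⟨C, hC, fun x => ?_⟩
  have h1 := h 1 0 (by norm_num) (by norm_num) x
  simpa using h1

omit [T2Space X] in
theorem capK_RM_int {w : X → ℝ} (hw : C11X K w) : Integrable (K.RM w) K.vol := by
  obtain ⟨C, -, h⟩ := capK_RM_bdd K hw
  exact XEn_int_of_bdd K (K.RM_meas hw) h

theorem KM.cap_ki {μ : Measure X} [IsProbabilityMeasure μ] {δ : ℝ} {Φ : X → ℝ}
    (hΦ : PB K Φ) (hK : KIneq K μ δ Φ) {g : X → ℝ} (hg : WK K g) {B : ℝ}
    (hB : ∀ x, 0 ≤ g x ∧ g x ≤ B) {s τ : ℝ} (h0 : 0 < τ) (h1 : τ ≤ 1) :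
    τ ^ (n + 1) * K.cap {x | Φ x < g x - s - (B + 2) * τ} ≤
      (n + 1) * (K.aI μ g Φ s + δ) := by
  have hfin := K.vol_finite
  have hgc : Continuous g := C11X.continuous K hg.c11
  have hΦm : Measurable Φ := hΦ.usc.measurable
  obtain ⟨BΦ, hBΦ⟩ := hΦ.bdd
  set U : Set X := {x | Φ x < g x - s - (B + 2) * τ} with hUdef
  have hU : MeasurableSet U :=
    measurableSet_lt hΦm (((hgc.sub continuous_const).sub continuous_const).measurable)
  have hτ : 0 < τ ^ (n + 1) := pow_pos h0 _
  have hcap : K.cap U ≤ ((n + 1 : ℝ) * (K.aI μ g Φ s + δ)) / τ ^ (n + 1) := by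
    refine K.cap_le fun v hv hvb => ?_
    rw [le_div_iff₀ hτ]
    have hconv : WK K (fun x => (1 - τ) * g x + τ * v x) := WK.convex K hg hv h0.le h1
    have hh : WK K (fun x => (1 - τ) * g x + τ * v x + (-s)) := hconv.add_const' K (-s)
    set h : X → ℝ := fun x => (1 - τ) * g x + τ * v x + (-s) with hhdef
    have hhc : Continuous h := C11X.continuous K hh.c11
    -- the function `(h - Φ)^+`
    have hpm : Measurable (fun x => max (h x - Φ x) 0) :=
      (hhc.measurable.sub hΦm).max measurable_const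
    have hle : ∀ x, h x ≤ g x - s := by
      intro x
      have e1 := (hB x).1
      have e2 := (hvb x).2
      simp only [hhdef]
      nlinarith [mul_nonneg h0.le e1, mul_nonneg h0.le (neg_nonneg.mpr e2)]
    obtain ⟨Bh, hBh0, hBh⟩ := XEn_bdd K hh.c11
    have hpb : ∀ x, |max (h x - Φ x) 0| ≤ Bh + |BΦ| := by
      intro x
      have e1 := abs_le.mp (hBh x)
      have e2 := abs_le.mp (hBΦ x)
      have e3 := le_abs_self BΦ
      rw [abs_of_nonneg (le_max_right _ _)]
      exact max_le (by linarith) (by positivity)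
    obtain ⟨C, hC, hRC⟩ := capK_RM_bdd K hh.c11
    have hint1 : Integrable (fun x => max (h x - Φ x) 0 * K.RM h x) K.vol := by
      refine XEn_int_of_bdd K (hpm.aestronglyMeasurable.mul (K.RM_meas hh.c11))
        (C := (Bh + |BΦ|) * C) fun x => ?_
      rw [abs_mul]
      exact mul_le_mul (hpb x) (hRC x) (abs_nonneg _) (by positivity)
    have hkey := hK h hh
    -- lower bound
    have hlow : (∫ x in U, K.RM v x ∂K.vol) * τ ^ (n + 1) ≤
        ∫ x, max (h x - Φ x) 0 * K.RM h x ∂K.vol := by
      have e1 : (∫ x in U, K.RM v x ∂K.vol) * τ ^ (n + 1) =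
          ∫ x in U, K.RM v x * τ ^ (n + 1) ∂K.vol := (integral_mul_const _ _).symm
      rw [e1]
      calc ∫ x in U, K.RM v x * τ ^ (n + 1) ∂K.vol
          ≤ ∫ x in U, max (h x - Φ x) 0 * K.RM h x ∂K.vol := by
            refine setIntegral_mono_ae_restrict ?_ hint1.integrableOn ?_
            · exact ((capK_RM_int K hv.c11).mul_const _).integrableOn
            · rw [EventuallyLE, ae_restrict_iff' hU]
              filter_upwards [K.RM_convex hg hv h0.le h1, K.RM_add_const hconv.c11 (-s),
                K.RM_nonneg hv] with x hx1 hx2 hx3 hxU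
              have hxU' : Φ x < g x - s - (B + 2) * τ := hxU
              have e2 : τ ≤ h x - Φ x := by
                have e3 := (hB x).2
                have e4 := (hvb x).1
                simp only [hhdef]
                nlinarith [mul_le_mul_of_nonneg_left e3 h0.le, mul_le_mul_of_nonneg_left e4 h0.le]
              have e5 : τ ≤ max (h x - Φ x) 0 := e2.trans (le_max_left _ _)
              have e6 : K.RM h x = K.RM (fun y => (1 - τ) * g y + τ * v y) x := hx2
              rw [e6]
              have e7 : 0 ≤ τ ^ n * K.RM v x := mul_nonneg (pow_nonneg h0.le _) hx3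
              calc K.RM v x * τ ^ (n + 1) = τ * (τ ^ n * K.RM v x) := by ring
                _ ≤ max (h x - Φ x) 0 * K.RM (fun y => (1 - τ) * g y + τ * v y) x :=
                    mul_le_mul e5 hx1 e7 (h0.le.trans e5)
        _ ≤ ∫ x, max (h x - Φ x) 0 * K.RM h x ∂K.vol := by
            refine setIntegral_le_integral hint1 ?_
            filter_upwards [K.RM_nonneg hh] with x hx
            exact mul_nonneg (le_max_right _ _) hx
    -- upper bound
    have hup : ∫ x, max (h x - Φ x) 0 ∂μ ≤ ∫ x, max (g x - s - Φ x) 0 ∂μ := by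
      refine integral_mono ?_ ?_ fun x => ?_
      · exact Integrable.of_bound hpm.aestronglyMeasurable _ (Eventually.of_forall hpb)
      · obtain ⟨Bg, hBg0, hBg⟩ := XEn_bdd K hg.c11
        refine Integrable.of_bound (C := Bg + |s| + |BΦ|)
          (((hgc.measurable.sub measurable_const).sub hΦm).max
            measurable_const).aestronglyMeasurable (Eventually.of_forall fun x => ?_)
        have e1 := abs_le.mp (hBg x)
        have e2 := abs_le.mp (hBΦ x)
        have e3 := le_abs_self BΦ
        have e4 := neg_abs_le s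
        rw [Real.norm_eq_abs, abs_of_nonneg (le_max_right _ _)]
        exact max_le (by linarith) (by positivity)
      · exact max_le_max (by linarith [hle x]) le_rfl
    have hV : 0 ≤ K.vol.real univ := measureReal_nonneg
    have hup' : K.vol.real univ * ∫ x, max (h x - Φ x) 0 ∂μ ≤ K.aI μ g Φ s :=
      mul_le_mul_of_nonneg_left hup hV
    have hn : (0 : ℝ) < n + 1 := by positivity
    have h2 : ∫ x, max (h x - Φ x) 0 * K.RM h x ∂K.vol ≤
        (n + 1 : ℝ) * (K.vol.real univ * ∫ x, max (h x - Φ x) 0 ∂μ + δ) := by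
      have h3 := mul_le_mul_of_nonneg_left hkey hn.le
      rw [← mul_assoc, mul_one_div_cancel hn.ne', one_mul] at h3
      exact h3
    calc (∫ x in U, K.RM v x ∂K.vol) * τ ^ (n + 1)
        ≤ (n + 1 : ℝ) * (K.vol.real univ * ∫ x, max (h x - Φ x) 0 ∂μ + δ) := hlow.trans h2
      _ ≤ (n + 1 : ℝ) * (K.aI μ g Φ s + δ) := by
          refine mul_le_mul_of_nonneg_left ?_ hn.le
          linarith
  calc τ ^ (n + 1) * K.cap U
      ≤ τ ^ (n + 1) * (((n + 1 : ℝ) * (K.aI μ g Φ s + δ)) / τ ^ (n + 1)) :=
        mul_le_mul_of_nonneg_left hcap hτ.le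
    _ = (n + 1) * (K.aI μ g Φ s + δ) := by field_simp

end HMA
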