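import Pool.Agent.H85.KW.Defs
import Pool.Agent.H85.KM.XEn

/-! # Module Conc: concavity of the energy -/

open MeasureTheory Metric Set Filter
open scoped ENNReal Topology ContDiff ComplexOrder

namespace HMA

variable {n : ℕ} {X : Type} [TopologicalSpace X] (K : KM n X)

variable [MeasurableSpace X] [BorelSpace X] [T2Space X] [CompactSpace X]

variable {φ ψ w : X → ℝ}

omit [T2Space X] [CompactSpace X] in
theorem Conc_point (hφ : WK K φ) (hw : C11X K w) :
    ∀ᵐ x ∂K.vol, 2 * (w x * K.RL φ w x) ≤ K.RL φ (fun y => w y * w y) x := by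
  have hθ : ContDiff ℝ 2 (fun t : ℝ => t * t) := contDiff_id.mul contDiff_id
  filter_upwards [xRel_ae_twD K hw, xRel_psd K hφ] with x h1 h2
  have hpos := (K.mad_ρ_pos (K.ix x) (xRel_co3 K x)).2.2
  obtain ⟨-, G, hG, hG2⟩ := h1.comp_real hθ
  have d1 : deriv (fun t : ℝ => t * t) = fun t => 2 * t := by
    funext t
    have := (hasDerivAt_id t).mul (hasDerivAt_id t)
    simp only [id, one_mul, mul_one] at this
    have h3 : HasDerivAt (fun t : ℝ => t * t) (t + t) t := this
    rw [h3.deriv]; ring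
  have d2 : deriv (deriv (fun t : ℝ => t * t)) = fun _ => 2 := by
    rw [d1]
    funext t
    have := (hasDerivAt_id t).const_mul (2 : ℝ)
    simp only [id, mul_one] at this
    exact this.deriv
  rw [d1] at hG2
  have d3 : deriv (fun t : ℝ => 2 * t) = fun _ => 2 := by rw [← d1, d2]
  rw [d3] at hG2
  have hx : w (K.κ (K.ix x) (K.co x)) = w x := by rw [(K.co_spec x).2]
  simp only [KM.RL, mal]
  have e : (fun z => w (K.κ (K.ix x) z) * w (K.κ (K.ix x) z)) =
      fun z => (fun t : ℝ => t * t) (w (K.κ (K.ix x) z)) := rfl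
  rw [e, hG2, Matrix.mul_add, Matrix.trace_add, Complex.add_re, Matrix.mul_smul, Matrix.mul_smul,
    Matrix.trace_smul, Matrix.trace_smul, smul_eq_mul, smul_eq_mul, Complex.re_ofReal_mul,
    Complex.re_ofReal_mul, hx, add_div]
  have h3 := mat_trace_mul (mat_adj_psd h2) hG
  have h4 : 0 ≤ 2 * ((((LM (fun z => K.ρ (K.ix x) z + φ (K.κ (K.ix x) z)) (K.co x)).adjugate *
      G).trace).re) / mad (K.ρ (K.ix x)) (K.co x) := by positivity
  have h5 : ∀ a b c : ℝ, 2 * (a * (b / c)) = 2 * a * b / c := fun a b c => by ring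
  rw [h5]
  linarith

theorem KM.RL_neg (hφ : WK K φ) (hw : C11X K w) : ∫ x, w x * K.RL φ w x ∂K.vol ≤ 0 := by
  have hw2 : C11X K (fun y => w y * w y) := hw.mul K hw
  have h1 := K.RL_mass hφ.c11 hw2
  have h2 : ∫ x, 2 * (w x * K.RL φ w x) ∂K.vol ≤ ∫ x, K.RL φ (fun y => w y * w y) x ∂K.vol := by
    refine integral_mono_ae ((xSym_int K hφ.c11 hw hw).const_mul 2) ?_ (Conc_point K hφ hw)
    have := xSym_int K hφ.c11 (c11X_const K 1) hw2
    simpa using this
  rw [integral_const_mul, h1] at h2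
  linarith

/-- the second derivative of the energy -/
theorem Conc_deriv (hψ : C11X K ψ) (hw : C11X K w) (s : ℝ) :
    HasDerivAt (fun s : ℝ => ∫ x, w x * K.RM (fun y => ψ y + s * w y) x ∂K.vol)
      (∫ x, w x * K.RL (fun y => ψ y + s * w y) w x ∂K.vol) s := by
  obtain ⟨Cw, hCw0, hCw⟩ := XEn_bdd K hw
  set A : ℝ := |s| + 1 with hA
  have hA1 : 1 ≤ A := by rw [hA]; linarith [abs_nonneg s]
  obtain ⟨C1, hC10, hC1⟩ := XEn_RM_bdd K hψ hw A
  obtain ⟨C2, hC20, hC2⟩ := XEn_RL_bdd K hψ hw hw A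
  have e1 : ∀ s : ℝ, (fun y => 1 * ψ y + s * w y) = (fun y => ψ y + s * w y) := fun s => by
    funext y; ring
  have hsum : ∀ s : ℝ, C11X K (fun y => ψ y + s * w y) := fun s =>
    C11X.add K hψ (C11X.const_mul K hw s)
  refine XEn_deriv K (s₀ := s)
    (F := fun s x => w x * K.RM (fun y => ψ y + s * w y) x)
    (F' := fun s x => w x * K.RL (fun y => ψ y + s * w y) w x)
    (C := Cw * C2) (C' := Cw * C1) ?_ ?_ ?_ ?_ ?_
  · intro s
    exact (C11X.continuous K hw).aestronglyMeasurable.mul (K.RM_meas (hsum s))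
  · exact (C11X.continuous K hw).aestronglyMeasurable.mul (K.RL_meas (hsum s) hw)
  · intro t ht x
    have ht' : |t| ≤ A := by
      have h1 : |t - s| < 1 := by simpa [Real.dist_eq] using ht
      have h2 : |t| ≤ |t - s| + |s| := by
        have := abs_add_le (t - s) s
        simpa using this
      rw [hA]; linarith
    have b2 := hC2 1 t (by rw [abs_one]; exact hA1) ht' x
    rw [e1] at b2
    rw [abs_mul]; exact mul_le_mul (hCw x) b2 (abs_nonneg _) hCw0
  · intro x
    have hs' : |s| ≤ A := by rw [hA]; linarith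
    have b1 := hC1 1 s (by rw [abs_one]; exact hA1) hs' x
    rw [e1] at b1
    rw [abs_mul]; exact mul_le_mul (hCw x) b1 (abs_nonneg _) hCw0
  · filter_upwards [K.RM_deriv hψ hw] with x hx t
    exact (hx t).const_mul (w x)

theorem KM.E_concave (hψ : WK K ψ) (hφ : WK K φ) :
    K.E φ - K.E ψ ≤ ∫ x, (φ x - ψ x) * K.RM ψ x ∂K.vol := by
  have hd : C11X K (fun x => φ x + (-1) * ψ x) := C11X.add K hφ.c11 (C11X.const_mul K hψ.c11 (-1))
  have hd' : (fun x => φ x + (-1) * ψ x) = fun x => φ x - ψ x := by funext x; ring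
  rw [hd'] at hd
  have h1 := K.E_diff hψ.c11 hd
  have e1 : (fun x => ψ x + (φ x - ψ x)) = φ := by funext x; ring
  rw [e1] at h1
  rw [h1]
  have e2 : ∀ s : ℝ, (fun y => ψ y + s * (φ y - ψ y)) = fun y => (1 - s) * ψ y + s * φ y :=
    fun s => by funext y; ring
  have hder := Conc_deriv K hψ.c11 hd
  have hanti : AntitoneOn
      (fun s : ℝ => ∫ x, (φ x - ψ x) * K.RM (fun y => ψ y + s * (φ y - ψ y)) x ∂K.vol)
      (Icc 0 1) := by
    refine antitoneOn_of_deriv_nonpos (convex_Icc 0 1)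
      (XEn_Hcont K hψ.c11 hd).continuousOn (fun s _ => (hder s).differentiableAt.differentiableWithinAt)
      fun s hs => ?_
    rw [interior_Icc] at hs
    rw [(hder s).deriv]
    refine K.RL_neg ?_ hd
    rw [e2]
    exact WK.convex K hψ hφ hs.1.le hs.2.le
  have h3 := intervalIntegral.integral_mono_on zero_le_one
    ((XEn_Hcont K hψ.c11 hd).intervalIntegrable 0 1)
    (intervalIntegrable_const (μ := volume) (c := ∫ x, (φ x - ψ x) * K.RM ψ x ∂K.vol))
    (fun s hs => by
      have := hanti (left_mem_Icc.2 zero_le_one) hs hs.1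
      simpa using this)
  rw [intervalIntegral.integral_const, smul_eq_mul] at h3
  linarith

end HMA
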