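import Pool.Agent.H85.KW.SubL
import Pool.Agent.H85.MA.Smooth2

/-! # Module CpA: `L^1` modulus of mollification for bounded plurisubharmonic functions -/

open MeasureTheory Metric Set Filter
open scoped ENNReal Topology ContDiff ComplexOrder

namespace HMA

/-- extension by zero -/
noncomputable def CpA_ext {n : ℕ} (u : Cn n → ℝ) : Cn n → ℝ :=
  (ball (0 : Cn n) (5 / 2)).indicator u

theorem CpA_meas {n : ℕ} {u : Cn n → ℝ} (hc : ContinuousOn u (ball 0 (5 / 2))) :
    Measurable (CpA_ext u) := by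
  classical
  unfold CpA_ext
  rw [← Set.piecewise_eq_indicator]
  exact hc.measurable_piecewise continuousOn_const measurableSet_ball

theorem CpA_bdd {n : ℕ} {u : Cn n → ℝ} {M : ℝ} (hM : 0 ≤ M)
    (hb : ∀ z ∈ ball (0 : Cn n) (5 / 2), |u z| ≤ M) (z : Cn n) : ‖CpA_ext u z‖ ≤ M := by
  unfold CpA_ext
  by_cases hz : z ∈ ball (0 : Cn n) (5 / 2)
  · rw [indicator_of_mem hz]
    exact hb z hz
  · rw [indicator_of_notMem hz, norm_zero]
    exact hM

/-- the submean inequality for the radial weight, at one point -/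
theorem CpA_le {n : ℕ} {U : Cn n → ℝ} (hU : Measurable U) {M : ℝ} (hM : ∀ z, ‖U z‖ ≤ M)
    {s : ℝ} (hs : 0 < s) (a : Cn n)
    (h : ∀ b : Cn n, ‖b‖ < s → U a ≤ (2 * Real.pi)⁻¹ *
      ∫ θ in (0 : ℝ)..(2 * Real.pi), U (a + Complex.exp (θ * Complex.I) • b)) :
    U a ≤ Smooth2_v U s a := by
  have hwi := Smooth2_w_integrable (n := n) hs
  have hw0 := Smooth2_w_nonneg (n := n) hs
  have hwm : Measurable (Smooth2_w (n := n) s) := (Smooth2_w_smooth s).continuous.measurable
  have hnorm : ∀ (θ : ℝ) (x : Cn n), ‖Complex.exp (θ * Complex.I) • x‖ = ‖x‖ := fun θ x => by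
    rw [norm_smul, Complex.norm_exp_ofReal_mul_I, one_mul]
  have hwr : ∀ (θ : ℝ) (x : Cn n),
      Smooth2_w s (Complex.exp (θ * Complex.I) • x) = Smooth2_w s x := fun θ x =>
    Smooth2_w_norm s (hnorm θ x)
  have hbound : ∀ x y : Cn n, ‖U x * Smooth2_w s y‖ ≤ M * Smooth2_w s y := by
    intro x y
    rw [norm_mul, Real.norm_of_nonneg (hw0 y)]
    exact mul_le_mul_of_nonneg_right (hM x) (hw0 y)
  set F : ℝ → Cn n → ℝ := fun θ x => U (a + Complex.exp (θ * Complex.I) • x) * Smooth2_w s x
    with hF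
  have hFint : Integrable (Function.uncurry F)
      ((volume.restrict (Ioc 0 (2 * Real.pi))).prod volume) := by
    have h1 : Integrable (fun p : ℝ × Cn n => M * Smooth2_w s p.2)
      ((volume.restrict (Ioc 0 (2 * Real.pi))).prod volume) := (hwi.const_mul M).comp_snd _
    refine h1.mono' ?_ (Filter.Eventually.of_forall fun p => hbound _ _)
    have hc : Continuous (fun p : ℝ × Cn n => a + Complex.exp (p.1 * Complex.I) • p.2) := by
      fun_prop
    exact ((hU.comp hc.measurable).mul (hwm.comp measurable_snd)).aestronglyMeasurable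
  have hrot : ∀ θ : ℝ, ∫ x, F θ x = ∫ x, U (a + x) * Smooth2_w s x := by
    intro θ
    have h1 := (PshBall_mp (n := n) θ).integral_comp' (g := fun x => U (a + x) * Smooth2_w s x)
      (f := (MeasurableEquiv.smul₀ (Complex.exp (θ * Complex.I)) (Complex.exp_ne_zero _)))
    rw [← h1]
    refine integral_congr_ae (Filter.Eventually.of_forall fun x => ?_)
    simp only [hF]
    change _ = U (a + Complex.exp (θ * Complex.I) • x) *
      Smooth2_w s (Complex.exp (θ * Complex.I) • x)
    rw [hwr]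
  have hswap := integral_integral_swap (f := F) hFint
  have hpi : 0 < 2 * Real.pi := by positivity
  have h2 : ∫ x, U (a + x) * Smooth2_w s x =
      (2 * Real.pi)⁻¹ * ∫ x, ∫ θ in Ioc 0 (2 * Real.pi), F θ x := by
    rw [← hswap]
    simp_rw [hrot]
    rw [integral_const]
    simp only [measureReal_restrict_apply_univ, Real.volume_real_Ioc, smul_eq_mul]
    rw [sub_zero, max_eq_left hpi.le, ← mul_assoc, inv_mul_cancel₀ hpi.ne', one_mul]
  have h3 : U a = ∫ x, U a * Smooth2_w (n := n) s x := by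
    rw [integral_const_mul, Smooth2_w_int hs, mul_one]
  rw [h3]
  unfold Smooth2_v
  rw [h2, ← integral_const_mul]
  refine integral_mono (hwi.const_mul _) (hFint.integral_prod_right.const_mul _) (fun x => ?_)
  by_cases hx : ‖x‖ < s
  · have h3 := h x hx
    rw [intervalIntegral.integral_of_le hpi.le] at h3
    have h4 : ∫ θ in Ioc 0 (2 * Real.pi), F θ x
        = (∫ θ in Ioc 0 (2 * Real.pi), U (a + Complex.exp (θ * Complex.I) • x)) *
          Smooth2_w s x := by
      rw [← integral_mul_const]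
    simp only
    rw [h4, ← mul_assoc]
    exact mul_le_mul_of_nonneg_right h3 (hw0 x)
  · have hw : Smooth2_w s x = 0 := Smooth2_w_zero hs (le_of_not_gt hx)
    simp only [hF, hw, mul_zero, integral_zero, le_refl]

/-- the mean of `χ (v - u)` -/
theorem CpA_pair {n : ℕ} {U χ : Cn n → ℝ} (hU : Measurable U) {M : ℝ} (hM : ∀ z, ‖U z‖ ≤ M)
    (hU0 : ∀ z, z ∉ ball (0 : Cn n) (5 / 2) → U z = 0)
    (hχ : Continuous χ) (hχc : HasCompactSupport χ) {B : ℝ} (hB0 : 0 ≤ B)
    (hB : ∀ x y, |χ x - χ y| ≤ B * ‖x - y‖) {s : ℝ} (hs : 0 < s) :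
    Integrable (fun z => χ z * Smooth2_v U s z) ∧ Integrable (fun z => χ z * U z) ∧
    ∫ z, (χ z * Smooth2_v U s z - χ z * U z) ≤ B * s * (M * volume.real (ball (0 : Cn n) (5 / 2))) := by
  have hwi := Smooth2_w_integrable (n := n) hs
  have hw0 := Smooth2_w_nonneg (n := n) hs
  have hwm : Measurable (Smooth2_w (n := n) s) := (Smooth2_w_smooth s).continuous.measurable
  have hM0 : 0 ≤ M := (norm_nonneg _).trans (hM 0)
  have hχi : Integrable χ volume := hχ.integrable_of_hasCompactSupport hχc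
  have hχU : Integrable (fun z => χ z * U z) volume := by
    refine (hχi.norm.mul_const M).mono' (hχ.aestronglyMeasurable.mul hU.aestronglyMeasurable)
      (Filter.Eventually.of_forall fun z => ?_)
    rw [norm_mul]
    exact mul_le_mul_of_nonneg_left (hM z) (norm_nonneg _)
  -- the product function
  set F : Cn n → Cn n → ℝ := fun z t => χ z * (U (z + t) * Smooth2_w s t) with hF
  have hFint : Integrable (Function.uncurry F) ((volume : Measure (Cn n)).prod volume) := by
    have h1 : Integrable (fun p : Cn n × Cn n => ‖χ p.1‖ * (M * Smooth2_w s p.2))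
        ((volume : Measure (Cn n)).prod volume) := hχi.norm.mul_prod (hwi.const_mul M)
    refine h1.mono' ?_ (Filter.Eventually.of_forall fun p => ?_)
    · exact ((hχ.measurable.comp measurable_fst).mul
        ((hU.comp (measurable_fst.add measurable_snd)).mul
          (hwm.comp measurable_snd))).aestronglyMeasurable
    · change ‖χ p.1 * (U (p.1 + p.2) * Smooth2_w s p.2)‖ ≤ _
      rw [norm_mul, norm_mul, Real.norm_of_nonneg (hw0 p.2)]
      refine mul_le_mul_of_nonneg_left ?_ (norm_nonneg _)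
      exact mul_le_mul_of_nonneg_right (hM _) (hw0 _)
  have e1 : (fun z => χ z * Smooth2_v U s z) = fun z => ∫ t, F z t := by
    funext z
    unfold Smooth2_v
    rw [← integral_const_mul]
  have hi1 : Integrable (fun z => χ z * Smooth2_v U s z) volume := by
    rw [e1]
    exact hFint.integral_prod_left
  refine ⟨hi1, hχU, ?_⟩
  rw [integral_sub hi1 hχU, e1, integral_integral_swap hFint]
  -- the inner integral
  have e2 : ∀ t : Cn n, ∫ z, F z t = (∫ y, χ (y - t) * U y) * Smooth2_w s t := by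
    intro t
    have h1 := integral_add_right_eq_self (μ := (volume : Measure (Cn n)))
      (fun y => χ (y - t) * U y) t
    simp only [add_sub_cancel_right] at h1
    rw [← h1, ← integral_mul_const]
    refine integral_congr_ae (Filter.Eventually.of_forall fun z => ?_)
    simp only [hF]
    ring
  have e3 : ∫ z, χ z * U z = ∫ t, (∫ y, χ y * U y) * Smooth2_w (n := n) s t := by
    rw [integral_const_mul, Smooth2_w_int hs, mul_one]
  have hit : Integrable (fun t : Cn n => (∫ y, χ (y - t) * U y) * Smooth2_w s t) volume := by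
    have := hFint.integral_prod_right
    refine this.congr (Filter.Eventually.of_forall fun t => ?_)
    exact e2 t
  simp_rw [e2]
  rw [e3, ← integral_sub hit (hwi.const_mul _)]
  have hχt : ∀ t : Cn n, Integrable (fun y => χ (y - t) * U y) volume := by
    intro t
    have h1 : Integrable (fun y => χ (y - t)) volume := hχi.comp_sub_right t
    refine (h1.norm.mul_const M).mono' (h1.aestronglyMeasurable.mul hU.aestronglyMeasurable)
      (Filter.Eventually.of_forall fun z => ?_)
    rw [norm_mul]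
    exact mul_le_mul_of_nonneg_left (hM z) (norm_nonneg _)
  have hpt : ∀ t : Cn n, (∫ y, χ (y - t) * U y) * Smooth2_w s t -
      (∫ y, χ y * U y) * Smooth2_w s t ≤
      (B * s * (M * volume.real (ball (0 : Cn n) (5 / 2)))) * Smooth2_w s t := by
    intro t
    by_cases ht : ‖t‖ < s
    · rw [← sub_mul, ← integral_sub (hχt t) hχU]
      refine mul_le_mul_of_nonneg_right ?_ (hw0 t)
      have h1 : ∀ y, ‖χ (y - t) * U y - χ y * U y‖ ≤
          (ball (0 : Cn n) (5 / 2)).indicator (fun _ => B * s * M) y := by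
        intro y
        by_cases hy : y ∈ ball (0 : Cn n) (5 / 2)
        · rw [indicator_of_mem hy, ← sub_mul, norm_mul]
          have h2 := hB (y - t) y
          rw [sub_sub_cancel_left, norm_neg] at h2
          have h3 : B * ‖t‖ ≤ B * s := mul_le_mul_of_nonneg_left ht.le hB0
          exact mul_le_mul (h2.trans h3) (hM y) (norm_nonneg _) (mul_nonneg hB0 hs.le)
        · rw [indicator_of_notMem hy, hU0 y hy]
          simp
      have hbi : Integrable ((ball (0 : Cn n) (5 / 2)).indicator (fun _ => B * s * M)) volume :=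
        (integrable_indicator_iff measurableSet_ball).2
          (integrableOn_const (measure_ball_lt_top).ne)
      have h2 := norm_integral_le_of_norm_le hbi (Filter.Eventually.of_forall h1)
      rw [integral_indicator measurableSet_ball, setIntegral_const, smul_eq_mul] at h2
      refine (le_abs_self _).trans (h2.trans (le_of_eq ?_))
      ring
    · rw [Smooth2_w_zero hs (le_of_not_gt ht)]
      simp
  have hfin := integral_mono (hit.sub (hwi.const_mul _)) (hwi.const_mul _) hpt
  rw [integral_const_mul, Smooth2_w_int hs, mul_one] at hfin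
  exact hfin

theorem moll_L1 (n : ℕ) : ∃ β : ℕ → Cn n → ℝ, (∀ m, ContDiff ℝ ∞ (β m)) ∧
    (∀ m, HasCompactSupport (β m)) ∧ ∀ M : ℝ, 0 ≤ M → ∃ C : ℝ, ∀ (m : ℕ) (u : Cn n → ℝ),
      ContinuousOn u (ball 0 (5 / 2)) → SubOn (ball 0 (5 / 2)) u →
      (∀ z ∈ ball (0 : Cn n) (5 / 2), |u z| ≤ M) →
      ∫ z in ball (0 : Cn n) (3 / 2), |u z - ∫ y in ball (0 : Cn n) (5 / 2), β m (z - y) * u y| ≤
        C / (m + 1) := by
  -- the cut off function
  obtain ⟨χ, hχs, hχc, hχ2, hχ1, hχ0⟩ : ∃ χ : Cn n → ℝ, ContDiff ℝ ∞ χ ∧ HasCompactSupport χ ∧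
      (∀ z, 2 ≤ ‖z‖ → χ z = 0) ∧ (∀ z, ‖z‖ ≤ 3 / 2 → χ z = 1) ∧ ∀ z, 0 ≤ χ z := by
    refine ⟨fun z => Real.smoothTransition (4 - ‖z‖ ^ 2), ?_, ?_, ?_, ?_, ?_⟩
    · exact Real.smoothTransition.contDiff.comp (contDiff_const.sub (contDiff_norm_sq ℂ))
    · refine HasCompactSupport.intro (isCompact_closedBall (0 : Cn n) 2) fun z hz => ?_
      rw [mem_closedBall_zero_iff, not_le] at hz
      exact Real.smoothTransition.zero_of_nonpos (by nlinarith)
    · intro z hz
      exact Real.smoothTransition.zero_of_nonpos (by nlinarith)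
    · intro z hz
      exact Real.smoothTransition.one_of_one_le (by nlinarith [norm_nonneg z])
    · intro z
      exact Real.smoothTransition.nonneg _
  obtain ⟨B, hB0, hB⟩ : ∃ B : ℝ, 0 ≤ B ∧ ∀ x y, |χ x - χ y| ≤ B * ‖x - y‖ := by
    have h1 : ContDiff ℝ 1 χ := hχs.of_le (by norm_cast)
    obtain ⟨B, hB⟩ := hχc.fderiv ℝ |>.exists_bound_of_continuous
      (h1.continuous_fderiv (by norm_num))
    refine ⟨B, (norm_nonneg _).trans (hB 0), fun x y => ?_⟩
    have := Convex.norm_image_sub_le_of_norm_fderiv_le (𝕜 := ℝ) (f := χ) (s := univ) (x := y)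
      (y := x) (fun z _ => (h1.differentiable (by norm_num)) z) (fun z _ => hB z) convex_univ
      (mem_univ _) (mem_univ _)
    exact this
  refine ⟨fun m => Smooth2_w (1 / ((m : ℝ) + 2)), fun m => Smooth2_w_smooth _,
    fun m => Smooth2_w_supp (by positivity), fun M hM0 => ?_⟩
  refine ⟨B * (M * volume.real (ball (0 : Cn n) (5 / 2))), fun m u hc hsub hb => ?_⟩
  set s : ℝ := 1 / ((m : ℝ) + 2) with hs
  have hs0 : 0 < s := by positivity
  have hs2 : s ≤ 1 / 2 := by
    rw [hs]
    apply one_div_le_one_div_of_le (by norm_num)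
    have : (0 : ℝ) ≤ m := Nat.cast_nonneg m
    linarith
  have hsm : s ≤ 1 / ((m : ℝ) + 1) := by
    rw [hs]
    apply one_div_le_one_div_of_le (by positivity)
    linarith
  have hUm := CpA_meas hc
  have hUb := CpA_bdd hM0 hb
  have hU1 : ∀ z ∈ ball (0 : Cn n) (5 / 2), CpA_ext u z = u z := fun z hz =>
    indicator_of_mem hz _
  have hU0 : ∀ z, z ∉ ball (0 : Cn n) (5 / 2) → CpA_ext u z = 0 := fun z hz =>
    indicator_of_notMem hz _
  have hv : ∀ z, ∫ y in ball (0 : Cn n) (5 / 2), Smooth2_w s (z - y) * u y =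
      Smooth2_v (CpA_ext u) s z := by
    intro z
    rw [Smooth2_v_eq, ← integral_indicator measurableSet_ball]
    refine integral_congr_ae (Filter.Eventually.of_forall fun y => ?_)
    simp only
    by_cases hy : y ∈ ball (0 : Cn n) (5 / 2)
    · rw [indicator_of_mem hy, hU1 y hy, mul_comm]
    · rw [indicator_of_notMem hy, hU0 y hy, zero_mul]
  have hle : ∀ z : Cn n, ‖z‖ < 2 → CpA_ext u z ≤ Smooth2_v (CpA_ext u) s z := by
    intro z hz
    refine CpA_le hUm hUb hs0 z fun b hb' => ?_
    have hdisc : ∀ ζ : ℂ, ‖ζ‖ ≤ 1 → z + ζ • b ∈ ball (0 : Cn n) (5 / 2) := by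
      intro ζ hζ
      rw [mem_ball_zero_iff]
      have h1 := norm_add_le z (ζ • b)
      have h2 : ‖ζ • b‖ ≤ 1 * ‖b‖ := by
        rw [norm_smul]
        exact mul_le_mul_of_nonneg_right hζ (norm_nonneg b)
      linarith
    have h1 := hsub z b hdisc
    have hz' : z ∈ ball (0 : Cn n) (5 / 2) := by simpa using hdisc 0 (by simp)
    rw [hU1 z hz']
    refine h1.trans (le_of_eq ?_)
    congr 1
    refine intervalIntegral.integral_congr fun θ _ => ?_
    exact (hU1 _ (hdisc _ (by rw [Complex.norm_exp_ofReal_mul_I]))).symm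
  obtain ⟨hi1, hi2, hi3⟩ := CpA_pair hUm hUb hU0 hχs.continuous hχc hB0 hB hs0
  have e1 : ∫ z in ball (0 : Cn n) (3 / 2), |u z - ∫ y in ball (0 : Cn n) (5 / 2),
      Smooth2_w s (z - y) * u y| =
      ∫ z in ball (0 : Cn n) (3 / 2),
        (χ z * Smooth2_v (CpA_ext u) s z - χ z * CpA_ext u z) := by
    refine setIntegral_congr_fun measurableSet_ball fun z hz => ?_
    rw [mem_ball_zero_iff] at hz
    have hz' : z ∈ ball (0 : Cn n) (5 / 2) := by
      rw [mem_ball_zero_iff]; linarith
    have h1 := hle z (by linarith)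
    rw [hv z, hχ1 z hz.le, one_mul, one_mul, ← hU1 z hz', abs_sub_comm,
      abs_of_nonneg (sub_nonneg.2 h1)]
  have e2 : ∫ z in ball (0 : Cn n) (3 / 2),
        (χ z * Smooth2_v (CpA_ext u) s z - χ z * CpA_ext u z) ≤
      ∫ z, (χ z * Smooth2_v (CpA_ext u) s z - χ z * CpA_ext u z) := by
    refine setIntegral_le_integral (hi1.sub hi2) (Filter.Eventually.of_forall fun z => ?_)
    change 0 ≤ χ z * Smooth2_v (CpA_ext u) s z - χ z * CpA_ext u z
    by_cases hz : ‖z‖ < 2
    · rw [← mul_sub]
      exact mul_nonneg (hχ0 z) (sub_nonneg.2 (hle z hz))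
    · rw [hχ2 z (le_of_not_gt hz)]
      simp
  have hV : 0 ≤ M * volume.real (ball (0 : Cn n) (5 / 2)) := mul_nonneg hM0 measureReal_nonneg
  calc _ = _ := e1
    _ ≤ _ := e2
    _ ≤ _ := hi3
    _ ≤ B * (1 / ((m : ℝ) + 1)) * (M * volume.real (ball (0 : Cn n) (5 / 2))) :=
        mul_le_mul_of_nonneg_right (mul_le_mul_of_nonneg_left hsm hB0) hV
    _ = B * (M * volume.real (ball (0 : Cn n) (5 / 2))) / ((m : ℝ) + 1) := by ring

end HMA
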