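import Pool.Agent.H85.KW.CpA

/-! # Module CpB: compactness in `L^1` -/

open MeasureTheory Metric Set Filter
open scoped ENNReal Topology ContDiff ComplexOrder

namespace HMA

/-- convolution on the ball -/
noncomputable def CpB_T {n : ℕ} (β u : Cn n → ℝ) (z : Cn n) : ℝ :=
  ∫ y in ball (0 : Cn n) (5 / 2), β (z - y) * u y

theorem CpB_int {n : ℕ} {M : ℝ} {u : Cn n → ℝ} (hc : ContinuousOn u (ball 0 (5 / 2)))
    (hM : ∀ z ∈ ball (0 : Cn n) (5 / 2), |u z| ≤ M) :
    IntegrableOn u (ball (0 : Cn n) (5 / 2)) := by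
  have : IsFiniteMeasure (volume.restrict (ball (0 : Cn n) (5 / 2))) :=
    isFiniteMeasure_restrict.2 measure_ball_lt_top.ne
  refine Integrable.of_bound (hc.aestronglyMeasurable isOpen_ball.measurableSet) M ?_
  filter_upwards [ae_restrict_mem isOpen_ball.measurableSet] with z hz
  exact hM z hz

theorem CpB_intT {n : ℕ} {M : ℝ} {β u : Cn n → ℝ} (hβ : Continuous β) (hs : HasCompactSupport β)
    (hc : ContinuousOn u (ball 0 (5 / 2))) (hM : ∀ z ∈ ball (0 : Cn n) (5 / 2), |u z| ≤ M)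
    (z : Cn n) : IntegrableOn (fun y => β (z - y) * u y) (ball (0 : Cn n) (5 / 2)) := by
  obtain ⟨B, hB⟩ := hs.exists_bound_of_continuous hβ
  have h1 : ContinuousOn (fun y => β (z - y) * u y) (ball 0 (5 / 2)) :=
    (hβ.comp (by fun_prop)).continuousOn.mul hc
  refine CpB_int (M := B * M) h1 (fun y hy => ?_)
  rw [abs_mul]
  have h2 := hB (z - y)
  rw [Real.norm_eq_abs] at h2
  exact mul_le_mul h2 (hM y hy) (abs_nonneg _) ((abs_nonneg _).trans h2)

theorem CpB_bound {n : ℕ} (β : Cn n → ℝ) (hβ : Continuous β) (hs : HasCompactSupport β)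
    (M : ℝ) : ∃ A : ℝ, ∀ u : Cn n → ℝ, (∀ z ∈ ball (0 : Cn n) (5 / 2), |u z| ≤ M) →
      ∀ z, |CpB_T β u z| ≤ A := by
  obtain ⟨B, hB⟩ := hs.exists_bound_of_continuous hβ
  refine ⟨B * M * volume.real (ball (0 : Cn n) (5 / 2)), fun u hu z => ?_⟩
  have h1 := norm_setIntegral_le_of_norm_le_const (μ := volume) (s := ball (0 : Cn n) (5 / 2))
    (f := fun y => β (z - y) * u y) (C := B * M) measure_ball_lt_top (fun y hy => by
      rw [norm_mul]
      have h2 := hB (z - y)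
      exact mul_le_mul h2 (hu y hy) (norm_nonneg _) ((norm_nonneg _).trans h2))
  rwa [Real.norm_eq_abs] at h1

theorem CpB_equi {n : ℕ} (β : Cn n → ℝ) (hβ : Continuous β) (hs : HasCompactSupport β)
    (M : ℝ) (ε : ℝ) (hε : 0 < ε) : ∃ δ > 0, ∀ u : Cn n → ℝ,
      ContinuousOn u (ball 0 (5 / 2)) → (∀ z ∈ ball (0 : Cn n) (5 / 2), |u z| ≤ M) →
      ∀ z z', dist z z' < δ → |CpB_T β u z - CpB_T β u z'| ≤ ε := by
  have hu := hs.uniformContinuous_of_continuous hβ
  rw [Metric.uniformContinuous_iff] at hu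
  let V : ℝ := volume.real (ball (0 : Cn n) (5 / 2))
  have hV : 0 ≤ V := measureReal_nonneg
  let c : ℝ := (|M| + 1) * (V + 1)
  have hc0 : 0 < c := by positivity
  obtain ⟨δ, hδ, h1⟩ := hu (ε / c) (by positivity)
  refine ⟨δ, hδ, fun u hc hM z z' hz => ?_⟩
  have h2 : CpB_T β u z - CpB_T β u z' =
      ∫ y in ball (0 : Cn n) (5 / 2), (β (z - y) - β (z' - y)) * u y := by
    unfold CpB_T
    rw [← integral_sub (CpB_intT hβ hs hc hM z) (CpB_intT hβ hs hc hM z')]
    refine integral_congr_ae (Eventually.of_forall fun y => ?_)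
    show β (z - y) * u y - β (z' - y) * u y = (β (z - y) - β (z' - y)) * u y
    ring
  rw [h2]
  have h3 := norm_setIntegral_le_of_norm_le_const (μ := volume) (s := ball (0 : Cn n) (5 / 2))
    (f := fun y => (β (z - y) - β (z' - y)) * u y) (C := ε / c * (|M| + 1)) measure_ball_lt_top
    (fun y hy => by
      rw [norm_mul]
      have h4 : dist (z - y) (z' - y) < δ := by rwa [dist_sub_right]
      have h5 := (h1 h4).le
      rw [Real.dist_eq] at h5
      have h6 : |u y| ≤ |M| + 1 := (hM y hy).trans ((le_abs_self M).trans (by linarith))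
      exact mul_le_mul h5 h6 (norm_nonneg _) (by positivity))
  rw [Real.norm_eq_abs] at h3
  refine h3.trans ?_
  have h7 : ε / c * (|M| + 1) * V ≤ ε / c * (|M| + 1) * (V + 1) :=
    mul_le_mul_of_nonneg_left (by linarith) (by positivity)
  refine h7.trans (le_of_eq ?_)
  rw [mul_assoc]
  exact div_mul_cancel₀ ε hc0.ne'

theorem CpB_contT {n : ℕ} {M : ℝ} {β u : Cn n → ℝ} (hβ : Continuous β) (hs : HasCompactSupport β)
    (hc : ContinuousOn u (ball 0 (5 / 2))) (hM : ∀ z ∈ ball (0 : Cn n) (5 / 2), |u z| ≤ M) :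
    Continuous (CpB_T β u) := by
  rw [Metric.continuous_iff]
  intro z ε hε
  obtain ⟨δ, hδ, h⟩ := CpB_equi β hβ hs M (ε / 2) (by positivity)
  refine ⟨δ, hδ, fun w hw => ?_⟩
  rw [Real.dist_eq]
  exact (h u hc hM w z hw).trans_lt (by linarith)

/-- pointwise convergence of the convolutions along a subsequence -/
theorem CpB_diag {n N : ℕ} {M : ℝ} (β : ℕ → Cn n → ℝ) (hβ : ∀ m, Continuous (β m))
    (hs : ∀ m, HasCompactSupport (β m)) (u : ℕ → Fin N → Cn n → ℝ)
    (hc : ∀ k i, ContinuousOn (u k i) (ball 0 (5 / 2)))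
    (hM : ∀ k i, ∀ z ∈ ball (0 : Cn n) (5 / 2), |u k i z| ≤ M) :
    ∃ φ : ℕ → ℕ, StrictMono φ ∧ ∀ m i z, ∃ l : ℝ,
      Tendsto (fun k => CpB_T (β m) (u (φ k) i) z) atTop (𝓝 l) := by
  choose A hA using fun m => CpB_bound (β m) (hβ m) (hs m) M
  let x : ℕ → (ℕ × Fin N × ℕ → ℝ) := fun k p =>
    CpB_T (β p.1) (u k p.2.1) (TopologicalSpace.denseSeq (Cn n) p.2.2)
  have hK : IsCompact (Set.pi univ (fun p : ℕ × Fin N × ℕ => Icc (-A p.1) (A p.1))) :=
    isCompact_univ_pi (fun _ => isCompact_Icc)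
  have hx : ∀ k, x k ∈ Set.pi univ (fun p : ℕ × Fin N × ℕ => Icc (-A p.1) (A p.1)) := by
    intro k p _
    exact abs_le.1 (hA p.1 (u k p.2.1) (hM k p.2.1) _)
  obtain ⟨a, -, φ, hφ, hlim⟩ := hK.tendsto_subseq hx
  refine ⟨φ, hφ, fun m i z => ?_⟩
  refine cauchySeq_tendsto_of_complete ?_
  rw [Metric.cauchySeq_iff']
  intro ε hε
  obtain ⟨δ, hδ, hδ'⟩ := CpB_equi (β m) (hβ m) (hs m) M (ε / 4) (by positivity)
  obtain ⟨q, hq⟩ := (TopologicalSpace.denseRange_denseSeq (Cn n)).exists_dist_lt z hδ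
  have h1 : Tendsto (fun k => x (φ k) (m, i, q)) atTop (𝓝 (a (m, i, q))) :=
    (tendsto_pi_nhds.1 hlim) (m, i, q)
  have h2 := h1.cauchySeq
  rw [Metric.cauchySeq_iff'] at h2
  obtain ⟨K, hK'⟩ := h2 (ε / 4) (by positivity)
  refine ⟨K, fun k hk => ?_⟩
  have h3 := hK' k hk
  have h4 := hδ' (u (φ k) i) (hc _ _) (hM _ _) _ _ hq
  have h5 := hδ' (u (φ K) i) (hc _ _) (hM _ _) _ _ hq
  rw [Real.dist_eq] at h3 ⊢
  have h6 : |CpB_T (β m) (u (φ k) i) (TopologicalSpace.denseSeq (Cn n) q) -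
      CpB_T (β m) (u (φ K) i) (TopologicalSpace.denseSeq (Cn n) q)| < ε / 4 := h3
  rw [abs_le] at h4 h5
  rw [abs_lt] at h6 ⊢
  constructor <;> linarith [h4.1, h4.2, h5.1, h5.2, h6.1, h6.2]

theorem compact_L1 {n N : ℕ} {M : ℝ} (u : ℕ → Fin N → Cn n → ℝ)
    (hc : ∀ k i, ContinuousOn (u k i) (ball 0 (5 / 2)))
    (hs : ∀ k i, SubOn (ball 0 (5 / 2)) (u k i))
    (hM : ∀ k i, ∀ z ∈ ball (0 : Cn n) (5 / 2), |u k i z| ≤ M) :
    ∃ φ : ℕ → ℕ, StrictMono φ ∧ ∀ i k,
      ∫ z in ball (0 : Cn n) (3 / 2), |u (φ (k + 1)) i z - u (φ k) i z| ≤ (1 / 2) ^ k := by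
  obtain ⟨β, hβ1, hβ2, hβ3⟩ := moll_L1 n
  obtain ⟨C, hC⟩ := hβ3 |M| (abs_nonneg M)
  have hβc : ∀ m, Continuous (β m) := fun m => (hβ1 m).continuous
  obtain ⟨φ, hφ, hlim⟩ := CpB_diag β hβc hβ2 u hc hM
  choose g hg using hlim
  have hsub : ball (0 : Cn n) (3 / 2) ⊆ ball 0 (5 / 2) := ball_subset_ball (by norm_num)
  have hui : ∀ k i, IntegrableOn (u k i) (ball (0 : Cn n) (3 / 2)) := fun k i =>
    (CpB_int (hc k i) (hM k i)).mono_set hsub
  have hTc : ∀ m k i, Continuous (CpB_T (β m) (u k i)) := fun m k i =>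
    CpB_contT (hβc m) (hβ2 m) (hc k i) (hM k i)
  have hTi : ∀ m k i, IntegrableOn (CpB_T (β m) (u k i)) (ball (0 : Cn n) (3 / 2)) :=
    fun m k i => ((hTc m k i).continuousOn.integrableOn_compact
      (isCompact_closedBall _ _)).mono_set ball_subset_closedBall
  have hfin : IsFiniteMeasure (volume.restrict (ball (0 : Cn n) (3 / 2))) :=
    isFiniteMeasure_restrict.2 measure_ball_lt_top.ne
  -- dominated convergence
  have hdom : ∀ m i, Tendsto (fun k => ∫ z in ball (0 : Cn n) (3 / 2),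
      |CpB_T (β m) (u (φ k) i) z - g m i z|) atTop (𝓝 0) ∧
      IntegrableOn (g m i) (ball (0 : Cn n) (3 / 2)) := by
    intro m i
    obtain ⟨A, hA⟩ := CpB_bound (β m) (hβc m) (hβ2 m) M
    have hgA : ∀ z, |g m i z| ≤ A := fun z =>
      le_of_tendsto (hg m i z).abs (Eventually.of_forall fun k => hA _ (hM _ _) z)
    have hgm : AEStronglyMeasurable (g m i) (volume.restrict (ball (0 : Cn n) (3 / 2))) :=
      aestronglyMeasurable_of_tendsto_ae atTop
        (fun k => (hTc m (φ k) i).aestronglyMeasurable) (Eventually.of_forall fun z => hg m i z)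
    refine ⟨?_, Integrable.of_bound hgm A (Eventually.of_forall hgA)⟩
    have h1 := tendsto_integral_of_dominated_convergence
      (μ := volume.restrict (ball (0 : Cn n) (3 / 2)))
      (F := fun k z => |CpB_T (β m) (u (φ k) i) z - g m i z|) (f := fun _ => (0 : ℝ))
      (fun _ => 2 * A) (fun k => ((hTc m (φ k) i).aestronglyMeasurable.sub hgm).norm)
      (integrable_const _) (fun k => Eventually.of_forall fun z => by
        rw [Real.norm_eq_abs, abs_abs]
        have h2 := abs_sub (CpB_T (β m) (u (φ k) i) z) (g m i z)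
        have h3 := hA _ (hM (φ k) i) z
        have h4 := hgA z
        linarith)
      (Eventually.of_forall fun z => by
        have h2 := ((hg m i z).sub_const (g m i z)).abs
        rwa [sub_self, abs_zero] at h2)
    rwa [integral_zero] at h1
  -- triangle inequality for the integrals
  have htri : ∀ a b c : Cn n → ℝ, IntegrableOn a (ball (0 : Cn n) (3 / 2)) →
      IntegrableOn b (ball (0 : Cn n) (3 / 2)) → IntegrableOn c (ball (0 : Cn n) (3 / 2)) →
      ∫ z in ball (0 : Cn n) (3 / 2), |a z - c z| ≤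
        (∫ z in ball (0 : Cn n) (3 / 2), |a z - b z|) +
          ∫ z in ball (0 : Cn n) (3 / 2), |b z - c z| := by
    intro a b c ha hb hc'
    have e1 : Integrable (fun z => |a z - b z|) (volume.restrict (ball (0 : Cn n) (3 / 2))) :=
      (ha.sub hb).norm
    have e2 : Integrable (fun z => |b z - c z|) (volume.restrict (ball (0 : Cn n) (3 / 2))) :=
      (hb.sub hc').norm
    have e3 : Integrable (fun z => |a z - c z|) (volume.restrict (ball (0 : Cn n) (3 / 2))) :=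
      (ha.sub hc').norm
    rw [← integral_add e1 e2]
    exact integral_mono e3 (e1.add e2) (fun z => abs_sub_le (a z) (b z) (c z))
  have hsymm : ∀ a b : Cn n → ℝ, ∫ z in ball (0 : Cn n) (3 / 2), |a z - b z| =
      ∫ z in ball (0 : Cn n) (3 / 2), |b z - a z| := by
    intro a b
    congr 1
    funext z
    exact abs_sub_comm _ _
  -- Cauchy in mean
  have hcau : ∀ ε : ℝ, 0 < ε → ∃ K, ∀ k, K ≤ k → ∀ l, K ≤ l → ∀ i,
      ∫ z in ball (0 : Cn n) (3 / 2), |u (φ k) i z - u (φ l) i z| ≤ ε := by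
    intro ε hε
    obtain ⟨m, hm⟩ := exists_nat_gt (|C| / (ε / 4))
    have hCm : C / (m + 1) ≤ ε / 4 := by
      rw [div_le_iff₀ (by positivity)]
      rw [div_lt_iff₀ (by positivity)] at hm
      have := le_abs_self C
      nlinarith
    have h1 : ∀ᶠ k in atTop, ∀ i, ∫ z in ball (0 : Cn n) (3 / 2),
        |CpB_T (β m) (u (φ k) i) z - g m i z| < ε / 4 := by
      rw [eventually_all]
      intro i
      exact (hdom m i).1.eventually (gt_mem_nhds (by positivity))
    obtain ⟨K, hK⟩ := eventually_atTop.1 h1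
    refine ⟨K, fun k hk l hl i => ?_⟩
    have e1 : ∀ k, ∫ z in ball (0 : Cn n) (3 / 2),
        |u (φ k) i z - CpB_T (β m) (u (φ k) i) z| ≤ ε / 4 := fun k =>
      (hC m (u (φ k) i) (hc _ _) (hs _ _)
        (fun z hz => (hM _ _ z hz).trans (le_abs_self M))).trans hCm
    have e2 : ∀ k, K ≤ k → ∫ z in ball (0 : Cn n) (3 / 2),
        |u (φ k) i z - g m i z| ≤ ε / 4 + ε / 4 := fun k hk =>
      (htri _ (CpB_T (β m) (u (φ k) i)) _ (hui _ _) (hTi _ _ _) (hdom m i).2).trans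
        (add_le_add (e1 k) (hK k hk i).le)
    have e3 := htri (u (φ k) i) (g m i) (u (φ l) i) (hui _ _) (hdom m i).2 (hui _ _)
    rw [hsymm (g m i)] at e3
    linarith [e2 k hk, e2 l hl]
  obtain ⟨ψ, hψ, hψ'⟩ := extraction_forall_of_eventually
    (P := fun k a => ∀ b, a ≤ b → ∀ i, ∫ z in ball (0 : Cn n) (3 / 2),
      |u (φ b) i z - u (φ a) i z| ≤ (1 / 2 : ℝ) ^ k) (fun k => by
    obtain ⟨K, hK⟩ := hcau ((1 / 2 : ℝ) ^ k) (by positivity)
    filter_upwards [eventually_ge_atTop K] with a ha b hb i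
    exact hK b (ha.trans hb) a ha i)
  exact ⟨φ ∘ ψ, hφ.comp hψ, fun i k => hψ' k (ψ (k + 1)) (hψ (Nat.lt_succ_self k)).le i⟩

end HMA
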