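import Pool.Agent.H85.KW.LocX
import Pool.Agent.H85.MA.PshBall
import Pool.Agent.H85.KM.EnvA

/-! # Module CpC: upper semicontinuous regularisation of suprema -/

open MeasureTheory Metric Set Filter
open scoped ENNReal Topology ContDiff ComplexOrder

namespace HMA

/-- the sub-mean value inequality on closed balls -/
theorem CpC_ball {n : ℕ} {u : Cn n → ℝ} {y : Cn n} {r : ℝ}
    (hu : ContinuousOn u (closedBall y r))
    (hs : ∀ b : Cn n, ‖b‖ ≤ r → u y ≤ (2 * Real.pi)⁻¹ *
      ∫ θ in (0 : ℝ)..(2 * Real.pi), u (y + Complex.exp (θ * Complex.I) • b)) :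
    u y * volume.real (closedBall y r) ≤ ∫ x in closedBall y r, u x := by
  classical
  set W : Set (Cn n) := closedBall (0 : Cn n) r with hW
  have hadd : ∀ x ∈ W, y + x ∈ closedBall y r := by
    intro x hx
    rw [mem_closedBall, dist_eq_norm, add_sub_cancel_left]
    simpa [hW] using hx
  have hcW : ContinuousOn (fun x => u (y + x)) W :=
    hu.comp (continuous_const.add continuous_id).continuousOn hadd
  set v : Cn n → ℝ := W.indicator (fun x => u (y + x)) with hv
  have hvm : Measurable v := by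
    have h1 : Measurable (W.piecewise (fun x => u (y + x)) (fun _ => (0 : ℝ))) :=
      hcW.measurable_piecewise continuousOn_const measurableSet_closedBall
    have h2 : v = W.piecewise (fun x => u (y + x)) (fun _ => (0 : ℝ)) := by
      rw [hv]
      exact (piecewise_eq_indicator (f := fun x => u (y + x))).symm
    rw [h2]
    exact h1
  obtain ⟨B, hB⟩ := (isCompact_closedBall y r).exists_bound_of_continuousOn hu
  have hvB : ∀ x z : Cn n, ‖x‖ = ‖z‖ → ‖v x‖ ≤ W.indicator (fun _ => B) z := by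
    intro x z hxz
    by_cases hx : x ∈ W
    · have hz : z ∈ W := by simpa [hW, ← hxz] using hx
      rw [hv, indicator_of_mem hx, indicator_of_mem hz]
      exact hB _ (hadd x hx)
    · have hz : z ∉ W := by simpa [hW, ← hxz] using hx
      rw [hv, indicator_of_notMem hx, indicator_of_notMem hz, norm_zero]
  have hBi : Integrable (W.indicator (fun _ => B)) (volume : Measure (Cn n)) :=
    (integrable_indicator_iff measurableSet_closedBall).2
      (integrableOn_const (measure_closedBall_lt_top).ne)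
  set F : ℝ → Cn n → ℝ := fun θ x => v (Complex.exp (θ * Complex.I) • x) with hF
  have hnorm : ∀ (θ : ℝ) (x : Cn n), ‖Complex.exp (θ * Complex.I) • x‖ = ‖x‖ := fun θ x => by
    rw [norm_smul, Complex.norm_exp_ofReal_mul_I, one_mul]
  have hFint : Integrable (Function.uncurry F)
      ((volume.restrict (Ioc 0 (2 * Real.pi))).prod volume) := by
    have h1 : Integrable (fun p : ℝ × Cn n => W.indicator (fun _ => B) p.2)
      ((volume.restrict (Ioc 0 (2 * Real.pi))).prod volume) := hBi.comp_snd _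
    refine h1.mono' ?_ (Filter.Eventually.of_forall fun p => hvB _ _ (hnorm p.1 p.2))
    have hc : Continuous (fun p : ℝ × Cn n => Complex.exp (p.1 * Complex.I) • p.2) := by
      fun_prop
    exact (hvm.comp hc.measurable).aestronglyMeasurable
  have hrot : ∀ θ : ℝ, ∫ x, F θ x = ∫ x, v x := by
    intro θ
    exact (PshBall_mp (n := n) θ).integral_comp' (g := v)
      (f := (MeasurableEquiv.smul₀ (Complex.exp (θ * Complex.I)) (Complex.exp_ne_zero _)))
  have hswap := integral_integral_swap (f := F) hFint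
  have hpi : 0 < 2 * Real.pi := by positivity
  have h2 : ∫ x, v x = (2 * Real.pi)⁻¹ * ∫ x, ∫ θ in Ioc 0 (2 * Real.pi), F θ x := by
    rw [← hswap]
    simp_rw [hrot]
    rw [integral_const]
    simp only [measureReal_restrict_apply_univ, Real.volume_real_Ioc, smul_eq_mul]
    rw [sub_zero, max_eq_left hpi.le, ← mul_assoc, inv_mul_cancel₀ hpi.ne', one_mul]
  have h3 : ∫ x, v x = ∫ x in closedBall y r, u x := by
    have hf : ∀ x, v x = (closedBall y r).indicator u (y + x) := by
      intro x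
      by_cases hx : x ∈ W
      · rw [hv, indicator_of_mem hx, indicator_of_mem (hadd x hx)]
      · have hx' : y + x ∉ closedBall y r := by
          rw [mem_closedBall, dist_eq_norm, add_sub_cancel_left]; simpa [hW] using hx
        rw [hv, indicator_of_notMem hx, indicator_of_notMem hx']
    simp_rw [hf]
    rw [integral_add_left_eq_self (fun x => (closedBall y r).indicator u x) y,
      integral_indicator measurableSet_closedBall]
  have h4 : volume.real (closedBall y r) = ∫ x : Cn n, W.indicator (fun _ => (1 : ℝ)) x := by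
    rw [integral_indicator measurableSet_closedBall, setIntegral_const, smul_eq_mul, mul_one,
        measureReal_def, measureReal_def, Measure.addHaar_closedBall_center volume y]
  rw [← h3, h2, h4, ← integral_const_mul, ← integral_const_mul]
  refine integral_mono ?_ (hFint.integral_prod_right.const_mul _) (fun x => ?_)
  · refine Integrable.const_mul ?_ _
    exact (integrable_indicator_iff measurableSet_closedBall).2
      (integrableOn_const (measure_closedBall_lt_top).ne)
  · simp only [hF]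
    by_cases hx : x ∈ W
    · have h5 := hs x (by simpa [hW] using hx)
      rw [intervalIntegral.integral_of_le hpi.le] at h5
      rw [indicator_of_mem hx, mul_one]
      refine h5.trans (le_of_eq ?_)
      congr 1
      refine setIntegral_congr_fun measurableSet_Ioc fun θ _ => ?_
      have h6 : Complex.exp (θ * Complex.I) • x ∈ W := by
        simpa [hW, hnorm] using hx
      rw [hv, indicator_of_mem h6]
    · have h6 : ∀ θ : ℝ, v (Complex.exp (θ * Complex.I) • x) = 0 := by
        intro θ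
        rw [hv]
        refine indicator_of_notMem ?_ _
        simpa [hW, hnorm] using hx
      simp [h6, indicator_of_notMem hx]
/-- the upper semicontinuous regularisation -/
noncomputable def CpCG {X : Type} [TopologicalSpace X] (S : X → ℝ) (x : X) : ℝ :=
  sInf {y | ∀ᶠ w in 𝓝 x, S w < y}

section CpCreg

variable {X : Type} [TopologicalSpace X] {S : X → ℝ} {B : ℝ}

theorem CpCG_bdd (x : X) : BddBelow {y | ∀ᶠ w in 𝓝 x, S w < y} :=
  ⟨S x, fun _ hy => (Filter.Eventually.self_of_nhds hy).le⟩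

theorem CpCG_mem (hS : ∀ x, S x ≤ B) (x : X) {c : ℝ} (hc : B < c) :
    c ∈ {y | ∀ᶠ w in 𝓝 x, S w < y} :=
  Filter.Eventually.of_forall fun w => (hS w).trans_lt hc

theorem CpCG_le (hS : ∀ x, S x ≤ B) (x : X) : CpCG S x ≤ B :=
  le_of_forall_gt_imp_ge_of_dense fun _ hc => csInf_le (CpCG_bdd x) (CpCG_mem hS x hc)

theorem CpCG_ge (hS : ∀ x, S x ≤ B) (x : X) : S x ≤ CpCG S x :=
  le_csInf ⟨B + 1, CpCG_mem hS x (by linarith)⟩
    fun _ hy => (Filter.Eventually.self_of_nhds hy).le

theorem CpCG_lt (hS : ∀ x, S x ≤ B) {x : X} {y : ℝ} (h : CpCG S x < y) :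
    ∀ᶠ w in 𝓝 x, S w < y := by
  obtain ⟨y', hy', hlt⟩ := exists_lt_of_csInf_lt ⟨B + 1, CpCG_mem hS x (by linarith)⟩ h
  filter_upwards [hy'] with w hw
  exact hw.trans hlt

theorem CpCG_usc (hS : ∀ x, S x ≤ B) : UpperSemicontinuous (CpCG S) := by
  intro x y hy
  obtain ⟨y', h1, h2⟩ := exists_between hy
  filter_upwards [(CpCG_lt hS h1).eventually_nhds] with w hw
  exact lt_of_le_of_lt (csInf_le (CpCG_bdd w) hw) h2

theorem CpCG_min {H : X → ℝ} (hH : UpperSemicontinuous H) (h : ∀ x, S x ≤ H x) (x : X) :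
    CpCG S x ≤ H x := by
  refine le_of_forall_gt_imp_ge_of_dense fun c hc => csInf_le (CpCG_bdd x) ?_
  filter_upwards [hH x c hc] with w hw
  exact (h w).trans_lt hw

end CpCreg

variable {n : ℕ} {X : Type} [TopologicalSpace X] (K : KM n X)

theorem CpC_ev (i : Fin K.N) {z : Cn n} (hz : z ∈ ball (0 : Cn n) 3) {p : X → Prop}
    (h : ∀ᶠ w in 𝓝 z, p (K.κ i w)) : ∀ᶠ x in 𝓝 (K.κ i z), p x := by
  obtain ⟨U, hUp, hU, hzU⟩ := _root_.mem_nhds_iff.1 h
  have ho : IsOpen (K.κ i '' (U ∩ ball 0 3)) :=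
    K.isOpen_image i _ inter_subset_right (hU.inter isOpen_ball)
  refine Filter.mem_of_superset (ho.mem_nhds ⟨z, ⟨hzU, hz⟩, rfl⟩) ?_
  rintro y ⟨w, ⟨hwU, hw⟩, rfl⟩
  exact hUp hwU

theorem CpC_cont (i : Fin K.N) {z : Cn n} (hz : z ∈ ball (0 : Cn n) 3) :
    ContinuousAt (K.κ i) z := (K.cont i).continuousAt (isOpen_ball.mem_nhds hz)

theorem CpC_ρ (i : Fin K.N) : ContinuousOn (K.ρ i) (ball 0 3) := (K.ρ_smooth i).continuousOn

theorem CpC_Q_usc {G : X → ℝ} (hG : UpperSemicontinuous G) (i : Fin K.N) :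
    UpperSemicontinuousOn (fun z => K.ρ i z + G (K.κ i z)) (ball 0 3) := by
  refine UpperSemicontinuousOn.add (CpC_ρ K i).upperSemicontinuousOn ?_
  intro z hz y hy
  exact (((CpC_cont K i hz).eventually (hG (K.κ i z) y hy)).filter_mono nhdsWithin_le_nhds)

/-- the regularised supremum is plurisubharmonic -/
theorem CpC_sub (ψ : ℕ → X → ℝ) (hψ : ∀ k, PC K (ψ k)) {B : ℝ}
    (hB : ∀ k x, |ψ k x| ≤ B) (i : Fin K.N) :
    SubOn (ball 0 3) (fun z => K.ρ i z + CpCG (fun x => ⨆ k, ψ k x) (K.κ i z)) := by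
  set S : X → ℝ := fun x => ⨆ k, ψ k x with hSdef
  have hbA : ∀ x, BddAbove (range fun k => ψ k x) := fun x => ⟨B, by
    rintro _ ⟨k, rfl⟩
    exact (abs_le.1 (hB k x)).2⟩
  have hSB : ∀ x, S x ≤ B := fun x => ciSup_le fun k => (abs_le.1 (hB k x)).2
  have hψS : ∀ k x, ψ k x ≤ S x := fun k x => le_ciSup (hbA x) k
  set G : X → ℝ := CpCG S with hG
  have hSG : ∀ x, S x ≤ G x := CpCG_ge hSB
  have hGB : ∀ x, |G x| ≤ B := fun x => abs_le.2
    ⟨(abs_le.1 (hB 0 x)).1.trans ((hψS 0 x).trans (hSG x)), CpCG_le hSB x⟩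
  have hQu : UpperSemicontinuousOn (fun z => K.ρ i z + G (K.κ i z)) (ball 0 3) :=
    CpC_Q_usc K (CpCG_usc hSB) i
  have hρb : ∀ L ⊆ ball (0 : Cn n) 3, IsCompact L → ∃ M : ℝ, ∀ z ∈ L, |K.ρ i z| ≤ M :=
    fun L hL hLc => hLc.exists_bound_of_continuousOn ((CpC_ρ K i).mono hL)
  refine loc_glob isOpen_ball hQu ?_ ?_
  · intro L hL hLc
    obtain ⟨M, hM⟩ := hρb L hL hLc
    refine ⟨M + B, fun z hz => ?_⟩
    have h1 := (abs_le.1 (hM z hz)).1
    have h2 := (abs_le.1 (hGB (K.κ i z))).1
    linarith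
  · intro a ha
    obtain ⟨R, hR, hRΩ⟩ := Metric.isOpen_iff.1 isOpen_ball a ha
    refine ⟨R / 4, by positivity, fun b hb => ?_⟩
    have hL : closedBall a (R / 2) ⊆ ball (0 : Cn n) 3 :=
      (Metric.closedBall_subset_ball (by linarith)).trans hRΩ
    obtain ⟨M, hM⟩ := hρb _ hL (isCompact_closedBall a (R / 2))
    have hdisc : ∀ a' : Cn n, ‖a' - a‖ ≤ R / 4 → ∀ ζ : ℂ, ‖ζ‖ ≤ 1 →
        a' + ζ • b ∈ closedBall a (R / 2) := by
      intro a' ha' ζ hζ
      rw [mem_closedBall, dist_eq_norm]
      have h1 : a' + ζ • b - a = (a' - a) + ζ • b := by abel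
      rw [h1]
      refine (norm_add_le _ _).trans ?_
      rw [norm_smul]
      have h2 : ‖ζ‖ * ‖b‖ ≤ 1 * (R / 4) := by gcongr
      linarith
    have hmem : ∀ a' : Cn n, ‖a' - a‖ ≤ R / 4 → ∀ θ : ℝ,
        a' + Complex.exp (θ * Complex.I) • b ∈ closedBall a (R / 2) :=
      fun a' ha' θ => hdisc a' ha' _ (Complex.norm_exp_ofReal_mul_I θ).le
    have hbQ : ∀ g : X → ℝ, (∀ x, |g x| ≤ B) → ∀ z ∈ closedBall a (R / 2),
        |K.ρ i z + g (K.κ i z)| ≤ M + B := by
      intro g hg z hz
      exact (abs_add_le _ _).trans (add_le_add (hM z hz) (hg _))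
    have hex : ∀ k : ℕ, ∃ a' ∈ ball (0 : Cn n) 3, ‖a' - a‖ < min (R / 4) (1 / (k + 1)) ∧
        ∃ m, G (K.κ i a) - 1 / (k + 1) < ψ m (K.κ i a') := by
      intro k
      by_contra hcon
      push Not at hcon
      have hε : (0 : ℝ) < 1 / (k + 1) := by positivity
      have h1 : ∀ᶠ w in 𝓝 a, S (K.κ i w) < G (K.κ i a) - 1 / (k + 1) / 2 := by
        filter_upwards [Metric.ball_mem_nhds a (show (0 : ℝ) < min (R / 4) (1 / (k + 1)) by
          positivity), isOpen_ball.mem_nhds ha] with z hz hz3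
        have h2 : S (K.κ i z) ≤ G (K.κ i a) - 1 / (k + 1) :=
          ciSup_le fun m => hcon z hz3 (by simpa [dist_eq_norm] using hz) m
        linarith
      have h2 : G (K.κ i a) ≤ G (K.κ i a) - 1 / (k + 1) / 2 :=
        csInf_le (CpCG_bdd _) (CpC_ev K i ha h1)
      linarith
    choose A hAΩ hA m hm using hex
    have hA0 : ∀ k, ‖A k - a‖ ≤ R / 4 := fun k => (hA k).le.trans (min_le_left _ _)
    have hAt : Filter.Tendsto A Filter.atTop (𝓝 a) := by
      rw [tendsto_iff_norm_sub_tendsto_zero]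
      refine squeeze_zero (fun _ => norm_nonneg _)
        (fun k => (hA k).le.trans (min_le_right _ _)) tendsto_one_div_add_atTop_nhds_zero_nat
    have hs : Filter.Tendsto (fun k : ℕ => K.ρ i (A k) + (G (K.κ i a) - 1 / ((k : ℝ) + 1)))
        Filter.atTop (𝓝 (K.ρ i a + G (K.κ i a))) := by
      have h1 : Filter.Tendsto (fun k : ℕ => G (K.κ i a) - 1 / ((k : ℝ) + 1)) Filter.atTop
          (𝓝 (G (K.κ i a))) := by
        simpa using tendsto_one_div_add_atTop_nhds_zero_nat.const_sub (G (K.κ i a))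
      have h2 : ContinuousAt (K.ρ i) a := (CpC_ρ K i).continuousAt (isOpen_ball.mem_nhds ha)
      exact (h2.tendsto.comp hAt).add h1
    refine enva_key isOpen_ball hQu hAt (M := M + B)
      (fun θ => hL (hmem a (by simp; positivity) θ))
      (fun k θ => hL (hmem (A k) (hA0 k) θ))
      (fun θ => hbQ G hGB _ (hmem a (by simp; positivity) θ))
      (fun k θ => hbQ G hGB _ (hmem (A k) (hA0 k) θ)) hs ?_
    intro k
    have h1 := (hψ (m k)).sub i (A k) b (fun ζ hζ => hL (hdisc _ (hA0 k) ζ hζ))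
    have h2 : K.ρ i (A k) + (G (K.κ i a) - 1 / ((k : ℝ) + 1)) ≤
        K.ρ i (A k) + ψ (m k) (K.κ i (A k)) := by
      have := hm k
      linarith
    refine h2.trans (h1.trans ?_)
    have hmk := hmem (A k) (hA0 k)
    refine mul_le_mul_of_nonneg_left ?_ (by positivity)
    refine intervalIntegral.integral_mono_on (by positivity) ?_ ?_ ?_
    · exact enva_intble (fun z => K.ρ i z + ψ (m k) (K.κ i z))
        (CpC_Q_usc K (hψ (m k)).cont.upperSemicontinuous i) (fun θ => hL (hmk θ))
        (fun θ => hbQ _ (hB (m k)) _ (hmk θ)) _ _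
    · exact enva_intble _ hQu (fun θ => hL (hmk θ)) (fun θ => hbQ G hGB _ (hmk θ)) _ _
    · intro θ _
      have := (hψS (m k) (K.κ i (A k + Complex.exp (θ * Complex.I) • b))).trans (hSG _)
      linarith

/-- the supremum is upper semicontinuous at almost all points -/
theorem CpC_ae (ψ : ℕ → X → ℝ) (hψ : ∀ k, PC K (ψ k)) {B : ℝ}
    (hB : ∀ k x, |ψ k x| ≤ B) (i : Fin K.N) :
    ∀ᵐ z : Cn n, z ∈ ball (0 : Cn n) 3 → ∀ c : ℝ,
      K.ρ i z + (⨆ k, ψ k (K.κ i z)) < c → ∀ᶠ y in 𝓝 z,
      K.ρ i y + (⨆ k, ψ k (K.κ i y)) < c := by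
  classical
  set T : Cn n → ℝ := fun z => K.ρ i z + ⨆ k, ψ k (K.κ i z) with hT
  have hbA : ∀ x, BddAbove (range fun k => ψ k x) := fun x => ⟨B, by
    rintro _ ⟨k, rfl⟩
    exact (abs_le.1 (hB k x)).2⟩
  have hψS : ∀ k x, ψ k x ≤ ⨆ k, ψ k x := fun k x => le_ciSup (hbA x) k
  have hSB : ∀ x, |⨆ k, ψ k x| ≤ B := fun x => abs_le.2
    ⟨(abs_le.1 (hB 0 x)).1.trans (hψS 0 x), ciSup_le fun k => (abs_le.1 (hB k x)).2⟩
  set R : ℕ → ℝ := fun m => 3 - 1 / (m + 1) with hR
  have hR3 : ∀ m, closedBall (0 : Cn n) (R m) ⊆ ball 0 3 := by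
    intro m
    refine closedBall_subset_ball ?_
    have : (0 : ℝ) < 1 / (m + 1) := by positivity
    simp only [hR]; linarith
  have hρb : ∀ m, ∃ M : ℝ, ∀ z ∈ closedBall (0 : Cn n) (R m), |K.ρ i z| ≤ M :=
    fun m => (isCompact_closedBall 0 (R m)).exists_bound_of_continuousOn
      ((CpC_ρ K i).mono (hR3 m))
  have huc : ∀ k, ContinuousOn (fun z => K.ρ i z + ψ k (K.κ i z)) (ball 0 3) := fun k =>
    (CpC_ρ K i).add ((hψ k).cont.comp_continuousOn (K.cont i))
  have hmeas : ∀ m, Measurable ((closedBall (0 : Cn n) (R m)).indicator T) := by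
    intro m
    have h1 : (closedBall (0 : Cn n) (R m)).indicator T = fun z => ⨆ k,
        (closedBall (0 : Cn n) (R m)).piecewise (fun z => K.ρ i z + ψ k (K.κ i z))
          (fun _ => (0 : ℝ)) z := by
      funext z
      by_cases hz : z ∈ closedBall (0 : Cn n) (R m)
      · rw [indicator_of_mem hz]
        simp only [piecewise_eq_of_mem _ _ _ hz]
        rw [hT]
        simp only
        exact (Monotone.map_ciSup_of_continuousAt (f := fun t : ℝ => K.ρ i z + t)
          (g := fun k => ψ k (K.κ i z))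
          (continuous_const.add continuous_id).continuousAt
          (fun a b hab => by simpa using hab) (hbA _))
      · rw [indicator_of_notMem hz]
        simp only [piecewise_eq_of_notMem _ _ _ hz]
        simp
    rw [h1]
    refine Measurable.iSup fun k => ?_
    exact ((huc k).mono (hR3 m)).measurable_piecewise continuousOn_const
      measurableSet_closedBall
  have hint : ∀ m, LocallyIntegrable ((closedBall (0 : Cn n) (R m)).indicator T) volume := by
    intro m
    obtain ⟨M, hM⟩ := hρb m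
    refine Integrable.locallyIntegrable ?_
    rw [integrable_indicator_iff measurableSet_closedBall]
    have h1 : IntegrableOn ((closedBall (0 : Cn n) (R m)).indicator T)
        (closedBall (0 : Cn n) (R m)) volume := by
      refine Measure.integrableOn_of_bounded (M := M + B) (measure_closedBall_lt_top).ne
        (hmeas m).aestronglyMeasurable ?_
      refine (ae_restrict_iff' measurableSet_closedBall).2 (Filter.Eventually.of_forall ?_)
      intro z hz
      rw [indicator_of_mem hz]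
      exact (abs_add_le _ _).trans (add_le_add (hM z hz) (hSB _))
    refine h1.congr_fun (fun z hz => indicator_of_mem hz _) measurableSet_closedBall
  have hae := ae_all_iff.2 fun m =>
    IsUnifLocDoublingMeasure.ae_tendsto_average (μ := (volume : Measure (Cn n))) (hint m) 1
  filter_upwards [hae] with z hz hz3 c hc
  have hz3' : ‖z‖ < 3 := by simpa using hz3
  obtain ⟨m, hm⟩ := exists_nat_one_div_lt (show (0 : ℝ) < (3 - ‖z‖) / 2 by linarith)
  have hRm : ‖z‖ + (3 - ‖z‖) / 2 < R m := by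
    simp only [hR]; linarith
  have hzR : z ∈ closedBall (0 : Cn n) (R m) := by
    rw [mem_closedBall_zero_iff]; linarith
  -- the ball inequality
  have hball : ∀ y : Cn n, ∀ r : ℝ, 0 < r → closedBall y r ⊆ closedBall (0 : Cn n) (R m) →
      T y ≤ ⨍ x in closedBall y r, (closedBall (0 : Cn n) (R m)).indicator T x := by
    intro y r hr hyr
    have hsub3 : closedBall y r ⊆ ball (0 : Cn n) 3 := hyr.trans (hR3 m)
    have hpos : 0 < volume.real (closedBall y r) := by
      rw [measureReal_def]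
      exact ENNReal.toReal_pos (measure_closedBall_pos volume y hr).ne'
        (measure_closedBall_lt_top).ne
    have hTi : IntegrableOn ((closedBall (0 : Cn n) (R m)).indicator T) (closedBall y r) volume :=
      (hint m).integrableOn_isCompact (isCompact_closedBall y r)
    rw [setAverage_eq, smul_eq_mul]
    have h1 : ∀ k, K.ρ i y + ψ k (K.κ i y) ≤ (volume.real (closedBall y r))⁻¹ *
        ∫ x in closedBall y r, (closedBall (0 : Cn n) (R m)).indicator T x := by
      intro k
      have h2 := CpC_ball (u := fun z => K.ρ i z + ψ k (K.κ i z)) (y := y) (r := r)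
        ((huc k).mono hsub3) (fun b hb => (hψ k).sub i y b fun ζ hζ => hsub3 (by
          rw [mem_closedBall, dist_eq_norm, add_sub_cancel_left, norm_smul]
          calc ‖ζ‖ * ‖b‖ ≤ 1 * r := by gcongr
            _ = r := one_mul r))
      rw [inv_mul_eq_div, le_div_iff₀ hpos]
      refine h2.trans ?_
      refine setIntegral_mono_on (((huc k).mono hsub3).integrableOn_compact
        (isCompact_closedBall y r)) hTi measurableSet_closedBall ?_
      intro x hx
      rw [indicator_of_mem (hyr hx)]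
      have := hψS k (K.κ i x)
      simp only [hT]
      linarith
    have h3 : (⨆ k, ψ k (K.κ i y)) ≤ (volume.real (closedBall y r))⁻¹ *
        (∫ x in closedBall y r, (closedBall (0 : Cn n) (R m)).indicator T x) - K.ρ i y :=
      ciSup_le fun k => by
        have := h1 k
        linarith
    simp only [hT] at h3 ⊢
    linarith
  have hlim := hz m (l := 𝓝[≠] z) (fun y : Cn n => y) (fun y : Cn n => dist y z) (by
      refine tendsto_nhdsWithin_iff.2 ⟨?_, ?_⟩
      · have h1 : Filter.Tendsto (fun y : Cn n => dist y z) (𝓝 z) (𝓝 (dist z z)) :=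
          (continuous_id.dist continuous_const).tendsto z
        rw [dist_self] at h1
        exact h1.mono_left nhdsWithin_le_nhds
      · filter_upwards [self_mem_nhdsWithin] with y hy
        exact dist_pos.2 hy)
    (Filter.Eventually.of_forall fun y => by
      rw [mem_closedBall, one_mul, dist_comm])
  rw [indicator_of_mem hzR] at hlim
  have h1 : ∀ᶠ y in 𝓝[≠] z, T y < c := by
    filter_upwards [hlim.eventually (gt_mem_nhds hc), self_mem_nhdsWithin,
      nhdsWithin_le_nhds (Metric.ball_mem_nhds z (show (0 : ℝ) < (3 - ‖z‖) / 4 by linarith))]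
      with y hy hyz hyb
    refine lt_of_le_of_lt (hball y (dist y z) (dist_pos.2 hyz) ?_) hy
    intro x hx
    rw [mem_closedBall] at hx
    rw [mem_ball] at hyb
    rw [mem_closedBall_zero_iff]
    have h2 : dist x z ≤ dist x y + dist y z := dist_triangle _ _ _
    have h3 : ‖x‖ ≤ dist x z + ‖z‖ := by
      rw [dist_eq_norm]
      have := norm_add_le (x - z) z
      simpa using this
    linarith
  rw [eventually_nhdsWithin_iff] at h1
  filter_upwards [h1] with y hy
  by_cases hyz : y = z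
  · rw [hyz]; exact hc
  · exact hy hyz

theorem KM.sup_reg [CompactSpace X] (ψ : ℕ → X → ℝ) (hψ : ∀ k, PC K (ψ k)) {B : ℝ}
    (hB : ∀ k x, |ψ k x| ≤ B) : ∃ G : X → ℝ, PB K G ∧ (∀ x, |G x| ≤ B) ∧ (∀ k x, ψ k x ≤ G x) ∧
      (∀ H : X → ℝ, UpperSemicontinuous H → (∀ k x, ψ k x ≤ H x) → ∀ x, G x ≤ H x) ∧
      ∀ i, ∀ᵐ z : Cn n, z ∈ ball (0 : Cn n) 3 → G (K.κ i z) = ⨆ k, ψ k (K.κ i z) := by
  have hbA : ∀ x, BddAbove (range fun k => ψ k x) := fun x => ⟨B, by
    rintro _ ⟨k, rfl⟩
    exact (abs_le.1 (hB k x)).2⟩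
  set S : X → ℝ := fun x => ⨆ k, ψ k x with hSdef
  have hSB : ∀ x, S x ≤ B := fun x => ciSup_le fun k => (abs_le.1 (hB k x)).2
  have hψS : ∀ k x, ψ k x ≤ S x := fun k x => le_ciSup (hbA x) k
  have hSG : ∀ x, S x ≤ CpCG S x := CpCG_ge hSB
  have hGB : ∀ x, |CpCG S x| ≤ B := fun x => abs_le.2
    ⟨(abs_le.1 (hB 0 x)).1.trans ((hψS 0 x).trans (hSG x)), CpCG_le hSB x⟩
  refine ⟨CpCG S, ⟨CpCG_usc hSB, ⟨B, hGB⟩, CpC_sub K ψ hψ hB⟩, hGB,
    fun k x => (hψS k x).trans (hSG x), ?_, ?_⟩
  · intro H hH h x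
    exact CpCG_min hH (fun x => ciSup_le fun k => h k x) x
  · intro i
    filter_upwards [CpC_ae K ψ hψ hB i] with z hz hz3
    refine le_antisymm ?_ (hSG _)
    refine le_of_forall_gt_imp_ge_of_dense fun c hc => ?_
    obtain ⟨c', h1, h2⟩ := exists_between hc
    have h3 : ∀ᶠ y in 𝓝 z, S (K.κ i y) < c := by
      have h4 := hz hz3 (K.ρ i z + c') (by simpa [hSdef] using h1)
      have h5 : ContinuousAt (K.ρ i) z := (CpC_ρ K i).continuousAt (isOpen_ball.mem_nhds hz3)
      have h6 : ∀ᶠ y in 𝓝 z, K.ρ i z - (c - c') < K.ρ i y :=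
        h5.eventually (lt_mem_nhds (by linarith))
      filter_upwards [h4, h6] with y hy hy'
      simp only [hSdef] at hy ⊢
      linarith
    exact csInf_le (CpCG_bdd _) (CpC_ev K i hz3 h3)

end HMA
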