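import Pool.Agent.H85.KW.CpB
import Pool.Agent.H85.KW.CpC

/-! # Module CpE: compactness of bounded `ω`-psh functions -/

open MeasureTheory Metric Set Filter
open scoped ENNReal Topology ContDiff ComplexOrder

namespace HMA

variable {n : ℕ} {X : Type} [TopologicalSpace X] (K : KM n X)

/-- decreasing limits -/
theorem cpe_sub_lim {g : ℕ → X → ℝ} {Φ : X → ℝ} {B : ℝ} (hg : ∀ m, UpperSemicontinuous (g m))
    (hΦ : UpperSemicontinuous Φ) (hB : ∀ m x, |g m x| ≤ B)
    (hlim : ∀ x, Tendsto (fun m => g m x) atTop (𝓝 (Φ x))) (i : Fin K.N)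
    (hs : ∀ m, SubOn (ball 0 3) (fun z => K.ρ i z + g m (K.κ i z))) :
    SubOn (ball 0 3) (fun z => K.ρ i z + Φ (K.κ i z)) := by
  intro a b hab
  have hγ : Continuous (fun θ : ℝ => a + Complex.exp (θ * Complex.I) • b) := by fun_prop
  have hm : ∀ θ : ℝ, a + Complex.exp (θ * Complex.I) • b ∈ ball (0 : Cn n) 3 := fun θ =>
    hab _ (by rw [Complex.norm_exp_ofReal_mul_I])
  have hκ : Continuous (fun θ : ℝ => K.κ i (a + Complex.exp (θ * Complex.I) • b)) :=
    (K.cont i).comp_continuous hγ hm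
  have hρ : Continuous (fun θ : ℝ => K.ρ i (a + Complex.exp (θ * Complex.I) • b)) :=
    (K.ρ_smooth i).continuousOn.comp_continuous hγ hm
  have hmeas : ∀ h : X → ℝ, UpperSemicontinuous h → Measurable (fun θ : ℝ =>
      K.ρ i (a + Complex.exp (θ * Complex.I) • b) +
        h (K.κ i (a + Complex.exp (θ * Complex.I) • b))) := fun h hh =>
    hρ.measurable.add (UpperSemicontinuous.measurable (hh.comp hκ))
  have h1 : Tendsto (fun m => ∫ θ in (0 : ℝ)..(2 * Real.pi),
      (K.ρ i (a + Complex.exp (θ * Complex.I) • b) +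
        g m (K.κ i (a + Complex.exp (θ * Complex.I) • b)))) atTop
      (𝓝 (∫ θ in (0 : ℝ)..(2 * Real.pi),
      (K.ρ i (a + Complex.exp (θ * Complex.I) • b) +
        Φ (K.κ i (a + Complex.exp (θ * Complex.I) • b))))) := by
    refine intervalIntegral.tendsto_integral_filter_of_dominated_convergence
      (fun θ => |K.ρ i (a + Complex.exp (θ * Complex.I) • b)| + B) ?_ ?_ ?_ ?_
    · exact Filter.Eventually.of_forall fun m => (hmeas _ (hg m)).aestronglyMeasurable
    · refine Filter.Eventually.of_forall fun m => Filter.Eventually.of_forall fun θ _ => ?_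
      rw [Real.norm_eq_abs]
      exact (abs_add_le _ _).trans (by gcongr; exact hB _ _)
    · exact (hρ.abs.add continuous_const).intervalIntegrable _ _
    · exact Filter.Eventually.of_forall fun θ _ => tendsto_const_nhds.add (hlim _)
  exact le_of_tendsto_of_tendsto' (tendsto_const_nhds.add (hlim (K.κ i a)))
    (h1.const_mul _) (fun m => hs m a b hab)

/-- almost everywhere convergence of sequences with summable differences -/
theorem cpe_ae {α : Type*} [MeasurableSpace α] {μ : Measure α} {f : ℕ → α → ℝ}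
    (hf : ∀ k, Integrable (f k) μ)
    (h : ∀ k, ∫ z, |f (k + 1) z - f k z| ∂μ ≤ (1 / 2 : ℝ) ^ k) :
    ∀ᵐ z ∂μ, ∃ l : ℝ, Tendsto (fun k => f k z) atTop (𝓝 l) := by
  have h1 : ∀ k, Integrable (fun z => f (k + 1) z - f k z) μ := fun k => (hf (k + 1)).sub (hf k)
  have h2 : ∑' k, ∫⁻ z, ENNReal.ofReal |f (k + 1) z - f k z| ∂μ < ⊤ := by
    have h3 : ∀ k, ∫⁻ z, ENNReal.ofReal |f (k + 1) z - f k z| ∂μ ≤ ENNReal.ofReal ((1 / 2) ^ k) := by
      intro k
      rw [← ofReal_integral_eq_lintegral_ofReal (h1 k).abs (ae_of_all _ fun z => abs_nonneg _)]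
      exact ENNReal.ofReal_le_ofReal (h k)
    refine lt_of_le_of_lt (ENNReal.tsum_le_tsum h3) ?_
    rw [← ENNReal.ofReal_tsum_of_nonneg (fun k => by positivity) summable_geometric_two]
    exact ENNReal.ofReal_lt_top
  rw [← lintegral_tsum (fun k => (h1 k).abs.aestronglyMeasurable.aemeasurable.ennreal_ofReal)] at h2
  have h3 := ae_lt_top' (AEMeasurable.tsum
    (fun k => (h1 k).abs.aestronglyMeasurable.aemeasurable.ennreal_ofReal)) h2.ne
  filter_upwards [h3] with z hz
  have h4 : Summable (fun k => |f (k + 1) z - f k z|) := by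
    have h5 : ∑' k, ENNReal.ofReal |f (k + 1) z - f k z| ≠ ⊤ := hz.ne
    have h6 := (ENNReal.summable_toReal h5)
    refine h6.congr fun k => ?_
    rw [ENNReal.toReal_ofReal (abs_nonneg _)]
  have h7 : CauchySeq (fun k => f k z) := by
    refine cauchySeq_of_summable_dist (h4.congr fun k => ?_)
    rw [Real.dist_eq, abs_sub_comm]
  exact ⟨_, h7.tendsto_limUnder⟩

/-- limits and suprema of tails -/
theorem cpe_tail {x : ℕ → ℝ} {l : ℝ} (h : Tendsto x atTop (𝓝 l)) :
    Tendsto (fun m => ⨆ k, x (m + k)) atTop (𝓝 l) := by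
  rw [Metric.tendsto_atTop] at h ⊢
  intro ε hε
  obtain ⟨N, hN⟩ := h (ε / 2) (half_pos hε)
  refine ⟨N, fun m hm => ?_⟩
  have h1 : ∀ k, x (m + k) ≤ l + ε / 2 := fun k => by
    have := hN (m + k) (by omega)
    rw [Real.dist_eq, abs_lt] at this
    linarith [this.2]
  have h2 : l - ε / 2 ≤ x (m + 0) := by
    have := hN (m + 0) (by omega)
    rw [Real.dist_eq, abs_lt] at this
    linarith [this.1]
  have h3 : ⨆ k, x (m + k) ≤ l + ε / 2 := ciSup_le h1
  have h4 : x (m + 0) ≤ ⨆ k, x (m + k) := le_ciSup (f := fun k => x (m + k))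
    ⟨l + ε / 2, by rintro _ ⟨k, rfl⟩; exact h1 k⟩ 0
  rw [Real.dist_eq, abs_lt]
  constructor <;> linarith

theorem cpe_bdd (i : Fin K.N) : ∃ M : ℝ, ∀ z ∈ ball (0 : Cn n) (5 / 2), |K.ρ i z| ≤ M := by
  have h1 : ContinuousOn (K.ρ i) (closedBall 0 (5 / 2)) :=
    (K.ρ_smooth i).continuousOn.mono (closedBall_subset_ball (by norm_num))
  obtain ⟨M, hM⟩ := (isCompact_closedBall (0 : Cn n) (5 / 2)).exists_bound_of_continuousOn h1
  exact ⟨M, fun z hz => by simpa using hM z (ball_subset_closedBall hz)⟩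

theorem KM.compact_seq [CompactSpace X] (ψ : ℕ → X → ℝ) (hψ : ∀ k, PC K (ψ k)) {B : ℝ}
    (hB : ∀ k x, |ψ k x| ≤ B) : ∃ (Φ : X → ℝ) (φ : ℕ → ℕ), StrictMono φ ∧ PB K Φ ∧
      (∀ x, |Φ x| ≤ B) ∧ ∀ i, Tendsto (fun k => ∫ z in ball (0 : Cn n) (3 / 2),
        |ψ (φ k) (K.κ i z) - Φ (K.κ i z)|) atTop (𝓝 0) := by
  classical
  have hM : ∃ M : ℝ, ∀ i, ∀ z ∈ ball (0 : Cn n) (5 / 2), |K.ρ i z| ≤ M := by
    choose M hM using cpe_bdd K
    refine ⟨∑ i, |M i|, fun i z hz => (hM i z hz).trans ((le_abs_self _).trans ?_)⟩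
    exact Finset.single_le_sum (f := fun i => |M i|) (fun j _ => abs_nonneg _) (Finset.mem_univ i)
  obtain ⟨M, hM⟩ := hM
  have h53 : ball (0 : Cn n) (5 / 2) ⊆ ball 0 3 := ball_subset_ball (by norm_num)
  have h33 : ball (0 : Cn n) (3 / 2) ⊆ ball 0 3 := ball_subset_ball (by norm_num)
  have hcκ : ∀ k i, ContinuousOn (fun z => ψ k (K.κ i z)) (ball (0 : Cn n) 3) := fun k i =>
    (hψ k).cont.comp_continuousOn (K.cont i)
  obtain ⟨φ, hφ, hφ1⟩ := compact_L1 (N := K.N) (M := M + B)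
    (fun k i z => K.ρ i z + ψ k (K.κ i z))
    (fun k i => ((K.ρ_smooth i).continuousOn.add (hcκ k i)).mono h53)
    (fun k i => kw_sub_mono ((hψ k).sub i) h53)
    (fun k i z hz => (abs_add_le _ _).trans (add_le_add (hM i z hz) (hB _ _)))
  have hφ2 : ∀ i k, ∫ z in ball (0 : Cn n) (3 / 2),
      |ψ (φ (k + 1)) (K.κ i z) - ψ (φ k) (K.κ i z)| ≤ (1 / 2) ^ k := by
    intro i k
    have := hφ1 i k
    simpa only [add_sub_add_left_eq_sub] using this
  choose G hG1 hG2 hG3 hG4 hG5 using fun m =>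
    K.sup_reg (fun k => ψ (φ (m + k))) (fun k => hψ _) (B := B) (fun k x => hB _ x)
  have hanti : ∀ x, Antitone (fun m => G m x) := by
    intro x
    refine antitone_nat_of_succ_le fun m => ?_
    refine hG4 (m + 1) (G m) (hG1 m).usc (fun k y => ?_) x
    have := hG3 m (k + 1) y
    rwa [show m + 1 + k = m + (k + 1) by ring]
  have hbd : ∀ x, BddBelow (range fun m => G m x) := fun x =>
    ⟨-B, by rintro _ ⟨m, rfl⟩; exact (abs_le.1 (hG2 m x)).1⟩
  set Φ : X → ℝ := fun x => ⨅ m, G m x with hΦ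
  have hlim : ∀ x, Tendsto (fun m => G m x) atTop (𝓝 (Φ x)) := fun x =>
    tendsto_atTop_ciInf (hanti x) (hbd x)
  have husc : UpperSemicontinuous Φ := upperSemicontinuous_ciInf hbd (fun m => (hG1 m).usc)
  have hΦB : ∀ x, |Φ x| ≤ B := fun x =>
    le_of_tendsto' (hlim x).abs (fun m => hG2 m x)
  have hae : ∀ i, ∀ᵐ z ∂(volume.restrict (ball (0 : Cn n) (3 / 2))),
      Tendsto (fun k => ψ (φ k) (K.κ i z)) atTop (𝓝 (Φ (K.κ i z))) := by
    intro i
    have hint : ∀ k, Integrable (fun z => ψ (φ k) (K.κ i z))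
        (volume.restrict (ball (0 : Cn n) (3 / 2))) := by
      intro k
      have h1 : ContinuousOn (fun z => ψ (φ k) (K.κ i z)) (closedBall (0 : Cn n) (3 / 2)) :=
        (hcκ _ i).mono (closedBall_subset_ball (by norm_num))
      exact (h1.integrableOn_compact (isCompact_closedBall _ _)).mono_set ball_subset_closedBall
    have h1 := cpe_ae hint (hφ2 i)
    have h2 : ∀ᵐ z ∂(volume.restrict (ball (0 : Cn n) (3 / 2))), ∀ m,
        z ∈ ball (0 : Cn n) 3 → G m (K.κ i z) = ⨆ k, ψ (φ (m + k)) (K.κ i z) :=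
      ae_restrict_of_ae (ae_all_iff.2 fun m => hG5 m i)
    filter_upwards [h1, h2, ae_restrict_mem measurableSet_ball] with z hz1 hz2 hz3
    obtain ⟨l, hl⟩ := hz1
    have h3 := cpe_tail hl
    have h4 : Tendsto (fun m => G m (K.κ i z)) atTop (𝓝 l) :=
      h3.congr fun m => (hz2 m (h33 hz3)).symm
    rw [tendsto_nhds_unique (hlim (K.κ i z)) h4]
    exact hl
  refine ⟨Φ, φ, hφ, ⟨husc, ⟨B, hΦB⟩, fun i => ?_⟩, hΦB, fun i => ?_⟩
  · exact cpe_sub_lim K (fun m => (hG1 m).usc) husc hG2 hlim i (fun m => (hG1 m).sub i)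
  · have hms : ∀ k, AEStronglyMeasurable (fun z => ψ (φ k) (K.κ i z))
        (volume.restrict (ball (0 : Cn n) (3 / 2))) := fun k =>
      ((hcκ _ i).mono h33).aestronglyMeasurable measurableSet_ball
    have hmΦ : AEStronglyMeasurable (fun z => Φ (K.κ i z))
        (volume.restrict (ball (0 : Cn n) (3 / 2))) :=
      aestronglyMeasurable_of_tendsto_ae atTop hms (hae i)
    have h1 : Tendsto (fun k => ∫ z in ball (0 : Cn n) (3 / 2),
        |ψ (φ k) (K.κ i z) - Φ (K.κ i z)|) atTop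
        (𝓝 (∫ z in ball (0 : Cn n) (3 / 2), (0 : ℝ))) := by
      refine tendsto_integral_of_dominated_convergence (fun _ => B + B)
        (fun k => ((hms k).sub hmΦ).norm) ?_ ?_ ?_
      · haveI : IsFiniteMeasure (volume.restrict (ball (0 : Cn n) (3 / 2))) :=
          ⟨by rw [Measure.restrict_apply_univ]; exact measure_ball_lt_top⟩
        exact integrable_const _
      · refine fun k => ae_of_all _ fun z => ?_
        rw [Real.norm_eq_abs, abs_abs]
        exact (abs_sub _ _).trans (add_le_add (hB _ _) (hΦB _))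
      · filter_upwards [hae i] with z hz
        have := (hz.sub_const (Φ (K.κ i z))).abs
        simpa using this
    simpa using h1

end HMA
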