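import Pool.Agent.H85.KW.SubL
import Pool.Agent.H85.KM.XTop

/-! # Module CutR: cut off functions and strict plurisubharmonicity -/

open MeasureTheory Metric Set Filter
open scoped ENNReal Topology ContDiff ComplexOrder

namespace HMA

variable {n : ℕ} {X : Type} [TopologicalSpace X] (K : KM n X)

theorem cutR_smul {u : Cn n → ℝ} {z : Cn n} (h : TwD u z) (t : ℝ) (ξ : Cn n) :
    lev u z (t • ξ) = t ^ 2 * lev u z ξ := by
  rw [h.lev, h.lev, smul_comm Complex.I t ξ]
  simp only [map_smul, _root_.smul_apply, smul_eq_mul]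
  ring

theorem cutR_add {u v : Cn n → ℝ} {z : Cn n} (hu : TwD u z) (hv : TwD v z) (s : ℝ) (ξ : Cn n) :
    lev (fun w => u w + s * v w) z ξ = lev u z ξ + s * lev v z ξ := by
  have h0 := hv.const_mul s
  have h1 := hu.add h0.1
  have e := h1.1.lev_LM ξ
  rw [h1.2, h0.2] at e
  have e1 := hu.lev_LM ξ
  have e2 := hv.lev_LM ξ
  have : ((lev (fun w => u w + s * v w) z ξ : ℝ) : ℂ) = ((lev u z ξ + s * lev v z ξ : ℝ) : ℂ) := by
    rw [e]
    push_cast
    rw [e1, e2, Finset.mul_sum, ← Finset.sum_add_distrib]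
    refine Finset.sum_congr rfl fun j _ => ?_
    rw [Finset.mul_sum, ← Finset.sum_add_distrib]
    refine Finset.sum_congr rfl fun k _ => ?_
    rw [Matrix.add_apply, Matrix.smul_apply, smul_eq_mul]
    ring
  exact_mod_cast this

/-- joint continuity of the Levi form -/
theorem cutR_cont {Ω : Set (Cn n)} (hΩ : IsOpen Ω) {u : Cn n → ℝ} (hu : ContDiffOn ℝ ∞ u Ω) :
    ContinuousOn (fun p : Cn n × Cn n => lev u p.1 p.2) (Ω ×ˢ univ) := by
  have h1 : ∀ p ∈ Ω ×ˢ (univ : Set (Cn n)), lev u p.1 p.2 = (hes u p.1 p.2 p.2 +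
      hes u p.1 (Complex.I • p.2) (Complex.I • p.2)) / 4 := fun p hp =>
    (sub11_twD_smooth hΩ hu hp.1).lev p.2
  refine ContinuousOn.congr ?_ h1
  intro p hp
  apply ContinuousAt.continuousWithinAt
  have h2 : ContinuousAt (hes u) p.1 := by
    have h3 : ContDiffAt ℝ ∞ u p.1 := hu.contDiffAt (hΩ.mem_nhds hp.1)
    exact ((h3.fderiv_right (m := ∞) (by simp)).fderiv_right (m := ∞) (by simp)).continuousAt
  have h3 : ContinuousAt (fun q : Cn n × Cn n => hes u q.1) p :=
    ContinuousAt.comp (f := Prod.fst) (g := hes u) h2 continuousAt_fst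
  have h4 : ContinuousAt (fun q : Cn n × Cn n => Complex.I • q.2) p :=
    (continuous_snd.const_smul Complex.I).continuousAt
  exact (((h3.clm_apply continuousAt_snd).clm_apply continuousAt_snd).add
    ((h3.clm_apply h4).clm_apply h4)).div_const 4

theorem KM.exists_cut : ∃ (a : Cn n → ℝ) (c₀ : ℝ), 0 < c₀ ∧ ContDiff ℝ ∞ a ∧
    (∀ z, 0 ≤ a z ∧ a z ≤ 1) ∧ (∀ z, ‖z‖ ≤ 1 → a z = 0) ∧ (∀ z, 3 / 2 ≤ ‖z‖ → a z = 1) ∧
    ∀ (i : Fin K.N) (s : ℝ), |s| ≤ c₀ → SubOn (ball 0 2) (fun z => K.ρ i z + s * a z) := by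
  -- the cut off function
  let f : ContDiffBump (0 : Cn n) := ⟨1, 3 / 2, one_pos, by norm_num⟩
  set a : Cn n → ℝ := fun z => 1 - f z with ha
  have hac : ContDiff ℝ ∞ a := contDiff_const.sub f.contDiff
  set S : Set (Cn n × Cn n) := closedBall 0 2 ×ˢ sphere 0 1 with hS
  have hSc : IsCompact S := (isCompact_closedBall _ _).prod (isCompact_sphere _ _)
  have hsub : closedBall (0 : Cn n) 2 ⊆ ball 0 3 := closedBall_subset_ball (by norm_num)
  -- bound for the cut off function
  obtain ⟨C, hC⟩ := hSc.exists_bound_of_continuousOn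
    ((cutR_cont isOpen_univ hac.contDiffOn).mono (fun p hp => ⟨mem_univ _, mem_univ _⟩))
  -- lower bound for the potentials
  have hlow : ∀ i : Fin K.N, ∃ c : ℝ, 0 < c ∧ ∀ p ∈ S, c ≤ lev (K.ρ i) p.1 p.2 := by
    intro i
    rcases S.eq_empty_or_nonempty with h0 | hne
    · refine ⟨1, one_pos, fun p hp => ?_⟩
      rw [h0] at hp
      exact absurd hp (notMem_empty p)
    · obtain ⟨p, hp, hmin⟩ := hSc.exists_isMinOn hne
        ((cutR_cont isOpen_ball (K.ρ_smooth i)).mono (fun q hq => ⟨hsub hq.1, mem_univ _⟩))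
      refine ⟨lev (K.ρ i) p.1 p.2, K.ρ_pos i p.1 (hsub hp.1) p.2 ?_, fun q hq => hmin hq⟩
      intro h
      have := hp.2
      rw [h] at this
      simp at this
  choose c hc0 hc using hlow
  -- a common lower bound
  obtain ⟨c', hc'0, hc'⟩ : ∃ c' : ℝ, 0 < c' ∧ ∀ i, c' ≤ c i := by
    rcases isEmpty_or_nonempty (Fin K.N) with h | h
    · exact ⟨1, one_pos, fun i => (h.false i).elim⟩
    · obtain ⟨i, hi⟩ := Finite.exists_min c
      exact ⟨c i, hc0 i, hi⟩
  have hC1 : 0 < |C| + 1 := by positivity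
  refine ⟨a, c' / (|C| + 1), by positivity, hac, fun z => ⟨?_, ?_⟩, fun z hz => ?_, fun z hz => ?_,
    fun i s hs => ?_⟩
  · have := f.le_one (x := z)
    simp only [ha]
    linarith
  · have := f.nonneg (x := z)
    simp only [ha]
    linarith
  · have := f.one_of_mem_closedBall (x := z) (by simpa using hz)
    simp only [ha, this, sub_self]
  · have := f.zero_of_le_dist (x := z) (by simpa using hz)
    simp only [ha, this, sub_zero]
  · have hsub2 : ball (0 : Cn n) 2 ⊆ ball 0 3 := ball_subset_ball (by norm_num)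
    refine smooth_sub isOpen_ball (((K.ρ_smooth i).mono hsub2).add
      (contDiff_const.mul hac).contDiffOn) ?_
    intro z hz ξ
    have hT : TwD (K.ρ i) z := sub11_twD_smooth isOpen_ball (K.ρ_smooth i) (hsub2 hz)
    have hTa : TwD a z := sub11_twD_smooth isOpen_univ hac.contDiffOn (mem_univ z)
    rw [cutR_add hT hTa]
    rcases eq_or_ne ξ 0 with rfl | hξ
    · have e1 := cutR_smul hT 0 (0 : Cn n)
      have e2 := cutR_smul hTa 0 (0 : Cn n)
      rw [smul_zero] at e1 e2
      rw [e1, e2]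
      simp
    · have hξ' : 0 < ‖ξ‖ := norm_pos_iff.2 hξ
      set η : Cn n := ‖ξ‖⁻¹ • ξ with hη
      have hηn : ‖η‖ = 1 := by
        rw [hη, norm_smul, norm_inv, norm_norm, inv_mul_cancel₀ hξ'.ne']
      have hξη : ξ = ‖ξ‖ • η := by
        rw [hη, smul_smul, mul_inv_cancel₀ hξ'.ne', one_smul]
      have hmem : (z, η) ∈ S := ⟨ball_subset_closedBall hz, by simpa using hηn⟩
      have h1 : c' ≤ lev (K.ρ i) z η := (hc' i).trans (hc i _ hmem)
      have h2 : |lev a z η| ≤ |C| + 1 := by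
        have := hC _ hmem
        rw [Real.norm_eq_abs] at this
        have h3 := le_abs_self C
        simp only at this
        linarith
      have h3 : |s * lev a z η| ≤ c' := by
        rw [abs_mul]
        calc |s| * |lev a z η| ≤ c' / (|C| + 1) * (|C| + 1) := by gcongr
          _ = c' := div_mul_cancel₀ _ hC1.ne'
      have h4 := (abs_le.1 h3).1
      rw [hξη, cutR_smul hT, cutR_smul hTa]
      have h5 : 0 ≤ lev (K.ρ i) z η + s * lev a z η := by linarith
      have h6 : ‖ξ‖ ^ 2 * lev (K.ρ i) z η + s * (‖ξ‖ ^ 2 * lev a z η) =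
          ‖ξ‖ ^ 2 * (lev (K.ρ i) z η + s * lev a z η) := by ring
      rw [h6]
      positivity

end HMA
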