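import Pool.Agent.H85.KM.Defs

/-! # Definitions for the potential -/

open MeasureTheory Metric Set Filter
open scoped ENNReal Topology ContDiff ComplexOrder

namespace HMA

variable {n : ℕ} {X : Type} [TopologicalSpace X] (K : KM n X)

/-- continuous `ω`-plurisubharmonic functions -/
structure PC (φ : X → ℝ) : Prop where
  cont : Continuous φ
  sub : ∀ i, SubOn (ball 0 3) (fun z => K.ρ i z + φ (K.κ i z))

/-- bounded `ω`-plurisubharmonic functions -/
structure PB (φ : X → ℝ) : Prop where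
  usc : UpperSemicontinuous φ
  bdd : ∃ B : ℝ, ∀ x, |φ x| ≤ B
  sub : ∀ i, SubOn (ball 0 3) (fun z => K.ρ i z + φ (K.κ i z))

/-- `w` is `C^{1,1}` and `ω`-psh in a neighbourhood of the point `κ k z` -/
def LW (w : X → ℝ) (k : Fin K.N) (z : Cn n) : Prop :=
  ∃ r : ℝ, 0 < r ∧ ball z r ⊆ ball 0 3 ∧ C11 (ball z r) (fun y => w (K.κ k y)) ∧
    SubOn (ball z r) (fun y => K.ρ k y + w (K.κ k y))

/-- `w` is continuous and `ω`-psh in a neighbourhood of the point `κ k z` -/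
def LC (w : X → ℝ) (k : Fin K.N) (z : Cn n) : Prop :=
  ∃ r : ℝ, 0 < r ∧ ball z r ⊆ ball 0 3 ∧ ContinuousOn (fun y => w (K.κ k y)) (ball z r) ∧
    SubOn (ball z r) (fun y => K.ρ k y + w (K.κ k y))

/-- the Ding type functional `E - V ∫ dμ` -/
noncomputable def KM.J [MeasurableSpace X] (μ : Measure X) (ψ : X → ℝ) : ℝ :=
  K.E ψ - K.vol.real univ * ∫ x, ψ x ∂μ

/-- `ψ` maximises `J` up to `δ` -/
structure Amax [MeasurableSpace X] (μ : Measure X) (δ : ℝ) (ψ : X → ℝ) : Prop where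
  wk : WK K ψ
  max : ∀ χ : X → ℝ, WK K χ → K.J μ χ ≤ K.J μ ψ + δ

/-- the Monge-Ampère capacity -/
noncomputable def KM.cap [MeasurableSpace X] (U : Set X) : ℝ :=
  sSup {t | ∃ v : X → ℝ, WK K v ∧ (∀ x, -1 ≤ v x ∧ v x ≤ 0) ∧ ∫ x in U, K.RM v x ∂K.vol = t}

/-- the key inequality, satisfied by almost maximal functions -/
def KIneq [MeasurableSpace X] (μ : Measure X) (δ : ℝ) (Φ : X → ℝ) : Prop :=
  ∀ h : X → ℝ, WK K h → (1 / (n + 1 : ℝ)) * ∫ x, max (h x - Φ x) 0 * K.RM h x ∂K.vol ≤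
    K.vol.real univ * ∫ x, max (h x - Φ x) 0 ∂μ + δ

/-- the function `a(s) = V ∫ (g - s - Φ)^+ dμ` -/
noncomputable def KM.aI [MeasurableSpace X] (μ : Measure X) (g Φ : X → ℝ) (s : ℝ) : ℝ :=
  K.vol.real univ * ∫ x, max (g x - s - Φ x) 0 ∂μ

/-- the local potentials of `ω + dd^c Φ`, extended to upper semicontinuous functions -/
structure LU (Φ : X → ℝ) (M : ℝ) (u : Fin K.N → Cn n → ℝ) : Prop where
  usc : ∀ i, UpperSemicontinuous (u i)
  bdd : ∀ i z, |u i z| ≤ M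
  eq : ∀ i z, ‖z‖ ≤ 5 / 2 → u i z = K.ρ i z + Φ (K.κ i z)
  sub : ∀ i, SubOn (ball 0 (5 / 2)) (u i)

/-- the modulus of the local potentials -/
noncomputable def md {n N : ℕ} (u : Fin N → Cn n → ℝ) (r : ℝ) : ℝ :=
  sSup {t | ∃ (i : Fin N) (z : Cn n), ‖z‖ ≤ 7 / 4 ∧ supB (u i) r z - u i z = t}

/-- Hölder continuous `ω`-plurisubharmonic functions -/
structure HolPsh (φ : X → ℝ) : Prop where
  psh : KPsh K (fun x => Real.exp (φ x))
  holder : ∃ α C : ℝ, 0 < α ∧ ∀ i, ∀ z ∈ ball (0 : Cn n) (3 / 2), ∀ w ∈ ball (0 : Cn n) (3 / 2),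
    |φ (K.κ i z) - φ (K.κ i w)| ≤ C * ‖z - w‖ ^ α

/-- `μ = V⁻¹ (ω + dd^c φ)^n` for a continuous `ω`-psh function `φ`, in the sense of Bedford and
Taylor: `V μ` is, on every relatively compact open subset `W` of a chart, the weak limit of the
measures `(dd^c U_k)^n` for every sequence of smooth plurisubharmonic functions `U_k` which
converges uniformly on `W` to the local potential `ρ + φ` (and such sequences exist) -/
def IsMA [MeasurableSpace X] (φ : X → ℝ) (μ : Measure X) : Prop :=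
  ∀ (i : Fin K.N) (W : Set (Cn n)), IsOpen W → IsCompact (closure W) → closure W ⊆ ball 0 3 →
    (∃ U : ℕ → Cn n → ℝ, (∀ k, ContDiffOn ℝ ∞ (U k) W ∧ SubOn W (U k)) ∧
      TendstoUniformlyOn U (fun z => K.ρ i z + φ (K.κ i z)) atTop W) ∧
    ∀ U : ℕ → Cn n → ℝ, (∀ k, ContDiffOn ℝ ∞ (U k) W ∧ SubOn W (U k)) →
      TendstoUniformlyOn U (fun z => K.ρ i z + φ (K.κ i z)) atTop W →
      ∀ χ : Cn n → ℝ, ContDiff ℝ ∞ χ → HasCompactSupport χ → tsupport χ ⊆ W →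
        Tendsto (fun k => ∫ z in W, χ z * mad (U k) z) atTop
          (𝓝 (K.vol.real univ * ∫ x, K.ext i χ x ∂μ))

end HMA
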