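import Pool.Agent.H85.KW.Conc
import Pool.Agent.H85.KW.LocX

/-! # Module NearM: approximations of the limit are almost maximal -/

open MeasureTheory Metric Set Filter
open scoped ENNReal Topology ContDiff ComplexOrder

namespace HMA

variable {n : ℕ} {X : Type} [TopologicalSpace X] (K : KM n X)

variable [MeasurableSpace X] [BorelSpace X] [T2Space X] [CompactSpace X]

omit [T2Space X] in
theorem NearM_int {m : Measure X} [IsFiniteMeasure m] {f : X → ℝ} (hf : Continuous f) :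
    Integrable f m := by
  obtain ⟨C, hC⟩ := (isCompact_univ (X := X)).exists_bound_of_continuousOn hf.continuousOn
  exact Integrable.of_bound hf.aestronglyMeasurable C
    (Filter.Eventually.of_forall fun x => hC x (mem_univ _))

theorem KM.near_max {μ : Measure X} [IsProbabilityMeasure μ] {Φ : X → ℝ} (hΦ : PC K Φ)
    {ψ : ℕ → X → ℝ} {δ : ℕ → ℝ} (hψ : ∀ k, Amax K μ (δ k) (ψ k)) (hδ : Tendsto δ atTop (𝓝 0))
    (h1 : Tendsto (fun k => ∫ x, |ψ k x - Φ x| ∂μ) atTop (𝓝 0))
    (h2 : Tendsto (fun k => ∫ x, |ψ k x - Φ x| ∂K.vol) atTop (𝓝 0))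
    {φ : X → ℝ} (hφ : WK K φ) {ε : ℝ} (h : ∀ x, |φ x - Φ x| ≤ ε) :
    Amax K μ (2 * ε * K.vol.real univ) φ := by
  have hfin : IsFiniteMeasure K.vol := K.vol_finite
  refine ⟨hφ, fun χ hχ => ?_⟩
  have cφ : Continuous φ := C11X.continuous K hφ.c11
  have cψ : ∀ k, Continuous (ψ k) := fun k => C11X.continuous K (hψ k).wk.c11
  have cΦ := hΦ.cont
  obtain ⟨C, hC, hCb⟩ := K.RM_bdd hφ.c11 hφ.c11
  have hRb : ∀ x, |K.RM φ x| ≤ C := by
    intro x
    have h3 := hCb 1 0 (by norm_num) (by norm_num) x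
    have e : (fun y => 1 * φ y + 0 * φ y) = φ := by
      funext y
      ring
    rwa [e] at h3
  have hRm := K.RM_meas hφ.c11
  have hRn := K.RM_nonneg hφ
  have iR : Integrable (K.RM φ) K.vol := Integrable.of_bound hRm C
    (Filter.Eventually.of_forall hRb)
  have iFR : ∀ f : X → ℝ, Continuous f → Integrable (fun x => f x * K.RM φ x) K.vol := by
    intro f hf
    exact (NearM_int (m := K.vol) hf).mul_bdd hRm (Filter.Eventually.of_forall hRb)
  set V := K.vol.real univ with hV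
  have hV0 : 0 ≤ V := measureReal_nonneg
  have key : ∀ k, K.J μ χ ≤ K.J μ φ + 2 * ε * V + (C * ∫ x, |ψ k x - Φ x| ∂K.vol) +
      (V * ∫ x, |ψ k x - Φ x| ∂μ) + δ k := by
    intro k
    have c1 : Continuous (fun x => ψ k x - Φ x) := (cψ k).sub cΦ
    have c2 : Continuous (fun x => |ψ k x - Φ x|) := c1.abs
    have c3 : Continuous (fun x => Φ x - φ x) := cΦ.sub cφ
    have c4 : Continuous (fun x => ψ k x + |ψ k x - Φ x|) := (cψ k).add c2
    have c5 : Continuous (fun x => ψ k x + |ψ k x - Φ x| + ε) := c4.add continuous_const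
    have g1 := (hψ k).max χ hχ
    have g2 := K.E_concave hφ (hψ k).wk
    have g3 : ∫ x, (ψ k x - φ x) * K.RM φ x ∂K.vol =
        (∫ x, (ψ k x - Φ x) * K.RM φ x ∂K.vol) + ∫ x, (Φ x - φ x) * K.RM φ x ∂K.vol := by
      rw [← integral_add (iFR _ c1) (iFR _ c3)]
      apply integral_congr_ae
      filter_upwards with x
      ring
    have g4 : ∫ x, (ψ k x - Φ x) * K.RM φ x ∂K.vol ≤ C * ∫ x, |ψ k x - Φ x| ∂K.vol := by
      rw [← integral_const_mul]
      apply integral_mono (iFR _ c1) ((NearM_int (m := K.vol) c2).const_mul C)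
      intro x
      have g5 := hRb x
      change (ψ k x - Φ x) * K.RM φ x ≤ C * |ψ k x - Φ x|
      calc (ψ k x - Φ x) * K.RM φ x ≤ |(ψ k x - Φ x) * K.RM φ x| := le_abs_self _
        _ = |ψ k x - Φ x| * |K.RM φ x| := abs_mul _ _
        _ ≤ |ψ k x - Φ x| * C := mul_le_mul_of_nonneg_left g5 (abs_nonneg _)
        _ = C * |ψ k x - Φ x| := mul_comm _ _
    have g5 : ∫ x, (Φ x - φ x) * K.RM φ x ∂K.vol ≤ ε * V := by
      have g6 : ∫ x, (Φ x - φ x) * K.RM φ x ∂K.vol ≤ ∫ x, ε * K.RM φ x ∂K.vol := by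
        apply integral_mono_ae (iFR _ c3) (iR.const_mul ε)
        filter_upwards [hRn] with x hx
        apply mul_le_mul_of_nonneg_right _ hx
        have := h x
        rw [abs_sub_comm] at this
        exact (le_abs_self _).trans this
      rw [integral_const_mul, K.mass hφ.c11] at g6
      exact g6
    have g6 : ∫ x, φ x ∂μ ≤ ∫ x, ψ k x ∂μ + ∫ x, |ψ k x - Φ x| ∂μ + ε := by
      have g7 : ∫ x, φ x ∂μ ≤ ∫ x, (ψ k x + |ψ k x - Φ x| + ε) ∂μ := by
        apply integral_mono (NearM_int cφ) (NearM_int c5)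
        intro x
        change φ x ≤ ψ k x + |ψ k x - Φ x| + ε
        have g8 := (le_abs_self _).trans (h x)
        have g9 := neg_abs_le (ψ k x - Φ x)
        linarith
      rw [integral_add (NearM_int c4) (integrable_const ε),
        integral_add (NearM_int (cψ k)) (NearM_int c2)] at g7
      simpa using g7
    have g7 := mul_le_mul_of_nonneg_left g6 hV0
    unfold KM.J at g1 ⊢
    rw [g3] at g2
    rw [← hV] at g1 ⊢
    have e1 : V * (∫ x, ψ k x ∂μ + ∫ x, |ψ k x - Φ x| ∂μ + ε) =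
      V * ∫ x, ψ k x ∂μ + V * ∫ x, |ψ k x - Φ x| ∂μ + ε * V := by ring
    rw [e1] at g7
    linarith
  have lim : Tendsto (fun k => K.J μ φ + 2 * ε * V + (C * ∫ x, |ψ k x - Φ x| ∂K.vol) +
      (V * ∫ x, |ψ k x - Φ x| ∂μ) + δ k) atTop (𝓝 (K.J μ φ + 2 * ε * V + C * 0 + V * 0 + 0)) :=
    ((tendsto_const_nhds.add (h2.const_mul C)).add (h1.const_mul V)).add hδ
  rw [mul_zero, mul_zero, add_zero, add_zero, add_zero] at lim
  exact ge_of_tendsto' lim key

end HMA
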