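import Pool.Agent.H85.KW.SubL

/-! # Module MollC: mollification of continuous plurisubharmonic functions -/

open MeasureTheory Metric Set Filter
open scoped ENNReal Topology ContDiff ComplexOrder

namespace HMA

theorem mollC_ext {n : ℕ} {K : Set (Cn n)} (hK : IsCompact K) {u : Cn n → ℝ}
    (hc : ContinuousOn u K) : ∃ (g : Cn n → ℝ) (M : ℝ), Continuous g ∧ (∀ z, |g z| ≤ M) ∧
      ∀ z ∈ K, g z = u z := by
  obtain ⟨M, hM⟩ := hK.exists_bound_of_continuousOn hc
  obtain ⟨g, hg1, hg2⟩ := ContinuousMap.exists_restrict_eq_forall_mem_of_closed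
    (⟨K.domRestrict u, continuousOn_iff_continuous_domRestrict.1 hc⟩ : C(K, ℝ))
    (t := Icc (-|M|) |M|) (fun x => by
      have := hM x x.2
      rw [Real.norm_eq_abs] at this
      exact abs_le.1 (this.trans (le_abs_self M)))
    ⟨0, by constructor <;> simp⟩ hK.isClosed
  refine ⟨g, |M|, g.continuous, fun z => abs_le.2 (hg1 z), fun z hz => ?_⟩
  have := congrArg (fun f : C(K, ℝ) => f ⟨z, hz⟩) hg2
  exact this

theorem mollC_swap {n : ℕ} {g ψ : Cn n → ℝ} {M : ℝ} (hg : Continuous g) (hb : ∀ z, |g z| ≤ M)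
    (hψi : Integrable ψ volume) (a b : Cn n) :
    Integrable (fun y => ψ y *
      ∫ θ in (0 : ℝ)..(2 * Real.pi), g (a - y + Complex.exp (θ * Complex.I) • b)) ∧
    ∫ y, ψ y * (∫ θ in (0 : ℝ)..(2 * Real.pi), g (a - y + Complex.exp (θ * Complex.I) • b)) =
      ∫ θ in (0 : ℝ)..(2 * Real.pi), ∫ y, ψ y * g (a + Complex.exp (θ * Complex.I) • b - y) := by
  have hpi : (0 : ℝ) ≤ 2 * Real.pi := by positivity
  have hI : Integrable (Function.uncurry fun (y : Cn n) (θ : ℝ) =>
      ψ y * g (a - y + Complex.exp (θ * Complex.I) • b))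
      (volume.prod (volume.restrict (Ioc (0 : ℝ) (2 * Real.pi)))) := by
    have h1 : Integrable (fun p : Cn n × ℝ => ψ p.1 * (1 : ℝ))
        (volume.prod (volume.restrict (Ioc (0 : ℝ) (2 * Real.pi)))) :=
      hψi.mul_prod (integrable_const (1 : ℝ))
    simp only [mul_one] at h1
    refine h1.mul_bdd (g := fun p : Cn n × ℝ => g (a - p.1 + Complex.exp (p.2 * Complex.I) • b))
      (c := M) ?_ ?_
    · refine Continuous.aestronglyMeasurable ?_
      exact hg.comp (by fun_prop)
    · exact Filter.Eventually.of_forall fun p => by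
        rw [Real.norm_eq_abs]
        exact hb _
  have h2 : ∀ y : Cn n, ψ y *
      (∫ θ in (0 : ℝ)..(2 * Real.pi), g (a - y + Complex.exp (θ * Complex.I) • b)) =
      ∫ θ, ψ y * g (a - y + Complex.exp (θ * Complex.I) • b)
        ∂(volume.restrict (Ioc (0 : ℝ) (2 * Real.pi))) := by
    intro y
    rw [← intervalIntegral.integral_const_mul, intervalIntegral.integral_of_le hpi]
  constructor
  · refine hI.integral_prod_left.congr (Filter.Eventually.of_forall fun y => ?_)
    exact (h2 y).symm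
  · simp only [h2]
    rw [integral_integral_swap hI, intervalIntegral.integral_of_le hpi]
    refine integral_congr_ae (Filter.Eventually.of_forall fun θ => ?_)
    simp only
    refine integral_congr_ae (Filter.Eventually.of_forall fun y => ?_)
    simp only
    congr 2
    abel

theorem moll_cont {n : ℕ} {Ω : Set (Cn n)} (hΩ : IsOpen Ω) {u : Cn n → ℝ}
    (hc : ContinuousOn u Ω) (hs : SubOn Ω u) {L : Set (Cn n)} (hL : IsCompact L) (hLΩ : L ⊆ Ω)
    {ε : ℝ} (hε : 0 < ε) : ∃ (W : Set (Cn n)) (U : Cn n → ℝ), IsOpen W ∧ L ⊆ W ∧ W ⊆ Ω ∧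
      ContDiff ℝ ∞ U ∧ SubOn W U ∧ ∀ z ∈ W, |U z - u z| ≤ ε := by
  obtain ⟨δ₀, hδ₀, hδΩ⟩ := hL.exists_cthickening_subset_open hΩ hLΩ
  set δ : ℝ := δ₀ / 2 with hδ
  have hδ0 : 0 < δ := by positivity
  set K : Set (Cn n) := cthickening δ₀ L with hK
  have hKc : IsCompact K := hL.cthickening
  obtain ⟨g, M, hgc, hgb, hgu⟩ := mollC_ext hKc (hc.mono hδΩ)
  have huc : UniformContinuousOn g K := hKc.uniformContinuousOn_of_continuous hgc.continuousOn
  obtain ⟨δ₁, hδ₁, huc⟩ := Metric.uniformContinuousOn_iff.1 huc ε hε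
  set r : ℝ := min δ δ₁ with hr
  have hr0 : 0 < r := lt_min hδ0 hδ₁
  let η : ContDiffBump (0 : Cn n) := ⟨r / 2, r, by positivity, by linarith⟩
  have hηr : η.rOut = r := rfl
  set ψ : Cn n → ℝ := η.normed volume with hψdef
  have hψ : ContDiff ℝ ∞ ψ := η.contDiff_normed
  have hψc : HasCompactSupport ψ := η.hasCompactSupport_normed
  have hψi : Integrable ψ volume := hψ.continuous.integrable_of_hasCompactSupport hψc
  have hψ1 : ∫ y, ψ y = 1 := η.integral_normed
  have hψ0 : ∀ y, 0 ≤ ψ y := η.nonneg_normed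
  have hψs : ∀ y, ψ y ≠ 0 → ‖y‖ < r := by
    intro y hy
    have h5 : y ∈ Function.support (η.normed (volume : Measure (Cn n))) := hy
    rw [η.support_normed_eq, hηr, mem_ball_zero_iff] at h5
    exact h5
  have hthick : ∀ z ∈ thickening δ L, ∀ y : Cn n, ‖y‖ < r → z - y ∈ K := by
    intro z hz y hy
    obtain ⟨x, hx, hzx⟩ := mem_thickening_iff.1 hz
    refine mem_cthickening_of_dist_le (z - y) x δ₀ L hx ?_
    have h1 : ‖y‖ < δ := hy.trans_le (min_le_left _ _)
    rw [dist_eq_norm] at hzx ⊢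
    calc ‖z - y - x‖ = ‖(z - x) - y‖ := by congr 1; abel
      _ ≤ ‖z - x‖ + ‖y‖ := norm_sub_le _ _
      _ ≤ δ + δ := by linarith
      _ = δ₀ := by rw [hδ]; ring
  have hWK : thickening δ L ⊆ K := fun z hz => by
    have := hthick z hz 0 (by rw [norm_zero]; exact hr0)
    rwa [sub_zero] at this
  have hint : ∀ z, Integrable (fun y => ψ y * g (z - y)) := fun z =>
    hψi.mul_bdd (c := M) (hgc.comp (by fun_prop)).aestronglyMeasurable
      (Filter.Eventually.of_forall fun y => by rw [Real.norm_eq_abs]; exact hgb _)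
  refine ⟨thickening δ L, fun z => ∫ y, ψ y * g (z - y), isOpen_thickening,
    self_subset_thickening hδ0 L, hWK.trans hδΩ, ?_, ?_, ?_⟩
  · exact hψc.contDiff_convolution_left (ContinuousLinearMap.lsmul ℝ ℝ) hψ
      hgc.locallyIntegrable
  · intro a b hab
    obtain ⟨hJ1, hJ2⟩ := mollC_swap hgc hgb hψi a b
    rw [← hJ2, ← integral_const_mul]
    refine integral_mono (hint a) (hJ1.const_mul _) fun y => ?_
    simp only
    by_cases hy : ψ y = 0
    · rw [hy, zero_mul, zero_mul, mul_zero]
    · have hyr := hψs y hy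
      have hdisc : ∀ ζ : ℂ, ‖ζ‖ ≤ 1 → a - y + ζ • b ∈ K := by
        intro ζ hζ
        have := hthick _ (hab ζ hζ) y hyr
        rwa [show a + ζ • b - y = a - y + ζ • b by abel] at this
      have h1 := hs (a - y) b fun ζ hζ => hδΩ (hdisc ζ hζ)
      have h2 : ∫ θ in (0 : ℝ)..(2 * Real.pi), u (a - y + Complex.exp (θ * Complex.I) • b) =
          ∫ θ in (0 : ℝ)..(2 * Real.pi), g (a - y + Complex.exp (θ * Complex.I) • b) := by
        refine intervalIntegral.integral_congr fun θ _ => ?_
        exact (hgu _ (hdisc _ (by rw [Complex.norm_exp_ofReal_mul_I]))).symm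
      have h3 : g (a - y) = u (a - y) := by
        refine hgu _ ?_
        have := hdisc 0 (by simp)
        rwa [zero_smul, add_zero] at this
      rw [h2] at h1
      rw [h3, mul_left_comm]
      exact mul_le_mul_of_nonneg_left h1 (hψ0 y)
  · intro z hz
    have hzK := hWK hz
    have h1 : (∫ y, ψ y * g (z - y)) - u z = ∫ y, ψ y * (g (z - y) - g z) := by
      have h2 : ∫ y, ψ y * g z = g z := by
        rw [integral_mul_const, hψ1, one_mul]
      calc (∫ y, ψ y * g (z - y)) - u z = (∫ y, ψ y * g (z - y)) - ∫ y, ψ y * g z := by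
            rw [h2, hgu z hzK]
        _ = ∫ y, ψ y * (g (z - y) - g z) := by
            rw [← integral_sub (hint z) (hψi.mul_const _)]
            refine integral_congr_ae (Filter.Eventually.of_forall fun y => ?_)
            simp only
            ring
    rw [h1, ← Real.norm_eq_abs]
    have h3 : ∀ y, ‖ψ y * (g (z - y) - g z)‖ ≤ ψ y * ε := by
      intro y
      rw [norm_mul, Real.norm_eq_abs, abs_of_nonneg (hψ0 y)]
      by_cases hy : ψ y = 0
      · rw [hy, zero_mul, zero_mul]
      · have hyr := hψs y hy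
        refine mul_le_mul_of_nonneg_left ?_ (hψ0 y)
        have h4 := huc (z - y) (hthick z hz y hyr) z hzK (by
          rw [dist_eq_norm, sub_sub_cancel_left, norm_neg]
          exact hyr.trans_le (min_le_right _ _))
        rw [dist_eq_norm] at h4
        exact h4.le
    refine (norm_integral_le_of_norm_le (hψi.mul_const ε)
      (Filter.Eventually.of_forall h3)).trans ?_
    rw [integral_mul_const, hψ1, one_mul]

end HMA
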