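import Pool.Agent.H85.KW.GlueW
import Pool.Agent.H85.KW.CutR
import Pool.Agent.H85.KW.MollC

/-! # Module Rich: regularisation of continuous `ω`-psh functions -/

open MeasureTheory Metric Set Filter
open scoped ENNReal Topology ContDiff ComplexOrder

namespace HMA

variable {n : ℕ} {X : Type} [TopologicalSpace X] (K : KM n X)

/-- the local function of the chart `i` -/
noncomputable def rich_w (δ c₀ L₀ : ℝ) (a : Cn n → ℝ) (U : Cn n → ℝ) (i : Fin K.N) (x : X) : ℝ :=
  open Classical in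
  if x ∈ K.κ i '' ball 0 2 then
    (1 - δ) * (U (Function.invFunOn (K.κ i) (ball 0 3) x) -
      K.ρ i (Function.invFunOn (K.κ i) (ball 0 3) x)) -
      δ * c₀ * a (Function.invFunOn (K.κ i) (ball 0 3) x)
  else -L₀

theorem rich_w_in (δ c₀ L₀ : ℝ) (a : Cn n → ℝ) (U : Cn n → ℝ) (i : Fin K.N) {z : Cn n}
    (hz : z ∈ ball (0 : Cn n) 2) :
    rich_w K δ c₀ L₀ a U i (K.κ i z) = (1 - δ) * (U z - K.ρ i z) - δ * c₀ * a z := by
  unfold rich_w
  rw [if_pos (mem_image_of_mem _ hz), xtop_linv K i (ball_subset_ball (by norm_num) hz)]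

theorem rich_w_out (δ c₀ L₀ : ℝ) (a : Cn n → ℝ) (U : Cn n → ℝ) (i : Fin K.N) {x : X}
    (hx : x ∉ K.κ i '' ball 0 2) : rich_w K δ c₀ L₀ a U i x = -L₀ := by
  unfold rich_w
  rw [if_neg hx]

theorem KM.rich [CompactSpace X] [T2Space X] [Nonempty X] {φ : X → ℝ} (hφ : PC K φ) {ε : ℝ}
    (hε : 0 < ε) : ∃ ψ : X → ℝ, WK K ψ ∧ ∀ x, |ψ x - φ x| ≤ ε := by
  -- the bound of `φ`
  obtain ⟨B, hB0, hB⟩ : ∃ B : ℝ, 0 < B ∧ ∀ x, |φ x| ≤ B := by
    obtain ⟨B, hB⟩ := (isCompact_univ (X := X)).bddAbove_image (hφ.cont.abs).continuousOn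
    refine ⟨max B 1, lt_of_lt_of_le one_pos (le_max_right _ _), fun x => ?_⟩
    exact (hB (mem_image_of_mem _ (mem_univ x))).trans (le_max_left _ _)
  obtain ⟨a, c₀, hc₀, ha, ha01, ha0, ha1, hcut⟩ := K.exists_cut
  obtain ⟨δ, hδ0, hδ1, hδB⟩ : ∃ δ : ℝ, 0 < δ ∧ δ < 1 ∧ δ * B ≤ ε / 4 := by
    refine ⟨min (1 / 2) (ε / (4 * B)), by positivity, ?_, ?_⟩
    · exact lt_of_le_of_lt (min_le_left _ _) (by norm_num)
    · calc min (1 / 2) (ε / (4 * B)) * B ≤ ε / (4 * B) * B :=
            mul_le_mul_of_nonneg_right (min_le_right _ _) hB0.le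
        _ = ε / 4 := by field_simp
  obtain ⟨η, hη0, hη1, hη2⟩ : ∃ η : ℝ, 0 < η ∧ 4 * η ≤ δ * c₀ ∧ η ≤ ε / 8 := by
    refine ⟨min (δ * c₀ / 4) (ε / 8), by positivity, ?_, min_le_right _ _⟩
    have := min_le_left (δ * c₀ / 4) (ε / 8)
    linarith
  have h1δ : 0 < 1 - δ := by linarith
  -- the mollifications
  have hmoll : ∀ i : Fin K.N, ∃ (W : Set (Cn n)) (U : Cn n → ℝ), IsOpen W ∧
      closedBall 0 2 ⊆ W ∧ W ⊆ ball 0 3 ∧ ContDiff ℝ ∞ U ∧ SubOn W U ∧
      ∀ z ∈ W, |U z - (K.ρ i z + φ (K.κ i z))| ≤ η := by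
    intro i
    have hc : ContinuousOn (fun z => K.ρ i z + φ (K.κ i z)) (ball 0 3) :=
      (K.ρ_smooth i).continuousOn.add (hφ.cont.comp_continuousOn (K.cont i))
    exact moll_cont isOpen_ball hc (hφ.sub i) (isCompact_closedBall 0 2)
      (closedBall_subset_ball (by norm_num)) hη0
  choose W U hWo hLW hW3 hUs hUsub hUap using hmoll
  have hb2W : ∀ i, ball (0 : Cn n) 2 ⊆ W i := fun i => ball_subset_closedBall.trans (hLW i)
  set L₀ := B + 3 * η with hL₀
  let w : Fin K.N → X → ℝ := fun i => rich_w K δ c₀ L₀ a (U i) i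
  have hδc : 0 < δ * c₀ := by positivity
  -- estimates
  have hup : ∀ i, ∀ z ∈ ball (0 : Cn n) 2, w i (K.κ i z) ≤
      (1 - δ) * (φ (K.κ i z) + η) - δ * c₀ * a z := by
    intro i z hz
    show rich_w K δ c₀ L₀ a (U i) i (K.κ i z) ≤ _
    rw [rich_w_in K δ c₀ L₀ a (U i) i hz]
    have h1 := (abs_le.1 (hUap i z (hb2W i hz))).2
    have h2 : (1 - δ) * (U i z - K.ρ i z) ≤ (1 - δ) * (φ (K.κ i z) + η) :=
      mul_le_mul_of_nonneg_left (by linarith) h1δ.le
    linarith
  have hlow : ∀ j, ∀ z ∈ ball (0 : Cn n) 1, (1 - δ) * (φ (K.κ j z) - η) ≤ w j (K.κ j z) := by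
    intro j z hz
    have hz2 : z ∈ ball (0 : Cn n) 2 := ball_subset_ball (by norm_num) hz
    show _ ≤ rich_w K δ c₀ L₀ a (U j) j (K.κ j z)
    rw [rich_w_in K δ c₀ L₀ a (U j) j hz2]
    have h1 := (abs_le.1 (hUap j z (hb2W j hz2))).1
    have h2 : (1 - δ) * (φ (K.κ j z) - η) ≤ (1 - δ) * (U j z - K.ρ j z) :=
      mul_le_mul_of_nonneg_left (by linarith) h1δ.le
    have h3 : a z = 0 := ha0 z (by
      have := mem_ball_zero_iff.1 hz
      linarith)
    rw [h3]
    linarith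
  have hmul : ∀ t : ℝ, |t| ≤ B → |δ * t| ≤ δ * B := by
    intro t ht
    rw [abs_mul, abs_of_pos hδ0]
    exact mul_le_mul_of_nonneg_left ht hδ0.le
  -- glueing
  obtain ⟨ψ, hψ, hψb⟩ := K.glue_wk w (fun i => K.κ i '' ball 0 2)
    (fun i => K.isOpen_image i _ (ball_subset_ball (by norm_num)) isOpen_ball) (by
      rintro i k z hz ⟨z₀, hz₀, he⟩
      have hz₀3 : z₀ ∈ ball (0 : Cn n) 3 := ball_subset_ball (by norm_num) hz₀
      refine LW.change K (k := i) (z := z₀) ?_ hz₀3 hz he.symm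
      obtain ⟨r, hr, hrb⟩ := Metric.isOpen_iff.1 (isOpen_ball (x := (0 : Cn n)) (ε := 2)) z₀ hz₀
      have hb3 : ball (0 : Cn n) 2 ⊆ ball 0 3 := ball_subset_ball (by norm_num)
      refine ⟨r, hr, hrb.trans hb3, ?_, ?_⟩
      · have h1 : ContDiffOn ℝ ∞ (fun y => (1 - δ) * (U i y - K.ρ i y) - δ * c₀ * a y)
            (ball z₀ r) := by
          have hρ : ContDiffOn ℝ ∞ (K.ρ i) (ball z₀ r) := (K.ρ_smooth i).mono (hrb.trans hb3)
          exact (contDiffOn_const.mul ((hUs i).contDiffOn.sub hρ)).sub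
            (contDiffOn_const.mul ha.contDiffOn)
        have h2 : C11 (ball z₀ r) (fun y => (1 - δ) * (U i y - K.ρ i y) - δ * c₀ * a y) :=
          c11_of_contDiffOn isOpen_ball (h1.of_le (by norm_cast))
        refine C11.congr isOpen_ball h2 fun y hy => ?_
        exact rich_w_in K δ c₀ L₀ a (U i) i (hrb hy)
      · have h1 : SubOn (ball z₀ r) (fun y => (1 - δ) * U i y) :=
          kw_sub_mul (kw_sub_mono (hUsub i) (hrb.trans (hb2W i))) h1δ.le
        have h2 : SubOn (ball z₀ r) (fun y => δ * (K.ρ i y + -c₀ * a y)) :=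
          kw_sub_mul (kw_sub_mono (hcut i (-c₀) (by rw [abs_neg, abs_of_pos hc₀])) hrb) hδ0.le
        have hc1 : ContinuousOn (fun y => (1 - δ) * U i y) (ball z₀ r) :=
          continuousOn_const.mul (hUs i).continuous.continuousOn
        have hc2 : ContinuousOn (fun y => δ * (K.ρ i y + -c₀ * a y)) (ball z₀ r) :=
          continuousOn_const.mul (((K.ρ_smooth i).continuousOn.mono (hrb.trans hb3)).add
            (continuousOn_const.mul ha.continuous.continuousOn))
        refine kw_sub_congr (kw_sub_add h1 h2 hc1 hc2) fun y hy => ?_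
        show K.ρ i y + rich_w K δ c₀ L₀ a (U i) i (K.κ i y) = _
        rw [rich_w_in K δ c₀ L₀ a (U i) i (hrb hy)]
        ring) hη0 (by
      intro i x hx
      have hcomp : IsCompact (K.κ i '' closedBall 0 (3 / 2)) :=
        K.compact_image i (isCompact_closedBall 0 (3 / 2)) (closedBall_subset_ball (by norm_num))
      have hnot : x ∉ K.κ i '' closedBall 0 (3 / 2) := by
        intro h
        exact hx (image_mono (closedBall_subset_ball (by norm_num)) h)
      filter_upwards [hcomp.isClosed.isOpen_compl.mem_nhds hnot] with y hy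
      obtain ⟨j, z', hz', rfl⟩ := K.cover y
      refine ⟨j, ?_⟩
      have h1 := hlow j z' hz'
      have hBy := hB (K.κ j z')
      have h2 := abs_le.1 hBy
      by_cases hyO : K.κ j z' ∈ K.κ i '' ball 0 2
      · obtain ⟨z, hz, hzy⟩ := hyO
        have h3 := hup i z hz
        rw [hzy] at h3
        have h4 : a z = 1 := by
          apply ha1
          by_contra hlt
          apply hy
          refine ⟨z, ?_, hzy⟩
          rw [mem_closedBall_zero_iff]
          linarith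
        rw [h4] at h3
        nlinarith
      · have h3 : w i (K.κ j z') = -L₀ := rich_w_out K δ c₀ L₀ a (U i) i hyO
        rw [h3, hL₀]
        have h4 := (abs_le.1 (hmul _ hBy))
        nlinarith)
  refine ⟨ψ, hψ, fun x => ?_⟩
  obtain ⟨hge, i, hi⟩ := hψb x
  have hBx := hB x
  have h2 := abs_le.1 hBx
  have h4 := abs_le.1 (hmul _ hBx)
  have hδη : 0 < δ * η := by positivity
  rw [abs_le]
  constructor
  · obtain ⟨j, z', hz', he⟩ := K.cover x
    have h1 := hlow j z' hz'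
    rw [he] at h1
    have h3 := hge j
    nlinarith
  · by_cases hxO : x ∈ K.κ i '' ball 0 2
    · obtain ⟨z, hz, hzx⟩ := hxO
      have h3 := hup i z hz
      rw [hzx] at h3
      have h5 := (ha01 z).1
      have h6 : 0 ≤ δ * c₀ * a z := mul_nonneg hδc.le h5
      nlinarith
    · have h3 : w i x = -L₀ := rich_w_out K δ c₀ L₀ a (U i) i hxO
      rw [h3, hL₀] at hi
      linarith

end HMA
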