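import Pool.Agent.H85.KW.Bump
import Pool.Agent.H85.KM.XPart
import Pool.Agent.H85.KM.XEn

/-! # Module WeakL: weak convergence -/

open MeasureTheory Metric Set Filter
open scoped ENNReal Topology ContDiff ComplexOrder

namespace HMA

variable {n : ℕ} {X : Type} [TopologicalSpace X] (K : KM n X)

theorem weakL_c11 {f : X → ℝ} (hf : ∀ j, ContDiffOn ℝ ∞ (fun z => f (K.κ j z)) (ball 0 3)) :
    C11X K f :=
  fun j => c11_of_contDiffOn isOpen_ball (contDiffOn_infty.1 (hf j) 2)

theorem weakL_ext_mul (j : Fin K.N) (b : Cn n → ℝ) (f : X → ℝ) (x : X) :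
    K.ext j (fun z => b z * f (K.κ j z)) x = K.ext j b x * f x := by
  by_cases h : x ∈ K.κ j '' ball 0 3
  · obtain ⟨z, hz, rfl⟩ := h
    rw [K.ext_κ j _ hz, K.ext_κ j _ hz]
  · rw [K.ext_off j _ h, K.ext_off j _ h, zero_mul]

variable [MeasurableSpace X] [BorelSpace X] [T2Space X] [CompactSpace X]

theorem weakL_upper {μ : Measure X} [IsProbabilityMeasure μ] {f : X → ℝ}
    (hf : ∀ j, ContDiffOn ℝ ∞ (fun z => f (K.κ j z)) (ball 0 3)) (hf0 : ∀ x, 0 ≤ f x) (M : ℝ) :
    ∃ C : ℝ, ∀ (δ : ℝ) (φ : X → ℝ), 0 < δ → δ ≤ 1 → Amax K μ δ φ → (∀ x, |φ x| ≤ M) →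
      ∫ x, f x * K.RM φ x ∂K.vol ≤ K.vol.real univ * ∫ x, f x ∂μ + C * Real.sqrt δ := by
  obtain ⟨b, hb, -, hsum⟩ := exists_partition K
  set b' : Fin K.N → Cn n → ℝ := fun j z => b j z * f (K.κ j z) with hb'
  have hb3 : ∀ j, tsupport (b j) ⊆ ball (0 : Cn n) 3 :=
    fun j => (hb j).2.1.trans (ball_subset_ball (by norm_num))
  have hzero : ∀ j z, z ∉ tsupport (b j) → b' j z = 0 := by
    intro j z hz
    simp only [hb']
    rw [image_eq_zero_of_notMem_tsupport hz, zero_mul]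
  have hsm : ∀ j, ContDiff ℝ ∞ (b' j) := fun j =>
    XPart_glob (hb j).1 (hb3 j) ((hb j).2.2.2.contDiffOn.mul (hf j)) (hzero j)
  have h0 : ∀ j z, 0 ≤ b' j z := fun j z => mul_nonneg ((hb j).2.2.1 z).1 (hf0 _)
  have hts : ∀ j, tsupport (b' j) ⊆ ball (0 : Cn n) 2 := by
    intro j
    refine (closure_minimal ?_ (hb j).1.isClosed).trans (hb j).2.1
    intro z hz
    by_contra h
    exact hz (hzero j z h)
  have hext : ∀ j x, K.ext j (b' j) x = K.ext j (b j) x * f x :=
    fun j x => weakL_ext_mul K j (b j) f x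
  have hC11 : ∀ j, C11X K (K.ext j (b' j)) := by
    intro j
    refine c11X_ext K j ?_ (hb j).1 (hb3 j) (hzero j)
    exact c11_of_contDiffOn isOpen_ball (contDiff_infty.1 (hsm j) 2).contDiffOn
  have hfsum : ∀ x, f x = ∑ j, K.ext j (b' j) x := by
    intro x
    simp_rw [hext]
    rw [← Finset.sum_mul, hsum x, one_mul]
  choose C hC0 hC using fun j => KM.bump K (μ := μ) j (hsm j) (h0 j) (hts j) M
  refine ⟨∑ j, C j, fun δ φ hδ hδ1 hφ hM => ?_⟩
  have h1 : ∫ x, f x * K.RM φ x ∂K.vol = ∑ j, ∫ x, K.ext j (b' j) x * K.RM φ x ∂K.vol := by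
    rw [← integral_finsetSum]
    · refine integral_congr_ae (Eventually.of_forall fun x => ?_)
      simp only
      rw [hfsum x, Finset.sum_mul]
    · intro j _
      exact K.xLoc_int hφ.wk.c11 (hC11 j)
  have h2 : ∫ x, f x ∂μ = ∑ j, ∫ x, K.ext j (b' j) x ∂μ := by
    rw [← integral_finsetSum]
    · refine integral_congr_ae (Eventually.of_forall fun x => ?_)
      simp only
      rw [← hfsum x]
    · intro j _
      obtain ⟨B, -, hB⟩ := XEn_bdd K (hC11 j)
      exact Integrable.of_bound (C11X.continuous K (hC11 j)).aestronglyMeasurable B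
        (Eventually.of_forall hB)
  rw [h1, h2, Finset.mul_sum, Finset.sum_mul, ← Finset.sum_add_distrib]
  exact Finset.sum_le_sum fun j _ => hC j δ φ hδ hδ1 hφ hM

theorem KM.weak_lim {μ : Measure X} [IsProbabilityMeasure μ] {φ : ℕ → X → ℝ} {δ : ℕ → ℝ}
    (hδ : Tendsto δ atTop (𝓝 0)) (h : ∀ k, Amax K μ (δ k) (φ k)) {M : ℝ}
    (hM : ∀ k x, |φ k x| ≤ M) (i : Fin K.N) {χ : Cn n → ℝ} (hχ : ContDiff ℝ ∞ χ)
    (hc : HasCompactSupport χ) (hs : tsupport χ ⊆ ball 0 3) :
    Tendsto (fun k => ∫ x, K.ext i χ x * K.RM (φ k) x ∂K.vol) atTop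
      (𝓝 (K.vol.real univ * ∫ x, K.ext i χ x ∂μ)) := by
  obtain ⟨R0, hR0⟩ := hc.exists_bound_of_continuous hχ.continuous
  set R : ℝ := |R0| + 1 with hR
  have hRpos : 0 < R := by positivity
  have hχR : ∀ z, |χ z| ≤ R := fun z => by
    have := hR0 z
    rw [Real.norm_eq_abs] at this
    linarith [le_abs_self R0]
  have hextR : ∀ x, |K.ext i χ x| ≤ R := by
    intro x
    by_cases hx : x ∈ K.κ i '' ball 0 3
    · obtain ⟨z, hz, rfl⟩ := hx
      rw [K.ext_κ i _ hz]
      exact hχR z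
    · rw [K.ext_off i _ hx, abs_zero]
      exact hRpos.le
  have hsm := XPart_smooth K i
  have hE : ∀ j, ContDiffOn ℝ ∞ (fun z => K.ext i χ (K.κ j z)) (ball 0 3) :=
    fun j => XPart_smooth K i j hχ hc hs
  set f : X → ℝ := fun x => (K.ext i χ x + R) / (2 * R) with hf
  set g : X → ℝ := fun x => (R - K.ext i χ x) / (2 * R) with hg
  have hfs : ∀ j, ContDiffOn ℝ ∞ (fun z => f (K.κ j z)) (ball 0 3) :=
    fun j => ((hE j).add contDiffOn_const).div_const _
  have hgs : ∀ j, ContDiffOn ℝ ∞ (fun z => g (K.κ j z)) (ball 0 3) :=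
    fun j => (contDiffOn_const.sub (hE j)).div_const _
  have hf0 : ∀ x, 0 ≤ f x := fun x =>
    div_nonneg (by have := (abs_le.1 (hextR x)).1; linarith) (by positivity)
  have hg0 : ∀ x, 0 ≤ g x := fun x =>
    div_nonneg (by have := (abs_le.1 (hextR x)).2; linarith) (by positivity)
  have hfg : ∀ x, f x + g x = 1 := by
    intro x
    simp only [hf, hg]
    field_simp
    ring
  obtain ⟨C1, hC1⟩ := weakL_upper K (μ := μ) hfs hf0 M
  obtain ⟨C2, hC2⟩ := weakL_upper K (μ := μ) hgs hg0 M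
  have hcf := weakL_c11 K hfs
  have hcg := weakL_c11 K hgs
  have hμint : ∀ {v : X → ℝ}, C11X K v → Integrable v μ := by
    intro v hv
    obtain ⟨B, -, hB⟩ := XEn_bdd K hv
    exact Integrable.of_bound (C11X.continuous K hv).aestronglyMeasurable B
      (Eventually.of_forall hB)
  have hμfg : ∫ x, f x ∂μ + ∫ x, g x ∂μ = 1 := by
    rw [← integral_add (hμint hcf) (hμint hcg)]
    simp_rw [hfg]
    simp
  have hVfg : ∀ k, ∫ x, f x * K.RM (φ k) x ∂K.vol + ∫ x, g x * K.RM (φ k) x ∂K.vol =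
      K.vol.real univ := by
    intro k
    rw [← integral_add (K.xLoc_int (h k).wk.c11 hcf) (K.xLoc_int (h k).wk.c11 hcg),
      ← K.mass (h k).wk.c11]
    refine integral_congr_ae (Eventually.of_forall fun x => ?_)
    simp only
    rw [← add_mul, hfg, one_mul]
  -- the numbers `δ'`
  set δ' : ℕ → ℝ := fun k => |δ k| + 1 / ((k : ℝ) + 1) with hδ'
  have hδ't : Tendsto δ' atTop (𝓝 0) := by
    have h1 : Tendsto (fun k => |δ k|) atTop (𝓝 0) := by simpa using hδ.abs
    have h2 := h1.add tendsto_one_div_add_atTop_nhds_zero_nat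
    simpa [hδ'] using h2
  have hδ'0 : ∀ k, 0 < δ' k := fun k => by
    simp only [hδ']
    positivity
  have hev : ∀ᶠ k in atTop, δ' k ≤ 1 := by
    filter_upwards [hδ't.eventually (gt_mem_nhds zero_lt_one)] with k hk
    exact hk.le
  have hA : ∀ k, Amax K μ (δ' k) (φ k) := fun k => ⟨(h k).wk, fun χ' hχ' => by
    have h1 := (h k).max χ' hχ'
    have h2 : δ k ≤ δ' k := by
      simp only [hδ']
      have := le_abs_self (δ k)
      have h3 : (0 : ℝ) < 1 / ((k : ℝ) + 1) := by positivity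
      linarith
    linarith⟩
  have hsq : Tendsto (fun k => Real.sqrt (δ' k)) atTop (𝓝 0) := by
    have h1 := (Real.continuous_sqrt.tendsto 0).comp hδ't
    rw [Real.sqrt_zero] at h1
    exact h1
  have hfl : Tendsto (fun k => ∫ x, f x * K.RM (φ k) x ∂K.vol) atTop
      (𝓝 (K.vol.real univ * ∫ x, f x ∂μ)) := by
    have hlow : Tendsto (fun k => K.vol.real univ * ∫ x, f x ∂μ - C2 * Real.sqrt (δ' k)) atTop
        (𝓝 (K.vol.real univ * ∫ x, f x ∂μ)) := by
      simpa using tendsto_const_nhds.sub (hsq.const_mul C2)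
    have hup : Tendsto (fun k => K.vol.real univ * ∫ x, f x ∂μ + C1 * Real.sqrt (δ' k)) atTop
        (𝓝 (K.vol.real univ * ∫ x, f x ∂μ)) := by
      simpa using tendsto_const_nhds.add (hsq.const_mul C1)
    refine tendsto_of_tendsto_of_tendsto_of_le_of_le' hlow hup ?_ ?_
    · filter_upwards [hev] with k hk
      have h1 := hC2 (δ' k) (φ k) (hδ'0 k) hk (hA k) (hM k)
      have h2 := hVfg k
      have h3 : K.vol.real univ * ∫ x, f x ∂μ = K.vol.real univ -
          K.vol.real univ * ∫ x, g x ∂μ := by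
        rw [← mul_one_sub, ← hμfg]
        ring
      rw [h3]
      linarith
    · filter_upwards [hev] with k hk
      exact hC1 (δ' k) (φ k) (hδ'0 k) hk (hA k) (hM k)
  have hχf : ∀ x, K.ext i χ x = 2 * R * f x - R := by
    intro x
    simp only [hf]
    field_simp
    ring
  have h1 : ∀ k, ∫ x, K.ext i χ x * K.RM (φ k) x ∂K.vol =
      2 * R * ∫ x, f x * K.RM (φ k) x ∂K.vol - R * K.vol.real univ := by
    intro k
    rw [← K.mass (h k).wk.c11, ← integral_const_mul, ← integral_const_mul,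
      ← integral_sub ((K.xLoc_int (h k).wk.c11 hcf).const_mul _)
        ((XEn_RM_int K (h k).wk.c11).const_mul _)]
    refine integral_congr_ae (Eventually.of_forall fun x => ?_)
    simp only
    rw [hχf x]
    ring
  have h2 : K.vol.real univ * ∫ x, K.ext i χ x ∂μ =
      2 * R * (K.vol.real univ * ∫ x, f x ∂μ) - R * K.vol.real univ := by
    have h3 : ∫ x, K.ext i χ x ∂μ = 2 * R * ∫ x, f x ∂μ - R := by
      simp_rw [hχf]
      rw [integral_sub ((hμint hcf).const_mul _) (integrable_const _), integral_const_mul]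
      simp
    rw [h3]
    ring
  simp_rw [h1]
  rw [h2]
  exact (hfl.const_mul _).sub tendsto_const_nhds

end HMA
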