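import Pool.Agent.H85.KW.HolF
import Pool.Agent.H85.KW.NearM
import Pool.Agent.H85.KW.WeakL
import Pool.Agent.H85.KW.BTcmp
import Pool.Agent.H85.KW.Rich

/-! # Module FinX: the main theorem -/

open MeasureTheory Metric Set Filter
open scoped ENNReal Topology ContDiff ComplexOrder

namespace HMA

variable {n : ℕ} {X : Type} [TopologicalSpace X] (K : KM n X)

theorem FinX_pot_cont {Φ : X → ℝ} (hΦ : Continuous Φ) (i : Fin K.N) :
    ContinuousOn (fun z => K.ρ i z + Φ (K.κ i z)) (ball 0 3) :=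
  (K.ρ_c11 i).continuousOn.add (hΦ.comp_continuousOn (K.cont i))

variable [MeasurableSpace X] [BorelSpace X] [T2Space X] [CompactSpace X]

/-- the Monge-Ampère measure of the limit in the sense of Bedford and Taylor -/
theorem KM.isMA_of_lim {μ : Measure X} [IsProbabilityMeasure μ] [Nonempty X] {Φ : X → ℝ}
    (hΦ : PC K Φ) {φ : ℕ → X → ℝ} (hφ : ∀ k, WK K (φ k))
    (hu : TendstoUniformly φ Φ atTop)
    (hw : ∀ (i : Fin K.N) (χ : Cn n → ℝ), ContDiff ℝ ∞ χ → HasCompactSupport χ →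
      tsupport χ ⊆ ball 0 3 → Tendsto (fun k => ∫ x, K.ext i χ x * K.RM (φ k) x ∂K.vol) atTop
        (𝓝 (K.vol.real univ * ∫ x, K.ext i χ x ∂μ))) : IsMA K Φ μ := by
  intro i W hW hWc hWs
  have hWsub : W ⊆ ball (0 : Cn n) 3 := subset_closure.trans hWs
  have hucont : ContinuousOn (fun z => K.ρ i z + Φ (K.κ i z)) (ball 0 3) :=
    FinX_pot_cont K hΦ.cont i
  refine ⟨?_, ?_⟩
  · have h1 : ∀ k : ℕ, ∃ U : Cn n → ℝ, ContDiffOn ℝ ∞ U W ∧ SubOn W U ∧
        ∀ z ∈ W, |U z - (K.ρ i z + Φ (K.κ i z))| ≤ 1 / ((k : ℝ) + 1) := by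
      intro k
      obtain ⟨W', U, -, hLW, -, hU1, hU2, hU3⟩ := moll_cont isOpen_ball hucont (hΦ.sub i) hWc hWs
        (ε := 1 / ((k : ℝ) + 1)) (by positivity)
      have hWW' : W ⊆ W' := subset_closure.trans hLW
      exact ⟨U, hU1.contDiffOn, kw_sub_mono hU2 hWW', fun z hz => hU3 z (hWW' hz)⟩
    choose U hU1 hU2 hU3 using h1
    refine ⟨U, fun k => ⟨hU1 k, hU2 k⟩, ?_⟩
    rw [Metric.tendstoUniformlyOn_iff]
    intro ε hε
    have h2 : ∀ᶠ k : ℕ in atTop, 1 / ((k : ℝ) + 1) < ε :=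
      tendsto_one_div_add_atTop_nhds_zero_nat.eventually_lt_const hε
    filter_upwards [h2] with k hk z hz
    rw [dist_comm, Real.dist_eq]
    exact (hU3 k z hz).trans_lt hk
  · intro U hU hUu χ hχ hc hs
    have hs3 : tsupport χ ⊆ ball (0 : Cn n) 3 := hs.trans hWsub
    obtain ⟨B, hB⟩ := hWc.exists_bound_of_continuousOn (hucont.mono hWs)
    obtain ⟨C, hC, hcmp⟩ := bt_cmp hW (M := B + 1) hχ hc hs
    have hv11 : ∀ m, C11 W (fun z => K.ρ i z + φ m (K.κ i z)) := fun m =>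
      ((K.ρ_c11 i).add isOpen_ball ((hφ m).c11 i)).mono hWsub
    have hvs : ∀ m, SubOn W (fun z => K.ρ i z + φ m (K.κ i z)) := fun m =>
      kw_sub_mono ((hφ m).sub i) hWsub
    have h2inf : (2 : WithTop ℕ∞) ≤ ((⊤ : ℕ∞) : WithTop ℕ∞) :=
      WithTop.coe_le_coe.2 (le_top : (2 : ℕ∞) ≤ ⊤)
    have hU11 : ∀ k, C11 W (U k) := fun k =>
      c11_of_contDiffOn hW ((hU k).1.of_le h2inf)
    -- the integrals of the approximations
    have hχ11 : C11X K (K.ext i χ) :=
      c11X_ext K i (c11_of_contDiffOn isOpen_ball (hχ.contDiffOn.of_le h2inf))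
        (L := tsupport χ) hc hs3 (fun z hz => image_eq_zero_of_notMem_tsupport hz)
    have hint : ∀ m, ∫ z in W, χ z * mad (fun z => K.ρ i z + φ m (K.κ i z)) z =
        ∫ x, K.ext i χ x * K.RM (φ m) x ∂K.vol := by
      intro m
      rw [(K.xLoc_chart (hφ m).c11 i hχ11).2]
      symm
      refine setIntegral_eq_of_subset_of_forall_sdiff_eq_zero measurableSet_ball hWsub ?_
      intro z hz
      rw [image_eq_zero_of_notMem_tsupport (fun h => hz.2 (hs h)), zero_mul]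
    rw [Metric.tendsto_atTop]
    intro ε hε
    set η : ℝ := min 1 (ε / (4 * C)) with hη
    have hη0 : 0 < η := by positivity
    have hηC : C * η ≤ ε / 4 := by
      have h1 : η ≤ ε / (4 * C) := min_le_right _ _
      have h2 : C * (ε / (4 * C)) = ε / 4 := by field_simp
      calc C * η ≤ C * (ε / (4 * C)) := by gcongr
        _ = ε / 4 := h2
    have h1 : ∀ᶠ m in atTop, ∀ x, |φ m x - Φ x| < η := by
      have := Metric.tendstoUniformly_iff.1 hu η hη0
      filter_upwards [this] with m hm x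
      have h3 := hm x
      rwa [dist_comm, Real.dist_eq] at h3
    have h2 : ∀ᶠ m in atTop, |(∫ x, K.ext i χ x * K.RM (φ m) x ∂K.vol) -
        K.vol.real univ * ∫ x, K.ext i χ x ∂μ| < ε / 4 := by
      have := Metric.tendsto_nhds.1 (hw i χ hχ hc hs3) (ε / 4) (by positivity)
      filter_upwards [this] with m hm
      rwa [Real.dist_eq] at hm
    obtain ⟨m, hm1, hm2⟩ := (h1.and h2).exists
    have h3 : ∀ᶠ k in atTop, ∀ z ∈ W, |U k z - (K.ρ i z + Φ (K.κ i z))| < η := by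
      have := Metric.tendstoUniformlyOn_iff.1 hUu η hη0
      filter_upwards [this] with k hk z hz
      have h4 := hk z hz
      rwa [dist_comm, Real.dist_eq] at h4
    obtain ⟨k₀, hk₀⟩ := eventually_atTop.1 h3
    refine ⟨k₀, fun k hk => ?_⟩
    have h4 := hk₀ k hk
    have hη1 : η ≤ 1 := min_le_left _ _
    have hBz : ∀ z ∈ W, |K.ρ i z + Φ (K.κ i z)| ≤ B := fun z hz => hB z (subset_closure hz)
    have h5 : ∀ z ∈ W, |U k z| ≤ B + 1 := by
      intro z hz
      have h6 := h4 z hz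
      have h7 := hBz z hz
      have h8 := abs_sub_abs_le_abs_sub (U k z) (K.ρ i z + Φ (K.κ i z))
      linarith
    have h6 : ∀ z ∈ W, |K.ρ i z + φ m (K.κ i z)| ≤ B + 1 := by
      intro z hz
      have h7 := hBz z hz
      have h8 := abs_sub_abs_le_abs_sub (K.ρ i z + φ m (K.κ i z)) (K.ρ i z + Φ (K.κ i z))
      have h9 := hm1 (K.κ i z)
      rw [add_sub_add_left_eq_sub] at h8
      linarith
    have h7 : ∀ z ∈ W, |U k z - (K.ρ i z + φ m (K.κ i z))| ≤ 2 * η := by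
      intro z hz
      have h8 := h4 z hz
      have h9 := hm1 (K.κ i z)
      rw [abs_lt] at h8 h9
      rw [abs_le]
      constructor <;> linarith [h8.1, h8.2, h9.1, h9.2]
    have h8 := hcmp (U k) (fun z => K.ρ i z + φ m (K.κ i z)) (hU11 k) (hU k).2 (hv11 m) (hvs m)
      h5 h6 (2 * η) (by positivity) h7
    rw [hint m] at h8
    rw [Real.dist_eq]
    have h9 := abs_add_le ((∫ z in W, χ z * mad (U k) z) -
      ∫ x, K.ext i χ x * K.RM (φ m) x ∂K.vol)
      ((∫ x, K.ext i χ x * K.RM (φ m) x ∂K.vol) - K.vol.real univ * ∫ x, K.ext i χ x ∂μ)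
    rw [sub_add_sub_cancel] at h9
    linarith

theorem KM.main [ConnectedSpace X] (hn : 1 ≤ n) {μ : Measure X} [IsProbabilityMeasure μ]
    (hμ : KModerate K μ) : ∃ φ : X → ℝ, HolPsh K φ ∧ IsMA K φ μ := by
  obtain ⟨Φ, ψ, δ, B, hΦ, hHol, hψ, hδ, hB, hlm, hlv⟩ := K.exists_potential hn hμ
  refine ⟨Φ, hHol, ?_⟩
  choose φ hφ hφΦ using fun k : ℕ => K.rich hΦ (ε := 1 / ((k : ℝ) + 1)) (by positivity)
  have hamax : ∀ k : ℕ, Amax K μ (2 * (1 / ((k : ℝ) + 1)) * K.vol.real univ) (φ k) := fun k : ℕ =>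
    K.near_max hΦ hψ hδ hlm hlv (hφ k) (hφΦ k)
  have h0 : Tendsto (fun k : ℕ => 1 / ((k : ℝ) + 1)) atTop (𝓝 0) :=
    tendsto_one_div_add_atTop_nhds_zero_nat
  have hδ' : Tendsto (fun k : ℕ => 2 * (1 / ((k : ℝ) + 1)) * K.vol.real univ) atTop (𝓝 0) := by
    have := (h0.const_mul 2).mul_const (K.vol.real univ)
    simpa using this
  obtain ⟨B', hB'⟩ := (PC.pb K hΦ).bdd
  have hφB : ∀ k x, |φ k x| ≤ B' + 1 := by
    intro k x
    have h1 := hφΦ k x
    have h2 : 1 / ((k : ℝ) + 1) ≤ 1 := by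
      rw [div_le_one (by positivity)]
      linarith [Nat.cast_nonneg (α := ℝ) k]
    have h3 := abs_sub_abs_le_abs_sub (φ k x) (Φ x)
    linarith [hB' x]
  refine K.isMA_of_lim hΦ hφ ?_ fun i χ hχ hc hs =>
    K.weak_lim hδ' hamax hφB i hχ hc hs
  rw [Metric.tendstoUniformly_iff]
  intro ε hε
  filter_upwards [h0.eventually_lt_const hε] with k hk x
  rw [dist_comm, Real.dist_eq]
  exact (hφΦ k x).trans_lt hk

end HMA
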