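import Pool.Agent.H85.KW.Hada

/-! # Module SupR: suprema over balls -/

open MeasureTheory Metric Set Filter
open scoped ENNReal Topology ContDiff ComplexOrder

namespace HMA

variable {n : ℕ} {u : Cn n → ℝ} {M : ℝ}

theorem supR_int {g : ℝ → ℝ} (hm : Measurable g) (hb : ∀ θ, |g θ| ≤ M) (a b : ℝ) :
    IntervalIntegrable g volume a b := by
  refine (intervalIntegrable_const (c := M)).mono_fun' hm.aestronglyMeasurable ?_
  exact Filter.Eventually.of_forall fun θ => hb θ

theorem supB_bdd (hu : UpperSemicontinuous u) (hb : ∀ y, |u y| ≤ M) {r : ℝ} (hr : 0 ≤ r)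
    (z : Cn n) : |supB u r z| ≤ M := by
  obtain ⟨z', -, h⟩ := supB_attained hu hr z
  rw [h]
  exact hb z'

theorem supB_sub (hu : UpperSemicontinuous u) (hb : ∀ y, |u y| ≤ M) {Ω W : Set (Cn n)}
    (hs : SubOn Ω u) {r : ℝ} (hr : 0 ≤ r) (hW : ∀ z ∈ W, closedBall z r ⊆ Ω) :
    SubOn W (supB u r) := by
  intro a b hab
  obtain ⟨a', ha', he⟩ := supB_attained hu hr a
  have hd : ∀ ζ : ℂ, ‖(a' + ζ • b) - (a + ζ • b)‖ ≤ r := by
    intro ζ
    have e : (a' + ζ • b) - (a + ζ • b) = a' - a := by abel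
    rw [e]; exact ha'
  have h1 := hs a' b (fun ζ hζ => hW _ (hab ζ hζ) (by
    rw [mem_closedBall, dist_eq_norm]; exact hd ζ))
  rw [he]
  refine h1.trans ?_
  have hc : Continuous (fun θ : ℝ => a' + Complex.exp (θ * Complex.I) • b) := by fun_prop
  have hc2 : Continuous (fun θ : ℝ => a + Complex.exp (θ * Complex.I) • b) := by fun_prop
  have hm1 : Measurable (fun θ : ℝ => u (a' + Complex.exp (θ * Complex.I) • b)) :=
    hu.measurable.comp hc.measurable
  have hm2 : Measurable (fun θ : ℝ => supB u r (a + Complex.exp (θ * Complex.I) • b)) :=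
    (supB_usc hu hr).measurable.comp hc2.measurable
  refine mul_le_mul_of_nonneg_left ?_ (by positivity)
  refine intervalIntegral.integral_mono_on (by positivity)
    (supR_int hm1 (fun θ => hb _) _ _) (supR_int hm2 (fun θ => supB_bdd hu hb hr _) _ _) ?_
  intro θ _
  exact le_supB hu (hd _)

theorem supR_lip (hu : UpperSemicontinuous u) (hb : ∀ y, |u y| ≤ M) {R R' r : ℝ}
    (hs : SubOn (ball 0 R) u) (hr : 0 < r) (hR : R' + r < R) :
    ∃ C δ : ℝ, 0 < C ∧ 0 < δ ∧ ∀ z ∈ ball (0 : Cn n) R', ∀ h, 0 ≤ h → h ≤ δ →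
      supB u (r + h) z ≤ supB u r z + C * h := by
  have hM : 0 ≤ M := (abs_nonneg _).trans (hb 0)
  set r₂ : ℝ := (R - R' + r) / 2 with hr₂
  have h2 : r < r₂ := by rw [hr₂]; linarith
  have h3 : r₂ < R - R' := by rw [hr₂]; linarith
  set r₃ : ℝ := (r + r₂) / 2 with hr₃
  have h4 : r < r₃ := by rw [hr₃]; linarith
  have h5 : r₃ < r₂ := by rw [hr₃]; linarith
  have hL : 0 < Real.log (r₂ / r₃) := Real.log_pos (by
    rw [lt_div_iff₀ (by linarith)]; linarith)
  set L : ℝ := Real.log (r₂ / r₃) with hLd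
  refine ⟨2 * M / (L * r) + 1, r₃ - r, by positivity, by linarith, ?_⟩
  intro z hz h hh hhδ
  have hz' : ‖z‖ < R' := by simpa using hz
  have hsub : ball z (R - R') ⊆ ball (0 : Cn n) R := by
    refine ball_subset_ball' ?_
    rw [dist_eq_norm, sub_zero]
    linarith
  have hs' : SubOn (ball z (R - R')) u := fun a b hab => hs a b fun ζ hζ => hsub (hab ζ hζ)
  have hrh : 0 < r + h := by linarith
  have hr2 : 0 < r₂ := by linarith
  have hr3 : 0 < r₃ := by linarith
  have hha := hada hu hs' hb hr (show r ≤ r + h by linarith) (show r + h ≤ r₂ by linarith) h3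
  have e1 : Real.log (r₂ / r) = Real.log (r₂ / (r + h)) + Real.log ((r + h) / r) := by
    rw [← Real.log_mul (by positivity) (by positivity)]
    congr 1
    field_simp
  rw [e1] at hha
  have hl1 : L ≤ Real.log (r₂ / (r + h)) := by
    rw [hLd]
    refine Real.log_le_log (by positivity) ?_
    exact div_le_div_of_nonneg_left hr2.le hrh (by linarith)
  have hl2 : Real.log ((r + h) / r) ≤ h / r := by
    have h6 := Real.log_le_sub_one_of_pos (show 0 < (r + h) / r by positivity)
    have e2 : (r + h) / r - 1 = h / r := by field_simp; ring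
    rwa [e2] at h6
  have hl3 : 0 ≤ Real.log ((r + h) / r) := Real.log_nonneg (by
    rw [le_div_iff₀ hr]; linarith)
  have hb1 := abs_le.1 (supB_bdd hu hb (show 0 ≤ r₂ by linarith) z)
  have hb2 := abs_le.1 (supB_bdd hu hb hrh.le z)
  set S1 := supB u (r + h) z
  set S0 := supB u r z
  set S2 := supB u r₂ z
  set l1 := Real.log (r₂ / (r + h))
  set l2 := Real.log ((r + h) / r)
  have h7 : (S1 - S0) * l1 ≤ 2 * M * l2 := by
    have : (S1 - S0) * l1 ≤ (S2 - S1) * l2 := by nlinarith
    exact this.trans (mul_le_mul_of_nonneg_right (by linarith [hb1.2, hb2.1]) hl3)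
  rcases le_or_gt S1 S0 with h8 | h8
  · have : 0 ≤ (2 * M / (L * r) + 1) * h := by positivity
    linarith
  · have h9 : (S1 - S0) * L ≤ 2 * M * (h / r) := by
      calc (S1 - S0) * L ≤ (S1 - S0) * l1 := mul_le_mul_of_nonneg_left hl1 (by linarith)
        _ ≤ 2 * M * l2 := h7
        _ ≤ 2 * M * (h / r) := mul_le_mul_of_nonneg_left hl2 (by positivity)
    have h10 : S1 - S0 ≤ 2 * M * (h / r) / L := by
      rw [le_div_iff₀ hL]; exact h9
    have e3 : 2 * M * (h / r) / L = 2 * M / (L * r) * h := by field_simp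
    rw [e3] at h10
    have : (2 * M / (L * r) + 1) * h = 2 * M / (L * r) * h + h := by ring
    rw [this]
    linarith

theorem supR_le (hu : UpperSemicontinuous u) {r : ℝ} (hr : 0 ≤ r) (z w : Cn n) :
    supB u r w ≤ supB u (r + ‖w - z‖) z := by
  obtain ⟨w', hw', he⟩ := supB_attained hu hr w
  rw [he]
  refine le_supB hu ?_
  have e : w' - z = (w' - w) + (w - z) := by abel
  rw [e]
  exact (norm_add_le _ _).trans (by linarith)

theorem supB_cont (hu : UpperSemicontinuous u) (hb : ∀ y, |u y| ≤ M) {R R' r : ℝ}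
    (hs : SubOn (ball 0 R) u) (hr : 0 < r) (hR : R' + r < R) :
    ContinuousOn (supB u r) (ball 0 R') := by
  obtain ⟨C, δ, hC, hδ, h⟩ := supR_lip hu hb hs hr hR
  rw [Metric.continuousOn_iff]
  intro z hz ε hε
  refine ⟨min δ (ε / (2 * C)), lt_min hδ (by positivity), fun w hw hwz => ?_⟩
  have h1 : ‖w - z‖ < min δ (ε / (2 * C)) := by rwa [dist_eq_norm] at hwz
  have h2 : ‖w - z‖ ≤ δ := (h1.trans_le (min_le_left _ _)).le
  have h3 : C * ‖w - z‖ < ε := by
    have h4 : ‖w - z‖ < ε / (2 * C) := h1.trans_le (min_le_right _ _)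
    have h5 : C * ‖w - z‖ ≤ C * (ε / (2 * C)) := mul_le_mul_of_nonneg_left h4.le hC.le
    have e : C * (ε / (2 * C)) = ε / 2 := by field_simp
    rw [e] at h5
    linarith
  have h6 := (supR_le hu hr.le z w).trans (h z hz _ (norm_nonneg _) h2)
  have h7 := supR_le hu hr.le w z
  rw [norm_sub_rev] at h7
  have h8 := h7.trans (h w hw _ (norm_nonneg _) h2)
  rw [Real.dist_eq, abs_lt]
  constructor <;> linarith

end HMA
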