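import Pool.Agent.H85.KW.LocX
import Pool.Agent.H85.KW.SupR

/-! # Module LUs: existence of the local potentials -/

open MeasureTheory Metric Set Filter
open scoped ENNReal Topology ContDiff ComplexOrder

namespace HMA

variable {n : ℕ} {X : Type} [TopologicalSpace X] (K : KM n X)

theorem lus_sub {Ω Ω' : Set (Cn n)} {u v : Cn n → ℝ} (hu : SubOn Ω u) (h' : Ω' ⊆ Ω)
    (h : ∀ z ∈ Ω', v z = u z) : SubOn Ω' v := by
  intro a b hab
  rw [h a (by simpa using hab 0 (by simp))]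
  refine (hu a b (fun ζ hζ => h' (hab ζ hζ))).trans (le_of_eq ?_)
  congr 1
  refine intervalIntegral.integral_congr fun θ _ => ?_
  exact (h _ (hab _ (by rw [Complex.norm_exp_ofReal_mul_I]))).symm

theorem KM.exists_LU {Φ : X → ℝ} (hΦ : PB K Φ) : ∃ (M : ℝ) (u : Fin K.N → Cn n → ℝ),
    0 < M ∧ LU K Φ M u := by
  classical
  obtain ⟨B, hB⟩ := hΦ.bdd
  have hsub : closedBall (0 : Cn n) (5 / 2) ⊆ ball 0 3 := closedBall_subset_ball (by norm_num)
  have hR : ∀ i, ∃ R : ℝ, ∀ z ∈ closedBall (0 : Cn n) (5 / 2), ‖K.ρ i z‖ ≤ R := fun i =>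
    (isCompact_closedBall (0 : Cn n) (5 / 2)).exists_bound_of_continuousOn
      ((K.ρ_smooth i).continuousOn.mono hsub)
  choose R hR using hR
  set M : ℝ := 1 + |B| + ∑ i, |R i| with hM
  have hsum0 : 0 ≤ ∑ i, |R i| := Finset.sum_nonneg fun i _ => abs_nonneg _
  have hM0 : 0 < M := by
    have := abs_nonneg B
    rw [hM]
    linarith
  have hRi : ∀ i, |R i| ≤ ∑ i, |R i| := fun i =>
    Finset.single_le_sum (f := fun i => |R i|) (fun j _ => abs_nonneg _) (Finset.mem_univ i)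
  have hbd : ∀ i, ∀ z : Cn n, ‖z‖ ≤ 5 / 2 → |K.ρ i z + Φ (K.κ i z)| ≤ M := by
    intro i z hz
    have h1 := hR i z (by rwa [mem_closedBall_zero_iff])
    rw [Real.norm_eq_abs] at h1
    have h2 := hB (K.κ i z)
    have h3 := abs_add_le (K.ρ i z) (Φ (K.κ i z))
    have h4 := le_abs_self (R i)
    have h5 := le_abs_self B
    have h6 := hRi i
    rw [hM]
    linarith
  set u : Fin K.N → Cn n → ℝ := fun i z =>
    if ‖z‖ ≤ 5 / 2 then K.ρ i z + Φ (K.κ i z) else -M with hu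
  have hu1 : ∀ i z, ‖z‖ ≤ 5 / 2 → u i z = K.ρ i z + Φ (K.κ i z) := by
    intro i z hz
    simp only [hu, if_pos hz]
  have hu2 : ∀ i z, ¬ ‖z‖ ≤ 5 / 2 → u i z = -M := by
    intro i z hz
    simp only [hu, if_neg hz]
  refine ⟨M, u, hM0, ?_, ?_, hu1, ?_⟩
  · intro i z
    by_cases hz : ‖z‖ ≤ 5 / 2
    · have hz3 : z ∈ ball (0 : Cn n) 3 := hsub (by rwa [mem_closedBall_zero_iff])
      have hn : ball (0 : Cn n) 3 ∈ 𝓝 z := isOpen_ball.mem_nhds hz3
      have hρ : ContinuousAt (K.ρ i) z := (K.ρ_smooth i).continuousOn.continuousAt hn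
      have hκ : ContinuousAt (K.κ i) z := (K.cont i).continuousAt hn
      intro y hy
      rw [hu1 i z hz] at hy
      set e : ℝ := (y - (K.ρ i z + Φ (K.κ i z))) / 2 with he
      have he0 : 0 < e := by rw [he]; linarith
      have h1 : ∀ᶠ w in 𝓝 z, K.ρ i w < K.ρ i z + e :=
        hρ.eventually (gt_mem_nhds (by linarith))
      have h2 : ∀ᶠ w in 𝓝 z, Φ (K.κ i w) < Φ (K.κ i z) + e :=
        hκ.eventually (hΦ.usc (K.κ i z) _ (by linarith))
      filter_upwards [h1, h2] with w h3 h4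
      by_cases hw : ‖w‖ ≤ 5 / 2
      · rw [hu1 i w hw]
        rw [he] at h3 h4
        linarith
      · rw [hu2 i w hw]
        have h5 := (abs_le.1 (hbd i z hz)).1
        linarith
    · intro y hy
      rw [hu2 i z hz] at hy
      have h1 : ∀ᶠ w in 𝓝 z, 5 / 2 < ‖w‖ :=
        continuous_norm.continuousAt.eventually (lt_mem_nhds (not_le.1 hz))
      filter_upwards [h1] with w hw
      rw [hu2 i w (not_le.2 hw)]
      exact hy
  · intro i z
    by_cases hz : ‖z‖ ≤ 5 / 2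
    · rw [hu1 i z hz]
      exact hbd i z hz
    · rw [hu2 i z hz, abs_neg, abs_of_pos hM0]
  · intro i
    refine lus_sub (hΦ.sub i) (ball_subset_ball (by norm_num)) ?_
    intro z hz
    exact hu1 i z (by rw [mem_ball_zero_iff] at hz; exact hz.le)

theorem md_bdd [Nonempty X] {Φ : X → ℝ} {M : ℝ} {u : Fin K.N → Cn n → ℝ} (hu : LU K Φ M u) {r : ℝ}
    (hr : 0 ≤ r) : (∀ i z, ‖z‖ ≤ 7 / 4 → supB (u i) r z - u i z ≤ md u r) ∧ 0 ≤ md u r ∧
      md u r ≤ 2 * M := by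
  have h1 : ∀ t ∈ {t | ∃ (i : Fin K.N) (z : Cn n), ‖z‖ ≤ 7 / 4 ∧ supB (u i) r z - u i z = t},
      t ≤ 2 * M := by
    rintro t ⟨i, z, hz, rfl⟩
    have h2 := (abs_le.1 (supB_bdd (hu.usc i) (hu.bdd i) hr z)).2
    have h3 := (abs_le.1 (hu.bdd i z)).1
    linarith
  have h4 : ∀ i z, ‖z‖ ≤ 7 / 4 → supB (u i) r z - u i z ≤ md u r := fun i z hz =>
    le_csSup ⟨2 * M, h1⟩ ⟨i, z, hz, rfl⟩
  obtain ⟨i, -⟩ := K.cover (Classical.arbitrary X)
  refine ⟨h4, ?_, csSup_le ⟨_, i, 0, by rw [norm_zero]; norm_num, rfl⟩ h1⟩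
  refine le_trans ?_ (h4 i 0 (by rw [norm_zero]; norm_num))
  rw [sub_nonneg]
  unfold supB
  refine le_csSup ⟨M, ?_⟩ ⟨0, mem_closedBall_self hr, rfl⟩
  rintro _ ⟨y, _, rfl⟩
  exact (abs_le.1 (hu.bdd i y)).2

end HMA
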