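import Pool.Agent.H85.KW.GlueC
import Pool.Agent.H85.KW.CutR
import Pool.Agent.H85.KW.LUs

/-! # Module Glue2: glueing of the local regularisations -/

open MeasureTheory Metric Set Filter
open scoped ENNReal Topology ContDiff ComplexOrder

namespace HMA

variable {n : ℕ} {X : Type} [TopologicalSpace X] (K : KM n X)

open Classical in
/-- a function in the chart `i`, near the ball of radius `7/4`, extended by a constant -/
noncomputable def Glue2_g (i : Fin K.N) (f : Cn n → ℝ) (L : ℝ) (x : X) : ℝ :=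
  if x ∈ K.κ i '' ball 0 (7 / 4) then f (Function.invFunOn (K.κ i) (ball 0 3) x) else -L

theorem Glue2_g_in (i : Fin K.N) (f : Cn n → ℝ) (L : ℝ) {z : Cn n}
    (hz : z ∈ ball (0 : Cn n) (7 / 4)) : Glue2_g K i f L (K.κ i z) = f z := by
  have h3 : z ∈ ball (0 : Cn n) 3 := ball_subset_ball (by norm_num) hz
  rw [Glue2_g, if_pos ⟨z, hz, rfl⟩, (K.injOn i).leftInvOn_invFunOn h3]

theorem Glue2_g_out (i : Fin K.N) (f : Cn n → ℝ) (L : ℝ) {x : X}
    (hx : x ∉ K.κ i '' ball 0 (7 / 4)) : Glue2_g K i f L x = -L := by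
  rw [Glue2_g, if_neg hx]

theorem Glue2_LC (i : Fin K.N) (f : Cn n → ℝ) (L : ℝ)
    (hc : ContinuousOn f (ball (0 : Cn n) (7 / 4)))
    (hs : SubOn (ball (0 : Cn n) (7 / 4)) (fun y => K.ρ i y + f y)) (k : Fin K.N) (z : Cn n)
    (hz : z ∈ ball (0 : Cn n) 3) (hx : K.κ k z ∈ K.κ i '' ball 0 (7 / 4)) :
    LC K (Glue2_g K i f L) k z := by
  obtain ⟨y, hy, hyz⟩ := hx
  have hy3 : y ∈ ball (0 : Cn n) 3 := ball_subset_ball (by norm_num) hy
  have h1 : LC K (Glue2_g K i f L) i y := by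
    obtain ⟨r, hr, hsub⟩ := Metric.isOpen_iff.1 (isOpen_ball (x := (0 : Cn n)) (ε := 7 / 4)) y hy
    refine ⟨r, hr, hsub.trans (ball_subset_ball (by norm_num)), ?_, ?_⟩
    · exact (hc.mono hsub).congr fun w hw => Glue2_g_in K i f L (hsub hw)
    · exact kw_sub_congr (kw_sub_mono hs hsub) fun w hw => by
        rw [Glue2_g_in K i f L (hsub hw)]
  exact h1.change K hy3 hz hyz.symm

theorem Glue2_rho_bdd : ∃ B : ℝ, 0 ≤ B ∧ ∀ (i : Fin K.N) (z : Cn n), ‖z‖ ≤ 7 / 4 →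
    |K.ρ i z| ≤ B := by
  have h : ∀ i : Fin K.N, ∃ C : ℝ, ∀ z : Cn n, ‖z‖ ≤ 7 / 4 → |K.ρ i z| ≤ C := by
    intro i
    have hsub : closedBall (0 : Cn n) (7 / 4) ⊆ ball 0 3 := closedBall_subset_ball (by norm_num)
    obtain ⟨C, hC⟩ := (isCompact_closedBall (0 : Cn n) (7 / 4)).exists_bound_of_continuousOn
      ((K.ρ_smooth i).continuousOn.mono hsub)
    exact ⟨C, fun z hz => hC z (mem_closedBall_zero_iff.2 hz)⟩
  choose C hC using h
  refine ⟨∑ i, |C i|, Finset.sum_nonneg fun i _ => abs_nonneg _, fun i z hz => ?_⟩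
  exact (hC i z hz).trans ((le_abs_self _).trans
    (Finset.single_le_sum (f := fun i => |C i|) (fun i _ => abs_nonneg _) (Finset.mem_univ i)))

theorem KM.glue_sup [CompactSpace X] [T2Space X] [Nonempty X] {Φ : X → ℝ} {M : ℝ}
    {u : Fin K.N → Cn n → ℝ} (hu : LU K Φ M u) : ∃ c₁ B₂ r₁ : ℝ, 0 < c₁ ∧ 0 < B₂ ∧ 0 < r₁ ∧
      ∀ r D : ℝ, 0 < r → r ≤ r₁ → 0 ≤ D → c₁ * (2 * D + r) ≤ 1 →
      (∀ (i j : Fin K.N) (z w : Cn n), ‖z‖ ≤ 7 / 4 → ‖w‖ ≤ 7 / 4 → K.κ i z = K.κ j w →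
        |(supB (u i) r z - K.ρ i z) - (supB (u j) r w - K.ρ j w)| ≤ D) →
      ∃ G : X → ℝ, PC K G ∧ (∀ x, |G x| ≤ B₂) ∧
        (∀ i z, ‖z‖ ≤ 7 / 4 → supB (u i) r z - K.ρ i z ≤
          G (K.κ i z) + D + B₂ * (c₁ * (2 * D + r))) ∧
        ∀ i z, ‖z‖ ≤ 1 → G (K.κ i z) ≤
          supB (u i) r z - K.ρ i z + D + B₂ * (c₁ * (2 * D + r)) := by
  obtain ⟨a, c₀, hc₀, ha, ha01, ha0, ha1, hcut⟩ := K.exists_cut
  obtain ⟨Bρ, hBρ0, hBρ⟩ := Glue2_rho_bdd K
  have hM0 : 0 ≤ M := by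
    obtain ⟨x⟩ := ‹Nonempty X›
    obtain ⟨i, -⟩ := K.cover x
    exact (abs_nonneg _).trans (hu.bdd i 0)
  refine ⟨1 / c₀, M + Bρ + 1, 1 / 2, by positivity, by positivity, by norm_num, ?_⟩
  intro r D hr hr1 hD hκ1 hcmp
  set lam : ℝ := 2 * D + r with hlam
  set κ : ℝ := 1 / c₀ * lam with hκ
  have hlam0 : 0 < lam := by positivity
  have hκ0 : 0 ≤ κ := by positivity
  have hκlam : κ * c₀ = lam := by
    rw [hκ]
    field_simp
  -- the difference of the regularisation and the potential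
  have hpr : ∀ (i : Fin K.N) (z : Cn n), ‖z‖ ≤ 7 / 4 → |supB (u i) r z - K.ρ i z| ≤ M + Bρ := by
    intro i z hz
    have h1 := supB_bdd (hu.usc i) (hu.bdd i) hr.le z
    have h2 := hBρ i z hz
    have h3 := abs_sub (supB (u i) r z) (K.ρ i z)
    linarith
  let f : Fin K.N → Cn n → ℝ := fun i z =>
    (1 - κ) * (supB (u i) r z - K.ρ i z) - lam * a z
  have hsubset : ball (0 : Cn n) (7 / 4) ⊆ ball 0 3 := ball_subset_ball (by norm_num)
  have hρc : ∀ i, ContinuousOn (K.ρ i) (ball (0 : Cn n) (7 / 4)) := fun i =>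
    (K.ρ_smooth i).continuousOn.mono hsubset
  have hsc : ∀ i, ContinuousOn (supB (u i) r) (ball (0 : Cn n) (7 / 4)) := fun i =>
    supB_cont (hu.usc i) (hu.bdd i) (R := 5 / 2) (hu.sub i) hr (by linarith)
  have hac : ContinuousOn a (ball (0 : Cn n) (7 / 4)) := ha.continuous.continuousOn
  have hfc : ∀ i, ContinuousOn (f i) (ball (0 : Cn n) (7 / 4)) := fun i =>
    (((hsc i).sub (hρc i)).const_mul _ |>.sub (hac.const_mul _))
  have hfs : ∀ i, SubOn (ball (0 : Cn n) (7 / 4)) (fun y => K.ρ i y + f i y) := by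
    intro i
    have h1 : SubOn (ball (0 : Cn n) (7 / 4)) (supB (u i) r) := by
      refine supB_sub (hu.usc i) (hu.bdd i) (hu.sub i) hr.le fun z hz => ?_
      intro y hy
      rw [mem_ball_zero_iff] at hz ⊢
      rw [mem_closedBall, dist_eq_norm] at hy
      have : ‖y‖ ≤ ‖y - z‖ + ‖z‖ := by
        have := norm_add_le (y - z) z
        rwa [sub_add_cancel] at this
      linarith
    have h2 : SubOn (ball (0 : Cn n) (7 / 4)) (fun z => K.ρ i z + (-c₀) * a z) := by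
      refine kw_sub_mono (hcut i (-c₀) ?_) (ball_subset_ball (by norm_num))
      rw [abs_neg, abs_of_pos hc₀]
    have h3 := kw_sub_add (kw_sub_mul h1 (show 0 ≤ 1 - κ by linarith)) (kw_sub_mul h2 hκ0)
      ((hsc i).const_mul _) (((hρc i).add (hac.const_mul _)).const_mul _)
    refine kw_sub_congr h3 fun z _ => ?_
    simp only [f]
    rw [← hκlam]
    ring
  let g : Fin K.N → X → ℝ := fun i => Glue2_g K i (f i) (M + Bρ + 1)
  have hgin : ∀ i (z : Cn n), ‖z‖ < 7 / 4 → g i (K.κ i z) =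
      (1 - κ) * (supB (u i) r z - K.ρ i z) - lam * a z := fun i z hz =>
    Glue2_g_in K i (f i) _ (mem_ball_zero_iff.2 hz)
  -- lower bound by the functions near the centre
  have hlow : ∀ x : X, ∃ (j : Fin K.N) (w : Cn n), ‖w‖ < 1 ∧ K.κ j w = x ∧
      g j x = (1 - κ) * (supB (u j) r w - K.ρ j w) ∧ -(M + Bρ) ≤ g j x := by
    intro x
    obtain ⟨j, w, hw, hwx⟩ := K.cover x
    have hw1 : ‖w‖ < 1 := mem_ball_zero_iff.1 hw
    have h1 : g j x = (1 - κ) * (supB (u j) r w - K.ρ j w) := by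
      rw [← hwx, hgin j w (by linarith), ha0 w hw1.le, mul_zero, sub_zero]
    refine ⟨j, w, hw1, hwx, h1, ?_⟩
    rw [h1]
    have h2 := abs_le.1 (hpr j w (by linarith))
    have h3 : 0 ≤ 1 - κ := by linarith
    have h4 : (1 - κ) * (-(M + Bρ)) ≤ (1 - κ) * (supB (u j) r w - K.ρ j w) :=
      mul_le_mul_of_nonneg_left h2.1 h3
    nlinarith
  obtain ⟨G, hG, hGx⟩ := K.glue_pc g (fun i => K.κ i '' ball 0 (7 / 4))
    (fun i => K.isOpen_image i _ hsubset isOpen_ball)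
    (fun i k z hz hx => Glue2_LC K i (f i) _ (hfc i) (hfs i) k z hz hx) (by
      intro i x hx
      have hcl : IsClosed (K.κ i '' closedBall 0 (3 / 2)) := by
        refine ((isCompact_closedBall (0 : Cn n) (3 / 2)).image_of_continuousOn
          ((K.cont i).mono ?_)).isClosed
        exact closedBall_subset_ball (by norm_num)
      have hxn : x ∉ K.κ i '' closedBall 0 (3 / 2) := fun h =>
        hx (image_mono (closedBall_subset_ball (by norm_num)) h)
      filter_upwards [hcl.isOpen_compl.mem_nhds hxn] with y hy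
      obtain ⟨j, w, hw, hwy, hgj, hgl⟩ := hlow y
      refine ⟨j, ?_⟩
      by_cases hyO : y ∈ K.κ i '' ball 0 (7 / 4)
      · obtain ⟨z, hz, hzy⟩ := hyO
        rw [mem_ball_zero_iff] at hz
        have hz2 : 3 / 2 < ‖z‖ := by
          by_contra hcon
          exact hy ⟨z, mem_closedBall_zero_iff.2 (not_lt.1 hcon), hzy⟩
        have h1 : g i y = (1 - κ) * (supB (u i) r z - K.ρ i z) - lam := by
          rw [← hzy, hgin i z hz, ha1 z hz2.le, mul_one]
        rw [h1, hgj]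
        have h2 := (abs_le.1 (hcmp i j z w hz.le (by linarith) (hzy.trans hwy.symm))).2
        have h3 : 0 ≤ 1 - κ := by linarith
        have h4 := mul_le_mul_of_nonneg_left h2 h3
        nlinarith
      · have h1 : g i y = -(M + Bρ + 1) := Glue2_g_out K i (f i) _ hyO
        rw [h1]
        linarith)
  -- the value of `G`
  have hGval : ∀ x : X, ∃ (j : Fin K.N) (w : Cn n), ‖w‖ < 7 / 4 ∧ K.κ j w = x ∧
      G x = (1 - κ) * (supB (u j) r w - K.ρ j w) - lam * a w := by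
    intro x
    obtain ⟨j, w, -, -, -, hgl⟩ := hlow x
    obtain ⟨i, hi⟩ := (hGx x).2
    have h1 := (hGx x).1 j
    by_cases hxO : x ∈ K.κ i '' ball 0 (7 / 4)
    · obtain ⟨z, hz, hzx⟩ := hxO
      rw [mem_ball_zero_iff] at hz
      refine ⟨i, z, hz, hzx, ?_⟩
      rw [hi, ← hzx, hgin i z hz]
    · exfalso
      have h2 : g i x = -(M + Bρ + 1) := Glue2_g_out K i (f i) _ hxO
      linarith
  refine ⟨G, hG, ?_, ?_, ?_⟩
  · intro x
    obtain ⟨j, w, hw, -, -, hgl⟩ := hlow x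
    have h1 := (hGx x).1 j
    obtain ⟨i, z, hz, -, hGe⟩ := hGval x
    have h2 := (abs_le.1 (hpr i z hz.le)).2
    have h3 : 0 ≤ 1 - κ := by linarith
    have h4 := mul_le_mul_of_nonneg_left h2 h3
    have h5 : 0 ≤ lam * a z := mul_nonneg hlam0.le (ha01 z).1
    have h6 : (1 - κ) * (M + Bρ) ≤ M + Bρ := by nlinarith
    rw [abs_le]
    constructor
    · linarith
    · rw [hGe]
      linarith
  · intro i z hz
    obtain ⟨j, w, hw, hwx, hgj, -⟩ := hlow (K.κ i z)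
    have h1 := (hGx (K.κ i z)).1 j
    rw [hgj] at h1
    have h2 := (abs_le.1 (hcmp i j z w hz (by linarith) hwx.symm)).2
    have h3 := (abs_le.1 (hpr j w (by linarith))).2
    have h4 : κ * (supB (u j) r w - K.ρ j w) ≤ κ * (M + Bρ) := mul_le_mul_of_nonneg_left h3 hκ0
    nlinarith
  · intro i z hz
    obtain ⟨j, w, hw, hwx, hGe⟩ := hGval (K.κ i z)
    rw [hGe]
    have h2 := (abs_le.1 (hcmp i j z w (by linarith) hw.le hwx.symm)).1
    have h3 := (abs_le.1 (hpr j w hw.le)).1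
    have h4 : κ * (-(M + Bρ)) ≤ κ * (supB (u j) r w - K.ρ j w) := mul_le_mul_of_nonneg_left h3 hκ0
    have h5 : 0 ≤ lam * a w := mul_nonneg hlam0.le (ha01 w).1
    nlinarith

end HMA
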