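import Pool.Agent.H85.KW.LocX

/-! # Module GlueC: glueing with the maximum -/

open MeasureTheory Metric Set Filter
open scoped ENNReal Topology ContDiff ComplexOrder

namespace HMA

variable {n : ℕ} {X : Type} [TopologicalSpace X] (K : KM n X)

theorem gluec_max {N : ℕ} (hN : (Finset.univ : Finset (Fin N)).Nonempty) (f : Fin N → ℝ)
    (I : Finset (Fin N)) (hI : ∀ i, i ∉ I → ∃ j, f i < f j) :
    ∃ h : I.Nonempty, Finset.univ.sup' hN f = I.sup' h f := by
  obtain ⟨i, -, hi⟩ := Finset.exists_mem_eq_sup' hN f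
  have hiI : i ∈ I := by
    by_contra hcon
    obtain ⟨j, hj⟩ := hI i hcon
    have h1 := Finset.le_sup' f (Finset.mem_univ j)
    rw [hi] at h1
    exact absurd hj (not_lt.2 h1)
  refine ⟨⟨i, hiI⟩, le_antisymm ?_ ?_⟩
  · rw [hi]
    exact Finset.le_sup' f hiI
  · exact Finset.sup'_le _ _ fun j _ => Finset.le_sup' f (Finset.mem_univ j)

theorem gluec_mono {Ω Ω' : Set (Cn n)} {u : Cn n → ℝ} (h : SubOn Ω u) (hΩ : Ω' ⊆ Ω) :
    SubOn Ω' u := fun a b hab => h a b fun ζ hζ => hΩ (hab ζ hζ)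

theorem gluec_circle {Ω : Set (Cn n)} {u : Cn n → ℝ} (hu : ContinuousOn u Ω) {a b : Cn n}
    (hab : ∀ ζ : ℂ, ‖ζ‖ ≤ 1 → a + ζ • b ∈ Ω) :
    IntervalIntegrable (fun θ : ℝ => u (a + Complex.exp (θ * Complex.I) • b)) volume
      0 (2 * Real.pi) := by
  refine Continuous.intervalIntegrable ?_ _ _
  refine hu.comp_continuous (by fun_prop) fun θ => hab _ ?_
  rw [Complex.norm_exp_ofReal_mul_I]

/-- the maximum of finitely many continuous subharmonic functions -/
theorem gluec_sub {Ω : Set (Cn n)} {u : Cn n → ℝ} (hu : ContinuousOn u Ω)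
    (h : ∀ a ∈ Ω, ∃ v : Cn n → ℝ, ContinuousOn v Ω ∧ SubOn Ω v ∧ (∀ z ∈ Ω, v z ≤ u z) ∧
      v a = u a) : SubOn Ω u := by
  intro a b hab
  have ha : a ∈ Ω := by
    have h1 := hab 0 (by simp)
    rwa [zero_smul, add_zero] at h1
  obtain ⟨v, hvc, hvs, hvu, hva⟩ := h a ha
  rw [← hva]
  refine (hvs a b hab).trans ?_
  refine mul_le_mul_of_nonneg_left ?_ (by positivity)
  refine intervalIntegral.integral_mono (by positivity) (gluec_circle hvc hab)
    (gluec_circle hu hab) fun θ => ?_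
  refine hvu _ (hab _ ?_)
  rw [Complex.norm_exp_ofReal_mul_I]

theorem gluec_LC (w : Fin K.N → X → ℝ) (hN : (Finset.univ : Finset (Fin K.N)).Nonempty)
    (I : Finset (Fin K.N)) (k : Fin K.N) (z : Cn n) (hz : z ∈ ball (0 : Cn n) 3)
    (hI : ∀ i ∈ I, LC K (w i) k z)
    (hnear : ∀ᶠ y in 𝓝 (K.κ k z), ∀ i, i ∉ I → ∃ j, w i y < w j y) :
    LC K (fun x => Finset.univ.sup' hN fun i => w i x) k z := by
  have hκ : ContinuousAt (K.κ k) z := (K.cont k).continuousAt (isOpen_ball.mem_nhds hz)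
  obtain ⟨r', hr', hball⟩ := Metric.eventually_nhds_iff_ball.1 (hκ.eventually hnear)
  have hex : ∀ i, ∃ r : ℝ, 0 < r ∧ (i ∈ I → ball z r ⊆ ball 0 3 ∧
      ContinuousOn (fun y => w i (K.κ k y)) (ball z r) ∧
      SubOn (ball z r) (fun y => K.ρ k y + w i (K.κ k y))) := by
    intro i
    by_cases hi : i ∈ I
    · obtain ⟨r, h0, h1, h2, h3⟩ := hI i hi
      exact ⟨r, h0, fun _ => ⟨h1, h2, h3⟩⟩
    · exact ⟨1, one_pos, fun h => absurd h hi⟩
  choose r hr0 hr using hex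
  obtain ⟨R, hR⟩ : ∃ R : ℝ, R = min r' (Finset.univ.inf' hN r) := ⟨_, rfl⟩
  have hR0 : 0 < R := by
    rw [hR]
    exact lt_min hr' ((Finset.lt_inf'_iff _).2 fun i _ => hr0 i)
  have hRr' : ball z R ⊆ ball z r' := ball_subset_ball (by rw [hR]; exact min_le_left _ _)
  have hRr : ∀ i, ball z R ⊆ ball z (r i) := fun i => ball_subset_ball (by
    rw [hR]
    exact (min_le_right _ _).trans (Finset.inf'_le _ (Finset.mem_univ i)))
  have hnear' : ∀ y ∈ ball z R, ∀ i, i ∉ I → ∃ j, w i (K.κ k y) < w j (K.κ k y) :=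
    fun y hy => hball y (hRr' hy)
  obtain ⟨hIne, -⟩ := gluec_max hN (fun i => w i (K.κ k z)) I (hnear' z (mem_ball_self hR0))
  have hsub3 : ball z R ⊆ ball 0 3 := by
    obtain ⟨i, hi⟩ := hIne
    exact (hRr i).trans (hr i hi).1
  have hcI : ∀ i ∈ I, ContinuousOn (fun y => w i (K.κ k y)) (ball z R) :=
    fun i hi => (hr i hi).2.1.mono (hRr i)
  have heq : ∀ y ∈ ball z R, (Finset.univ.sup' hN fun i => w i (K.κ k y)) =
      I.sup' hIne fun i => w i (K.κ k y) := by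
    intro y hy
    obtain ⟨_, h2⟩ := gluec_max hN (fun i => w i (K.κ k y)) I (hnear' y hy)
    exact h2
  have hcont : ContinuousOn (fun y => Finset.univ.sup' hN fun i => w i (K.κ k y))
      (ball z R) := by
    have h1 : ContinuousOn (fun y => I.sup' hIne fun i => w i (K.κ k y)) (ball z R) := by
      have := ContinuousOn.finset_sup'_apply hIne (f := fun i y => w i (K.κ k y)) hcI
      exact this
    exact h1.congr heq
  have hρ : ContinuousOn (K.ρ k) (ball z R) := ((K.ρ_smooth k).continuousOn).mono hsub3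
  refine ⟨R, hR0, hsub3, hcont, gluec_sub (hρ.add hcont) fun a ha => ?_⟩
  obtain ⟨i, hi, hia⟩ := Finset.exists_mem_eq_sup' hIne fun i => w i (K.κ k a)
  refine ⟨fun y => K.ρ k y + w i (K.κ k y), hρ.add (hcI i hi),
    gluec_mono (hr i hi).2.2 (hRr i), fun y _ => ?_, ?_⟩
  · exact add_le_add le_rfl (Finset.le_sup' (fun i => w i (K.κ k y)) (Finset.mem_univ i))
  · show K.ρ k a + w i (K.κ k a) = K.ρ k a + Finset.univ.sup' hN fun i => w i (K.κ k a)
    rw [heq a ha, hia]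

theorem KM.glue_pc [Nonempty X] (w : Fin K.N → X → ℝ) (O : Fin K.N → Set X)
    (hO : ∀ i, IsOpen (O i))
    (h : ∀ i k, ∀ z ∈ ball (0 : Cn n) 3, K.κ k z ∈ O i → LC K (w i) k z)
    (hd : ∀ i, ∀ x, x ∉ O i → ∀ᶠ y in 𝓝 x, ∃ j, w i y < w j y) :
    ∃ φ : X → ℝ, PC K φ ∧ ∀ x, (∀ i, w i x ≤ φ x) ∧ ∃ i, φ x = w i x := by
  classical
  have hN : (Finset.univ : Finset (Fin K.N)).Nonempty := by
    obtain ⟨x⟩ := ‹Nonempty X›
    obtain ⟨i, _⟩ := K.cover x
    exact ⟨i, Finset.mem_univ i⟩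
  refine ⟨fun x => Finset.univ.sup' hN fun i => w i x, pc_of_LC K fun x => ?_,
    fun x => ⟨fun i => Finset.le_sup' (fun i => w i x) (Finset.mem_univ i), ?_⟩⟩
  · obtain ⟨k, z, hz1, hzx⟩ := K.cover x
    have hz : z ∈ ball (0 : Cn n) 3 := ball_subset_ball (by norm_num) hz1
    refine ⟨k, z, hz, hzx, gluec_LC K w hN (Finset.univ.filter fun i => x ∈ O i) k z hz ?_ ?_⟩
    · intro i hi
      exact h i k z hz (by rw [hzx]; exact (Finset.mem_filter.1 hi).2)
    · rw [hzx]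
      refine eventually_all.2 fun i => ?_
      by_cases hi : x ∈ O i
      · have hi' : i ∈ Finset.univ.filter fun i => x ∈ O i :=
          Finset.mem_filter.2 ⟨Finset.mem_univ i, hi⟩
        exact Eventually.of_forall fun y hy => absurd hi' hy
      · exact (hd i x hi).mono fun y hy _ => hy
  · obtain ⟨i, _, hi⟩ := Finset.exists_mem_eq_sup' hN fun i => w i x
    exact ⟨i, hi⟩

end HMA
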