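import Pool.Agent.H85.KW.RegMax
import Pool.Agent.H85.KW.LocX

/-! # Module GlueW: glueing with the regularised maximum -/

open MeasureTheory Metric Set Filter
open scoped ENNReal Topology ContDiff ComplexOrder

namespace HMA

variable {n : ℕ} {X : Type} [TopologicalSpace X] (K : KM n X)

/-- the potentials are `SubOn`, also after adding a constant -/
theorem gluew_const (k : Fin K.N) (c : ℝ) {z : Cn n} {r : ℝ} (hb : ball z r ⊆ ball (0 : Cn n) 3) :
    SubOn (ball z r) (fun y => K.ρ k y + c) := by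
  have h1 : SubOn (ball z r) (K.ρ k) :=
    smooth_sub isOpen_ball ((K.ρ_smooth k).mono hb) fun y hy ξ => by
      by_cases hξ : ξ = 0
      · rw [hξ]
        unfold lev
        simp
      · exact (K.ρ_pos k y (hb hy) ξ hξ).le
  have hc : ContinuousOn (K.ρ k) (ball z r) := (K.ρ_smooth k).continuousOn.mono hb
  refine kw_sub_add_const h1 hc.upperSemicontinuousOn (fun L hL hLc => ?_) c
  obtain ⟨M, hM⟩ := (hLc.image_of_continuousOn (hc.mono hL)).bddBelow
  refine ⟨-M, fun z hz => ?_⟩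
  rw [neg_neg]
  exact hM (mem_image_of_mem _ hz)

/-- the local statement -/
theorem gluew_local {M : (Fin K.N → ℝ) → ℝ} (hM : ContDiff ℝ ∞ M) (hMc : ConvexOn ℝ univ M)
    (hMm : Monotone M) (hMt : ∀ t c, M (fun i => t i + c) = M t + c)
    (w : Fin K.N → X → ℝ) (I : Fin K.N → Prop) [DecidablePred I] (c : ℝ) {k : Fin K.N}
    {z : Cn n} (hz : z ∈ ball (0 : Cn n) 3) (hI : ∀ i, I i → LW K (w i) k z) :
    LW K (fun y => M (fun i => if I i then w i y else c)) k z := by
  have hex : ∃ R : Fin K.N → ℝ, ∀ i, 0 < R i ∧ ball z (R i) ⊆ ball (0 : Cn n) 3 ∧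
      (I i → C11 (ball z (R i)) (fun y => w i (K.κ k y)) ∧
        SubOn (ball z (R i)) (fun y => K.ρ k y + w i (K.κ k y))) := by
    refine Classical.axiom_of_choice (r := fun i R => 0 < R ∧ ball z R ⊆ ball (0 : Cn n) 3 ∧
      (I i → C11 (ball z R) (fun y => w i (K.κ k y)) ∧
        SubOn (ball z R) (fun y => K.ρ k y + w i (K.κ k y)))) fun i => ?_
    by_cases hi : I i
    · obtain ⟨r, hr, hb, h1, h2⟩ := hI i hi
      exact ⟨r, hr, hb, fun _ => ⟨h1, h2⟩⟩
    · obtain ⟨r, hr, hb⟩ := Metric.isOpen_iff.1 (isOpen_ball (x := (0 : Cn n)) (ε := 3)) z hz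
      exact ⟨r, hr, hb, fun h => absurd h hi⟩
  obtain ⟨R, hR⟩ := hex
  have : Nonempty (Fin K.N) := ⟨k⟩
  obtain ⟨i₀, hi₀⟩ := Finite.exists_min R
  set r : ℝ := R i₀ with hr
  have hr0 : 0 < r := (hR i₀).1
  have hb : ball z r ⊆ ball (0 : Cn n) 3 := (hR i₀).2.1
  have hsub : ∀ i, ball z r ⊆ ball z (R i) := fun i => ball_subset_ball (hi₀ i)
  have hκ : ContinuousOn (K.κ k) (ball z r) := (K.cont k).mono hb
  have hc11 : ∀ i, C11 (ball z r) (fun y => if I i then w i (K.κ k y) else c) := by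
    intro i
    by_cases hi : I i
    · simp only [if_pos hi]
      exact ((hR i).2.2 hi).1.mono (hsub i)
    · simp only [if_neg hi]
      exact c11_of_contDiffOn isOpen_ball contDiffOn_const
  have hρ11 : C11 (ball z r) (K.ρ k) := (KM.ρ_c11 K k).mono hb
  refine ⟨r, hr0, hb, kw_c11_pi isOpen_ball hc11 hM, ?_⟩
  have hsum : ∀ i, C11 (ball z r) (fun y => K.ρ k y + (if I i then w i (K.κ k y) else c)) :=
    fun i => hρ11.add isOpen_ball (hc11 i)
  have h1 := kw_sub_convex (Ω := ball z r)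
    (w := fun i y => K.ρ k y + (if I i then w i (K.κ k y) else c))
    (fun i => (hsum i).continuousOn) (fun i => by
      by_cases hi : I i
      · simp only [if_pos hi]
        exact kw_sub_mono ((hR i).2.2 hi).2 (hsub i)
      · simp only [if_neg hi]
        exact gluew_const K k c hb) hM.continuous hMc hMm
  refine kw_sub_congr h1 fun y _ => ?_
  have h2 := hMt (fun i => if I i then w i (K.κ k y) else c) (K.ρ k y)
  have h3 : (fun i => K.ρ k y + (if I i then w i (K.κ k y) else c)) =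
      fun i => (if I i then w i (K.κ k y) else c) + K.ρ k y := by
    funext i
    exact add_comm _ _
  simp only [h3]
  rw [h2]
  exact add_comm _ _

theorem KM.glue_wk [Nonempty X] (w : Fin K.N → X → ℝ) (O : Fin K.N → Set X)
    (hO : ∀ i, IsOpen (O i))
    (h : ∀ i k, ∀ z ∈ ball (0 : Cn n) 3, K.κ k z ∈ O i → LW K (w i) k z) {η : ℝ} (hη : 0 < η)
    (hd : ∀ i, ∀ x, x ∉ O i → ∀ᶠ y in 𝓝 x, ∃ j, w i y ≤ w j y - 2 * η) :
    ∃ ψ : X → ℝ, WK K ψ ∧ ∀ x, (∀ i, w i x ≤ ψ x) ∧ ∃ i, ψ x ≤ w i x + η := by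
  classical
  obtain ⟨x₁⟩ := (inferInstance : Nonempty X)
  obtain ⟨i₁, _⟩ := K.cover x₁
  have : Nonempty (Fin K.N) := ⟨i₁⟩
  have hN : 1 ≤ K.N := Nat.one_le_iff_ne_zero.2 (fun h0 => by
    have := i₁.2
    omega)
  obtain ⟨M, hM, hMc, hMm, hle, hge, hMt, hloc⟩ := exists_regmax K.N hN hη
  refine ⟨fun x => M (fun i => w i x), ?_, ?_⟩
  · refine wk_of_LW K fun x => ?_
    obtain ⟨k, z, hz1, hzx⟩ := K.cover x
    have hz : z ∈ ball (0 : Cn n) 3 := ball_subset_ball (by norm_num) hz1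
    refine ⟨k, z, hz, hzx, ?_⟩
    -- the index of the maximum
    have hmax : ∀ y, ∃ j, ∀ i, w i y ≤ w j y := fun y => Finite.exists_max (fun i => w i y)
    -- near x
    have hev : ∀ᶠ y in 𝓝 x, ∀ i, x ∉ O i → ∃ j, w i y ≤ w j y - 2 * η := by
      rw [Filter.eventually_all]
      intro i
      by_cases hi : x ∈ O i
      · exact Filter.Eventually.of_forall fun y hn => absurd hi hn
      · filter_upwards [hd i x hi] with y hy _ using hy
    have hstar : ∀ y, (∀ i, x ∉ O i → ∃ j, w i y ≤ w j y - 2 * η) → ∀ j, (∀ i, w i y ≤ w j y) →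
        x ∈ O j ∧ ∀ i, x ∉ O i → w i y ≤ w j y - 2 * η := by
      intro y hy j hj
      constructor
      · by_contra hcon
        obtain ⟨j', hj'⟩ := hy j hcon
        have := hj j'
        linarith
      · intro i hi
        obtain ⟨j', hj'⟩ := hy i hi
        have := hj j'
        linarith
    obtain ⟨j₀, hj₀⟩ := hmax x
    have hj₀O : x ∈ O j₀ := (hstar x hev.self_of_nhds j₀ hj₀).1
    set c : ℝ := w j₀ x - 1 - 2 * η with hc
    -- continuity of w j₀
    have hcont : ∀ᶠ y in 𝓝 x, w j₀ x - 1 < w j₀ y := by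
      obtain ⟨r, hr, hb, h1, _⟩ := h j₀ k z hz (by rw [hzx]; exact hj₀O)
      have h2 : ContinuousOn (fun y => w j₀ (K.κ k y)) (ball z r) := h1.continuousOn
      have h3 : IsOpen (ball z r ∩ (fun y => w j₀ (K.κ k y)) ⁻¹' Ioi (w j₀ x - 1)) :=
        h2.isOpen_inter_preimage isOpen_ball isOpen_Ioi
      have h4 := K.isOpen_image k _ (inter_subset_left.trans hb) h3
      have h5 : x ∈ K.κ k '' (ball z r ∩ (fun y => w j₀ (K.κ k y)) ⁻¹' Ioi (w j₀ x - 1)) := by
        refine ⟨z, ⟨mem_ball_self hr, ?_⟩, hzx⟩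
        simp only [mem_preimage, mem_Ioi]
        rw [hzx]
        linarith
      filter_upwards [h4.mem_nhds h5] with y hy
      obtain ⟨z', hz', rfl⟩ := hy
      exact hz'.2
    have hlocal := gluew_local K hM hMc hMm hMt w (fun i => x ∈ O i) c hz (k := k)
      (fun i hi => h i k z hz (by rw [hzx]; exact hi))
    refine LW.congr K hlocal hz ?_
    rw [hzx]
    filter_upwards [hev, hcont] with y hy1 hy2
    obtain ⟨j, hj⟩ := hmax y
    obtain ⟨h1, h2⟩ := hstar y hy1 j hj
    refine hloc _ _ j ?_ fun i => ?_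
    · rw [if_pos h1]
    · by_cases hi : x ∈ O i
      · left
        rw [if_pos hi]
      · right
        rw [if_neg hi, if_pos h1]
        refine ⟨h2 i hi, ?_⟩
        have := hj j₀
        rw [hc]
        linarith
  · intro x
    refine ⟨fun i => hle (fun i => w i x) i, ?_⟩
    obtain ⟨j, hj⟩ := Finite.exists_max (fun i => w i x)
    exact ⟨j, hge (fun i => w i x) (w j x) hj⟩

end HMA
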