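import Pool.Agent.H85.KW.SubL
import Pool.Agent.H85.MA.SupB

/-! # Module Hada: three circles theorem -/

open MeasureTheory Metric Set Filter
open scoped ENNReal Topology ContDiff ComplexOrder

namespace HMA

theorem hada_log {a : ℂ} {δ : ℝ} (hδ : 0 < δ) (h : δ < ‖a‖) :
    (2 * Real.pi)⁻¹ * ∫ θ in (0 : ℝ)..(2 * Real.pi),
      Real.log ‖a + δ * Complex.exp (θ * Complex.I)‖ = Real.log ‖a‖ := by
  have h1 : InnerProductSpace.HarmonicOnNhd (fun z : ℂ => Real.log ‖z‖) (closedBall a |δ|) := by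
    intro x hx
    apply AnalyticAt.harmonicAt_log_norm analyticAt_id
    rintro rfl
    rw [mem_closedBall, dist_comm, dist_zero_right, abs_of_pos hδ] at hx
    linarith
  have h2 := h1.circleAverage_eq
  rw [Real.circleAverage_def, smul_eq_mul] at h2
  simpa [circleMap] using h2

theorem hada_sq (a : ℂ) (δ : ℝ) :
    (2 * Real.pi)⁻¹ * ∫ θ in (0 : ℝ)..(2 * Real.pi),
      ‖a + δ * Complex.exp (θ * Complex.I)‖ ^ 2 = ‖a‖ ^ 2 + δ ^ 2 := by
  have h : ∀ θ : ℝ, ‖a + δ * Complex.exp (θ * Complex.I)‖ ^ 2 =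
      (‖a‖ ^ 2 + δ ^ 2) + (2 * δ * a.re * Real.cos θ + 2 * δ * a.im * Real.sin θ) := by
    intro θ
    have e1 : (a + δ * Complex.exp (θ * Complex.I)).re = a.re + δ * Real.cos θ := by
      simp [Complex.exp_ofReal_mul_I_re]
    have e2 : (a + δ * Complex.exp (θ * Complex.I)).im = a.im + δ * Real.sin θ := by
      simp [Complex.exp_ofReal_mul_I_im]
    rw [← Complex.normSq_eq_norm_sq, ← Complex.normSq_eq_norm_sq, Complex.normSq_apply,
      Complex.normSq_apply, e1, e2]
    linear_combination δ ^ 2 * Real.sin_sq_add_cos_sq θ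
  simp_rw [h]
  have i1 : IntervalIntegrable (fun _ : ℝ => ‖a‖ ^ 2 + δ ^ 2) volume 0 (2 * Real.pi) :=
    intervalIntegrable_const
  have i2 : IntervalIntegrable (fun θ : ℝ => 2 * δ * a.re * Real.cos θ) volume 0
      (2 * Real.pi) := by
    apply Continuous.intervalIntegrable; fun_prop
  have i3 : IntervalIntegrable (fun θ : ℝ => 2 * δ * a.im * Real.sin θ) volume 0
      (2 * Real.pi) := by
    apply Continuous.intervalIntegrable; fun_prop
  rw [intervalIntegral.integral_add i1 (i2.add i3), intervalIntegral.integral_add i2 i3,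
    intervalIntegral.integral_const_mul, intervalIntegral.integral_const_mul, integral_cos,
    integral_sin, intervalIntegral.integral_const]
  have hpi := Real.pi_pos
  simp
  field_simp

/-- integrability on circles -/
theorem hada_int {n : ℕ} {u : Cn n → ℝ} (hu : UpperSemicontinuous u) {M : ℝ}
    (hb : ∀ y, |u y| ≤ M) (a b : Cn n) :
    IntervalIntegrable (fun θ : ℝ => u (a + Complex.exp (θ * Complex.I) • b)) volume 0
      (2 * Real.pi) := by
  have hm : Measurable (fun θ : ℝ => u (a + Complex.exp (θ * Complex.I) • b)) := by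
    apply hu.measurable.comp
    apply Continuous.measurable
    fun_prop
  rw [intervalIntegrable_iff]
  refine Measure.integrableOn_of_bounded (M := M) ?_ hm.aestronglyMeasurable ?_
  · rw [uIoc_of_le (by positivity)]
    exact measure_Ioc_lt_top.ne
  · exact Eventually.of_forall fun θ => hb _

/-- the comparison on the annulus -/
theorem hada_ann {n : ℕ} {u : Cn n → ℝ} (hu : UpperSemicontinuous u) {z : Cn n} {R M : ℝ}
    (hs : SubOn (ball z R) u) (hb : ∀ y, |u y| ≤ M) {r₁ r₂ : ℝ} (h0 : 0 < r₁) (h1 : r₁ < r₂)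
    (h3 : r₂ < R) {B : ℝ} (hB : supB u r₂ z = supB u r₁ z + B * Real.log (r₂ / r₁)) {ξ : Cn n}
    (hξ : ‖ξ‖ = 1) {ε : ℝ} (hε : 0 < ε) {ζ₀ : ℂ} (hζ : r₁ ≤ ‖ζ₀‖) (hζ' : ‖ζ₀‖ ≤ r₂) :
    u (z + ζ₀ • ξ) ≤ supB u r₁ z + B * Real.log (‖ζ₀‖ / r₁) + ε * r₂ ^ 2 := by
  set w : ℂ → ℝ := fun ζ => u (z + ζ • ξ) + (ε * ‖ζ‖ ^ 2 - B * Real.log ‖ζ‖) with hw
  set Kc : Set ℂ := {ζ | r₁ ≤ ‖ζ‖} ∩ closedBall 0 r₂ with hK
  have hKc : IsCompact Kc :=
    (isCompact_closedBall (0 : ℂ) r₂).inter_left (isClosed_le continuous_const continuous_norm)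
  have hmem : ∀ ζ : ℂ, ζ ∈ Kc ↔ r₁ ≤ ‖ζ‖ ∧ ‖ζ‖ ≤ r₂ := by
    intro ζ
    rw [hK, mem_inter_iff, mem_closedBall, dist_zero_right]
    rfl
  have husc : UpperSemicontinuousOn w Kc := by
    have e1 : UpperSemicontinuousOn (fun ζ : ℂ => u (z + ζ • ξ)) Kc := by
      have hc : Continuous (fun ζ : ℂ => z + ζ • ξ) := by fun_prop
      exact (hu.comp hc).upperSemicontinuousOn _
    have e2 : ContinuousOn (fun ζ : ℂ => ε * ‖ζ‖ ^ 2 - B * Real.log ‖ζ‖) Kc := by
      apply ContinuousOn.sub (by fun_prop)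
      apply ContinuousOn.mul continuousOn_const
      apply ContinuousOn.log continuous_norm.continuousOn
      intro ζ hζ
      have := ((hmem ζ).1 hζ).1
      exact (lt_of_lt_of_le h0 this).ne'
    exact e1.add e2.upperSemicontinuousOn
  obtain ⟨ζm, hζm, hmax⟩ := husc.exists_isMaxOn ⟨ζ₀, (hmem _).2 ⟨hζ, hζ'⟩⟩ hKc
  have hmax' : ∀ ζ : ℂ, r₁ ≤ ‖ζ‖ → ‖ζ‖ ≤ r₂ → w ζ ≤ w ζm := fun ζ a b =>
    hmax ((hmem ζ).2 ⟨a, b⟩)
  obtain ⟨hm1, hm2⟩ := (hmem _).1 hζm
  have hr2 : 0 < r₂ := h0.trans h1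
  have hlog : Real.log (r₂ / r₁) = Real.log r₂ - Real.log r₁ := Real.log_div hr2.ne' h0.ne'
  -- the maximum is on the boundary
  have hbd : w ζm ≤ supB u r₁ z - B * Real.log r₁ + ε * r₂ ^ 2 := by
    rcases hm1.eq_or_lt with e1 | e1
    · have e2 : u (z + ζm • ξ) ≤ supB u r₁ z := by
        apply le_supB hu
        rw [add_sub_cancel_left, norm_smul, hξ, mul_one, ← e1]
      have e3 : ε * ‖ζm‖ ^ 2 ≤ ε * r₂ ^ 2 := by gcongr
      simp only [hw]
      rw [← e1] at e3 ⊢
      linarith
    · rcases hm2.eq_or_lt with e2 | e2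
      · have e3 : u (z + ζm • ξ) ≤ supB u r₂ z := by
          apply le_supB hu
          rw [add_sub_cancel_left, norm_smul, hξ, mul_one, e2]
        rw [hB, hlog] at e3
        simp only [hw]
        rw [e2]
        linarith
      · exfalso
        set δ := min (‖ζm‖ - r₁) (r₂ - ‖ζm‖) with hδ
        have hδ0 : 0 < δ := lt_min (by linarith) (by linarith)
        have hδ1 : δ ≤ ‖ζm‖ - r₁ := min_le_left _ _
        have hδ2 : δ ≤ r₂ - ‖ζm‖ := min_le_right _ _
        have hδ3 : δ < ‖ζm‖ := by linarith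
        have k1 := hs (z + ζm • ξ) ((δ : ℂ) • ξ) (by
          intro ζ hζ
          rw [mem_ball, dist_eq_norm]
          have e4 : z + ζm • ξ + ζ • ((δ : ℂ) • ξ) - z = (ζm + ζ * δ) • ξ := by
            rw [add_smul, mul_smul]; abel
          rw [e4, norm_smul, hξ, mul_one]
          calc ‖ζm + ζ * δ‖ ≤ ‖ζm‖ + ‖ζ * δ‖ := norm_add_le _ _
            _ ≤ ‖ζm‖ + 1 * δ := by
                rw [norm_mul, Complex.norm_real, Real.norm_eq_abs, abs_of_pos hδ0]
                gcongr
            _ < R := by linarith)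
        have k2 : ∀ θ : ℝ, u (z + ζm • ξ + Complex.exp (θ * Complex.I) • ((δ : ℂ) • ξ)) ≤
            w ζm - (ε * ‖ζm + δ * Complex.exp (θ * Complex.I)‖ ^ 2 -
              B * Real.log ‖ζm + δ * Complex.exp (θ * Complex.I)‖) := by
          intro θ
          have e5 : ‖(δ : ℂ) * Complex.exp (θ * Complex.I)‖ = δ := by
            rw [norm_mul, Complex.norm_exp_ofReal_mul_I, mul_one, Complex.norm_real,
              Real.norm_eq_abs, abs_of_pos hδ0]
          have e6 := norm_add_le ζm ((δ : ℂ) * Complex.exp (θ * Complex.I))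
          have e7 := norm_sub_le (ζm + (δ : ℂ) * Complex.exp (θ * Complex.I))
            ((δ : ℂ) * Complex.exp (θ * Complex.I))
          rw [add_sub_cancel_right] at e7
          rw [e5] at e6 e7
          have e8 := hmax' (ζm + (δ : ℂ) * Complex.exp (θ * Complex.I)) (by linarith)
            (by linarith)
          have e9 : z + ζm • ξ + Complex.exp (θ * Complex.I) • ((δ : ℂ) • ξ) =
              z + (ζm + (δ : ℂ) * Complex.exp (θ * Complex.I)) • ξ := by
            rw [add_smul, smul_smul, mul_comm (Complex.exp _), add_assoc]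
          rw [e9]
          have e10 : w (ζm + (δ : ℂ) * Complex.exp (θ * Complex.I)) =
            u (z + (ζm + (δ : ℂ) * Complex.exp (θ * Complex.I)) • ξ) +
            (ε * ‖ζm + (δ : ℂ) * Complex.exp (θ * Complex.I)‖ ^ 2 -
              B * Real.log ‖ζm + (δ : ℂ) * Complex.exp (θ * Complex.I)‖) := rfl
          linarith
        have hpi := Real.pi_pos
        have hne : ∀ θ : ℝ, ‖ζm + δ * Complex.exp (θ * Complex.I)‖ ≠ 0 := by
          intro θ h
          rw [norm_eq_zero] at h
          have e5 : ‖(δ : ℂ) * Complex.exp (θ * Complex.I)‖ = δ := by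
            rw [norm_mul, Complex.norm_exp_ofReal_mul_I, mul_one, Complex.norm_real,
              Real.norm_eq_abs, abs_of_pos hδ0]
          have : ζm = -((δ : ℂ) * Complex.exp (θ * Complex.I)) := eq_neg_of_add_eq_zero_left h
          rw [this, norm_neg, e5] at hδ3
          exact lt_irrefl _ hδ3
        have i1 : IntervalIntegrable (fun θ : ℝ =>
            ε * ‖ζm + δ * Complex.exp (θ * Complex.I)‖ ^ 2) volume 0 (2 * Real.pi) := by
          apply Continuous.intervalIntegrable; fun_prop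
        have i2 : IntervalIntegrable (fun θ : ℝ =>
            B * Real.log ‖ζm + δ * Complex.exp (θ * Complex.I)‖) volume 0 (2 * Real.pi) := by
          apply Continuous.intervalIntegrable
          apply Continuous.mul continuous_const
          exact Continuous.log (by fun_prop) hne
        have i3 : IntervalIntegrable (fun _ : ℝ => w ζm) volume 0 (2 * Real.pi) :=
          intervalIntegrable_const
        have k3 := intervalIntegral.integral_mono_on (by positivity : (0 : ℝ) ≤ 2 * Real.pi)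
          (hada_int hu hb (z + ζm • ξ) ((δ : ℂ) • ξ)) (i3.sub (i1.sub i2)) (fun θ _ => k2 θ)
        rw [intervalIntegral.integral_sub i3 (i1.sub i2), intervalIntegral.integral_sub i1 i2,
          intervalIntegral.integral_const_mul, intervalIntegral.integral_const_mul,
          intervalIntegral.integral_const, smul_eq_mul, sub_zero] at k3
        have k4 := hada_log hδ0 hδ3
        have k5 := hada_sq ζm δ
        have k6 : u (z + ζm • ξ) ≤ w ζm - (ε * (‖ζm‖ ^ 2 + δ ^ 2) - B * Real.log ‖ζm‖) := by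
          refine k1.trans ?_
          rw [← k4, ← k5]
          generalize (∫ θ in (0 : ℝ)..(2 * Real.pi),
            ‖ζm + δ * Complex.exp (θ * Complex.I)‖ ^ 2) = I1 at k3 ⊢
          generalize (∫ θ in (0 : ℝ)..(2 * Real.pi),
            Real.log ‖ζm + δ * Complex.exp (θ * Complex.I)‖) = I2 at k3 ⊢
          calc _ ≤ (2 * Real.pi)⁻¹ * _ := mul_le_mul_of_nonneg_left k3 (by positivity)
            _ = _ := by
              field_simp
        have k7 : w ζm = u (z + ζm • ξ) + (ε * ‖ζm‖ ^ 2 - B * Real.log ‖ζm‖) := rfl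
        have k8 : 0 < ε * δ ^ 2 := by positivity
        linarith
  have h5 := hmax' ζ₀ hζ hζ'
  have h6 : w ζ₀ = u (z + ζ₀ • ξ) + (ε * ‖ζ₀‖ ^ 2 - B * Real.log ‖ζ₀‖) := rfl
  have h7 : Real.log (‖ζ₀‖ / r₁) = Real.log ‖ζ₀‖ - Real.log r₁ :=
    Real.log_div (lt_of_lt_of_le h0 hζ).ne' h0.ne'
  have h8 : 0 ≤ ε * ‖ζ₀‖ ^ 2 := by positivity
  rw [h7]
  linarith

theorem hada {n : ℕ} {u : Cn n → ℝ} (hu : UpperSemicontinuous u) {z : Cn n} {R M : ℝ}
    (hs : SubOn (ball z R) u) (hb : ∀ y, |u y| ≤ M) {r₁ r r₂ : ℝ} (h0 : 0 < r₁) (h1 : r₁ ≤ r)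
    (h2 : r ≤ r₂) (h3 : r₂ < R) : supB u r z * Real.log (r₂ / r₁) ≤
      supB u r₁ z * Real.log (r₂ / r) + supB u r₂ z * Real.log (r / r₁) := by
  have hr : 0 < r := lt_of_lt_of_le h0 h1
  have hr2 : 0 < r₂ := lt_of_lt_of_le hr h2
  rcases (h1.trans h2).eq_or_lt with e | e
  · have e1 : r = r₁ := le_antisymm (by rw [e]; exact h2) h1
    simp only [← e, e1, div_self h0.ne', Real.log_one, mul_zero, add_zero, le_refl]
  · have hl21 : 0 < Real.log (r₂ / r₁) := Real.log_pos ((one_lt_div h0).2 e)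
    have hl1 : 0 ≤ Real.log (r / r₁) := Real.log_nonneg ((one_le_div h0).2 h1)
    have hmono : supB u r₁ z ≤ supB u r₂ z := by
      obtain ⟨y, hy1, hy2⟩ := supB_attained hu h0.le z
      rw [hy2]
      exact le_supB hu (hy1.trans e.le)
    set B := (supB u r₂ z - supB u r₁ z) / Real.log (r₂ / r₁) with hB
    have hB0 : 0 ≤ B := div_nonneg (by linarith) hl21.le
    have hB1 : supB u r₂ z = supB u r₁ z + B * Real.log (r₂ / r₁) := by
      rw [hB, div_mul_cancel₀ _ hl21.ne']; ring
    have key : supB u r z ≤ supB u r₁ z + B * Real.log (r / r₁) := by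
      obtain ⟨y, hy1, hy2⟩ := supB_attained hu hr.le z
      rw [hy2]
      rcases lt_or_ge ‖y - z‖ r₁ with h | h
      · have h5 := le_supB hu h.le
        have h6 := mul_nonneg hB0 hl1
        linarith
      · have hpos : 0 < ‖y - z‖ := lt_of_lt_of_le h0 h
        have hlim : ∀ ε : ℝ, 0 < ε → u y ≤ supB u r₁ z + B * Real.log (‖y - z‖ / r₁) +
            ε * r₂ ^ 2 := by
          intro ε hε
          have h5 := hada_ann hu hs hb h0 e h3 hB1 (ξ := ((‖y - z‖ : ℂ)⁻¹) • (y - z)) (by
            rw [norm_smul, norm_inv, Complex.norm_real, norm_norm, inv_mul_cancel₀ hpos.ne'])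
            hε (ζ₀ := (‖y - z‖ : ℂ)) (by rw [Complex.norm_real, norm_norm]; exact h)
            (by rw [Complex.norm_real, norm_norm]; exact hy1.trans h2)
          rw [smul_smul, mul_inv_cancel₀ (by exact_mod_cast hpos.ne'), one_smul,
            add_sub_cancel, Complex.norm_real, norm_norm] at h5
          exact h5
        have h6 : u y ≤ supB u r₁ z + B * Real.log (‖y - z‖ / r₁) := by
          apply le_of_forall_pos_le_add
          intro η hη
          have h7 := hlim (η / r₂ ^ 2) (by positivity)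
          rwa [div_mul_cancel₀ _ (by positivity)] at h7
        have h8 : Real.log (‖y - z‖ / r₁) ≤ Real.log (r / r₁) := by
          apply Real.log_le_log (by positivity)
          gcongr
        have h9 := mul_le_mul_of_nonneg_left h8 hB0
        linarith
    have h4 : Real.log (r₂ / r) = Real.log (r₂ / r₁) - Real.log (r / r₁) := by
      rw [Real.log_div hr2.ne' hr.ne', Real.log_div hr2.ne' h0.ne', Real.log_div hr.ne' h0.ne']
      ring
    have h5 := mul_le_mul_of_nonneg_right key hl21.le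
    rw [h4]
    have h6 : B * Real.log (r / r₁) * Real.log (r₂ / r₁) =
        (supB u r₂ z - supB u r₁ z) * Real.log (r / r₁) := by
      rw [hB]; field_simp
    nlinarith [h5, h6]

end HMA
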