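import Pool.Agent.H85.KW.Defs

/-! # Module HolN: a functional inequality -/

open MeasureTheory Metric Set Filter
open scoped ENNReal Topology ContDiff ComplexOrder

namespace HMA

theorem hol_num {L β C r₀ M : ℝ} (hL : 1 < L) (hβ : 0 < β) (hC : 0 < C) (hr₀ : 0 < r₀) :
    ∃ α C' : ℝ, 0 < α ∧ α ≤ 1 ∧ 0 < C' ∧ ∀ m : ℝ → ℝ, (∀ r, 0 < r → 0 ≤ m r ∧ m r ≤ M) →
      (∀ r, 0 < r → r ≤ r₀ → m r ≤ m (L * r) / 2 + C * r ^ β) →
      ∀ r, 0 < r → r ≤ 1 → m r ≤ C' * r ^ α := by
  have hL0 : 0 < L := by linarith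
  have hlogL : 0 < Real.log L := Real.log_pos hL
  have hlog : 0 < Real.log (3 / 2) := Real.log_pos (by norm_num)
  set α : ℝ := min 1 (min β (Real.log (3 / 2) / Real.log L)) with hα
  have hα0 : 0 < α := lt_min one_pos (lt_min hβ (div_pos hlog hlogL))
  have hα1 : α ≤ 1 := min_le_left _ _
  have hαβ : α ≤ β := (min_le_right _ _).trans (min_le_left _ _)
  have hαL : α ≤ Real.log (3 / 2) / Real.log L := (min_le_right _ _).trans (min_le_right _ _)
  have hLα : L ^ α ≤ 3 / 2 := by
    have h1 : Real.log L * α ≤ Real.log (3 / 2) := by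
      rw [le_div_iff₀ hlogL] at hαL
      linarith
    rw [Real.rpow_def_of_pos hL0]
    calc Real.exp (Real.log L * α) ≤ Real.exp (Real.log (3 / 2)) := Real.exp_le_exp.2 h1
      _ = 3 / 2 := Real.exp_log (by norm_num)
  set r₁ : ℝ := min r₀ (1 / L) with hr₁
  have hr₁0 : 0 < r₁ := lt_min hr₀ (by positivity)
  have hr₁r : r₁ ≤ r₀ := min_le_left _ _
  have hr₁L : r₁ ≤ 1 / L := min_le_right _ _
  set C' : ℝ := |M| / r₁ ^ α + 4 * C with hC'
  have hr₁α : 0 < r₁ ^ α := Real.rpow_pos_of_pos hr₁0 α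
  have hC'0 : 0 < C' := by positivity
  refine ⟨α, C', hα0, hα1, hC'0, ?_⟩
  intro m hm hrec
  have key : ∀ k : ℕ, ∀ r, 0 < r → r ≤ 1 → r₁ < r * L ^ k → m r ≤ C' * r ^ α := by
    intro k
    induction k with
    | zero =>
      intro r hr hr1 h
      rw [pow_zero, mul_one] at h
      have h1 : r₁ ^ α ≤ r ^ α := Real.rpow_le_rpow hr₁0.le h.le hα0.le
      calc m r ≤ M := (hm r hr).2
        _ ≤ |M| := le_abs_self M
        _ = |M| / r₁ ^ α * r₁ ^ α := by rw [div_mul_cancel₀ _ hr₁α.ne']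
        _ ≤ C' * r₁ ^ α := by
          refine mul_le_mul_of_nonneg_right ?_ hr₁α.le
          rw [hC']
          linarith
        _ ≤ C' * r ^ α := mul_le_mul_of_nonneg_left h1 hC'0.le
    | succ k ih =>
      intro r hr hr1 h
      by_cases hr2 : r ≤ r₁
      · have hLr0 : 0 < L * r := mul_pos hL0 hr
        have hLr1 : L * r ≤ 1 := by
          have h1 := hr2.trans hr₁L
          rw [le_div_iff₀ hL0] at h1
          linarith
        have h1 := ih (L * r) hLr0 hLr1 (by
          rw [pow_succ] at h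
          have : L * r * L ^ k = r * (L ^ k * L) := by ring
          rw [this]
          exact h)
        have h2 := hrec r hr (hr2.trans hr₁r)
        have h3 : r ^ β ≤ r ^ α := Real.rpow_le_rpow_of_exponent_ge hr hr1 hαβ
        have h4 : (L * r) ^ α = L ^ α * r ^ α := Real.mul_rpow hL0.le hr.le
        have hrα : 0 < r ^ α := Real.rpow_pos_of_pos hr α
        have h5 : C' * (L * r) ^ α ≤ C' * (3 / 2 * r ^ α) := by
          rw [h4]
          exact mul_le_mul_of_nonneg_left (mul_le_mul_of_nonneg_right hLα hrα.le) hC'0.le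
        have h6 : C * r ^ β ≤ C * r ^ α := mul_le_mul_of_nonneg_left h3 hC.le
        have h7 : 4 * C ≤ C' := by
          rw [hC']
          have : 0 ≤ |M| / r₁ ^ α := by positivity
          linarith
        have h8 : 4 * C * r ^ α ≤ C' * r ^ α := mul_le_mul_of_nonneg_right h7 hrα.le
        linarith
      · push Not at hr2
        have h1 := ih r hr hr1 (by
          refine hr2.trans_le ?_
          have : 1 ≤ L ^ k := one_le_pow₀ hL.le
          nlinarith)
        exact h1
  intro r hr hr1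
  obtain ⟨k, hk⟩ := pow_unbounded_of_one_lt (r₁ / r) hL
  refine key k r hr hr1 ?_
  rw [div_lt_iff₀ hr] at hk
  linarith

end HMA
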