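import Pool.Agent.H85.KW.LocX
import Pool.Agent.H85.KM.UFin

/-! # Module Lim: passage to the limit in the key inequality -/

open MeasureTheory Metric Set Filter
open scoped ENNReal Topology ContDiff ComplexOrder

namespace HMA

variable {n : ℕ} {X : Type} [TopologicalSpace X] (K : KM n X)

variable [MeasurableSpace X] [BorelSpace X] [T2Space X] [CompactSpace X]

omit [T2Space X] [CompactSpace X] in
theorem lim_meas {φ : X → ℝ} (h : PB K φ) : Measurable φ := h.usc.measurable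

omit [T2Space X] [CompactSpace X] in
theorem lim_int {ν : Measure X} [IsFiniteMeasure ν] {φ : X → ℝ} (hm : AEStronglyMeasurable φ ν)
    {C : ℝ} (h : ∀ x, |φ x| ≤ C) : Integrable φ ν :=
  Integrable.of_bound hm C (Filter.Eventually.of_forall h)

omit [T2Space X] [CompactSpace X] in
theorem lim_gen {ν : Measure X} {f : ℕ → X → ℝ} {g : X → ℝ} {d : ℕ → X → ℝ} {C : ℝ}
    (hf : ∀ k, Integrable (f k) ν) (hg : Integrable g ν) (hd : ∀ k, Integrable (d k) ν)
    (hfg : ∀ k x, |f k x - g x| ≤ C * d k x)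
    (hL : Tendsto (fun k => ∫ x, d k x ∂ν) atTop (𝓝 0)) :
    Tendsto (fun k => ∫ x, f k x ∂ν) atTop (𝓝 (∫ x, g x ∂ν)) := by
  rw [tendsto_iff_norm_sub_tendsto_zero]
  have h1 := hL.const_mul C
  rw [mul_zero] at h1
  refine squeeze_zero (fun k => norm_nonneg _) (fun k => ?_) h1
  rw [← integral_sub (hf k) hg]
  calc ‖∫ x, (f k x - g x) ∂ν‖ ≤ ∫ x, ‖f k x - g x‖ ∂ν := norm_integral_le_integral_norm _
    _ ≤ ∫ x, C * d k x ∂ν :=
        integral_mono ((hf k).sub hg).norm ((hd k).const_mul C) fun x => hfg k x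
    _ = C * ∫ x, d k x ∂ν := integral_const_mul _ _

omit [T2Space X] [CompactSpace X] in
theorem lim_chart (i : Fin K.N) {φ : X → ℝ} (hm : Measurable φ) {C : ℝ} (h : ∀ x, |φ x| ≤ C)
    {T : Set (Cn n)} (hT : MeasurableSet T) (hT1 : T ⊆ ball 0 (3 / 2)) :
    IntegrableOn (fun z => φ (K.κ i z)) T := by
  have hfin : volume T < ⊤ := lt_of_le_of_lt (measure_mono hT1) measure_ball_lt_top
  have hT3 : T ⊆ ball 0 3 := hT1.trans (ball_subset_ball (by norm_num))
  have h1 : AEMeasurable (fun z => φ (K.κ i z)) (volume.restrict T) :=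
    hm.comp_aemeasurable (xvol_aem K i hT hT3 _)
  have hf : IsFiniteMeasure (volume.restrict T) := ⟨by rwa [Measure.restrict_apply_univ]⟩
  exact Integrable.of_bound h1.aestronglyMeasurable C (Filter.Eventually.of_forall fun z => h _)

variable [ConnectedSpace X] {μ : Measure X} [IsProbabilityMeasure μ] {ψ : ℕ → X → ℝ}
  {Φ : X → ℝ} {B : ℝ}

theorem KM.lim_mu (hn : 1 ≤ n) (hμ : KModerate K μ) (hψ : ∀ k, PB K (ψ k)) (hΦ : PB K Φ)
    (hB : ∀ k x, |ψ k x| ≤ B) (hL : ∀ i, Tendsto (fun k => ∫ z in ball (0 : Cn n) (3 / 2),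
      |ψ k (K.κ i z) - Φ (K.κ i z)|) atTop (𝓝 0)) :
    Tendsto (fun k => ∫ x, |ψ k x - Φ x| ∂μ) atTop (𝓝 0) := by
  classical
  have hne : Nonempty X := μ.nonempty_of_neZero
  obtain ⟨B₁, hB₁⟩ := hΦ.bdd
  set M : ℝ := max B B₁ with hM
  have hψM : ∀ k x, |ψ k x| ≤ M := fun k x => (hB k x).trans (le_max_left _ _)
  have hΦM : ∀ x, |Φ x| ≤ M := fun x => (hB₁ x).trans (le_max_right _ _)
  obtain ⟨α, hα, hH⟩ := K.moderate_holder hn hμ
  obtain ⟨C, hC, hH⟩ := hH (Real.exp (-2 * M)) (Real.exp_pos _)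
  -- the logarithmic comparison
  have key : ∀ f g : X → ℝ, PB K f → PB K g → (∀ x, |f x| ≤ M) → (∀ x, |g x| ≤ M) →
      |(∫ x, f x ∂μ) - ∫ x, g x ∂μ| ≤
        C * (∑ i, ∫ z in ball (0 : Cn n) (3 / 2), |f (K.κ i z) - g (K.κ i z)|) ^ α := by
    intro f g hf hg hfM hgM
    have hk1 := PB.kpsh K (PB.add_const K hf (-M))
    have hk2 := PB.kpsh K (PB.add_const K hg (-M))
    obtain ⟨x₀⟩ := hne
    have h := (hH _ _ hk1 hk2
      (fun x => by
        show Real.exp (f x + -M) ≤ 1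
        rw [Real.exp_le_one_iff]
        linarith [(abs_le.1 (hfM x)).2])
      (fun x => by
        show Real.exp (g x + -M) ≤ 1
        rw [Real.exp_le_one_iff]
        linarith [(abs_le.1 (hgM x)).2])
      ⟨x₀, by
        show Real.exp (-2 * M) ≤ Real.exp (f x₀ + -M)
        exact Real.exp_le_exp.2 (by linarith [(abs_le.1 (hfM x₀)).1])⟩
      ⟨x₀, by
        show Real.exp (-2 * M) ≤ Real.exp (g x₀ + -M)
        exact Real.exp_le_exp.2 (by linarith [(abs_le.1 (hgM x₀)).1])⟩).2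
    simp only [Real.log_exp, add_sub_add_right_eq_sub] at h
    have hfi : Integrable f μ := lim_int (lim_meas K hf).aestronglyMeasurable hfM
    have hgi : Integrable g μ := lim_int (lim_meas K hg).aestronglyMeasurable hgM
    rw [integral_add hfi (integrable_const _), integral_add hgi (integrable_const _),
      add_sub_add_right_eq_sub] at h
    exact h
  -- the maximum
  set m : ℕ → X → ℝ := fun k x => max (ψ k x) (Φ x) with hm
  have hmPB : ∀ k, PB K (m k) := fun k => PB.max K (hψ k) hΦ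
  have hmM : ∀ k x, |m k x| ≤ M := fun k x => abs_max_le_max_abs_abs.trans
    (max_le (hψM k x) (hΦM x))
  have hmψ : ∀ k x, |m k x - ψ k x| ≤ |ψ k x - Φ x| := by
    intro k x
    simp only [hm]
    rcases le_total (ψ k x) (Φ x) with h | h
    · rw [max_eq_right h, abs_sub_comm]
    · rw [max_eq_left h, sub_self, abs_zero]
      exact abs_nonneg _
  have hmΦ : ∀ k x, |m k x - Φ x| ≤ |ψ k x - Φ x| := by
    intro k x
    simp only [hm]
    rcases le_total (ψ k x) (Φ x) with h | h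
    · rw [max_eq_right h, sub_self, abs_zero]
      exact abs_nonneg _
    · rw [max_eq_left h]
  have hψm : ∀ k, Measurable (ψ k) := fun k => lim_meas K (hψ k)
  have hΦm : Measurable Φ := lim_meas K hΦ
  have hmm : ∀ k, Measurable (m k) := fun k => lim_meas K (hmPB k)
  set I : ℕ → ℝ := fun k => ∑ i, ∫ z in ball (0 : Cn n) (3 / 2),
    |ψ k (K.κ i z) - Φ (K.κ i z)| with hI
  have hI0 : Tendsto I atTop (𝓝 0) := by
    have h := tendsto_finsetSum (Finset.univ : Finset (Fin K.N)) (fun i _ => hL i)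
    rw [Finset.sum_const_zero] at h
    exact h
  have hIα : Tendsto (fun k => 2 * (C * I k ^ α)) atTop (𝓝 0) := by
    have h := (hI0.rpow_const (Or.inr hα.le) (p := α))
    rw [Real.zero_rpow hα.ne'] at h
    have h2 := (h.const_mul C).const_mul 2
    rw [mul_zero, mul_zero] at h2
    exact h2
  have hbd2 : ∀ k x, |(|ψ k x - Φ x|)| ≤ 2 * M := by
    intro k x
    rw [abs_abs]
    have h1 := abs_sub (ψ k x) (Φ x)
    linarith [hψM k x, hΦM x]
  have hcmp : ∀ (f : X → ℝ), Measurable f → (∀ x, |f x| ≤ M) → ∀ k,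
      (∀ x, |m k x - f x| ≤ |ψ k x - Φ x|) →
      ∑ i, ∫ z in ball (0 : Cn n) (3 / 2), |m k (K.κ i z) - f (K.κ i z)| ≤ I k := by
    intro f hfm hfM k hf
    refine Finset.sum_le_sum fun i _ => ?_
    refine integral_mono ?_ ?_ fun z => hf _
    · have hb : ∀ x, |(|m k x - f x|)| ≤ 2 * M := by
        intro x
        rw [abs_abs]
        have h1 := abs_sub (m k x) (f x)
        linarith [hmM k x, hfM x]
      exact lim_chart K i (φ := fun x => |m k x - f x|) ((hmm k).sub hfm).abs hb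
        measurableSet_ball subset_rfl
    · exact lim_chart K i (φ := fun x => |ψ k x - Φ x|) ((hψm k).sub hΦm).abs (hbd2 k)
        measurableSet_ball subset_rfl
  refine squeeze_zero (fun k => integral_nonneg fun x => abs_nonneg _) (fun k => ?_) hIα
  have e1 : ∀ x, |ψ k x - Φ x| = (m k x - ψ k x) + (m k x - Φ x) := by
    intro x
    simp only [hm]
    rcases le_total (ψ k x) (Φ x) with h | h
    · rw [max_eq_right h, abs_of_nonpos (by linarith)]
      ring
    · rw [max_eq_left h, abs_of_nonneg (by linarith)]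
      ring
  have i1 : Integrable (m k) μ := lim_int (hmm k).aestronglyMeasurable (hmM k)
  have i2 : Integrable (ψ k) μ := lim_int (hψm k).aestronglyMeasurable (hψM k)
  have i3 : Integrable Φ μ := lim_int hΦm.aestronglyMeasurable hΦM
  have e2 : ∫ x, |ψ k x - Φ x| ∂μ =
      ((∫ x, m k x ∂μ) - ∫ x, ψ k x ∂μ) + ((∫ x, m k x ∂μ) - ∫ x, Φ x ∂μ) := by
    rw [← integral_sub i1 i2, ← integral_sub i1 i3]
    exact (integral_congr_ae (Filter.Eventually.of_forall e1)).trans
      (integral_add (i1.sub i2) (i1.sub i3))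
  rw [e2]
  have k1 := (le_abs_self _).trans (key (m k) (ψ k) (hmPB k) (hψ k) (hmM k) (hψM k))
  have k2 := (le_abs_self _).trans (key (m k) Φ (hmPB k) hΦ (hmM k) hΦM)
  have s1 := hcmp (ψ k) (hψm k) (hψM k) k (hmψ k)
  have s2 := hcmp Φ hΦm hΦM k (hmΦ k)
  have n1 : 0 ≤ ∑ i, ∫ z in ball (0 : Cn n) (3 / 2), |m k (K.κ i z) - ψ k (K.κ i z)| :=
    Finset.sum_nonneg fun i _ => integral_nonneg fun z => abs_nonneg _
  have n2 : 0 ≤ ∑ i, ∫ z in ball (0 : Cn n) (3 / 2), |m k (K.κ i z) - Φ (K.κ i z)| :=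
    Finset.sum_nonneg fun i _ => integral_nonneg fun z => abs_nonneg _
  have r1 := mul_le_mul_of_nonneg_left (Real.rpow_le_rpow n1 s1 hα.le) hC.le
  have r2 := mul_le_mul_of_nonneg_left (Real.rpow_le_rpow n2 s2 hα.le) hC.le
  linarith

theorem KM.lim_vol (hψ : ∀ k, PB K (ψ k)) (hΦ : PB K Φ)
    (hB : ∀ k x, |ψ k x| ≤ B) (hL : ∀ i, Tendsto (fun k => ∫ z in ball (0 : Cn n) (3 / 2),
      |ψ k (K.κ i z) - Φ (K.κ i z)|) atTop (𝓝 0)) :
    Tendsto (fun k => ∫ x, |ψ k x - Φ x| ∂K.vol) atTop (𝓝 0) := by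
  classical
  obtain ⟨B₁, hB₁⟩ := hΦ.bdd
  set M : ℝ := max B B₁ with hM
  have hψM : ∀ k x, |ψ k x| ≤ M := fun k x => (hB k x).trans (le_max_left _ _)
  have hΦM : ∀ x, |Φ x| ≤ M := fun x => (hB₁ x).trans (le_max_right _ _)
  have hψm : ∀ k, Measurable (ψ k) := fun k => lim_meas K (hψ k)
  have hΦm : Measurable Φ := lim_meas K hΦ
  have hbd : ∀ j : Fin K.N, ∃ b : ℝ, 0 ≤ b ∧ ∀ z ∈ closedBall (0 : Cn n) 1,
      mad (K.ρ j) z ≤ b := by
    intro j
    obtain ⟨a, b, ha, hb, hab⟩ := K.mad_ρ_bdd j (isCompact_closedBall (0 : Cn n) 1)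
      (closedBall_subset_ball (by norm_num))
    refine ⟨max b 0, le_max_right _ _, fun z hz => (hab z hz).2.trans (le_max_left _ _)⟩
  choose b hb0 hb using hbd
  have hlim : Tendsto (fun k => ∑ j, b j * ∫ z in ball (0 : Cn n) (3 / 2),
      |ψ k (K.κ j z) - Φ (K.κ j z)|) atTop (𝓝 0) := by
    have h := tendsto_finsetSum (Finset.univ : Finset (Fin K.N))
      (fun j _ => (hL j).const_mul (b j))
    simpa using h
  refine squeeze_zero (fun k => integral_nonneg fun x => abs_nonneg _) (fun k => ?_) hlim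
  have hfm : Measurable (fun x => |ψ k x - Φ x|) := ((hψm k).sub hΦm).abs
  have hbd2 : ∀ x, |(|ψ k x - Φ x|)| ≤ 2 * M := by
    intro x
    rw [abs_abs]
    have h1 := abs_sub (ψ k x) (Φ x)
    linarith [hψM k x, hΦM x]
  rw [integral_eq_lintegral_of_nonneg_ae (Filter.Eventually.of_forall fun x => abs_nonneg _)
    hfm.aestronglyMeasurable, xvol_lint K hfm.ennreal_ofReal]
  have hR : 0 ≤ ∑ j, b j * ∫ z in ball (0 : Cn n) (3 / 2), |ψ k (K.κ j z) - Φ (K.κ j z)| :=
    Finset.sum_nonneg fun j _ => mul_nonneg (hb0 j) (integral_nonneg fun z => abs_nonneg _)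
  refine ENNReal.toReal_le_of_le_ofReal hR ?_
  rw [ENNReal.ofReal_sum_of_nonneg fun j _ =>
    mul_nonneg (hb0 j) (integral_nonneg fun z => abs_nonneg _)]
  refine Finset.sum_le_sum fun j _ => ?_
  have hint : IntegrableOn (fun z => |ψ k (K.κ j z) - Φ (K.κ j z)|) (ball (0 : Cn n) (3 / 2)) :=
    lim_chart K j (φ := fun x => |ψ k x - Φ x|) hfm hbd2 measurableSet_ball subset_rfl
  rw [ENNReal.ofReal_mul (hb0 j), ofReal_integral_eq_lintegral_ofReal hint
    (Filter.Eventually.of_forall fun z => abs_nonneg _), ← lintegral_const_mul' _ _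
      ENNReal.ofReal_ne_top]
  calc ∫⁻ z in xS K j, ENNReal.ofReal |ψ k (K.κ j z) - Φ (K.κ j z)| *
        ENNReal.ofReal (mad (K.ρ j) z)
      ≤ ∫⁻ z in xS K j, ENNReal.ofReal (b j) *
          ENNReal.ofReal |ψ k (K.κ j z) - Φ (K.κ j z)| := by
        refine setLIntegral_mono' (xS_meas K j) fun z hz => ?_
        rw [mul_comm]
        gcongr
        exact hb j z (ball_subset_closedBall hz.1)
    _ ≤ _ := lintegral_mono_set
        (inter_subset_left.trans (ball_subset_ball (by norm_num)))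

theorem KM.lim_ki (hψ : ∀ k, PB K (ψ k)) (hΦ : PB K Φ)
    (hB : ∀ k x, |ψ k x| ≤ B) (h1 : Tendsto (fun k => ∫ x, |ψ k x - Φ x| ∂μ) atTop (𝓝 0))
    (h2 : Tendsto (fun k => ∫ x, |ψ k x - Φ x| ∂K.vol) atTop (𝓝 0)) {δ : ℕ → ℝ}
    (hδ : Tendsto δ atTop (𝓝 0)) (hK : ∀ k, KIneq K μ (δ k) (ψ k)) : KIneq K μ 0 Φ := by
  have hfinV := K.vol_finite
  obtain ⟨B₁, hB₁⟩ := hΦ.bdd
  set M : ℝ := max B B₁ with hM
  have hψM : ∀ k x, |ψ k x| ≤ M := fun k x => (hB k x).trans (le_max_left _ _)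
  have hΦM : ∀ x, |Φ x| ≤ M := fun x => (hB₁ x).trans (le_max_right _ _)
  have hψm : ∀ k, Measurable (ψ k) := fun k => lim_meas K (hψ k)
  have hΦm : Measurable Φ := lim_meas K hΦ
  intro h hh
  have hhc : PB K h := PC.pb K (WK.pc K hh)
  have hhm : Measurable h := lim_meas K hhc
  obtain ⟨H, hH⟩ := hhc.bdd
  obtain ⟨C, hC, hRM⟩ := K.RM_bdd hh.c11 hh.c11
  have hRMb : ∀ x, |K.RM h x| ≤ C := by
    intro x
    have h3 := hRM 1 0 (by norm_num) (by norm_num) x
    have e : (fun y => 1 * h y + 0 * h y) = h := by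
      funext y
      ring
    rwa [e] at h3
  have hRMm : AEStronglyMeasurable (K.RM h) K.vol := K.RM_meas hh.c11
  have hdi : ∀ (ν : Measure X) [IsFiniteMeasure ν], ∀ k,
      Integrable (fun x => |ψ k x - Φ x|) ν := by
    intro ν _ k
    refine lim_int (C := 2 * M) ((hψm k).sub hΦm).abs.aestronglyMeasurable fun x => ?_
    rw [abs_abs]
    have h1 := abs_sub (ψ k x) (Φ x)
    linarith [hψM k x, hΦM x]
  have hmaxb : ∀ f : X → ℝ, (∀ x, |f x| ≤ M) → ∀ x, |max (h x - f x) 0| ≤ H + M := by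
    intro f hf x
    rw [abs_of_nonneg (le_max_right _ _)]
    refine max_le ?_ ?_
    · linarith [(abs_le.1 (hH x)).2, (abs_le.1 (hf x)).1]
    · linarith [abs_nonneg (h x), hH x, abs_nonneg (f x), hf x]
  have hdiff : ∀ k x, |max (h x - ψ k x) 0 - max (h x - Φ x) 0| ≤ |ψ k x - Φ x| := by
    intro k x
    refine (abs_max_sub_max_le_abs _ _ _).trans (le_of_eq ?_)
    rw [show h x - ψ k x - (h x - Φ x) = -(ψ k x - Φ x) by ring, abs_neg]
  -- the limit on the right
  have hr1 : ∀ f : X → ℝ, Measurable f → (∀ x, |f x| ≤ M) →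
      Integrable (fun x => max (h x - f x) 0) μ := fun f hf hfM =>
    lim_int ((hhm.sub hf).max measurable_const).aestronglyMeasurable (hmaxb f hfM)
  have hr := lim_gen (ν := μ) (C := 1) (fun k => hr1 (ψ k) (hψm k) (hψM k)) (hr1 Φ hΦm hΦM)
    (hdi μ) (fun k x => by rw [one_mul]; exact hdiff k x) h1
  -- the limit on the left
  have hl1 : ∀ f : X → ℝ, Measurable f → (∀ x, |f x| ≤ M) →
      Integrable (fun x => max (h x - f x) 0 * K.RM h x) K.vol := by
    intro f hf hfM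
    refine lim_int (C := (H + M) * C)
      (((hhm.sub hf).max measurable_const).aestronglyMeasurable.mul hRMm) fun x => ?_
    rw [abs_mul]
    have h0 := hmaxb f hfM x
    exact mul_le_mul h0 (hRMb x) (abs_nonneg _) ((abs_nonneg _).trans h0)
  have hl := lim_gen (ν := K.vol) (C := C) (fun k => hl1 (ψ k) (hψm k) (hψM k)) (hl1 Φ hΦm hΦM)
    (hdi K.vol) (fun k x => by
      rw [← sub_mul, abs_mul, mul_comm]
      exact mul_le_mul (hRMb x) (hdiff k x) (abs_nonneg _) hC.le) h2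
  refine le_of_tendsto_of_tendsto' (hl.const_mul (1 / (n + 1 : ℝ)))
    ((hr.const_mul (K.vol.real univ)).add hδ) fun k => hK k h hh

end HMA
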