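import Pool.Agent.H85.KW.MdIneq
import Pool.Agent.H85.KW.HolN
import Pool.Agent.H85.KW.BddMax
import Pool.Agent.H85.KW.CpE
import Pool.Agent.H85.KW.Lim

/-! # Module HolF: existence of a Hölder continuous potential -/

open MeasureTheory Metric Set Filter
open scoped ENNReal Topology ContDiff ComplexOrder

namespace HMA

variable {n : ℕ} {X : Type} [TopologicalSpace X] (K : KM n X)

variable [MeasurableSpace X] [BorelSpace X] [T2Space X] [CompactSpace X]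

omit [MeasurableSpace X] [BorelSpace X] [T2Space X] [CompactSpace X] in
theorem HolF_lip (i : Fin K.N) : ∃ Λ : ℝ, 0 ≤ Λ ∧ ∀ z ∈ ball (0 : Cn n) (3 / 2),
    ∀ w ∈ ball (0 : Cn n) (3 / 2), |K.ρ i z - K.ρ i w| ≤ Λ * ‖z - w‖ := by
  obtain ⟨C, hC⟩ := (K.ρ_c11 i).lip (closedBall 0 (3 / 2)) (isCompact_closedBall _ _)
    (closedBall_subset_ball (by norm_num))
  -- the derivative is bounded
  have hcont : ContinuousOn (fderiv ℝ (K.ρ i)) (closedBall (0 : Cn n) (3 / 2)) := hC.continuousOn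
  obtain ⟨B, hB⟩ := (isCompact_closedBall (0 : Cn n) (3 / 2)).exists_bound_of_continuousOn hcont
  have hB0 : 0 ≤ B := (norm_nonneg _).trans (hB 0 (mem_closedBall_self (by norm_num)))
  refine ⟨B, hB0, fun z hz w hw => ?_⟩
  have := Convex.norm_image_sub_le_of_norm_fderiv_le (𝕜 := ℝ) (f := K.ρ i) (C := B)
    (s := ball (0 : Cn n) (3 / 2)) (x := w) (y := z)
    (fun y hy => (K.ρ_c11 i).diff y (ball_subset_ball (by norm_num) hy))
    (fun y hy => hB y (ball_subset_closedBall hy)) (convex_ball _ _) hw hz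
  rwa [Real.norm_eq_abs] at this

/-- from the modulus to Hölder continuity -/
theorem KM.holder_of_md {Φ : X → ℝ} (hΦ : PB K Φ) {M : ℝ} {u : Fin K.N → Cn n → ℝ}
    (hu : LU K Φ M u) {α C : ℝ} (hα : 0 < α) (hα1 : α ≤ 1)
    (h : ∀ r, 0 < r → r ≤ 1 → md u r ≤ C * r ^ α) :
    PC K Φ ∧ ∃ C' : ℝ, ∀ i, ∀ z ∈ ball (0 : Cn n) (3 / 2), ∀ w ∈ ball (0 : Cn n) (3 / 2),
      |Φ (K.κ i z) - Φ (K.κ i w)| ≤ C' * ‖z - w‖ ^ α := by
  have hex : ∃ C' : ℝ, ∀ i, ∀ z ∈ ball (0 : Cn n) (3 / 2), ∀ w ∈ ball (0 : Cn n) (3 / 2),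
      |Φ (K.κ i z) - Φ (K.κ i w)| ≤ C' * ‖z - w‖ ^ α := by
    choose Λ hΛ0 hΛ using HolF_lip K
    obtain ⟨B, hB⟩ := hΦ.bdd
    refine ⟨max (2 * B) (C + (∑ i, Λ i)), fun i z hz w hw => ?_⟩
    have : Nonempty X := ⟨K.κ i z⟩
    have hB0 : 0 ≤ B := (abs_nonneg _).trans (hB (K.κ i z))
    rcases eq_or_ne z w with rfl | hne
    · rw [sub_self, abs_zero, sub_self, norm_zero, Real.zero_rpow hα.ne', mul_zero]
    have hr : 0 < ‖z - w‖ := norm_pos_iff.2 (sub_ne_zero.2 hne)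
    rcases le_total 1 ‖z - w‖ with h1 | h1
    · have h2 : 1 ≤ ‖z - w‖ ^ α := Real.one_le_rpow h1 hα.le
      have h3 : |Φ (K.κ i z) - Φ (K.κ i w)| ≤ 2 * B := by
        have h4 := abs_sub (Φ (K.κ i z)) (Φ (K.κ i w))
        linarith [hB (K.κ i z), hB (K.κ i w)]
      calc |Φ (K.κ i z) - Φ (K.κ i w)| ≤ 2 * B := h3
        _ ≤ max (2 * B) (C + (∑ i, Λ i)) := le_max_left _ _
        _ = max (2 * B) (C + (∑ i, Λ i)) * 1 := (mul_one _).symm
        _ ≤ _ := by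
          refine mul_le_mul_of_nonneg_left h2 ?_
          exact le_max_of_le_left (by linarith)
    · have hmd := (md_bdd K hu hr.le).1
      have hz' : ‖z‖ < 3 / 2 := by simpa using hz
      have hw' : ‖w‖ < 3 / 2 := by simpa using hw
      have h2 : u i w - u i z ≤ md u ‖z - w‖ := by
        have h3 := le_supB (hu.usc i) (r := ‖z - w‖) (z := z) (z' := w) (by rw [norm_sub_rev])
        have h4 := hmd i z (by linarith)
        linarith
      have h2' : u i z - u i w ≤ md u ‖z - w‖ := by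
        have h3 := le_supB (hu.usc i) (r := ‖z - w‖) (z := w) (z' := z) le_rfl
        have h4 := hmd i w (by linarith)
        linarith
      have h5 := h _ hr h1
      have h6 := hu.eq i z (by linarith)
      have h7 := hu.eq i w (by linarith)
      have h8 := hΛ i z hz w hw
      have h9 : Λ i ≤ ∑ i, Λ i :=
        Finset.single_le_sum (f := Λ) (fun j _ => hΛ0 j) (Finset.mem_univ i)
      have h10 : ‖z - w‖ ≤ ‖z - w‖ ^ α := by
        calc ‖z - w‖ = ‖z - w‖ ^ (1 : ℝ) := (Real.rpow_one _).symm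
          _ ≤ ‖z - w‖ ^ α := Real.rpow_le_rpow_of_exponent_ge hr h1 hα1
      have h11 : Λ i * ‖z - w‖ ≤ (∑ i, Λ i) * ‖z - w‖ ^ α :=
        mul_le_mul h9 h10 hr.le (Finset.sum_nonneg fun j _ => hΛ0 j)
      have h12 : (C + ∑ i, Λ i) * ‖z - w‖ ^ α ≤
          max (2 * B) (C + (∑ i, Λ i)) * ‖z - w‖ ^ α := by
        gcongr
        exact le_max_right _ _
      rw [abs_le] at h8 ⊢
      rw [h6, h7] at h2 h2'
      constructor <;> nlinarith [h8.1, h8.2]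
  refine ⟨?_, hex⟩
  obtain ⟨C', hC'⟩ := hex
  refine ⟨?_, hΦ.sub⟩
  rw [continuous_iff_continuousAt]
  intro x
  obtain ⟨i, z, hz, rfl⟩ := K.cover x
  have hz3 : z ∈ ball (0 : Cn n) 3 := ball_subset_ball (by norm_num) hz
  have hz32 : z ∈ ball (0 : Cn n) (3 / 2) := ball_subset_ball (by norm_num) hz
  -- continuity in the chart
  have hc : ContinuousAt (fun w => Φ (K.κ i w)) z := by
    rw [Metric.continuousAt_iff]
    intro ε hε
    have h1 : Tendsto (fun w : Cn n => C' * ‖w - z‖ ^ α) (𝓝 z) (𝓝 0) := by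
      have h2 : Continuous (fun w : Cn n => C' * ‖w - z‖ ^ α) := by
        refine continuous_const.mul ?_
        exact (Real.continuous_rpow_const hα.le).comp (by fun_prop)
      have h3 := h2.tendsto z
      simpa [Real.zero_rpow hα.ne'] using h3
    have h4 : ∀ᶠ w in 𝓝 z, C' * ‖w - z‖ ^ α < ε := h1.eventually_lt_const hε
    have h5 : ∀ᶠ w in 𝓝 z, w ∈ ball (0 : Cn n) (3 / 2) := isOpen_ball.mem_nhds hz32
    obtain ⟨δ, hδ, hδ'⟩ := Metric.eventually_nhds_iff.1 (h4.and h5)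
    refine ⟨δ, hδ, fun w hw => ?_⟩
    obtain ⟨h6, h7⟩ := hδ' hw
    rw [Real.dist_eq]
    exact (hC' i w h7 z hz32).trans_lt h6
  rw [ContinuousAt, tendsto_def]
  intro S hS
  have h1 : (fun w => Φ (K.κ i w)) ⁻¹' S ∈ 𝓝 z := hc hS
  obtain ⟨U, hU, hUo, hzU⟩ := _root_.mem_nhds_iff.1 (inter_mem h1 (isOpen_ball.mem_nhds hz3))
  have h2 : IsOpen (K.κ i '' U) := K.isOpen_image i U (fun y hy => (hU hy).2) hUo
  refine mem_of_superset (h2.mem_nhds ⟨z, hzU, rfl⟩) ?_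
  rintro _ ⟨y, hy, rfl⟩
  exact (hU hy).1

theorem KM.exists_potential [ConnectedSpace X] (hn : 1 ≤ n) {μ : Measure X}
    [IsProbabilityMeasure μ] (hμ : KModerate K μ) : ∃ (Φ : X → ℝ) (ψ : ℕ → X → ℝ)
      (δ : ℕ → ℝ) (B : ℝ), PC K Φ ∧ HolPsh K Φ ∧ (∀ k, Amax K μ (δ k) (ψ k)) ∧
        Tendsto δ atTop (𝓝 0) ∧ (∀ k x, |ψ k x| ≤ B) ∧
        Tendsto (fun k => ∫ x, |ψ k x - Φ x| ∂μ) atTop (𝓝 0) ∧
        Tendsto (fun k => ∫ x, |ψ k x - Φ x| ∂K.vol) atTop (𝓝 0) := by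
  obtain ⟨B, hB, hmax⟩ := K.exists_bdd_max hn hμ
  choose ψ₀ hψ₀ hψB using fun k : ℕ => hmax (1 / ((k : ℝ) + 1)) (by positivity)
  obtain ⟨Φ, φ, hφ, hΦ, hΦB, hL⟩ := K.compact_seq ψ₀ (fun k => WK.pc K (hψ₀ k).wk) hψB
  have hPB : ∀ k, PB K (ψ₀ (φ k)) := fun k => PC.pb K (WK.pc K (hψ₀ (φ k)).wk)
  have hδ : Tendsto (fun k : ℕ => 1 / ((φ k : ℝ) + 1)) atTop (𝓝 0) := by
    have h1 : Tendsto (fun k : ℕ => 1 / ((k : ℝ) + 1)) atTop (𝓝 0) :=
      tendsto_one_div_add_atTop_nhds_zero_nat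
    exact h1.comp hφ.tendsto_atTop
  have hlm := K.lim_mu hn hμ (ψ := fun k => ψ₀ (φ k)) hPB hΦ (fun k => hψB (φ k)) hL
  have hlv := K.lim_vol (ψ := fun k => ψ₀ (φ k)) hPB hΦ (fun k => hψB (φ k)) hL
  have hKI : KIneq K μ 0 Φ := K.lim_ki hPB hΦ (fun k => hψB (φ k)) hlm hlv hδ
    (fun k => K.key_ineq (hψ₀ (φ k)))
  obtain ⟨M, u, hM, hu⟩ := K.exists_LU hΦ
  obtain ⟨L, β, C, r₀, hL1, hβ, hC, hr₀, hmd⟩ := K.md_ineq hn hμ hΦ hKI hu
  obtain ⟨α, C', hα, hα1, hC', hnum⟩ := hol_num (M := 2 * M) hL1 hβ hC hr₀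
  have hmd' : ∀ r, 0 < r → r ≤ 1 → md u r ≤ C' * r ^ α :=
    hnum (md u) (fun r hr => ⟨(md_bdd K hu hr.le).2.1, (md_bdd K hu hr.le).2.2⟩) hmd
  obtain ⟨hpc, C'', hC''⟩ := K.holder_of_md hΦ hu hα hα1 hmd'
  exact ⟨Φ, fun k => ψ₀ (φ k), fun k => 1 / ((φ k : ℝ) + 1), B, hpc,
    ⟨PB.kpsh K hΦ, α, C'', hα, hC''⟩, fun k => hψ₀ (φ k), hδ, fun k => hψB (φ k), hlm, hlv⟩

end HMA
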