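import Pool.Agent.H85.KW.Defs

/-! # Module IterN: the iteration lemma -/

open MeasureTheory Metric Set Filter
open scoped ENNReal Topology ContDiff ComplexOrder

namespace HMA

theorem IterN_sq {y : ℝ} (hy : 0 ≤ y) : (y ^ (3 / 2 : ℝ)) ^ 2 = y ^ 3 := by
  rw [← Real.rpow_natCast, ← Real.rpow_mul hy, ← Real.rpow_natCast]
  norm_num

theorem iter_num (n : ℕ) {C K : ℝ} (hC : 0 < C) (hK : 0 < K) : ∃ c₀ C' : ℝ, 0 < c₀ ∧ 0 < C' ∧
    ∀ a : ℝ → ℝ, (∀ s t, 0 ≤ s → s ≤ t → a t ≤ a s) → (∀ s, 0 ≤ a s) → ∀ δ : ℝ, 0 ≤ δ →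
      (∀ s τ, 0 ≤ s → 0 < τ → τ ≤ 1 →
        a (s + K * τ) ≤ C * ((a s + δ) / τ ^ (n + 1)) ^ (3 / 2 : ℝ)) →
      ∀ s₀, 0 ≤ s₀ → max (a s₀) δ ≤ c₀ →
        a (s₀ + C' * (max (a s₀) δ) ^ (1 / (3 * (n + 1)) : ℝ)) ≤ δ := by
  set q : ℝ := (1 / 2) ^ (3 * (n + 1)) with hq
  have hq0 : 0 < q := by positivity
  have hq1 : q < 1 := pow_lt_one₀ (by norm_num) (by norm_num) (by omega)
  set C₁ : ℝ := max 1 (8 * C ^ 2 / q ^ 2) with hC₁
  have hC₁1 : 1 ≤ C₁ := le_max_left _ _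
  have hC₁0 : 0 < C₁ := by linarith
  have hC₁p : 8 * C ^ 2 ≤ q ^ 2 * C₁ ^ (3 * (n + 1)) := by
    have h1 : 8 * C ^ 2 / q ^ 2 ≤ C₁ ^ (3 * (n + 1)) :=
      (le_max_right _ _).trans (le_self_pow₀ hC₁1 (by omega))
    rw [div_le_iff₀ (by positivity)] at h1
    linarith
  refine ⟨(C₁⁻¹) ^ (3 * (n + 1)), 2 * K * C₁, by positivity, by positivity, ?_⟩
  intro a ha ha0 δ hδ hstep s₀ hs₀ hA
  set A : ℝ := max (a s₀) δ with hAdef
  have hA0 : 0 ≤ A := le_max_of_le_right hδ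
  have hγ : (1 / (3 * (n + 1)) : ℝ) = ((3 * (n + 1) : ℕ) : ℝ)⁻¹ := by
    push_cast
    rw [one_div]
  have hm0 : (3 * (n + 1) : ℕ) ≠ 0 := by omega
  set B : ℝ := A ^ (1 / (3 * (n + 1)) : ℝ) with hB
  have hB0 : 0 ≤ B := Real.rpow_nonneg hA0 _
  have hBp : B ^ (3 * (n + 1)) = A := by
    rw [hB, hγ, Real.rpow_inv_natCast_pow hA0 hm0]
  rcases hA0.eq_or_lt with h0 | hApos
  · have h1 : a s₀ ≤ 0 := by
      rw [h0]
      exact le_max_left _ _
    have h2 : B = 0 := by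
      rw [hB, ← h0]
      exact Real.zero_rpow (by positivity)
    rw [h2, mul_zero, add_zero]
    linarith
  have hBpos : 0 < B := Real.rpow_pos_of_pos hApos _
  set τ₀ : ℝ := C₁ * B with hτ₀
  have hτ₀pos : 0 < τ₀ := by positivity
  have hτ₀1 : τ₀ ≤ 1 := by
    have h1 : B ^ (3 * (n + 1)) ≤ (C₁⁻¹) ^ (3 * (n + 1)) := by rw [hBp]; exact hA
    have h2 : B ≤ C₁⁻¹ := le_of_pow_le_pow_left₀ hm0 (by positivity) h1
    calc τ₀ ≤ C₁ * C₁⁻¹ := mul_le_mul_of_nonneg_left h2 hC₁0.le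
      _ = 1 := mul_inv_cancel₀ hC₁0.ne'
  have hτ₀p : τ₀ ^ (3 * (n + 1)) = C₁ ^ (3 * (n + 1)) * A := by
    rw [hτ₀, mul_pow, hBp]
  have hhalf : ∀ j : ℕ, (0 : ℝ) < (1 / 2) ^ j ∧ ((1 / 2 : ℝ)) ^ j ≤ 1 := fun j =>
    ⟨by positivity, pow_le_one₀ (by norm_num) (by norm_num)⟩
  have key : ∀ j : ℕ, a (s₀ + 2 * K * τ₀ * (1 - (1 / 2) ^ j)) ≤ max (A * q ^ j) δ := by
    intro j
    induction j with
    | zero =>
      simp only [pow_zero, sub_self, mul_zero, add_zero, mul_one]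
      exact le_max_of_le_left (le_max_left _ _)
    | succ j ih =>
      set s : ℝ := s₀ + 2 * K * τ₀ * (1 - (1 / 2) ^ j) with hs
      have hs0 : 0 ≤ s := by
        have h1 : 0 ≤ 2 * K * τ₀ * (1 - (1 / 2) ^ j) :=
          mul_nonneg (by positivity) (by linarith [(hhalf j).2])
        linarith
      have hnext : s₀ + 2 * K * τ₀ * (1 - (1 / 2) ^ (j + 1)) = s + K * (τ₀ * (1 / 2) ^ j) := by
        rw [hs, pow_succ]
        ring
      rw [hnext]
      have hτj : 0 < τ₀ * (1 / 2) ^ j := mul_pos hτ₀pos (hhalf j).1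
      have hτj1 : τ₀ * (1 / 2) ^ j ≤ 1 := by
        calc τ₀ * (1 / 2) ^ j ≤ 1 * 1 :=
              mul_le_mul hτ₀1 (hhalf j).2 (hhalf j).1.le (by norm_num)
          _ = 1 := by norm_num
      by_cases hle : a s ≤ δ
      · refine le_max_of_le_right (le_trans (ha s _ hs0 ?_) hle)
        have : 0 ≤ K * (τ₀ * (1 / 2) ^ j) := by positivity
        linarith
      · push Not at hle
        have h1 : a s ≤ A * q ^ j := by
          rcases le_max_iff.1 ih with h | h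
          · exact h
          · exact absurd h (not_le.2 hle)
        refine le_max_of_le_left ((hstep s _ hs0 hτj hτj1).trans ?_)
        set y : ℝ := (a s + δ) / (τ₀ * (1 / 2) ^ j) ^ (n + 1) with hy
        have hy0 : 0 ≤ y := div_nonneg (by linarith [ha0 s]) (by positivity)
        have hyle : y ≤ 2 * (A * q ^ j) / (τ₀ * (1 / 2) ^ j) ^ (n + 1) := by
          rw [hy]
          gcongr
          linarith
        have hX : 0 ≤ C * y ^ (3 / 2 : ℝ) := by positivity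
        refine le_of_sq_le_sq ?_ (by positivity)
        rw [mul_pow, IterN_sq hy0]
        have h2 : y ^ 3 ≤ (2 * (A * q ^ j)) ^ 3 / (τ₀ * (1 / 2) ^ j) ^ (3 * (n + 1)) := by
          calc y ^ 3 ≤ (2 * (A * q ^ j) / (τ₀ * (1 / 2) ^ j) ^ (n + 1)) ^ 3 := by gcongr
            _ = _ := by rw [div_pow, ← pow_mul (τ₀ * (1 / 2) ^ j) (n + 1) 3, mul_comm (n + 1) 3]
        have h3 : (τ₀ * (1 / 2) ^ j) ^ (3 * (n + 1)) = C₁ ^ (3 * (n + 1)) * A * q ^ j := by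
          have h4 : ((1 / 2 : ℝ) ^ j) ^ (3 * (n + 1)) = q ^ j := by
            rw [hq, ← pow_mul, ← pow_mul, mul_comm]
          rw [mul_pow, hτ₀p, h4]
        rw [h3] at h2
        calc C ^ 2 * y ^ 3 ≤ C ^ 2 * ((2 * (A * q ^ j)) ^ 3 / (C₁ ^ (3 * (n + 1)) * A * q ^ j)) := by
              gcongr
          _ = (8 * C ^ 2) * (A * q ^ j) ^ 2 / C₁ ^ (3 * (n + 1)) := by
              field_simp
              ring
          _ ≤ (q ^ 2 * C₁ ^ (3 * (n + 1))) * (A * q ^ j) ^ 2 / C₁ ^ (3 * (n + 1)) := by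
              gcongr
          _ = (A * q ^ (j + 1)) ^ 2 := by
              rw [pow_succ q j]
              field_simp
  by_contra hcon
  push Not at hcon
  have hpos : 0 < a (s₀ + 2 * K * C₁ * B) := lt_of_le_of_lt hδ hcon
  have hlim : Tendsto (fun j : ℕ => A * q ^ j) atTop (𝓝 (A * 0)) :=
    (tendsto_pow_atTop_nhds_zero_of_lt_one hq0.le hq1).const_mul A
  rw [mul_zero] at hlim
  obtain ⟨j, hj⟩ := (hlim.eventually (gt_mem_nhds hpos)).exists
  have h1 := key j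
  have h2 : a (s₀ + 2 * K * C₁ * B) ≤ a (s₀ + 2 * K * τ₀ * (1 - (1 / 2) ^ j)) := by
    apply ha
    · have h1 : 0 ≤ 2 * K * τ₀ * (1 - (1 / 2) ^ j) :=
        mul_nonneg (by positivity) (by linarith [(hhalf j).2])
      linarith
    · have h3 : 2 * K * C₁ * B = 2 * K * τ₀ := by rw [hτ₀]; ring
      rw [h3]
      have h4 : 2 * K * τ₀ * (1 - (1 / 2) ^ j) ≤ 2 * K * τ₀ * 1 :=
        mul_le_mul_of_nonneg_left (by linarith [(hhalf j).1]) (by positivity)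
      linarith
  rcases le_max_iff.1 (h2.trans h1) with h | h
  · linarith
  · linarith

end HMA
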