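import Pool.Agent.H85.KW.SubL
import Pool.Agent.H85.MA.LMain

/-! # Module LocR: the modulus of bounded plurisubharmonic functions in the mean -/

open MeasureTheory Metric Set Filter
open scoped ENNReal Topology ContDiff ComplexOrder

namespace HMA

theorem locR_aff (n : ℕ) (hn : 1 ≤ n) {C ε : ℝ} (hC : 0 < C) (hε : 0 < ε) :
    ∃ C₂ c₂ : ℝ, 0 < C₂ ∧ 0 < c₂ ∧ ∀ ν : Measure (Cn n), ν univ ≤ 1 →
      ν {z | 1 < ‖z‖} = 0 → PolyB n ν C ε → AffN n ν C₂ c₂ := by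
  obtain ⟨N, C₁, hN, hC₁, hT⟩ := tub_of_polyB n hn (C := max C 1) (ε := ε) (Λ := 4 * n + 1)
    (lt_max_of_lt_left hC) hε (by positivity)
  obtain ⟨C₂, c₂, hC₂, hc₂, hSt⟩ := thmN n N (C := C₁) (Λ := 4 * n + 1) hC₁ hN le_rfl
  refine ⟨C₂, c₂, hC₂, hc₂, fun ν hν1 hν0 hP => ?_⟩
  have hνP : PolyB n ν (max C 1) ε := LMain_polyB (le_max_left C 1) le_rfl hP
  obtain ⟨hm, htub⟩ := hT ν (le_trans hν1 (by
    rw [← ENNReal.ofReal_one]
    exact ENNReal.ofReal_le_ofReal (le_max_right C 1))) hν0 hνP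
  have h := affN_of_stN hC₂ hc₂ hm htub hSt 0
  rwa [LMain_map hν0] at h

theorem loc_sup (n : ℕ) (hn : 1 ≤ n) {C ε : ℝ} (hC : 0 < C) (hε : 0 < ε) : ∃ b : ℝ, 0 < b ∧
    ∀ M : ℝ, 0 ≤ M → ∃ K : ℝ, 0 < K ∧ ∀ ν : Measure (Cn n), ν univ ≤ 1 →
      ν {z | 1 < ‖z‖} = 0 → PolyB n ν C ε → ∀ u : Cn n → ℝ, UpperSemicontinuous u →
        SubOn (ball 0 2) u → (∀ z, |u z| ≤ M) → ∀ r : ℝ, 0 < r → r ≤ 1 / 4 →
          ∫⁻ z, ENNReal.ofReal (supB u r z - u z) ∂ν ≤ ENNReal.ofReal (K * r ^ b) := by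
  obtain ⟨C₂, c₂, hC₂, hc₂, hAff⟩ := locR_aff n hn hC hε
  obtain ⟨b, hb, hit⟩ := loc_iter n hn hC₂ hc₂
  obtain ⟨K₀, hK₀, hit⟩ := hit 1 0 le_rfl le_rfl
  refine ⟨b, hb, fun M hM => ⟨16 * (2 * M + 1) * K₀, by positivity, ?_⟩⟩
  intro ν hν1 hν0 hP u hu hs huM r hr hr1
  set t : ℝ := 2 * M + 1 with ht
  have ht1 : 1 ≤ t := by rw [ht]; linarith
  have hvs : SubOn (ball (0 : Cn n) 2) (fun z => u z + (-M)) := by
    refine kw_sub_add_const hs (hu.upperSemicontinuousOn _) ?_ (-M)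
    intro L _ _
    exact ⟨M, fun z _ => (abs_le.1 (huM z)).1⟩
  have hvu : UpperSemicontinuous (fun z => u z + (-M)) := by
    have h1 : Continuous (fun x : ℝ => x + (-M)) := by fun_prop
    exact h1.comp_upperSemicontinuous hu (fun x y hxy => by simpa using hxy)
  have hF : PshOn (ball (0 : Cn n) 2) (fun z => Real.exp (u z + (-M))) := by
    refine kw_pshOn_exp hvs (hvu.upperSemicontinuousOn _) ?_
    intro L _ _
    exact ⟨2 * M, fun z _ => by have := (abs_le.1 (huM z)).1; linarith⟩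
  have hF1 : ∀ x ∈ ball (0 : Cn n) 2, Real.exp (u x + (-M)) ≤ 1 := by
    intro x _
    rw [Real.exp_le_one_iff]
    have := (abs_le.1 (huM x)).2
    linarith
  obtain ⟨g, hg, hg1, hg2, hg3⟩ := psh_ext hF hF1 ht1
  have hgu : ∀ z : Cn n, ‖z‖ < 3 / 2 → u z = 16 * t * g z + M := by
    intro z hz
    have h1 := hg3 z hz
    rw [max_eq_left, Real.log_exp] at h1
    · linarith
    · apply Real.exp_le_exp.2
      have := (abs_le.1 (huM z)).1
      rw [ht]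
      linarith
  have hae : ∀ᵐ z ∂ν, ¬ (1 < ‖z‖) := by
    rw [ae_iff]
    simpa using hν0
  have hpt : ∀ᵐ z ∂ν, ENNReal.ofReal (supB u r z - u z) ≤
      ENNReal.ofReal (16 * t) * ENNReal.ofReal (supB g r z - g z) := by
    filter_upwards [hae] with z hz
    rw [← ENNReal.ofReal_mul (by positivity)]
    apply ENNReal.ofReal_le_ofReal
    obtain ⟨z', hz', he⟩ := supB_attained hu hr.le z
    have hz1 : ‖z‖ < 3 / 2 := by linarith [not_lt.1 hz]
    have hz2 : ‖z'‖ < 3 / 2 := by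
      have h1 : ‖z'‖ ≤ ‖z' - z‖ + ‖z‖ := by
        have := norm_add_le (z' - z) z
        rwa [sub_add_cancel] at this
      linarith [not_lt.1 hz]
    have h2 : g z' ≤ supB g r z := le_supB hg.usc hz'
    rw [he, hgu z' hz2, hgu z hz1]
    have h3 : 16 * t * g z' ≤ 16 * t * supB g r z := mul_le_mul_of_nonneg_left h2 (by positivity)
    linarith
  refine (lintegral_mono_ae hpt).trans ?_
  rw [lintegral_const_mul' _ _ ENNReal.ofReal_ne_top]
  have h := hit ν hν1 hν0 (hAff ν hν1 hν0 hP) g hg hg1 (fun z => by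
    rw [add_zero]
    exact hg2 z) r hr hr1
  refine (mul_le_mul_right h (ENNReal.ofReal (16 * t))).trans ?_
  rw [← ENNReal.ofReal_mul (by positivity)]
  apply ENNReal.ofReal_le_ofReal
  rw [mul_assoc (16 * t)]

end HMA
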