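import Pool.Agent.H85.KW.LocR
import Pool.Agent.H85.KW.LUs
import Pool.Agent.H85.KM.UPoly
import Pool.Agent.H85.KM.UFin

/-! # Module MuInt: the integral of the modulus -/

open MeasureTheory Metric Set Filter
open scoped ENNReal Topology ContDiff ComplexOrder

namespace HMA

variable {n : ℕ} {X : Type} [TopologicalSpace X] (K : KM n X)

variable [MeasurableSpace X] [BorelSpace X] [T2Space X] [CompactSpace X]

theorem muInt_le_supB {u : Cn n → ℝ} {M : ℝ} (hb : ∀ y, |u y| ≤ M) {r : ℝ} (hr : 0 ≤ r)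
    (z : Cn n) : u z ≤ supB u r z := by
  refine le_csSup ?_ ⟨z, mem_closedBall_self hr, rfl⟩
  refine ⟨M, ?_⟩
  rintro _ ⟨y, -, rfl⟩
  exact (le_abs_self _).trans (hb y)

theorem KM.mu_int [ConnectedSpace X] (hn : 1 ≤ n) {μ : Measure X} [IsProbabilityMeasure μ]
    (hμ : KModerate K μ) {Φ : X → ℝ} (hΦ : PB K Φ) {M : ℝ} {u : Fin K.N → Cn n → ℝ}
    (hu : LU K Φ M u) : ∃ b C : ℝ, 0 < b ∧ 0 < C ∧ ∀ r : ℝ, 0 < r → r ≤ 1 / 4 →
      ∀ G : X → ℝ, Continuous G → (∀ i z, ‖z‖ ≤ 1 → G (K.κ i z) ≤ supB (u i) r z - K.ρ i z) →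
        ∫ x, max (G x - Φ x) 0 ∂μ ≤ C * r ^ b := by
  classical
  obtain ⟨C, ε, hC, hε, hP⟩ := K.pull_polyB hn hμ
  obtain ⟨b, hb, hloc⟩ := loc_sup n hn hC hε
  obtain ⟨x0⟩ : Nonempty X := inferInstance
  have hM : 0 ≤ M := (abs_nonneg _).trans (hu.bdd (K.ix x0) 0)
  obtain ⟨K0, hK0, hK⟩ := hloc M hM
  have hSm : ∀ i, MeasurableSet (K.ufin_S i) := fun i => K.measurableSet_ix i
  refine ⟨b, K.N * K0 + 1, hb, by positivity, fun r hr hr4 G hG hGle => ?_⟩
  have hrb : 0 ≤ r ^ b := Real.rpow_nonneg hr.le _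
  have hrhs : 0 ≤ (K.N * K0 + 1) * r ^ b := by positivity
  by_cases hint : Integrable (fun x => max (G x - Φ x) 0) μ
  swap
  · rw [integral_undef hint]; exact hrhs
  have hkey : ENNReal.ofReal (∫ x, max (G x - Φ x) 0 ∂μ) ≤
      ENNReal.ofReal ((K.N * K0 + 1) * r ^ b) := by
    rw [ofReal_integral_eq_lintegral_ofReal hint (Eventually.of_forall fun x => le_max_right _ _)]
    have hcov : (⋃ i, K.ufin_S i) = univ := by
      ext x
      simp only [mem_iUnion, mem_univ, iff_true]
      exact ⟨K.ix x, rfl⟩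
    rw [← setLIntegral_univ, ← hcov]
    refine (lintegral_iUnion_le _ _).trans ?_
    rw [tsum_fintype]
    have hone : ∀ i, ∫⁻ x in K.ufin_S i, ENNReal.ofReal (max (G x - Φ x) 0) ∂μ ≤
        ENNReal.ofReal (K0 * r ^ b) := by
      intro i
      set inv := Function.invFunOn (K.κ i) (ball (0 : Cn n) 3) with hinv
      have h1 : ∫⁻ x in K.ufin_S i, ENNReal.ofReal (max (G x - Φ x) 0) ∂μ ≤
          ∫⁻ x in K.ufin_S i, ENNReal.ofReal (supB (u i) r (inv x) - u i (inv x)) ∂μ := by
        refine setLIntegral_mono' (hSm i) fun x hx => ENNReal.ofReal_le_ofReal ?_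
        have hz := ufin_inv_mem K hx
        rw [mem_closedBall_zero_iff] at hz
        have hx3 : x ∈ K.κ i '' ball 0 3 :=
          image_mono (ball_subset_ball (by norm_num)) (ufin_S_sub K i hx)
        have hκ : K.κ i (inv x) = x := Function.invFunOn_eq hx3
        have g1 := hGle i (inv x) hz
        rw [hκ] at g1
        have g2 := hu.eq i (inv x) (by linarith)
        rw [hκ] at g2
        refine max_le ?_ ?_
        · linarith
        · linarith [muInt_le_supB (hu.bdd i) hr.le (inv x)]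
      refine h1.trans ?_
      set ν := K.pull μ i (K.ufin_S i) with hν
      obtain ⟨p1, p2, p3⟩ := hP i (K.ufin_S i) (hSm i)
      have hνres : ν.restrict (ball 0 (3 / 2)) = ν := by
        refine Measure.restrict_eq_self_of_ae_mem ?_
        rw [ae_iff]
        refine measure_mono_null ?_ p2
        intro z hz
        simp only [mem_ofPred_eq, mem_ball_zero_iff, not_lt] at hz
        show 1 < ‖z‖
        linarith
      have hmeas : AEMeasurable (fun z => ENNReal.ofReal (supB (u i) r z - u i z)) ν := by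
        refine AEMeasurable.ennreal_ofReal ?_
        refine AEMeasurable.sub ?_ (hu.usc i).measurable.aemeasurable
        have hc := supB_cont (hu.usc i) (hu.bdd i) (R := 5 / 2) (R' := 3 / 2) (hu.sub i) hr
          (by linarith)
        have := hc.aemeasurable (μ := ν) measurableSet_ball
        rwa [hνres] at this
      have h2 : ∫⁻ x in K.ufin_S i, ENNReal.ofReal (supB (u i) r (inv x) - u i (inv x)) ∂μ =
          ∫⁻ z, ENNReal.ofReal (supB (u i) r z - u i z) ∂ν := by
        have hpull := ufin_pull K μ i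
        rw [hν, hpull] at hmeas
        rw [hν, hpull]
        exact (lintegral_map' hmeas (ufin_inv_ae K μ i)).symm
      rw [h2]
      have hs2 : SubOn (ball 0 2) (u i) := by
        intro a b hab
        refine hu.sub i a b fun ζ hζ => ?_
        exact ball_subset_ball (by norm_num) (hab ζ hζ)
      exact hK ν p1 p2 p3 (u i) (hu.usc i) hs2 (hu.bdd i) r hr hr4
    refine (Finset.sum_le_sum fun i _ => hone i).trans ?_
    rw [Finset.sum_const, Finset.card_univ, Fintype.card_fin, nsmul_eq_mul,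
      ← ENNReal.ofReal_natCast, ← ENNReal.ofReal_mul (Nat.cast_nonneg _)]
    refine ENNReal.ofReal_le_ofReal ?_
    nlinarith
  exact (ENNReal.ofReal_le_ofReal_iff hrhs).mp hkey

end HMA
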