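import Pool.Agent.H85.KW.StabC
import Pool.Agent.H85.KW.Rich
import Pool.Agent.H85.KW.CapB

/-! # Module Stab: stability estimate -/

open MeasureTheory Metric Set Filter
open scoped ENNReal Topology ContDiff ComplexOrder

namespace HMA

variable {n : ℕ} {X : Type} [TopologicalSpace X] (K : KM n X)

variable [MeasurableSpace X] [BorelSpace X] [T2Space X] [CompactSpace X]

theorem stab_decay {μ : Measure X} [IsProbabilityMeasure μ] {Φ : X → ℝ} {B1 B : ℝ}
    (hB1 : ∀ x, |Φ x| ≤ B1) (hB : 0 ≤ B) (t : ℝ) :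
    μ.real {x | Φ x + B < -t} ≤ Real.exp B1 * Real.exp (-1 * t) := by
  rw [← Real.exp_add]
  rcases le_or_gt t B1 with h | h
  · refine (measureReal_le_one (μ := μ)).trans ?_
    exact Real.one_le_exp (by linarith)
  · have h1 : {x | Φ x + B < -t} = ∅ := by
      rw [eq_empty_iff_forall_notMem]
      intro x hx
      have h2 : Φ x + B < -t := hx
      have h3 := (abs_le.1 (hB1 x)).1
      linarith
    rw [h1, measureReal_empty]
    exact (Real.exp_pos _).le

theorem stab_open {Φ g : X → ℝ} (hΦ : UpperSemicontinuous Φ) (hg : Continuous g) :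
    IsOpen {x | Φ x < g x} := by
  have h1 : UpperSemicontinuous (fun x => Φ x + -g x) :=
    hΦ.add hg.neg.upperSemicontinuous
  have h2 : {x | Φ x < g x} = (fun x => Φ x + -g x) ⁻¹' Iio 0 := by
    ext x
    simp only [mem_ofPred_eq, mem_preimage, mem_Iio]
    constructor <;> intro h <;> linarith
  rw [h2]
  exact h1.isOpen_preimage 0

theorem stab_int {μ : Measure X} [IsProbabilityMeasure μ] {Φ G : X → ℝ} (hΦ : PB K Φ)
    (hG : Continuous G) {B : ℝ} (hGB : ∀ x, |G x| ≤ B) :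
    Integrable (fun x => max (G x - Φ x) 0) μ := by
  obtain ⟨B1, hB1⟩ := hΦ.bdd
  have hmeas : Measurable (fun x => max (G x - Φ x) 0) :=
    (hG.measurable.sub hΦ.usc.measurable).max measurable_const
  refine Integrable.of_bound hmeas.aestronglyMeasurable (B + B1) ?_
  refine Filter.Eventually.of_forall fun x => ?_
  have h1 := abs_le.1 (hGB x)
  have h2 := abs_le.1 (hB1 x)
  rw [Real.norm_of_nonneg (le_max_right _ _)]
  refine max_le (by linarith) (by linarith)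

theorem KM.stab_wk [ConnectedSpace X] (hn : 1 ≤ n) {μ : Measure X} [IsProbabilityMeasure μ]
    (hμ : KModerate K μ) {Φ : X → ℝ} (hΦ : PB K Φ) (hK : KIneq K μ 0 Φ) {B : ℝ} (hB : 0 ≤ B) :
    ∃ C γ : ℝ, 0 < C ∧ 0 < γ ∧ ∀ G : X → ℝ, WK K G → (∀ x, |G x| ≤ B) → ∀ x,
      G x - Φ x ≤ C * (∫ x, max (G x - Φ x) 0 ∂μ) ^ γ := by
  obtain ⟨B1, hB1⟩ := hΦ.bdd
  obtain ⟨x00⟩ : Nonempty X := inferInstance
  have hne : Nonempty X := ⟨x00⟩
  have hB10 : 0 ≤ B1 := (abs_nonneg _).trans (hB1 x00)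
  have hΦ' : PB K (fun x => Φ x + B) := hΦ.add_const K B
  have hK' : KIneq K μ 0 (fun x => Φ x + B) := by
    intro h hh
    have h1 := hK (fun x => h x + -B) (hh.add_const' K (-B))
    have h2 : ∫ x, max (h x - (Φ x + B)) 0 * K.RM h x ∂K.vol =
        ∫ x, max (h x + -B - Φ x) 0 * K.RM (fun x => h x + -B) x ∂K.vol := by
      refine integral_congr_ae ?_
      filter_upwards [K.RM_add_const hh.c11 (-B)] with x hx
      rw [hx]
      congr 2
      ring
    have h3 : ∫ x, max (h x - (Φ x + B)) 0 ∂μ = ∫ x, max (h x + -B - Φ x) 0 ∂μ := by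
      congr 1
      ext x
      congr 1
      ring
    rw [h2, h3]
    exact h1
  obtain ⟨c₀, C, hc₀, hC, hcore⟩ := K.stab_core hn hμ (A := Real.exp B1) (ε := 1) (B := 2 * B)
    (Real.exp_pos _) one_pos (by positivity)
  have hfin : IsFiniteMeasure K.vol := K.vol_finite
  have hV : 0 < K.vol.real univ := by
    rw [measureReal_def]
    exact ENNReal.toReal_pos (K.vol_pos).ne' (measure_ne_top _ _)
  obtain ⟨γ, hγ⟩ : ∃ γ : ℝ, γ = 1 / (3 * (n + 1)) := ⟨_, rfl⟩
  have hγ0 : 0 < γ := by rw [hγ]; positivity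
  obtain ⟨C1, hC1⟩ : ∃ C1 : ℝ, C1 = max C ((B + B1) / c₀ ^ γ) := ⟨_, rfl⟩
  have hC1pos : 0 < C1 := by rw [hC1]; exact lt_of_lt_of_le hC (le_max_left _ _)
  refine ⟨C1 * K.vol.real univ ^ γ, γ, by positivity, hγ0, ?_⟩
  intro G hG hGB x
  obtain ⟨I, hI⟩ : ∃ I : ℝ, I = ∫ x, max (G x - Φ x) 0 ∂μ := ⟨_, rfl⟩
  have hI0 : 0 ≤ I := by
    rw [hI]
    exact integral_nonneg fun x => le_max_right _ _
  rw [← hI]
  have hg : WK K (fun x => G x + B) := hG.add_const' K B
  have hgB : ∀ x, 0 ≤ G x + B ∧ G x + B ≤ 2 * B := fun x => by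
    have := abs_le.1 (hGB x)
    constructor <;> linarith
  obtain ⟨a0, ha0⟩ : ∃ a0 : ℝ, a0 = K.vol.real univ * I := ⟨_, rfl⟩
  have ha00 : 0 ≤ a0 := by rw [ha0]; positivity
  have haI : K.aI μ (fun x => G x + B) (fun x => Φ x + B) 0 = a0 := by
    unfold KM.aI
    rw [ha0, hI]
    congr 2
    ext x
    congr 1
    ring
  have hfinal : C1 * K.vol.real univ ^ γ * I ^ γ = C1 * a0 ^ γ := by
    rw [ha0, Real.mul_rpow hV.le hI0]
    ring
  rw [hfinal]
  have ha0γ : 0 ≤ a0 ^ γ := Real.rpow_nonneg ha00 γ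
  rcases le_or_gt a0 c₀ with hle | hgt
  · have h1 := hcore 0 (fun x => Φ x + B) le_rfl hΦ'
      (fun t _ => stab_decay hB1 hB t) hK' (fun x => G x + B) hg hgB 0 le_rfl
      (by rw [haI, max_eq_left ha00]; exact hle)
    rw [haI, max_eq_left ha00, ← hγ, zero_add] at h1
    have h2 : C * a0 ^ γ ≤ C1 * a0 ^ γ := by
      refine mul_le_mul_of_nonneg_right ?_ ha0γ
      rw [hC1]; exact le_max_left _ _
    refine le_trans ?_ h2
    by_contra hcon
    push Not at hcon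
    -- choice of tau
    obtain ⟨τ, hτ0, hτ1, hτ⟩ : ∃ τ : ℝ, 0 < τ ∧ τ ≤ 1 ∧
        (2 * B + 2) * τ < G x - Φ x - C * a0 ^ γ := by
      refine ⟨min 1 ((G x - Φ x - C * a0 ^ γ) / (2 * (2 * B + 2))), lt_min one_pos
        (div_pos (by linarith) (by positivity)), min_le_left _ _, ?_⟩
      have h3 : (2 * B + 2) * min 1 ((G x - Φ x - C * a0 ^ γ) / (2 * (2 * B + 2))) ≤
          (2 * B + 2) * ((G x - Φ x - C * a0 ^ γ) / (2 * (2 * B + 2))) :=
        mul_le_mul_of_nonneg_left (min_le_right _ _) (by positivity)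
      have h4 : (2 * B + 2) * ((G x - Φ x - C * a0 ^ γ) / (2 * (2 * B + 2))) =
          (G x - Φ x - C * a0 ^ γ) / 2 := by
        field_simp
      rw [h4] at h3
      linarith
    have h3 := K.cap_ki hΦ' hK' hg hgB (s := C * a0 ^ γ) hτ0 hτ1
    have hopen : IsOpen {y | Φ y + B < G y + B - C * a0 ^ γ - (2 * B + 2) * τ} :=
      stab_open hΦ'.usc (((hg.pc K).cont.sub continuous_const).sub continuous_const)
    have hpos := K.cap_pos hopen ⟨x, by
      show Φ x + B < G x + B - C * a0 ^ γ - (2 * B + 2) * τ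
      linarith⟩
    have h4 : 0 < τ ^ (n + 1) *
        K.cap {y | Φ y + B < G y + B - C * a0 ^ γ - (2 * B + 2) * τ} :=
      mul_pos (pow_pos hτ0 _) hpos
    have h5 : ((n : ℝ) + 1) * (K.aI μ (fun x => G x + B) (fun x => Φ x + B) (C * a0 ^ γ) + 0) ≤ 0 := by
      have : (0 : ℝ) ≤ (n : ℝ) + 1 := by positivity
      nlinarith
    exact absurd (h3.trans h5) (not_le.2 h4)
  · have h1 := abs_le.1 (hGB x)
    have h2 := abs_le.1 (hB1 x)
    have hcγ : 0 < c₀ ^ γ := Real.rpow_pos_of_pos hc₀ γ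
    calc G x - Φ x ≤ B + B1 := by linarith
      _ = (B + B1) / c₀ ^ γ * c₀ ^ γ := by field_simp
      _ ≤ C1 * a0 ^ γ := by
        refine mul_le_mul ?_ (Real.rpow_le_rpow hc₀.le hgt.le hγ0.le) hcγ.le hC1pos.le
        rw [hC1]; exact le_max_right _ _

theorem KM.stab [ConnectedSpace X] (hn : 1 ≤ n) {μ : Measure X} [IsProbabilityMeasure μ]
    (hμ : KModerate K μ) {Φ : X → ℝ} (hΦ : PB K Φ) (hK : KIneq K μ 0 Φ) {B : ℝ} (hB : 0 ≤ B) :
    ∃ C γ : ℝ, 0 < C ∧ 0 < γ ∧ ∀ G : X → ℝ, PC K G → (∀ x, |G x| ≤ B) → ∀ x,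
      G x - Φ x ≤ C * (∫ x, max (G x - Φ x) 0 ∂μ) ^ γ := by
  obtain ⟨C, γ, hC, hγ, hwk⟩ := K.stab_wk hn hμ hΦ hK (B := B + 1) (by positivity)
  refine ⟨C, γ, hC, hγ, fun G hG hGB x => ?_⟩
  have hne : Nonempty X := ⟨x⟩
  obtain ⟨I, hI⟩ : ∃ I : ℝ, I = ∫ x, max (G x - Φ x) 0 ∂μ := ⟨_, rfl⟩
  have hI0 : 0 ≤ I := by
    rw [hI]
    exact integral_nonneg fun x => le_max_right _ _
  rw [← hI]
  have hmain : ∀ η : ℝ, 0 < η → η ≤ 1 → G x - Φ x ≤ η + C * (I + η) ^ γ := by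
    intro η hη hη1
    obtain ⟨ψ, hψ, hψG⟩ := K.rich hG hη
    have hψB : ∀ x, |ψ x| ≤ B + 1 := by
      intro y
      have h1 := abs_le.1 (hψG y)
      have h2 := abs_le.1 (hGB y)
      rw [abs_le]
      constructor <;> linarith
    have h1 := hwk ψ hψ hψB x
    have h2 : ∫ x, max (ψ x - Φ x) 0 ∂μ ≤ I + η := by
      have h3 : I + η = ∫ x, (max (G x - Φ x) 0 + η) ∂μ := by
        rw [integral_add (stab_int K hΦ hG.cont hGB) (integrable_const _), integral_const, hI]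
        simp
      rw [h3]
      refine integral_mono (stab_int K hΦ (hψ.pc K).cont hψB)
        ((stab_int K hΦ hG.cont hGB).add (integrable_const _)) fun y => ?_
      have h4 := abs_le.1 (hψG y)
      refine max_le ?_ ?_
      · have := le_max_left (G y - Φ y) 0
        linarith
      · have := le_max_right (G y - Φ y) 0
        linarith
    have h3 : (∫ x, max (ψ x - Φ x) 0 ∂μ) ^ γ ≤ (I + η) ^ γ :=
      Real.rpow_le_rpow (integral_nonneg fun x => le_max_right _ _) h2 hγ.le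
    have h4 : C * (∫ x, max (ψ x - Φ x) 0 ∂μ) ^ γ ≤ C * (I + η) ^ γ :=
      mul_le_mul_of_nonneg_left h3 hC.le
    have h5 := abs_le.1 (hψG x)
    linarith
  have hcont : Continuous (fun η : ℝ => η + C * (I + η) ^ γ) :=
    continuous_id.add (continuous_const.mul
      ((Real.continuous_rpow_const hγ.le).comp (continuous_const.add continuous_id)))
  have hlim : Tendsto (fun η : ℝ => η + C * (I + η) ^ γ) (𝓝[>] 0) (𝓝 (C * I ^ γ)) := by
    have h1 := hcont.tendsto 0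
    simp only [add_zero, zero_add] at h1
    exact h1.mono_left nhdsWithin_le_nhds
  refine ge_of_tendsto hlim ?_
  filter_upwards [Ioc_mem_nhdsGT (zero_lt_one' ℝ)] with η hη
  exact hmain η hη.1 hη.2

end HMA
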