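import Pool.Agent.H85.KW.PrC
import Pool.Agent.H85.KW.Glue2
import Pool.Agent.H85.KW.MuInt
import Pool.Agent.H85.KW.Stab

/-! # Module MdIneq: the functional inequality for the modulus -/

open MeasureTheory Metric Set Filter
open scoped ENNReal Topology ContDiff ComplexOrder

namespace HMA

variable {n : ℕ} {X : Type} [TopologicalSpace X] (K : KM n X)

variable [MeasurableSpace X] [BorelSpace X] [T2Space X] [CompactSpace X]

theorem KM.md_ineq [ConnectedSpace X] (hn : 1 ≤ n) {μ : Measure X} [IsProbabilityMeasure μ]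
    (hμ : KModerate K μ) {Φ : X → ℝ} (hΦ : PB K Φ) (hK : KIneq K μ 0 Φ) {M : ℝ}
    {u : Fin K.N → Cn n → ℝ} (hu : LU K Φ M u) : ∃ L β C r₀ : ℝ, 1 < L ∧ 0 < β ∧ 0 < C ∧
      0 < r₀ ∧ ∀ r : ℝ, 0 < r → r ≤ r₀ → md u r ≤ md u (L * r) / 2 + C * r ^ β := by
  obtain ⟨Λ, C₃, r₁, hΛ, hC₃, hr₁, hpr⟩ := K.pr_comp hu
  obtain ⟨c₁, B₂, r₂, hc₁, hB₂, hr₂, hgl⟩ := K.glue_sup hu
  obtain ⟨b, C₄, hb, hC₄, hmu⟩ := K.mu_int hn hμ hΦ hu
  -- an index
  have x₀ : X := Classical.arbitrary X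
  obtain ⟨i₀, -⟩ := K.cover x₀
  have hM : 0 ≤ M := (abs_nonneg _).trans (hu.bdd i₀ 0)
  have hlog : 0 < Real.log Λ := Real.log_pos hΛ
  set a : ℝ := 2 + 4 * B₂ * c₁ with ha
  have ha0 : 0 < a := by positivity
  set Q : ℝ := 2 * a + 8 * c₁ * (M + 1) + 1 with hQ
  have hQ0 : 0 < Q := by positivity
  set T : ℝ := Real.log Λ * Q with hT
  have hT0 : 0 < T := by positivity
  set q : ℝ := Real.log Λ / T with hq
  have hqQ : q * Q = 1 := by
    rw [hq, hT]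
    field_simp
  have hq0 : 0 < q := by positivity
  have hqe : 2 * (a * q) + 2 * (4 * c₁ * M * q) + 8 * (c₁ * q) + q = 1 := by
    rw [← hqQ, hQ]
    ring
  have hp1 : 0 < a * q := mul_pos ha0 hq0
  have hp2 : 0 ≤ 4 * c₁ * M * q := by positivity
  have hp3 : 0 < c₁ * q := mul_pos hc₁ hq0
  have hq1 : a * q ≤ 1 / 2 := by linarith
  have hq2 : 4 * c₁ * M * q ≤ 1 / 2 := by linarith
  set L : ℝ := Λ * Real.exp T with hL
  have hL1 : 1 < L := by
    have : 1 < Real.exp T := by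
      rw [Real.one_lt_exp_iff]
      exact hT0
    nlinarith
  have hL0 : 0 < L := by linarith
  obtain ⟨C₅, γ, hC₅, hγ, hst⟩ := K.stab hn hμ hΦ hK (B := 2 * B₂ + 2 * M * q + C₃) (by positivity)
  set r₀ : ℝ := min (min (r₁ / L) r₂) (min (1 / 4) (1 / (2 * c₁ * (2 * C₃ + 1)))) with hr₀
  have hr₀0 : 0 < r₀ := by
    rw [hr₀]
    have h1 : 0 < r₁ / L := by positivity
    have h2 : 0 < 1 / (2 * c₁ * (2 * C₃ + 1)) := by positivity
    exact lt_min (lt_min h1 hr₂) (lt_min (by norm_num) h2)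
  refine ⟨L, min 1 (b * γ), a * C₃ + 2 * B₂ * c₁ + C₅ * C₄ ^ γ, r₀, hL1, by positivity,
    by positivity, hr₀0, ?_⟩
  intro r hr hrr
  have h1 : r ≤ r₁ / L := hrr.trans ((min_le_left _ _).trans (min_le_left _ _))
  have h2 : r ≤ r₂ := hrr.trans ((min_le_left _ _).trans (min_le_right _ _))
  have h3 : r ≤ 1 / 4 := hrr.trans ((min_le_right _ _).trans (min_le_left _ _))
  have h4 : r ≤ 1 / (2 * c₁ * (2 * C₃ + 1)) :=
    hrr.trans ((min_le_right _ _).trans (min_le_right _ _))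
  have h1' : L * r ≤ r₁ := by
    rw [le_div_iff₀ hL0] at h1
    linarith
  have h4' : r * (2 * c₁ * (2 * C₃ + 1)) ≤ 1 := by
    rwa [le_div_iff₀ (by positivity)] at h4
  obtain ⟨-, hmd0, hmdM⟩ := md_bdd K hu (r := L * r) (by positivity)
  set D : ℝ := q * md u (L * r) + C₃ * r with hD
  have hD0 : 0 ≤ D := by positivity
  have hDle : D ≤ 2 * M * q + C₃ * r := by
    have h5 : q * md u (L * r) ≤ q * (2 * M) := mul_le_mul_of_nonneg_left hmdM hq0.le
    rw [hD]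
    linarith
  have hκ : c₁ * (2 * D + r) ≤ 1 := by
    have h5 : c₁ * (2 * D + r) ≤ c₁ * (2 * (2 * M * q + C₃ * r) + r) := by gcongr
    have h6 : c₁ * (2 * (2 * M * q + C₃ * r) + r) =
        4 * c₁ * M * q + (r * (2 * c₁ * (2 * C₃ + 1))) / 2 := by ring
    linarith
  obtain ⟨G, hG, hGb, hGl, hGu⟩ := hgl r D hr h2 hD0 hκ
    (fun i j z w hz hw he => hpr r T hr hT0 h1' i j z w hz hw he)
  set κ : ℝ := c₁ * (2 * D + r) with hκd
  have hκ0 : 0 ≤ κ := by positivity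
  set G' : X → ℝ := fun x => G x + -(D + B₂ * κ) with hG'
  have hG'pc : PC K G' := PC.add_const K hG _
  have hG'b : ∀ x, |G' x| ≤ 2 * B₂ + 2 * M * q + C₃ := by
    intro x
    have h5 := hGb x
    have h6 : D + B₂ * κ ≤ B₂ + 2 * M * q + C₃ := by
      have h8 : B₂ * κ ≤ B₂ * 1 := by gcongr
      have h9 : C₃ * r ≤ C₃ * 1 := by
        refine mul_le_mul_of_nonneg_left ?_ hC₃.le
        linarith
      linarith
    have h7 : 0 ≤ D + B₂ * κ := by positivity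
    rw [abs_le] at h5 ⊢
    constructor <;> simp only [hG'] <;> linarith
  have hint : ∫ x, max (G' x - Φ x) 0 ∂μ ≤ C₄ * r ^ b := by
    refine hmu r hr h3 G' hG'pc.cont fun i z hz => ?_
    have := hGu i z hz
    simp only [hG']
    linarith
  have hint0 : 0 ≤ ∫ x, max (G' x - Φ x) 0 ∂μ := integral_nonneg fun x => le_max_right _ _
  have hsup : ∀ x, G' x - Φ x ≤ C₅ * C₄ ^ γ * r ^ (b * γ) := by
    intro x
    refine (hst G' hG'pc hG'b x).trans ?_
    rw [mul_assoc]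
    refine mul_le_mul_of_nonneg_left ?_ hC₅.le
    refine (Real.rpow_le_rpow hint0 hint hγ.le).trans (le_of_eq ?_)
    rw [Real.mul_rpow hC₄.le (by positivity), ← Real.rpow_mul hr.le]
  have hr1 : r ≤ 1 := by linarith
  have hpp1 : r ≤ r ^ (min 1 (b * γ)) := by
    calc r = r ^ (1 : ℝ) := (Real.rpow_one r).symm
      _ ≤ r ^ (min 1 (b * γ)) := Real.rpow_le_rpow_of_exponent_ge hr hr1 (min_le_left _ _)
  have hpp2 : r ^ (b * γ) ≤ r ^ (min 1 (b * γ)) :=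
    Real.rpow_le_rpow_of_exponent_ge hr hr1 (min_le_right _ _)
  refine csSup_le ⟨_, i₀, 0, by rw [norm_zero]; norm_num, rfl⟩ ?_
  rintro _ ⟨i, z, hz, rfl⟩
  have h5 := hGl i z hz
  have h6 := hsup (K.κ i z)
  have h7 : u i z = K.ρ i z + Φ (K.κ i z) := hu.eq i z (by linarith)
  have h8 : supB (u i) r z - u i z ≤ 2 * (D + B₂ * κ) + C₅ * C₄ ^ γ * r ^ (b * γ) := by
    rw [h7]
    simp only [hG'] at h6
    linarith
  have h9 : 2 * (D + B₂ * κ) = a * q * md u (L * r) + (a * C₃ + 2 * B₂ * c₁) * r := by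
    rw [hκd, ha, hD]
    ring
  have h10 : a * q * md u (L * r) ≤ md u (L * r) / 2 := by
    have := mul_le_mul_of_nonneg_right hq1 hmd0
    linarith
  have h11 : (a * C₃ + 2 * B₂ * c₁) * r ≤ (a * C₃ + 2 * B₂ * c₁) * r ^ (min 1 (b * γ)) := by
    gcongr
  have h12 : C₅ * C₄ ^ γ * r ^ (b * γ) ≤ C₅ * C₄ ^ γ * r ^ (min 1 (b * γ)) := by
    gcongr
  linarith

end HMA
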