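import Pool.Agent.H85.KW.Defs
import Pool.Agent.H85.KM.XTop

/-! # Module OvL: the overlaps of the charts -/

open MeasureTheory Metric Set Filter
open scoped ENNReal Topology ContDiff ComplexOrder

namespace HMA

variable {n : ℕ} {X : Type} [TopologicalSpace X] (K : KM n X)

theorem OvL_lip {G : Type*} [NormedAddCommGroup G] [NormedSpace ℝ G] {L O : Set (Cn n)}
    (hL : IsCompact L) (hO : IsOpen O) (hLO : L ⊆ O) {F : Cn n → G}
    (hF : ContDiffOn ℝ 1 F O) : ∃ C r : ℝ, 0 < r ∧ ∀ z ∈ L, ∀ y : Cn n, ‖y - z‖ ≤ r →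
      y ∈ O ∧ ‖F y - F z‖ ≤ C * ‖y - z‖ := by
  obtain ⟨r, hr, hrO⟩ := hL.exists_cthickening_subset_open hO hLO
  have hK : IsCompact (cthickening r L) := hL.cthickening
  have hcont : ContinuousOn (fderiv ℝ F) O := hF.continuousOn_fderiv_of_isOpen hO le_rfl
  obtain ⟨C, hC⟩ := hK.exists_bound_of_continuousOn (hcont.mono hrO)
  refine ⟨C, r, hr, fun z hz y hy => ?_⟩
  have hsub : closedBall z r ⊆ cthickening r L := closedBall_subset_cthickening hz r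
  have hyb : y ∈ closedBall z r := by rw [mem_closedBall, dist_eq_norm]; exact hy
  refine ⟨hrO (hsub hyb), ?_⟩
  refine (convex_closedBall z r).norm_image_sub_le_of_norm_fderiv_le (𝕜 := ℝ)
    (fun x hx => ?_) (fun x hx => hC x (hsub hx)) (mem_closedBall_self hr.le) hyb
  exact (hF.differentiableOn (by norm_num)).differentiableAt (hO.mem_nhds (hrO (hsub hx)))

theorem OvL_pair [T2Space X] (i j : Fin K.N) : ∃ Λ C r : ℝ, 0 < r ∧
    ∀ (z w : Cn n), ‖z‖ ≤ 7 / 4 → ‖w‖ ≤ 7 / 4 → K.κ i z = K.κ j w →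
      ∀ y : Cn n, ‖y - z‖ ≤ r → ∃ y' : Cn n, ‖y'‖ < 3 ∧ K.κ j y' = K.κ i y ∧
        ‖y' - w‖ ≤ Λ * ‖y - z‖ ∧
        |(K.ρ i y - K.ρ j y') - (K.ρ i z - K.ρ j w)| ≤ C * ‖y - z‖ := by
  set O : Set (Cn n) := ball (0 : Cn n) 3 ∩ K.κ i ⁻¹' (K.κ j '' ball 0 3) with hOdef
  have hO : IsOpen O := K.isOpen_overlap i j
  set B : Set (Cn n) := closedBall (0 : Cn n) (7 / 4) with hB
  have hB3 : B ⊆ ball (0 : Cn n) 3 := closedBall_subset_ball (by norm_num)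
  have hBc : IsCompact B := isCompact_closedBall _ _
  set L : Set (Cn n) := B ∩ K.κ i ⁻¹' (K.κ j '' B) with hLdef
  have hLO : L ⊆ O := fun z hz => ⟨hB3 hz.1, image_mono hB3 hz.2⟩
  have hjB : IsClosed (K.κ j '' B) := (hBc.image_of_continuousOn ((K.cont j).mono hB3)).isClosed
  have hL : IsCompact L := by
    have h1 : IsClosed L :=
      ((K.cont i).mono hB3).preimage_isClosed_of_isClosed hBc.isClosed hjB
    exact hBc.of_isClosed_subset h1 inter_subset_left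
  have hτ : ContDiffOn ℝ ∞ (K.τ i j) O := (hol_contDiffOn hO (K.τ_hol i j)).restrict_scalars ℝ
  have hτm : MapsTo (K.τ i j) O (ball (0 : Cn n) 3) := fun z hz => (K.τ_spec i j z hz.1 hz.2).1
  have hg : ContDiffOn ℝ ∞ (fun z => K.ρ i z - K.ρ j (K.τ i j z)) O :=
    ((K.ρ_smooth i).mono inter_subset_left).sub ((K.ρ_smooth j).comp hτ hτm)
  have h1inf : (1 : WithTop ℕ∞) ≤ ((⊤ : ℕ∞) : WithTop ℕ∞) := by exact_mod_cast le_top
  obtain ⟨Λ, r1, hr1, h1⟩ := OvL_lip hL hO hLO (hτ.of_le h1inf)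
  obtain ⟨C, r2, hr2, h2⟩ := OvL_lip hL hO hLO (hg.of_le h1inf)
  refine ⟨Λ, C, min r1 r2, lt_min hr1 hr2, fun z w hz hw hzw y hy => ?_⟩
  have hzB : z ∈ B := by rw [hB, mem_closedBall_zero_iff]; exact hz
  have hwB : w ∈ B := by rw [hB, mem_closedBall_zero_iff]; exact hw
  have hzL : z ∈ L := ⟨hzB, by rw [mem_preimage, hzw]; exact mem_image_of_mem _ hwB⟩
  obtain ⟨hyO, h3⟩ := h1 z hzL y (hy.trans (min_le_left _ _))
  obtain ⟨_, h4⟩ := h2 z hzL y (hy.trans (min_le_right _ _))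
  obtain ⟨h5, h6⟩ := K.τ_spec i j y hyO.1 hyO.2
  obtain ⟨h7, h8⟩ := K.τ_spec i j z (hLO hzL).1 (hLO hzL).2
  have h9 : K.τ i j z = w := K.injOn j h7 (hB3 hwB) (h8.trans hzw)
  rw [h9] at h3 h4
  exact ⟨K.τ i j y, by rwa [mem_ball_zero_iff] at h5, h6, h3, h4⟩

theorem KM.overlap [T2Space X] : ∃ Λ C r₁ : ℝ, 1 < Λ ∧ 0 < C ∧ 0 < r₁ ∧ r₁ ≤ 1 / 4 ∧
    ∀ (i j : Fin K.N) (z w : Cn n), ‖z‖ ≤ 7 / 4 → ‖w‖ ≤ 7 / 4 → K.κ i z = K.κ j w →
      ∀ y : Cn n, ‖y - z‖ ≤ r₁ → ∃ y' : Cn n, ‖y'‖ < 3 ∧ K.κ j y' = K.κ i y ∧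
        ‖y' - w‖ ≤ Λ * ‖y - z‖ ∧
        |(K.ρ i y - K.ρ j y') - (K.ρ i z - K.ρ j w)| ≤ C * ‖y - z‖ := by
  choose Λ C r hr h using OvL_pair K
  have e1 : ∀ᶠ a : ℝ in atTop, 1 < a ∧ ∀ i j, Λ i j ≤ a :=
    (eventually_gt_atTop 1).and
      (eventually_all.2 fun i => eventually_all.2 fun j => eventually_ge_atTop _)
  have e2 : ∀ᶠ a : ℝ in atTop, 0 < a ∧ ∀ i j, C i j ≤ a :=
    (eventually_gt_atTop 0).and
      (eventually_all.2 fun i => eventually_all.2 fun j => eventually_ge_atTop _)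
  have e3 : ∀ᶠ a : ℝ in 𝓝[>] 0, 0 < a ∧ a < 1 / 4 ∧ ∀ i j, a < r i j := by
    refine (eventually_mem_nhdsWithin).and (Eventually.and ?_ ?_)
    · exact nhdsWithin_le_nhds (Iio_mem_nhds (by norm_num))
    · exact eventually_all.2 fun i => eventually_all.2 fun j =>
        nhdsWithin_le_nhds (Iio_mem_nhds (hr i j))
  obtain ⟨a, ha1, ha⟩ := e1.exists
  obtain ⟨b, hb1, hb⟩ := e2.exists
  obtain ⟨c, hc1, hc2, hc⟩ := e3.exists
  refine ⟨a, b, c, ha1, hb1, hc1, hc2.le, fun i j z w hz hw hzw y hy => ?_⟩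
  obtain ⟨y', h1, h2, h3, h4⟩ := h i j z w hz hw hzw y (hy.trans (hc i j).le)
  exact ⟨y', h1, h2, h3.trans (mul_le_mul_of_nonneg_right (ha i j) (norm_nonneg _)),
    h4.trans (mul_le_mul_of_nonneg_right (hb i j) (norm_nonneg _))⟩

end HMA
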