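import Pool.Agent.H85.KW.Defs
import Pool.Agent.H85.KM.XPart

/-! # Module PartO: partition of unity for a compact set in an open set -/

open MeasureTheory Metric Set Filter
open scoped ENNReal Topology ContDiff ComplexOrder

namespace HMA

variable {n : ℕ} {X : Type} [TopologicalSpace X] (K : KM n X)

theorem KM.partition_open [T2Space X] [CompactSpace X] {Q U : Set X} (hQ : IsCompact Q)
    (hU : IsOpen U) (hQU : Q ⊆ U) : ∃ b c : Fin K.N → Cn n → ℝ,
      (∀ i, ContDiff ℝ ∞ (b i) ∧ (∀ z, 0 ≤ b i z) ∧ tsupport (b i) ⊆ ball 0 2 ∧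
        ∀ z ∈ ball (0 : Cn n) 3, K.κ i z ∈ Q → b i z = 0) ∧
      (∀ i, ContDiff ℝ ∞ (c i) ∧ (∀ z, 0 ≤ c i z) ∧ tsupport (c i) ⊆ ball 0 2 ∧
        ∀ z ∈ ball (0 : Cn n) 3, K.κ i z ∉ U → c i z = 0) ∧
      ∀ x, ∑ i, (K.ext i (b i) x + K.ext i (c i) x) = 1 := by
  obtain ⟨β, L, hLc, hL2, hβL, hβ01, hβs, hβ1⟩ := XPart_main K
  have hL3 : L ⊆ ball 0 3 := hL2.trans (ball_subset_ball (by norm_num))
  have hts : ∀ i, tsupport (β i) ⊆ L := by
    intro i
    refine closure_minimal ?_ hLc.isClosed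
    intro z hz
    by_contra hzL
    exact hz (hβL i z hzL)
  -- the cut off functions
  have hcut : ∀ i, ∃ χ : Cn n → ℝ, HasCompactSupport χ ∧
      tsupport χ ⊆ ball (0 : Cn n) 3 ∩ K.κ i ⁻¹' U ∧
      (∀ z, 0 ≤ χ z ∧ χ z ≤ 1) ∧ ContDiff ℝ ∞ χ ∧ ∀ z ∈ L ∩ K.κ i ⁻¹' Q, χ z = 1 := by
    intro i
    refine XPart_cut ?_ ((K.cont i).isOpen_inter_preimage isOpen_ball hU) ?_
    · have h1 : IsClosed (L ∩ K.κ i ⁻¹' Q) :=
        ((K.cont i).mono hL3).preimage_isClosed_of_isClosed hLc.isClosed hQ.isClosed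
      exact hLc.of_isClosed_subset h1 inter_subset_left
    · rintro z ⟨h1, h2⟩
      exact ⟨hL3 h1, hQU h2⟩
  choose χ hχc hχs hχ01 hχsm hχ1 using hcut
  refine ⟨fun i z => (1 - χ i z) * β i z, fun i z => χ i z * β i z, ?_, ?_, ?_⟩
  · intro i
    refine ⟨(contDiff_const.sub (hχsm i)).mul (hβs i), ?_, ?_, ?_⟩
    · intro z
      exact mul_nonneg (by linarith [(hχ01 i z).2]) (hβ01 i z).1
    · exact ((tsupport_mul_subset_right (f := fun z => 1 - χ i z) (g := β i)).trans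
        (hts i)).trans hL2
    · intro z hz hzQ
      by_cases hzL : z ∈ L
      · simp only
        rw [hχ1 i z ⟨hzL, hzQ⟩, sub_self, zero_mul]
      · simp only
        rw [hβL i z hzL, mul_zero]
  · intro i
    refine ⟨(hχsm i).mul (hβs i), ?_, ?_, ?_⟩
    · intro z
      exact mul_nonneg (hχ01 i z).1 (hβ01 i z).1
    · exact ((tsupport_mul_subset_right (f := fun z => χ i z) (g := β i)).trans
        (hts i)).trans hL2
    · intro z hz hzU
      have h1 : z ∉ tsupport (χ i) := fun h => hzU (hχs i h).2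
      simp only
      rw [image_eq_zero_of_notMem_tsupport h1, zero_mul]
  · intro x
    refine Eq.trans (Finset.sum_congr rfl fun i _ => ?_) (hβ1 x)
    by_cases h : x ∈ K.κ i '' ball 0 3
    · obtain ⟨z, hz, rfl⟩ := h
      rw [K.ext_κ i _ hz, K.ext_κ i _ hz, K.ext_κ i _ hz]
      ring
    · rw [K.ext_off i _ h, K.ext_off i _ h, K.ext_off i _ h, add_zero]

end HMA
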