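import Pool.Agent.H85.KW.OvL
import Pool.Agent.H85.KW.LUs

/-! # Module PrC: comparison of the regularisations in different charts -/

open MeasureTheory Metric Set Filter
open scoped ENNReal Topology ContDiff ComplexOrder

namespace HMA

variable {n : ℕ} {X : Type} [TopologicalSpace X] (K : KM n X)

/-- the three circles theorem gives the comparison of two radii -/
theorem prC_hada {Φ : X → ℝ} {M : ℝ} {u : Fin K.N → Cn n → ℝ} (hu : LU K Φ M u)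
    [Nonempty X] {Λ r T : ℝ} (hΛ : 1 < Λ) (hr : 0 < r) (hT : 0 < T)
    (hr1 : Λ * Real.exp T * r ≤ 1 / 4) (j : Fin K.N) (w : Cn n) (hw : ‖w‖ ≤ 7 / 4) :
    supB (u j) (Λ * r) w - supB (u j) r w ≤ Real.log Λ / T * md u (Λ * Real.exp T * r) := by
  have hL0 : 0 < Λ := by linarith
  have hE1 : 1 < Real.exp T := by
    rw [Real.one_lt_exp_iff]
    exact hT
  have hlog : 0 < Real.log Λ := Real.log_pos hΛ
  have hΛr : r ≤ Λ * r := by nlinarith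
  have hΛr0 : 0 < Λ * r := by positivity
  have hΛE : Λ * r ≤ Λ * Real.exp T * r := by nlinarith
  have hbig0 : 0 < Λ * Real.exp T * r := by positivity
  have hsub : SubOn (ball w (3 / 4)) (u j) := by
    intro a b hab
    refine hu.sub j a b fun ζ hζ => ?_
    have h1 := hab ζ hζ
    rw [mem_ball, dist_eq_norm] at h1
    rw [mem_ball, dist_zero_right]
    calc ‖a + ζ • b‖ = ‖(a + ζ • b - w) + w‖ := by congr 1; abel
      _ ≤ ‖a + ζ • b - w‖ + ‖w‖ := norm_add_le _ _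
      _ < 5 / 2 := by linarith
  have h1 := hada (hu.usc j) hsub (hu.bdd j) hr hΛr hΛE (by linarith)
  have e1 : Λ * Real.exp T * r / r = Λ * Real.exp T := by field_simp
  have e2 : Λ * Real.exp T * r / (Λ * r) = Real.exp T := by field_simp
  have e3 : Λ * r / r = Λ := by field_simp
  rw [e1, e2, e3, Real.log_mul hL0.ne' (Real.exp_pos T).ne', Real.log_exp] at h1
  have h2 : u j w ≤ supB (u j) (Λ * r) w :=
    le_supB (hu.usc j) (by rw [sub_self, norm_zero]; exact hΛr0.le)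
  have h3 := (md_bdd K hu hbig0.le).1 j w hw
  have h4 : T * (supB (u j) (Λ * r) w - supB (u j) r w) ≤
      Real.log Λ * md u (Λ * Real.exp T * r) := by
    have h5 : Real.log Λ * (supB (u j) (Λ * Real.exp T * r) w - supB (u j) (Λ * r) w) ≤
        Real.log Λ * md u (Λ * Real.exp T * r) := by
      refine mul_le_mul_of_nonneg_left ?_ hlog.le
      linarith
    nlinarith
  rw [div_mul_eq_mul_div, le_div_iff₀ hT]
  linarith

theorem prC_one {Φ : X → ℝ} {M : ℝ} {u : Fin K.N → Cn n → ℝ} (hu : LU K Φ M u)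
    [Nonempty X] {Λ C r₁ : ℝ} (hΛ : 1 < Λ) (hC : 0 < C) (hr₁ : r₁ ≤ 1 / 4)
    (hov : ∀ (i j : Fin K.N) (z w : Cn n), ‖z‖ ≤ 7 / 4 → ‖w‖ ≤ 7 / 4 → K.κ i z = K.κ j w →
      ∀ y : Cn n, ‖y - z‖ ≤ r₁ → ∃ y' : Cn n, ‖y'‖ < 3 ∧ K.κ j y' = K.κ i y ∧
        ‖y' - w‖ ≤ Λ * ‖y - z‖ ∧
        |(K.ρ i y - K.ρ j y') - (K.ρ i z - K.ρ j w)| ≤ C * ‖y - z‖)
    {r T : ℝ} (hr : 0 < r) (hT : 0 < T) (hr1 : Λ * Real.exp T * r ≤ r₁)
    (i j : Fin K.N) (z w : Cn n) (hz : ‖z‖ ≤ 7 / 4) (hw : ‖w‖ ≤ 7 / 4)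
    (he : K.κ i z = K.κ j w) :
    (supB (u i) r z - K.ρ i z) - (supB (u j) r w - K.ρ j w) ≤
          Real.log Λ / T * md u (Λ * Real.exp T * r) + C * r := by
  have hE1 : 1 < Real.exp T := by
    rw [Real.one_lt_exp_iff]
    exact hT
  have hΛr : r ≤ Λ * r := by nlinarith
  have hΛE : Λ * r ≤ Λ * Real.exp T * r := by nlinarith
  have h1 := prC_hada K hu hΛ hr hT (hr1.trans hr₁) j w hw
  obtain ⟨y, hy, hy2⟩ := supB_attained (hu.usc i) hr.le z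
  obtain ⟨y', -, hκ, hy', hρ⟩ := hov i j z w hz hw he y (by linarith)
  have hyr : Λ * ‖y - z‖ ≤ Λ * r := mul_le_mul_of_nonneg_left hy (by linarith)
  have hCr : C * ‖y - z‖ ≤ C * r := mul_le_mul_of_nonneg_left hy hC.le
  have hny : ‖y‖ ≤ 5 / 2 := by
    calc ‖y‖ = ‖(y - z) + z‖ := by congr 1; abel
      _ ≤ ‖y - z‖ + ‖z‖ := norm_add_le _ _
      _ ≤ 5 / 2 := by linarith
  have hny' : ‖y'‖ ≤ 5 / 2 := by
    calc ‖y'‖ = ‖(y' - w) + w‖ := by congr 1; abel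
      _ ≤ ‖y' - w‖ + ‖w‖ := norm_add_le _ _
      _ ≤ 5 / 2 := by linarith
  have h2 := hu.eq i y hny
  have h3 := hu.eq j y' hny'
  have h4 : u j y' ≤ supB (u j) (Λ * r) w := le_supB (hu.usc j) (hy'.trans hyr)
  rw [abs_le] at hρ
  rw [hκ] at h3
  rw [hy2]
  linarith [hρ.2]

theorem KM.pr_comp [T2Space X] {Φ : X → ℝ} {M : ℝ} {u : Fin K.N → Cn n → ℝ}
    (hu : LU K Φ M u) : ∃ Λ C r₁ : ℝ, 1 < Λ ∧ 0 < C ∧ 0 < r₁ ∧ ∀ r T : ℝ, 0 < r → 0 < T →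
      Λ * Real.exp T * r ≤ r₁ → ∀ (i j : Fin K.N) (z w : Cn n), ‖z‖ ≤ 7 / 4 → ‖w‖ ≤ 7 / 4 →
        K.κ i z = K.κ j w → |(supB (u i) r z - K.ρ i z) - (supB (u j) r w - K.ρ j w)| ≤
          Real.log Λ / T * md u (Λ * Real.exp T * r) + C * r := by
  obtain ⟨Λ, C, r₁, hΛ, hC, hr₁, hr₁4, hov⟩ := K.overlap
  refine ⟨Λ, C, r₁, hΛ, hC, hr₁, ?_⟩
  intro r T hr hT h1 i j z w hz hw he
  have : Nonempty X := ⟨K.κ i z⟩
  have h2 := prC_one K hu hΛ hC hr₁4 hov hr hT h1 i j z w hz hw he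
  have h3 := prC_one K hu hΛ hC hr₁4 hov hr hT h1 j i w z hw hz he.symm
  rw [abs_le]
  constructor <;> linarith

end HMA
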