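import Pool.Agent.H85.KW.Defs

/-! # Module RegMax: the regularised maximum -/

open MeasureTheory Metric Set Filter
open scoped ENNReal Topology ContDiff ComplexOrder

namespace HMA

/-- the maximum of the coordinates -/
noncomputable def RegMax_f (N : ℕ) (hN : 1 ≤ N) (t : Fin N → ℝ) : ℝ :=
  (Finset.univ : Finset (Fin N)).sup' ⟨⟨0, hN⟩, Finset.mem_univ _⟩ t

theorem RegMax_le (N : ℕ) (hN : 1 ≤ N) (t : Fin N → ℝ) (i : Fin N) : t i ≤ RegMax_f N hN t :=
  Finset.le_sup' t (Finset.mem_univ i)

theorem RegMax_f_le (N : ℕ) (hN : 1 ≤ N) (t : Fin N → ℝ) (c : ℝ) (h : ∀ i, t i ≤ c) :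
    RegMax_f N hN t ≤ c :=
  Finset.sup'_le _ _ (fun i _ => h i)

theorem RegMax_mono (N : ℕ) (hN : 1 ≤ N) (s t : Fin N → ℝ) (h : ∀ i, s i ≤ t i) :
    RegMax_f N hN s ≤ RegMax_f N hN t :=
  RegMax_f_le N hN s _ (fun i => (h i).trans (RegMax_le N hN t i))

theorem RegMax_cont (N : ℕ) (hN : 1 ≤ N) : Continuous (RegMax_f N hN) := by
  have h : LipschitzWith 1 (RegMax_f N hN) := by
    refine LipschitzWith.of_le_add_mul 1 (fun s t => ?_)
    refine RegMax_f_le N hN s _ (fun i => ?_)
    have h1 := RegMax_le N hN t i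
    have h2 : |s i - t i| ≤ dist s t := by
      have := dist_le_pi_dist s t i
      rwa [Real.dist_eq] at this
    have h3 := le_abs_self (s i - t i)
    simp only [NNReal.coe_one, one_mul]
    linarith
  exact h.continuous

theorem RegMax_int {N : ℕ} (hN : 1 ≤ N) {w : (Fin N → ℝ) → ℝ} (hw : Continuous w)
    (hc : HasCompactSupport w) (g : (Fin N → ℝ) → ℝ) (hg : Continuous g) :
    Integrable (fun y => w y * g y) :=
  (hw.mul hg).integrable_of_hasCompactSupport (hc.mul_right)

theorem RegMax_smooth {N : ℕ} (hN : 1 ≤ N) {w : (Fin N → ℝ) → ℝ} (hw : ContDiff ℝ ∞ w)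
    (hc : HasCompactSupport w) :
    ContDiff ℝ ∞ (fun t : Fin N → ℝ => ∫ y, w y * RegMax_f N hN (t - y)) := by
  have h := HasCompactSupport.contDiff_convolution_left (μ := (volume : Measure (Fin N → ℝ)))
    (ContinuousLinearMap.lsmul ℝ ℝ) hc hw
    ((RegMax_cont N hN).locallyIntegrable (μ := (volume : Measure (Fin N → ℝ))))
  exact h

/-- `M t = ∫ max_i (t_i + y_i) dν(y)` for a symmetric smooth probability density `ν` with support
in `[-η, η]^N` -/
theorem exists_regmax (N : ℕ) (hN : 1 ≤ N) {η : ℝ} (hη : 0 < η) : ∃ M : (Fin N → ℝ) → ℝ,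
    ContDiff ℝ ∞ M ∧ ConvexOn ℝ univ M ∧ Monotone M ∧ (∀ t i, t i ≤ M t) ∧
    (∀ t c, (∀ i, t i ≤ c) → M t ≤ c + η) ∧ (∀ t c, M (fun i => t i + c) = M t + c) ∧
    ∀ (s t : Fin N → ℝ) (j : Fin N), s j = t j →
      (∀ i, s i = t i ∨ (s i ≤ s j - 2 * η ∧ t i ≤ t j - 2 * η)) → M s = M t := by
  let φ : ContDiffBump (0 : Fin N → ℝ) := ⟨η / 2, η, by positivity, by linarith⟩
  obtain ⟨w, hwdef⟩ : ∃ w : (Fin N → ℝ) → ℝ, w = φ.normed volume := ⟨_, rfl⟩
  have hw0 : ∀ y, 0 ≤ w y := fun y => by rw [hwdef]; exact φ.nonneg_normed y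
  have hwc : Continuous w := by rw [hwdef]; exact φ.continuous_normed
  have hwd : ContDiff ℝ ∞ w := by rw [hwdef]; exact φ.contDiff_normed
  have hwk : HasCompactSupport w := by rw [hwdef]; exact φ.hasCompactSupport_normed
  have hw1 : ∫ y, w y = 1 := by rw [hwdef]; exact φ.integral_normed
  have hwn : ∀ y, w (-y) = w y := fun y => by rw [hwdef]; exact φ.normed_neg y
  have hws : ∀ y, w y ≠ 0 → ‖y‖ < η := by
    intro y hy
    have h : y ∈ Function.support (φ.normed volume) := by
      rw [← hwdef]; exact hy
    rw [ContDiffBump.support_normed_eq, mem_ball_zero_iff] at h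
    exact h
  have hwy : ∀ y, w y ≠ 0 → ∀ i, |y i| ≤ η := by
    intro y hy i
    have := norm_le_pi_norm y i
    rw [Real.norm_eq_abs] at this
    exact this.trans (hws y hy).le
  have hfc : ∀ t : Fin N → ℝ, Continuous (fun y => RegMax_f N hN (t - y)) := fun t =>
    (RegMax_cont N hN).comp (continuous_const.sub continuous_id)
  have hint : ∀ t : Fin N → ℝ, Integrable (fun y => w y * RegMax_f N hN (t - y)) := fun t =>
    RegMax_int hN hwc hwk _ (hfc t)
  have hconst : ∀ c : ℝ, ∫ y, w y * c = c := by
    intro c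
    rw [integral_mul_const, hw1, one_mul]
  have hcint : ∀ c : ℝ, Integrable (fun y => w y * c) := fun c =>
    RegMax_int hN hwc hwk _ continuous_const
  refine ⟨fun t => ∫ y, w y * RegMax_f N hN (t - y), RegMax_smooth hN hwd hwk, ?_, ?_, ?_, ?_, ?_,
    ?_⟩
  · refine ⟨convex_univ, ?_⟩
    intro s _ t _ a b ha hb hab
    simp only [smul_eq_mul]
    rw [← integral_const_mul, ← integral_const_mul, ← integral_add ((hint s).const_mul a)
      ((hint t).const_mul b)]
    refine integral_mono (hint _) (((hint s).const_mul a).add ((hint t).const_mul b)) (fun y => ?_)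
    have h1 : RegMax_f N hN (a • s + b • t - y) ≤
        a * RegMax_f N hN (s - y) + b * RegMax_f N hN (t - y) := by
      refine RegMax_f_le N hN _ _ (fun i => ?_)
      have e1 := RegMax_le N hN (s - y) i
      have e2 := RegMax_le N hN (t - y) i
      have e3 : (a • s + b • t - y) i = a * (s - y) i + b * (t - y) i := by
        simp only [Pi.sub_apply, Pi.add_apply, Pi.smul_apply, smul_eq_mul]
        have : y i = (a + b) * y i := by rw [hab, one_mul]
        rw [this]; 
        have : (a + b) * y i = y i := by rw [hab, one_mul]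
        rw [this]
        linear_combination (y i) * hab
      rw [e3]
      exact add_le_add (mul_le_mul_of_nonneg_left e1 ha) (mul_le_mul_of_nonneg_left e2 hb)
    have h2 := mul_le_mul_of_nonneg_left h1 (hw0 y)
    refine h2.trans (le_of_eq ?_)
    ring
  · intro s t hst
    refine integral_mono (hint s) (hint t) (fun y => ?_)
    refine mul_le_mul_of_nonneg_left (RegMax_mono N hN _ _ (fun i => ?_)) (hw0 y)
    exact sub_le_sub_right (hst i) _
  · intro t i
    have hodd : ∫ y, w y * y i = 0 := by
      have h1 : ∫ y, w y * y i = ∫ y : Fin N → ℝ, w (-y) * (-y) i :=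
        (integral_neg_eq_self (fun y : Fin N → ℝ => w y * y i) volume).symm
      have h2 : ∫ y : Fin N → ℝ, w (-y) * (-y) i = - ∫ y, w y * y i := by
        rw [← integral_neg]
        refine integral_congr_ae (Eventually.of_forall (fun y => ?_))
        simp only [hwn, Pi.neg_apply, mul_neg]
      linarith
    have hyint : Integrable (fun y : Fin N → ℝ => w y * y i) :=
      RegMax_int hN hwc hwk _ (continuous_apply i)
    have h3 : ∫ y, w y * (t i - y i) = t i := by
      have : (fun y : Fin N → ℝ => w y * (t i - y i)) = fun y => w y * t i - w y * y i := by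
        funext y; ring
      rw [this, integral_sub (hcint _) hyint, hconst, hodd, sub_zero]
    have h4 : ∫ y, w y * (t i - y i) ≤ ∫ y, w y * RegMax_f N hN (t - y) := by
      refine integral_mono (RegMax_int hN hwc hwk _ (continuous_const.sub (continuous_apply i)))
        (hint t) (fun y => ?_)
      exact mul_le_mul_of_nonneg_left (RegMax_le N hN (t - y) i) (hw0 y)
    rw [h3] at h4
    exact h4
  · intro t c hc
    have h4 : ∫ y, w y * RegMax_f N hN (t - y) ≤ ∫ y, w y * (c + η) := by
      refine integral_mono (hint t) (hcint _) (fun y => ?_)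
      by_cases hy : w y = 0
      · simp only [hy, zero_mul, le_refl]
      · refine mul_le_mul_of_nonneg_left (RegMax_f_le N hN _ _ (fun i => ?_)) (hw0 y)
        have h1 := (abs_le.1 (hwy y hy i)).1
        have h2 := hc i
        simp only [Pi.sub_apply]
        linarith
    rw [hconst] at h4
    exact h4
  · intro t c
    have h5 : ∀ y, w y * RegMax_f N hN ((fun i => t i + c) - y) =
        w y * RegMax_f N hN (t - y) + w y * c := by
      intro y
      have h6 : RegMax_f N hN ((fun i => t i + c) - y) = RegMax_f N hN (t - y) + c := by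
        refine le_antisymm (RegMax_f_le N hN _ _ (fun i => ?_)) ?_
        · have := RegMax_le N hN (t - y) i
          simp only [Pi.sub_apply] at this ⊢
          linarith
        · have : RegMax_f N hN (t - y) ≤ RegMax_f N hN ((fun i => t i + c) - y) - c := by
            refine RegMax_f_le N hN _ _ (fun i => ?_)
            have := RegMax_le N hN ((fun i => t i + c) - y) i
            simp only [Pi.sub_apply] at this ⊢
            linarith
          linarith
      rw [h6]; ring
    show ∫ y, w y * RegMax_f N hN ((fun i => t i + c) - y) =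
      (∫ y, w y * RegMax_f N hN (t - y)) + c
    rw [integral_congr_ae (Eventually.of_forall h5), integral_add (hint t) (hcint c), hconst]
  · intro s t j hj hst
    have key : ∀ (s t : Fin N → ℝ), s j = t j →
        (∀ i, s i = t i ∨ (s i ≤ s j - 2 * η ∧ t i ≤ t j - 2 * η)) → ∀ y, w y ≠ 0 →
        RegMax_f N hN (s - y) ≤ RegMax_f N hN (t - y) := by
      intro s t hj hst y hy
      refine RegMax_f_le N hN _ _ (fun i => ?_)
      rcases hst i with h | ⟨h, _⟩
      · have := RegMax_le N hN (t - y) i
        simp only [Pi.sub_apply] at this ⊢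
        rw [h]; exact this
      · have h1 := RegMax_le N hN (t - y) j
        have h2 := (abs_le.1 (hwy y hy i)).1
        have h3 := (abs_le.1 (hwy y hy j)).2
        simp only [Pi.sub_apply] at h1 ⊢
        linarith
    refine integral_congr_ae (Eventually.of_forall (fun y => ?_))
    by_cases hy : w y = 0
    · simp only [hy, zero_mul]
    · have h1 := key s t hj hst y hy
      have h2 := key t s hj.symm (fun i => (hst i).imp Eq.symm (fun h => ⟨h.2, h.1⟩)) y hy
      show w y * RegMax_f N hN (s - y) = w y * RegMax_f N hN (t - y)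
      rw [le_antisymm h1 h2]

end HMA
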