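import Pool.Agent.H85.KW.AStep
import Pool.Agent.H85.KW.IterN

/-! # Module StabC: conclusion of the iteration -/

open MeasureTheory Metric Set Filter
open scoped ENNReal Topology ContDiff ComplexOrder

namespace HMA

variable {n : ℕ} {X : Type} [TopologicalSpace X] (K : KM n X)

variable [MeasurableSpace X] [BorelSpace X] [T2Space X] [CompactSpace X]

omit [T2Space X] in
theorem StabC_int {μ : Measure X} [IsProbabilityMeasure μ] {Φ g : X → ℝ} (hΦ : PB K Φ)
    (hg : WK K g) (s : ℝ) : Integrable (fun x => max (g x - s - Φ x) 0) μ := by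
  obtain ⟨B, hB⟩ := hΦ.bdd
  have hgc : Continuous g := C11X.continuous K hg.c11
  obtain ⟨B', hB'⟩ := isCompact_univ.exists_bound_of_continuousOn hgc.continuousOn
  have hm : AEStronglyMeasurable (fun x => max (g x - s - Φ x) 0) μ := by
    refine (Measurable.aestronglyMeasurable ?_)
    exact ((hgc.measurable.sub_const s).sub hΦ.usc.measurable).max measurable_const
  refine Integrable.of_bound hm (B' + |s| + B) (Filter.Eventually.of_forall fun x => ?_)
  have h1 := hB' x (mem_univ x)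
  have h2 := hB x
  rw [Real.norm_eq_abs] at h1 ⊢
  have h3 : 0 ≤ B' + |s| + B := by
    have := abs_nonneg (g x)
    have := abs_nonneg (Φ x)
    have := abs_nonneg s
    linarith
  rw [abs_of_nonneg (le_max_right _ _)]
  refine max_le ?_ h3
  have h4 := le_abs_self (g x)
  have h5 := neg_abs_le (Φ x)
  have h6 := neg_abs_le s
  linarith

theorem KM.stab_core [ConnectedSpace X] (hn : 1 ≤ n) {μ : Measure X} [IsProbabilityMeasure μ]
    (hμ : KModerate K μ) {A ε B : ℝ} (hA : 0 < A) (hε : 0 < ε) (hB : 0 ≤ B) :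
    ∃ c₀ C : ℝ, 0 < c₀ ∧ 0 < C ∧ ∀ (δ : ℝ) (Φ : X → ℝ), 0 ≤ δ → PB K Φ →
      (∀ t : ℝ, 0 ≤ t → μ.real {x | Φ x < -t} ≤ A * Real.exp (-ε * t)) → KIneq K μ δ Φ →
      ∀ g : X → ℝ, WK K g → (∀ x, 0 ≤ g x ∧ g x ≤ B) → ∀ s₀ : ℝ, 0 ≤ s₀ →
        max (K.aI μ g Φ s₀) δ ≤ c₀ →
        K.aI μ g Φ (s₀ + C * (max (K.aI μ g Φ s₀) δ) ^ (1 / (3 * (n + 1)) : ℝ)) ≤ δ := by
  obtain ⟨C, hC, hstep⟩ := K.a_step hn hμ hA hε hB
  obtain ⟨c₀, C', hc₀, hC', hit⟩ := iter_num n (K := B + 2) hC (by linarith)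
  refine ⟨c₀, C', hc₀, hC', fun δ Φ hδ hΦ hdec hKI g hg hgB s₀ hs₀ hmax => ?_⟩
  refine hit (fun s => K.aI μ g Φ s) ?_ ?_ δ hδ ?_ s₀ hs₀ hmax
  · intro s t _ hst
    refine mul_le_mul_of_nonneg_left ?_ measureReal_nonneg
    refine integral_mono (StabC_int K hΦ hg t) (StabC_int K hΦ hg s) fun x => ?_
    exact max_le_max (by linarith) le_rfl
  · intro s
    exact mul_nonneg measureReal_nonneg (integral_nonneg fun x => le_max_right _ _)
  · intro s τ hs hτ hτ1
    exact hstep δ Φ hδ hΦ hdec hKI g hg hgB s τ hs hτ hτ1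

end HMA
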