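import Pool.Agent.H85.KW.MollC
import Pool.Agent.H85.KM.SubComp

/-! # Module SubCC: continuous plurisubharmonic functions and holomorphic maps -/

open MeasureTheory Metric Set Filter
open scoped ENNReal Topology ContDiff ComplexOrder

namespace HMA

theorem sub_comp_cont {n : ℕ} {Ω Ω' : Set (Cn n)} (hΩ : IsOpen Ω) (hΩ' : IsOpen Ω')
    {u : Cn n → ℝ} (hc : ContinuousOn u Ω) (hs : SubOn Ω u) {F : Cn n → Cn n}
    (hF : DifferentiableOn ℂ F Ω') (hm : MapsTo F Ω' Ω) : SubOn Ω' (fun z => u (F z)) := by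
  intro a b hab
  have hFc : ContinuousOn F Ω' := hF.continuousOn
  -- the closed disc
  set d : Set (Cn n) := (fun ζ : ℂ => a + ζ • b) '' closedBall 0 1 with hd
  have hdc : IsCompact d := (isCompact_closedBall (0 : ℂ) 1).image (by fun_prop)
  have hdΩ : d ⊆ Ω' := by
    rintro _ ⟨ζ, hζ, rfl⟩
    exact hab ζ (by rwa [mem_closedBall_zero_iff] at hζ)
  have hL : IsCompact (F '' d) := hdc.image_of_continuousOn (hFc.mono hdΩ)
  have hLΩ : F '' d ⊆ Ω := by
    rintro _ ⟨z, hz, rfl⟩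
    exact hm (hdΩ hz)
  have had : a ∈ d := ⟨0, by simp, by simp⟩
  have hcd : ∀ θ : ℝ, a + Complex.exp (θ * Complex.I) • b ∈ d := fun θ =>
    ⟨_, by rw [mem_closedBall_zero_iff, Complex.norm_exp_ofReal_mul_I], rfl⟩
  have hcurve : Continuous (fun θ : ℝ => a + Complex.exp (θ * Complex.I) • b) := by fun_prop
  have hint : IntervalIntegrable (fun θ : ℝ => u (F (a + Complex.exp (θ * Complex.I) • b)))
      volume 0 (2 * Real.pi) := by
    refine Continuous.intervalIntegrable ?_ _ _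
    exact (hc.comp hFc hm).comp_continuous hcurve fun θ => hdΩ (hcd θ)
  refine le_of_forall_pos_le_add fun ε hε => ?_
  obtain ⟨W, U, hW, hLW, hWΩ, hU1, hU2, hU3⟩ := moll_cont hΩ hc hs hL hLΩ
    (ε := ε / 2) (by positivity)
  have hO : IsOpen (Ω' ∩ F ⁻¹' W) := hFc.isOpen_inter_preimage hΩ' hW
  have h2inf : (2 : WithTop ℕ∞) ≤ ((⊤ : ℕ∞) : WithTop ℕ∞) :=
    WithTop.coe_le_coe.2 (le_top : (2 : ℕ∞) ≤ ⊤)
  have hU11 : C11 W U := c11_of_contDiffOn hW (hU1.contDiffOn.of_le h2inf)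
  have h1 : SubOn (Ω' ∩ F ⁻¹' W) (fun z => U (F z)) :=
    sub_comp hW hO hU11 hU2 (hF.mono inter_subset_left) fun z hz => hz.2
  have h2 := h1 a b fun ζ hζ => by
    have h3 : a + ζ • b ∈ d := ⟨ζ, by rwa [mem_closedBall_zero_iff], rfl⟩
    exact ⟨hdΩ h3, hLW ⟨_, h3, rfl⟩⟩
  have h3 : ∀ z ∈ d, |U (F z) - u (F z)| ≤ ε / 2 := fun z hz => hU3 _ (hLW ⟨z, hz, rfl⟩)
  have hpi : 0 < 2 * Real.pi := by positivity
  have hintU : IntervalIntegrable (fun θ : ℝ => U (F (a + Complex.exp (θ * Complex.I) • b)))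
      volume 0 (2 * Real.pi) := by
    refine Continuous.intervalIntegrable ?_ _ _
    have h4 : ContinuousOn (fun z => U (F z)) Ω' := hU1.continuous.comp_continuousOn hFc
    exact h4.comp_continuous hcurve fun θ => hdΩ (hcd θ)
  have h4 : ∫ θ in (0 : ℝ)..(2 * Real.pi), U (F (a + Complex.exp (θ * Complex.I) • b)) ≤
      ∫ θ in (0 : ℝ)..(2 * Real.pi), (u (F (a + Complex.exp (θ * Complex.I) • b)) + ε / 2) := by
    refine intervalIntegral.integral_mono_on hpi.le hintU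
      (hint.add intervalIntegrable_const) fun θ _ => ?_
    have := h3 _ (hcd θ)
    rw [abs_le] at this
    linarith [this.2]
  rw [intervalIntegral.integral_add hint intervalIntegrable_const,
    intervalIntegral.integral_const, smul_eq_mul, sub_zero] at h4
  have h5 := h3 a had
  rw [abs_le] at h5
  have h6 : (2 * Real.pi)⁻¹ *
      ∫ θ in (0 : ℝ)..(2 * Real.pi), U (F (a + Complex.exp (θ * Complex.I) • b)) ≤
      (2 * Real.pi)⁻¹ *
        ((∫ θ in (0 : ℝ)..(2 * Real.pi), u (F (a + Complex.exp (θ * Complex.I) • b))) +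
          2 * Real.pi * (ε / 2)) :=
    mul_le_mul_of_nonneg_left h4 (by positivity)
  have h7 : (2 * Real.pi)⁻¹ *
        ((∫ θ in (0 : ℝ)..(2 * Real.pi), u (F (a + Complex.exp (θ * Complex.I) • b))) +
          2 * Real.pi * (ε / 2)) = (2 * Real.pi)⁻¹ *
        (∫ θ in (0 : ℝ)..(2 * Real.pi), u (F (a + Complex.exp (θ * Complex.I) • b))) + ε / 2 := by
    rw [mul_add, ← mul_assoc (2 * Real.pi)⁻¹ (2 * Real.pi), inv_mul_cancel₀ hpi.ne', one_mul]
  linarith [h5.1, h5.2]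

end HMA
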