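import Pool.Agent.H85.KW.CapB
import Pool.Agent.H85.KW.PartO
import Pool.Agent.H85.KM.XMass

/-! # Module WellO: deep wells on compact subsets of open sets of small capacity -/

open MeasureTheory Metric Set Filter
open scoped ENNReal Topology ContDiff ComplexOrder

namespace HMA

variable {n : ℕ} {X : Type} [TopologicalSpace X] (K : KM n X)

theorem wellO_ext_nonneg (i : Fin K.N) {w : Cn n → ℝ} (hw : ∀ z, 0 ≤ w z) (x : X) :
    0 ≤ K.ext i w x := by
  by_cases h : x ∈ K.κ i '' ball 0 3
  · obtain ⟨z, hz, rfl⟩ := h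
    rw [K.ext_κ i w hz]
    exact hw z
  · rw [K.ext_off i w h]

theorem wellO_c11X [T2Space X] (i : Fin K.N) {w : Cn n → ℝ} (hw : ContDiff ℝ ∞ w)
    (hs : tsupport w ⊆ ball 0 2) : C11X K (K.ext i w) := by
  have hc : IsCompact (tsupport w) :=
    (isCompact_closedBall (0 : Cn n) 2).of_isClosed_subset (isClosed_tsupport w)
      (hs.trans ball_subset_closedBall)
  refine c11X_ext K i (c11_of_contDiffOn isOpen_ball ?_) hc
    (hs.trans (ball_subset_ball (by norm_num))) (fun z hz => image_eq_zero_of_notMem_tsupport hz)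
  exact (hw.of_le (by norm_cast)).contDiffOn

variable [MeasurableSpace X] [BorelSpace X] [T2Space X] [CompactSpace X]

theorem KM.well_open [Nonempty X] {Q U : Set X} (hQ : IsCompact Q) (hU : IsOpen U)
    (hQU : Q ⊆ U) {M : ℝ} (hM : 0 ≤ M) (h : (M + 2) ^ n * K.cap U < K.vol.real univ) :
    ∃ ψ : X → ℝ, WK K ψ ∧ (∀ x ∈ Q, ψ x ≤ 0) ∧ ∃ x, M < ψ x := by
  by_contra hcon
  push Not at hcon
  have hfin := K.vol_finite
  obtain ⟨b, c, hb, hc, hsum⟩ := K.partition_open hQ hU hQU
  have hM2 : 0 < M + 2 := by linarith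
  have key : ∀ η : ℝ, 0 < η → K.vol.real univ ≤ (K.N : ℝ) * η + (M + 2) ^ n * K.cap U := by
    intro η hη
    obtain ⟨ψ, hψ, -, hψb, hψη⟩ := K.almost_extremal Q hM hcon b (fun i => (hb i).1)
      (fun i => (hb i).2.1) (fun i => (hb i).2.2.1) (fun i => (hb i).2.2.2) hη
    have hRM := K.RM_nonneg hψ
    have hbi : ∀ i, Integrable (fun x => K.ext i (b i) x * K.RM ψ x) K.vol := fun i =>
      XEn_mul_int K hψ.c11 (wellO_c11X K i (hb i).1 (hb i).2.2.1)
    have hci : ∀ i, Integrable (fun x => K.ext i (c i) x * K.RM ψ x) K.vol := fun i =>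
      XEn_mul_int K hψ.c11 (wellO_c11X K i (hc i).1 (hc i).2.2.1)
    have hI := XEn_RM_int K hψ.c11
    -- decomposition of the mass
    have e1 : ∀ x, K.RM ψ x = (∑ i, K.ext i (b i) x * K.RM ψ x) +
        ∑ i, K.ext i (c i) x * K.RM ψ x := by
      intro x
      rw [← Finset.sum_mul, ← Finset.sum_mul, ← add_mul, ← Finset.sum_add_distrib, hsum x,
        one_mul]
    have e2 : K.vol.real univ = (∑ i, ∫ x, K.ext i (b i) x * K.RM ψ x ∂K.vol) +
        ∫ x, ∑ i, K.ext i (c i) x * K.RM ψ x ∂K.vol := by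
      rw [← K.mass hψ.c11, ← integral_finsetSum _ (fun i _ => hbi i), ← integral_add
        (integrable_finsetSum _ fun i _ => hbi i) (integrable_finsetSum _ fun i _ => hci i)]
      exact integral_congr_ae (Filter.Eventually.of_forall e1)
    have e3 : ∑ i, ∫ x, K.ext i (b i) x * K.RM ψ x ∂K.vol ≤ (K.N : ℝ) * η := by
      calc ∑ i, ∫ x, K.ext i (b i) x * K.RM ψ x ∂K.vol ≤ ∑ _i : Fin K.N, η :=
            Finset.sum_le_sum fun i _ => hψη i
        _ = (K.N : ℝ) * η := by
            rw [Finset.sum_const, Finset.card_univ, Fintype.card_fin, nsmul_eq_mul]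
    have e4 : ∫ x, ∑ i, K.ext i (c i) x * K.RM ψ x ∂K.vol ≤ ∫ x in U, K.RM ψ x ∂K.vol := by
      rw [← integral_indicator hU.measurableSet]
      refine integral_mono_ae (integrable_finsetSum _ fun i _ => hci i)
        (hI.indicator hU.measurableSet) ?_
      filter_upwards [hRM] with x hx
      by_cases hxU : x ∈ U
      · rw [indicator_of_mem hxU, ← Finset.sum_mul]
        have h1 : ∑ i, K.ext i (c i) x ≤ 1 := by
          have h2 := hsum x
          rw [Finset.sum_add_distrib] at h2
          have h3 : 0 ≤ ∑ i, K.ext i (b i) x :=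
            Finset.sum_nonneg fun i _ => wellO_ext_nonneg K i (hb i).2.1 x
          linarith
        calc (∑ i, K.ext i (c i) x) * K.RM ψ x ≤ 1 * K.RM ψ x :=
              mul_le_mul_of_nonneg_right h1 hx
          _ = K.RM ψ x := one_mul _
      · rw [indicator_of_notMem hxU]
        refine le_of_eq (Finset.sum_eq_zero fun i _ => ?_)
        have h1 : K.ext i (c i) x = 0 := by
          by_cases hx3 : x ∈ K.κ i '' ball 0 3
          · obtain ⟨z, hz, rfl⟩ := hx3
            rw [K.ext_κ i _ hz]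
            exact (hc i).2.2.2 z hz hxU
          · exact K.ext_off i _ hx3
        rw [h1, zero_mul]
    -- the competitor
    set s : ℝ := 1 / (M + 2) with hs
    have hs0 : 0 < s := by positivity
    have hs1 : s ≤ 1 := by
      rw [hs, div_le_one hM2]
      linarith
    have hsM : s * (M + 2) = 1 := by rw [hs]; field_simp
    have hw : WK K (fun x => (1 - s) * (0 : ℝ) + s * ψ x) := WK.convex K (wk_const K 0) hψ hs0.le hs1
    have hv : WK K (fun x => (1 - s) * (0 : ℝ) + s * ψ x - s * M) := xmass_sub_const K hw (s * M)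
    have hv01 : ∀ x, -1 ≤ (1 - s) * (0 : ℝ) + s * ψ x - s * M ∧
        (1 - s) * (0 : ℝ) + s * ψ x - s * M ≤ 0 := by
      intro x
      obtain ⟨h1, h2⟩ := hψb x
      have h3 := mul_le_mul_of_nonneg_left h1 hs0.le
      have h4 := mul_le_mul_of_nonneg_left h2 hs0.le
      constructor <;> nlinarith
    have e5 : s ^ n * ∫ x in U, K.RM ψ x ∂K.vol ≤ K.cap U := by
      refine le_trans ?_ (K.le_cap hv hv01)
      rw [← integral_const_mul]
      refine integral_mono_ae (hI.integrableOn.const_mul _) (XEn_RM_int K hv.c11).integrableOn ?_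
      have h1 := K.RM_convex (wk_const K 0) hψ hs0.le hs1
      have h2 := K.RM_add_const hw.c11 (-(s * M))
      refine ae_restrict_of_ae ?_
      filter_upwards [h1, h2] with x hx1 hx2
      have e6 : (fun y => (1 - s) * (0 : ℝ) + s * ψ y + -(s * M)) =
          fun y => (1 - s) * (0 : ℝ) + s * ψ y - s * M := by
        funext y; ring
      rw [e6] at hx2
      rw [hx2]
      exact hx1
    have e7 : ∫ x in U, K.RM ψ x ∂K.vol ≤ (M + 2) ^ n * K.cap U := by
      have h1 := mul_le_mul_of_nonneg_left e5 (show (0 : ℝ) ≤ (M + 2) ^ n by positivity)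
      rw [← mul_assoc, ← mul_pow, mul_comm (M + 2) s, hsM, one_pow, one_mul] at h1
      exact h1
    rw [e2]
    linarith
  have hlim : K.vol.real univ ≤ (M + 2) ^ n * K.cap U := by
    refine le_of_forall_pos_le_add fun ε hε => ?_
    have h1 := key (ε / ((K.N : ℝ) + 1)) (by positivity)
    have h2 : (K.N : ℝ) * (ε / ((K.N : ℝ) + 1)) ≤ ε := by
      rw [mul_div_assoc', div_le_iff₀ (by positivity)]
      nlinarith
    linarith
  linarith

end HMA
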